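import Mathlib

/-!
# Tails on finite product spaces
-/

set_option autoImplicit false

namespace Pool.Agent.PK

open Finset

variable {V α : Type} [Fintype V] [DecidableEq V] [Fintype α] [DecidableEq α] [Nonempty α]

/-- Chernoff's bound -/
theorem chernoff (I : Finset V) (f : V → α → ℝ) (M : V → ℝ) (s : ℝ)
    (h : ∀ w ∈ I, ∑ y, Real.exp (s * f w y) ≤ Real.exp (M w) * Fintype.card α) (t : ℝ)
    (hs : 0 ≤ s) :
    (((Finset.univ : Finset (V → α)).filter fun x => t ≤ ∑ w ∈ I, f w (x w)).card : ℝ) ≤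
      Real.exp (∑ w ∈ I, M w - s * t) * Fintype.card (V → α) := by
  -- the exponential moment
  have hmom : ∑ x : V → α, Real.exp (s * ∑ w ∈ I, f w (x w)) ≤
      Real.exp (∑ w ∈ I, M w) * Fintype.card (V → α) := by
    have e1 : ∀ x : V → α, Real.exp (s * ∑ w ∈ I, f w (x w)) =
        ∏ w, (if w ∈ I then Real.exp (s * f w (x w)) else 1) := by
      intro x
      rw [Finset.prod_ite, Finset.prod_const_one, mul_one, Finset.mul_sum, Real.exp_sum]
      apply Finset.prod_congr _ fun _ _ => rfl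
      ext w
      simp
    have e2 : ∑ x : V → α, ∏ w, (if w ∈ I then Real.exp (s * f w (x w)) else 1) =
        ∏ w, ∑ y : α, (if w ∈ I then Real.exp (s * f w y) else 1) := by
      rw [Finset.prod_univ_sum (fun _ => (univ : Finset α))
        (fun w y => if w ∈ I then Real.exp (s * f w y) else 1), Fintype.piFinset_univ]
    have e3 : ∏ w, ∑ y : α, (if w ∈ I then Real.exp (s * f w y) else 1) ≤
        ∏ w : V, ((if w ∈ I then Real.exp (M w) else 1) * (Fintype.card α : ℝ)) := by
      apply Finset.prod_le_prod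
      · intro w _
        exact Finset.sum_nonneg fun a _ => by split_ifs <;> positivity
      · intro w _
        by_cases hw : w ∈ I
        · simp only [hw, if_true]
          exact h w hw
        · simp [hw]
    have e4 : ∏ w : V, ((if w ∈ I then Real.exp (M w) else 1) * (Fintype.card α : ℝ)) =
        Real.exp (∑ w ∈ I, M w) * Fintype.card (V → α) := by
      rw [Finset.prod_mul_distrib, Finset.prod_const, Finset.card_univ, Fintype.card_fun,
        Finset.prod_ite, Finset.prod_const_one, mul_one]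
      push_cast
      congr 1
      have h5 : (univ.filter fun w => w ∈ I) = I := by
        ext w
        simp
      rw [h5, ← Real.exp_sum]
    rw [Finset.sum_congr rfl fun x _ => e1 x, e2]
    exact e3.trans e4.le
  -- Markov
  have hmk : ((univ.filter fun x : V → α => t ≤ ∑ w ∈ I, f w (x w)).card : ℝ) *
      Real.exp (s * t) ≤ ∑ x : V → α, Real.exp (s * ∑ w ∈ I, f w (x w)) := by
    rw [← nsmul_eq_mul, ← Finset.sum_const]
    refine (Finset.sum_le_sum fun x hx => ?_).trans
      (Finset.sum_le_sum_of_subset_of_nonneg (Finset.filter_subset _ _) fun x _ _ =>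
        (Real.exp_pos _).le)
    exact Real.exp_le_exp.2 (mul_le_mul_of_nonneg_left (Finset.mem_filter.1 hx).2 hs)
  have h6 := hmk.trans hmom
  rw [← le_div_iff₀ (Real.exp_pos _)] at h6
  refine h6.trans_eq ?_
  rw [mul_div_right_comm, ← Real.exp_sub]

omit [DecidableEq α] in
/-- Hoeffding's lemma for the uniform distribution on a finite set -/
private theorem ch_lem {b : ℝ} (g : α → ℝ) (h0 : ∀ y, 0 ≤ g y ∧ g y ≤ b) (s : ℝ) :
    ∑ y, Real.exp (s * g y) ≤
      Real.exp (s * ((∑ y, g y) / Fintype.card α) + b ^ 2 * s ^ 2 / 8) * Fintype.card α := by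
  let _ : MeasurableSpace α := ⊤
  have hmsc : MeasurableSingletonClass α := ⟨fun _ => trivial⟩
  have hα : (0 : ℝ) < Fintype.card α := by exact_mod_cast Fintype.card_pos
  set ν : MeasureTheory.Measure α := (Fintype.card α : ENNReal)⁻¹ • MeasureTheory.Measure.count
    with hν
  have hprob : MeasureTheory.IsProbabilityMeasure ν := by
    refine ⟨?_⟩
    rw [hν, MeasureTheory.Measure.smul_apply, MeasureTheory.Measure.count_univ, smul_eq_mul,
      ENat.card_eq_coe_fintype_card]
    refine ENNReal.inv_mul_cancel ?_ ?_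
    · simp
    · simp
  have hint : ∀ F : α → ℝ, ∫ y, F y ∂ν = (Fintype.card α : ℝ)⁻¹ * ∑ y, F y := by
    intro F
    rw [hν, MeasureTheory.integral_smul_measure, MeasureTheory.integral_count, smul_eq_mul]
    simp
  have h1 := (ProbabilityTheory.hasSubgaussianMGF_of_mem_Icc (μ := ν) (X := g) (a := 0) (b := b)
    (measurable_of_finite g).aemeasurable
    (Filter.Eventually.of_forall fun y => ⟨(h0 y).1, (h0 y).2⟩)).mgf_le s
  rw [ProbabilityTheory.mgf, hint, hint] at h1
  have h2 : ∀ y, Real.exp (s * (g y - (Fintype.card α : ℝ)⁻¹ * ∑ y, g y)) =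
      Real.exp (s * g y) * Real.exp (-(s * ((∑ y, g y) / Fintype.card α))) := by
    intro y
    rw [← Real.exp_add]
    congr 1
    ring
  simp only [h2] at h1
  rw [← Finset.sum_mul, inv_mul_le_iff₀ hα, Real.exp_neg, ← div_eq_mul_inv,
    div_le_iff₀ (Real.exp_pos _)] at h1
  refine h1.trans_eq ?_
  rw [mul_assoc, ← Real.exp_add, mul_comm]
  congr 2
  rw [sub_zero]
  push_cast
  rw [Real.norm_eq_abs, div_pow, sq_abs]
  ring

/-- Hoeffding's bound, upper tail -/
theorem hoeff (I : Finset V) (f : V → α → ℝ) (μ : V → ℝ) {b : ℝ} (hb : 0 < b)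
    (h0 : ∀ w ∈ I, ∀ y, 0 ≤ f w y ∧ f w y ≤ b)
    (hμ : ∀ w ∈ I, ∑ y, f w y ≤ μ w * Fintype.card α) {t N : ℝ} (ht : 0 ≤ t) (hN : 0 < N)
    (hI : (I.card : ℝ) ≤ N) :
    (((Finset.univ : Finset (V → α)).filter fun x =>
      ∑ w ∈ I, μ w + t ≤ ∑ w ∈ I, f w (x w)).card : ℝ) ≤
      Real.exp (-(2 * t ^ 2 / (N * b ^ 2))) * Fintype.card (V → α) := by
  have hα : (0 : ℝ) < Fintype.card α := by exact_mod_cast Fintype.card_pos
  set s : ℝ := 4 * t / (N * b ^ 2) with hs
  have hs0 : 0 ≤ s := by positivity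
  refine (chernoff I f (fun w => s * μ w + b ^ 2 * s ^ 2 / 8) s ?_ _ hs0).trans ?_
  · intro w hw
    refine (ch_lem (f w) (h0 w hw) s).trans ?_
    refine mul_le_mul_of_nonneg_right (Real.exp_le_exp.2 ?_) hα.le
    have h1 : (∑ y, f w y) / Fintype.card α ≤ μ w := (div_le_iff₀ hα).2 (hμ w hw)
    have h2 := mul_le_mul_of_nonneg_left h1 hs0
    linarith
  · refine mul_le_mul_of_nonneg_right (Real.exp_le_exp.2 ?_) (by positivity)
    rw [Finset.sum_add_distrib, ← Finset.mul_sum, Finset.sum_const, nsmul_eq_mul]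
    have h3 : (I.card : ℝ) * (b ^ 2 * s ^ 2 / 8) ≤ N * (b ^ 2 * s ^ 2 / 8) :=
      mul_le_mul_of_nonneg_right hI (by positivity)
    have h4 : N * (b ^ 2 * s ^ 2 / 8) - s * t = -(2 * t ^ 2 / (N * b ^ 2)) := by
      rw [hs]
      field_simp
      ring
    linarith

/-- Hoeffding's bound, lower tail -/
theorem hoeff_low (I : Finset V) (f : V → α → ℝ) (μ : V → ℝ) {b : ℝ} (hb : 0 < b)
    (h0 : ∀ w ∈ I, ∀ y, 0 ≤ f w y ∧ f w y ≤ b)
    (hμ : ∀ w ∈ I, μ w * Fintype.card α ≤ ∑ y, f w y) {t N : ℝ} (ht : 0 ≤ t) (hN : 0 < N)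
    (hI : (I.card : ℝ) ≤ N) :
    (((Finset.univ : Finset (V → α)).filter fun x =>
      ∑ w ∈ I, f w (x w) ≤ ∑ w ∈ I, μ w - t).card : ℝ) ≤
      Real.exp (-(2 * t ^ 2 / (N * b ^ 2))) * Fintype.card (V → α) := by
  refine le_trans (le_of_eq ?_) (hoeff I (fun w y => b - f w y) (fun w => b - μ w) hb ?_ ?_ ht hN
    hI)
  · congr 2
    refine Finset.filter_congr fun x _ => ?_
    rw [Finset.sum_sub_distrib, Finset.sum_sub_distrib]
    constructor
    · intro h1
      linarith
    · intro h1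
      linarith
  · intro w hw y
    have := h0 w hw y
    constructor <;> linarith
  · intro w hw
    rw [Finset.sum_sub_distrib, Finset.sum_const, Finset.card_univ, nsmul_eq_mul, sub_mul]
    have := hμ w hw
    linarith

end Pool.Agent.PK
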