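import Mathlib

/-!
# The cost function of a pair
-/

set_option autoImplicit false

namespace Pool.Agent.PK

/-- the cost function of a pair: `z` for `z ≤ 1` and `2 - 1 / z` for `z ≥ 1` -/
noncomputable def hh (z : ℝ) : ℝ := min z 1 + 1 - 1 / max z 1

theorem hh_le_one {z : ℝ} (h : z ≤ 1) : hh z = z := by
  unfold hh
  rw [min_eq_left h, max_eq_right h]
  ring

theorem hh_one_le {z : ℝ} (h : 1 ≤ z) : hh z = 2 - 1 / z := by
  unfold hh
  rw [min_eq_right h, max_eq_left h]
  ring

end Pool.Agent.PK
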