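import Pool.Agent.H24.LP.Nib.Key
import Pool.Agent.PK.HH

/-!
# Definitions for the asymptotic packing theorem (correspondence packing, `b(k) ~ k`)
-/

set_option autoImplicit false

namespace Pool.Agent.PK

open Finset
open Pool.Agent.H24.LP Pool.Agent.H24.LP.Nib

/-- the mass of a set of cells -/
noncomputable def mass {K : ℕ} (q : Fin K → Fin K → ℝ) (A : Finset (Fin K × Fin K)) : ℝ :=
  ∑ x ∈ A, q x.1 x.2

/-- clean hits: entries of the permutation in `A` in rows outside `bd` -/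
def ch {K : ℕ} (π : Equiv.Perm (Fin K)) (bd : Finset (Fin K)) (A : Finset (Fin K × Fin K)) : ℕ :=
  (Finset.univ.filter fun i => i ∉ bd ∧ (i, π i) ∈ A).card

/-- The witness state of a set `B` of allowed cells: `B ≥ a - R` on all rectangles and on all
lines, up to `ν`, where `R ≥ 0` has all line sums at most `(a - p) / 2 * K`; the potential
is `p`. -/
structure State {K : ℕ} (B : Finset (Fin K × Fin K)) (a p ν c : ℝ) (R : Fin K → Fin K → ℝ) :
    Prop where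
  pa : p ≤ a
  a1 : a ≤ 1
  R0 : ∀ i j, 0 ≤ R i j
  Rc : ∀ i j, R i j ≤ c + (if (i, j) ∈ B then 0 else 1)
  row : ∀ i, ∑ j, R i j ≤ (a - p) / 2 * K
  col : ∀ j, ∑ i, R i j ≤ (a - p) / 2 * K
  rct : ∀ S T : Finset (Fin K),
    a * (S.card * T.card) - ∑ i ∈ S, ∑ j ∈ T, R i j - ν * K ^ 2 ≤ (rect B S T).card
  rowB : ∀ i, a * K - ∑ j, R i j - ν * K ≤ (Finset.univ.filter fun j => (i, j) ∈ B).card
  colB : ∀ j, a * K - ∑ i, R i j - ν * K ≤ (Finset.univ.filter fun i => (i, j) ∈ B).card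

/-- The law used for a vertex with the state `(a, p)`: a doubly stochastic matrix `q1 + q2`. -/
structure Law {K : ℕ} (B : Finset (Fin K × Fin K)) (a p κ : ℝ) (q1 q2 : Fin K → Fin K → ℝ) :
    Prop where
  n1 : ∀ i j, 0 ≤ q1 i j
  n2 : ∀ i j, 0 ≤ q2 i j
  row : ∀ i, ∑ j, (q1 i j + q2 i j) = 1
  col : ∀ j, ∑ i, (q1 i j + q2 i j) = 1
  supp : ∀ i j, (i, j) ∉ B → q1 i j = 0 ∧ q2 i j = 0
  cap1 : ∀ i j, q1 i j ≤ (1 + κ) / (a * K)
  cap : ∀ i j, q1 i j + q2 i j ≤ (1 + κ) / (p * K)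
  row2 : ∀ i, ∑ j, q2 i j ≤ (1 - p / a) / 2 + κ
  col2 : ∀ j, ∑ i, q2 i j ≤ (1 - p / a) / 2 + κ
  flat : ∀ S T : Finset (Fin K),
    ∑ i ∈ S, ∑ j ∈ T, q1 i j ≤ (1 + κ) * (S.card * T.card) / K + κ * K

/-- A random permutation (uniform `ω : Fin n`) with a set `bd` of dirty rows that follows the
doubly stochastic matrix `q` supported in `B`. -/
structure Samp {K n : ℕ} (B : Finset (Fin K × Fin K)) (q : Fin K → Fin K → ℝ) (κ : ℝ)
    (F : Fin n → Equiv.Perm (Fin K)) (bd : Fin n → Finset (Fin K)) : Prop where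
  mem : ∀ ω i, i ∉ bd ω → (i, F ω i) ∈ B
  small : ∀ ω, ((bd ω).card : ℝ) ≤ κ * K
  rows : ∀ i, ((Finset.univ.filter fun ω => i ∈ bd ω).card : ℝ) ≤ κ * n
  cols : ∀ j, ((Finset.univ.filter fun ω => (F ω).symm j ∈ bd ω).card : ℝ) ≤ κ * n
  cell : ∀ i j, ((Finset.univ.filter fun ω => i ∉ bd ω ∧ F ω i = j).card : ℝ) ≤
    (q i j + 1 / K ^ 3) * n
  mom : ∀ (A : Finset (Fin K × Fin K)) (s : ℝ), 0 ≤ s → s ≤ Real.log K ^ 2 / K →
    ∑ ω, Real.exp (s * ch (F ω) (bd ω) A) ≤ n * Real.exp (s * ((1 + κ) * (mass q A + 1)))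

/-- All data of one slot: `Q` is the set of processed vertices, `W` the set of the vertices that
are processed in this slot, `U` the set of the awake vertices that are processed later. -/
structure Slot (V : Type) [Fintype V] [DecidableEq V] (K n : ℕ) (ε δ D κ ν C : ℝ) where
  G : SimpleGraph V
  σ : V → V → Equiv.Perm (Fin K)
  hσ : ∀ u v, G.Adj u v → σ v u = (σ u v)⁻¹
  Q : Finset V
  π : V → Equiv.Perm (Fin K)
  W : Finset V
  U : Finset V
  idx : V → ℕ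
  hidx : Function.Injective idx
  hQW : Disjoint Q W
  hQU : Disjoint Q U
  hWU : Disjoint W U
  hval : ValidK G σ Q π
  a : V → ℝ
  p : V → ℝ
  c : V → ℝ
  R : V → Fin K → Fin K → ℝ
  hst : ∀ v ∈ W ∪ U, State (Al G σ Q π v) (a v) (p v) ν (c v) (R v)
  hp : ∀ v ∈ W ∪ U, ε ≤ p v
  hc : ∀ v ∈ W ∪ U, c v ≤ C
  hdeg : ∀ v ∈ W ∪ U, ((nb G W v).card : ℝ) ≤ δ * K
  hD : ∀ v ∈ W, ((nb G (W ∪ U) v).card : ℝ) ≤ D * K
  q1 : V → Fin K → Fin K → ℝ
  q2 : V → Fin K → Fin K → ℝ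
  hlaw : ∀ w ∈ W, Law (Al G σ Q π w) (a w) (p w) κ (q1 w) (q2 w)
  F : V → Fin n → Equiv.Perm (Fin K)
  bd : V → Fin n → Finset (Fin K)
  hsamp : ∀ w ∈ W, Samp (Al G σ Q π w) (fun i j => q1 w i j + q2 w i j) κ (F w) (bd w)

end Pool.Agent.PK
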