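import Pool.Agent.PK.SchedDefs
import Pool.Agent.H59.SP.Brou2

/-! Project PK (MP_6af60b), row PK-H5: Brouwer for a box -/

set_option autoImplicit false

open Finset

namespace Pool.Agent.PK

theorem brw {V : Type} [Fintype V] (F : (V → ℝ) → V → ℝ)
    (hF : ∀ v, Continuous fun l => F l v) (L : ℝ) (hL : 0 ≤ L) : ∃ l : V → ℝ,
    (∀ v, 0 ≤ l v ∧ l v ≤ L) ∧ (∀ v, l v < L → F l v ≤ 0) ∧ ∀ v, 0 < l v → 0 ≤ F l v := by
  classical
  let e : V ≃ Fin (Fintype.card V) := Fintype.equivFin V
  let E := EuclideanSpace.equiv (Fin (Fintype.card V)) ℝ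
  let D : Set (EuclideanSpace ℝ (Fin (Fintype.card V))) := E ⁻¹' Set.Icc 0 (fun _ => L)
  have hDmem : ∀ x, x ∈ D ↔ ∀ i, 0 ≤ x i ∧ x i ≤ L := by
    intro x
    constructor
    · rintro ⟨h1, h2⟩ i
      exact ⟨h1 i, h2 i⟩
    · intro h
      exact ⟨fun i => (h i).1, fun i => (h i).2⟩
  have hcpt : IsCompact D := E.toHomeomorph.isCompact_preimage.2 isCompact_Icc
  have hconv : Convex ℝ D := (convex_Icc (0 : Fin (Fintype.card V) → ℝ) (fun _ => L)).linear_preimage
    E.toLinearEquiv.toLinearMap
  have hne : D.Nonempty := ⟨0, (hDmem 0).2 fun i => ⟨le_refl _, hL⟩⟩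
  let f : EuclideanSpace ℝ (Fin (Fintype.card V)) → EuclideanSpace ℝ (Fin (Fintype.card V)) :=
    fun x => E.symm fun i => max 0 (min L (x i + F (fun v => x (e v)) (e.symm i)))
  have hfi : ∀ x i, f x i = max 0 (min L (x i + F (fun v => x (e v)) (e.symm i))) :=
    fun x i => rfl
  have hcoord : ∀ i, Continuous fun x : EuclideanSpace ℝ (Fin (Fintype.card V)) => x i := by
    intro i
    exact (continuous_apply i).comp E.continuous
  have hf : Continuous f := by
    apply E.symm.continuous.comp
    apply continuous_pi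
    intro i
    apply continuous_const.max
    apply continuous_const.min
    apply (hcoord i).add
    exact (hF (e.symm i)).comp (continuous_pi fun v => hcoord (e v))
  have hmaps : Set.MapsTo f D D := by
    intro x _
    rw [hDmem]
    intro i
    rw [hfi]
    exact ⟨le_max_left _ _, max_le hL (min_le_left _ _)⟩
  obtain ⟨x, hxD, hx⟩ := SP.brouwer hcpt hconv hne hf.continuousOn hmaps
  have hx' : ∀ v, x (e v) = max 0 (min L (x (e v) + F (fun v => x (e v)) v)) := by
    intro v
    have h1 := hfi x (e v)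
    rw [hx, Equiv.symm_apply_apply] at h1
    exact h1
  refine ⟨fun v => x (e v), fun v => (hDmem x).1 hxD (e v), fun v hv => ?_, fun v hv => ?_⟩
  · by_contra hcon
    push Not at hcon
    have h0 := ((hDmem x).1 hxD (e v)).1
    have h1 := hx' v
    have h2 : x (e v) < min L (x (e v) + F (fun v => x (e v)) v) :=
      lt_min hv (by linarith)
    have h3 := le_max_right 0 (min L (x (e v) + F (fun v => x (e v)) v))
    linarith
  · by_contra hcon
    push Not at hcon
    have h1 := hx' v
    have h2 : min L (x (e v) + F (fun v => x (e v)) v) < x (e v) :=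
      lt_of_le_of_lt (min_le_right _ _) (by linarith)
    have h3 : max 0 (min L (x (e v) + F (fun v => x (e v)) v)) < x (e v) := max_lt hv h2
    linarith

end Pool.Agent.PK
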