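import Pool.Agent.PK.SchedDefs

/-!
# Packing (PK): elementary facts about the windows and the cost function
-/

set_option autoImplicit false

open Finset

namespace Pool.Agent.PK

theorem cl_nonneg (t : ℝ) : 0 ≤ cl t := le_max_left _ _

theorem cl_le_one (t : ℝ) : cl t ≤ 1 := max_le zero_le_one (min_le_right _ _)

theorem cl_mono {a b : ℝ} (h : a ≤ b) : cl a ≤ cl b :=
  max_le_max le_rfl (min_le_min h le_rfl)

theorem cl_zero {t : ℝ} (h : t ≤ 0) : cl t = 0 := by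
  unfold cl
  rw [min_eq_left (h.trans zero_le_one), max_eq_left h]

theorem cl_one {t : ℝ} (h : 1 ≤ t) : cl t = 1 := by
  unfold cl
  rw [min_eq_right h, max_eq_right zero_le_one]

theorem cl_cont : Continuous cl := by
  unfold cl
  fun_prop

theorem bo_nonneg (l : ℝ) (s : ℕ) : 0 ≤ bo l s := cl_nonneg _

theorem bo_le_one (l : ℝ) (s : ℕ) : bo l s ≤ 1 := cl_le_one _

theorem en_nonneg (J : ℕ) (l : ℝ) (s : ℕ) : 0 ≤ en J l s := sub_nonneg.2 (cl_le_one _)

theorem en_le_one (J : ℕ) (l : ℝ) (s : ℕ) : en J l s ≤ 1 := sub_le_self _ (cl_nonneg _)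

theorem fr_nonneg (J : ℕ) (l : ℝ) (s : ℕ) : 0 ≤ fr J l s :=
  div_nonneg (mul_nonneg (bo_nonneg _ _) (en_nonneg _ _ _)) (Nat.cast_nonneg _)

theorem boen {J : ℕ} (hJ : 1 ≤ J) (l : ℝ) (s : ℕ) :
    bo l s * en J l s = bo l s - cl ((s : ℝ) + 1 - l - J) := by
  have hJ' : (1 : ℝ) ≤ J := by exact_mod_cast hJ
  unfold en
  rcases le_or_gt ((s : ℝ) + 1 - l - J) 0 with h | h
  · rw [cl_zero h]
    ring
  · have h1 : bo l s = 1 := cl_one (by linarith)
    rw [h1]
    ring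

theorem tel (g : ℕ → ℝ) (m T : ℕ) : ∑ s ∈ range T, (g (s + m) - g s) =
    ∑ s ∈ range m, g (T + s) - ∑ s ∈ range m, g s := by
  have h1 : ∑ s ∈ range (T + m), g s = ∑ s ∈ range T, g s + ∑ s ∈ range m, g (T + s) :=
    Finset.sum_range_add g T m
  have h2 : ∑ s ∈ range (m + T), g s = ∑ s ∈ range m, g s + ∑ s ∈ range T, g (m + s) :=
    Finset.sum_range_add g m T
  rw [add_comm m T, h1] at h2
  have h3 : ∑ s ∈ range T, g (m + s) = ∑ s ∈ range T, g (s + m) :=
    Finset.sum_congr rfl fun s _ => by rw [add_comm]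
  rw [h3] at h2
  rw [Finset.sum_sub_distrib]
  linarith

theorem fr_sum_le {J : ℕ} (hJ : 1 ≤ J) (l : ℝ) (T : ℕ) : ∑ s ∈ range T, fr J l s ≤ 1 := by
  have hJ' : (0 : ℝ) < J := by exact_mod_cast hJ
  have h1 : ∀ s ∈ range T, fr J l s = (cl (((s + J : ℕ) : ℝ) + 1 - l - J) -
      cl ((s : ℝ) + 1 - l - J)) / J := by
    intro s _
    unfold fr
    rw [boen hJ]
    unfold bo
    congr 3
    push_cast
    ring
  rw [Finset.sum_congr rfl h1, ← Finset.sum_div,
    tel (fun s => cl ((s : ℝ) + 1 - l - J)) J T, div_le_one hJ']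
  have h2 : ∑ s ∈ range J, cl (((T + s : ℕ) : ℝ) + 1 - l - J) ≤ ∑ _s ∈ range J, (1 : ℝ) :=
    Finset.sum_le_sum fun s _ => cl_le_one _
  rw [Finset.sum_const, Finset.card_range, nsmul_eq_mul, mul_one] at h2
  have h3 : 0 ≤ ∑ s ∈ range J, cl ((s : ℝ) + 1 - l - J) := Finset.sum_nonneg fun s _ => cl_nonneg _
  linarith

theorem ex_nonneg (J : ℕ) (l : ℝ) (s : ℕ) : 0 ≤ ex J l s := by
  unfold ex bo
  refine sub_nonneg.2 (cl_mono ?_)
  push_cast
  have : (0 : ℝ) ≤ J := Nat.cast_nonneg _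
  linarith

theorem ex_sum_le (J : ℕ) (l : ℝ) (T : ℕ) : ∑ s ∈ range T, ex J l s ≤ J + 2 := by
  have h1 : ∀ s ∈ range T, ex J l s = cl (((s + (J + 2) : ℕ) : ℝ) - l - J) -
      cl ((s : ℝ) - l - J) := by
    intro s _
    unfold ex bo
    congr 2
    push_cast
    ring
  rw [Finset.sum_congr rfl h1, tel (fun s => cl ((s : ℝ) - l - J)) (J + 2) T]
  have h2 : ∑ s ∈ range (J + 2), cl (((T + s : ℕ) : ℝ) - l - J) ≤ ∑ _s ∈ range (J + 2), (1 : ℝ) :=
    Finset.sum_le_sum fun s _ => cl_le_one _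
  rw [Finset.sum_const, Finset.card_range, nsmul_eq_mul, mul_one] at h2
  have h3 : 0 ≤ ∑ s ∈ range (J + 2), cl ((s : ℝ) - l - J) :=
    Finset.sum_nonneg fun s _ => cl_nonneg _
  have h4 : ((J + 2 : ℕ) : ℝ) = J + 2 := by push_cast; ring
  rw [h4] at h2
  linarith

theorem hh_cont : Continuous hh := by
  unfold hh
  refine Continuous.sub (by fun_prop) (Continuous.div (by fun_prop) (by fun_prop) fun z => ?_)
  exact (lt_of_lt_of_le one_pos (le_max_right z 1)).ne'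

theorem hh_nonneg {z : ℝ} (hz : 0 ≤ z) : 0 ≤ hh z := by
  rcases le_total z 1 with h | h
  · rw [hh_le_one h]
    exact hz
  · rw [hh_one_le h]
    have : 1 / z ≤ 1 := by
      rw [div_le_one (by linarith)]
      exact h
    linarith

theorem hh_div {a b : ℝ} (ha : 0 < a) (hb : 0 < b) : hh (a / b) + hh (b / a) = 2 := by
  rcases le_total a b with h | h
  · rw [hh_le_one ((div_le_one hb).2 h), hh_one_le ((one_le_div ha).2 h), one_div_div]
    ring
  · rw [hh_one_le ((one_le_div hb).2 h), hh_le_one ((div_le_one ha).2 h), one_div_div]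
    ring

theorem hh_le {z e : ℝ} (he : 0 < e) (he1 : e ≤ 1) (hz : z ≤ 1 / e) : hh z ≤ 2 - e := by
  rcases le_total z 1 with h | h
  · rw [hh_le_one h]
    linarith
  · rw [hh_one_le h]
    have h1 : e ≤ 1 / z := by
      rw [le_div_iff₀ (by linarith)]
      rw [le_div_iff₀ he] at hz
      linarith
    linarith

end Pool.Agent.PK
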