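import Pool.Agent.PK.Defs
import Pool.Agent.PK.Fr

/-!
# Packing (PK): the second account

`State` is the main account of a vertex: `B ≥ a - R` up to `ν`. `Fine` is the second account:
`B ≥ a - R - X` up to a much smaller `ν`, where all line sums of `X ≥ 0` are at most `D / 2 * K`.
-/

set_option autoImplicit false

namespace Pool.Agent.PK

open Finset
open Pool.Agent.H24.LP Pool.Agent.H24.LP.Nib

/-- The fine account of a vertex. -/
structure Fine {K : ℕ} (B : Finset (Fin K × Fin K)) (a D ν c : ℝ) (R X : Fin K → Fin K → ℝ) :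
    Prop where
  X0 : ∀ i j, 0 ≤ X i j
  Xc : ∀ i j, X i j ≤ c
  row : ∀ i, ∑ j, X i j ≤ D / 2 * K
  col : ∀ j, ∑ i, X i j ≤ D / 2 * K
  rct : ∀ S T : Finset (Fin K),
    a * (S.card * T.card) - ∑ i ∈ S, ∑ j ∈ T, (R i j + X i j) - ν * K ^ 2 ≤ (rect B S T).card
  rowB : ∀ i, a * K - ∑ j, (R i j + X i j) - ν * K ≤ (Finset.univ.filter fun j => (i, j) ∈ B).card
  colB : ∀ j, a * K - ∑ i, (R i j + X i j) - ν * K ≤ (Finset.univ.filter fun i => (i, j) ∈ B).card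

/-- The law of a vertex: a doubly stochastic matrix `q1 + q2`; the error `d` of the flatness of `q1`
is not related to `κ`. -/
structure Law2 {K : ℕ} (B : Finset (Fin K × Fin K)) (a p κ d : ℝ) (q1 q2 : Fin K → Fin K → ℝ) :
    Prop where
  n1 : ∀ i j, 0 ≤ q1 i j
  n2 : ∀ i j, 0 ≤ q2 i j
  row : ∀ i, ∑ j, (q1 i j + q2 i j) = 1
  col : ∀ j, ∑ i, (q1 i j + q2 i j) = 1
  supp : ∀ i j, (i, j) ∉ B → q1 i j = 0 ∧ q2 i j = 0
  cap1 : ∀ i j, q1 i j ≤ (1 + κ) / (a * K)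
  cap : ∀ i j, q1 i j + q2 i j ≤ (1 + κ) / (p * K)
  row2 : ∀ i, ∑ j, q2 i j ≤ (1 - p / a) / 2 + κ
  col2 : ∀ j, ∑ i, q2 i j ≤ (1 - p / a) / 2 + κ
  flat : ∀ S T : Finset (Fin K),
    ∑ i ∈ S, ∑ j ∈ T, q1 i j ≤ (1 + κ) * (S.card * T.card) / K + d * K

/-- The very flat part `g` of `q1`, for the fine account. -/
structure FLaw {K : ℕ} (a D κ d : ℝ) (q1 g : Fin K → Fin K → ℝ) : Prop where
  n : ∀ i j, 0 ≤ g i j
  le : ∀ i j, g i j ≤ q1 i j
  row : ∀ i, ∑ j, (q1 i j - g i j) ≤ D / (2 * a) + κ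
  col : ∀ j, ∑ i, (q1 i j - g i j) ≤ D / (2 * a) + κ
  flat : ∀ S T : Finset (Fin K),
    ∑ i ∈ S, ∑ j ∈ T, g i j ≤ (1 + κ) * (S.card * T.card) / K + d * K

end Pool.Agent.PK
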