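import Mathlib

/-!
# Adapted events on finite product spaces, conditioning on one coordinate
-/

set_option autoImplicit false

namespace Pool.Agent.PK

open Finset

variable {V α : Type} [Fintype V] [DecidableEq V] [Fintype α] [DecidableEq α] [Nonempty α]

omit [DecidableEq α] [Nonempty α] in
/-- resampling one coordinate -/
theorem adapt_sum (w : V) (f : (V → α) → ℝ) :
    ∑ x : V → α, ∑ b : α, f (Function.update x w b) = Fintype.card α * ∑ x : V → α, f x := by
  classical
  have h1 : ∑ x : V → α, ∑ b : α, f (Function.update x w b) =
      ∑ z : (V → α) × α, f (Function.update z.1 w z.2) := by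
    rw [Fintype.sum_prod_type]
  have h2 : ∑ z : (V → α) × α, f (Function.update z.1 w z.2) = ∑ z : (V → α) × α, f z.1 := by
    have hinv : Function.Involutive
        (fun z : (V → α) × α => ((Function.update z.1 w z.2, z.1 w) : (V → α) × α)) := by
      intro z
      simp
    refine Fintype.sum_bijective _ hinv.bijective _ _ ?_
    intro z
    rfl
  rw [h1, h2, Fintype.sum_prod_type]
  simp only [Finset.sum_const, Finset.card_univ, nsmul_eq_mul]
  rw [← Finset.mul_sum]

open Classical in
/-- the exponential moment of the number of adapted events -/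
theorem adapt_mom (idx : V → ℕ) (hidx : Function.Injective idx)
    (Y : V → (V → α) → Prop) {ρ : ℝ} (hρ : 0 ≤ ρ) (n : ℕ) :
    ∀ I : Finset V, I.card = n →
    (∀ w ∈ I, ∀ x y : V → α, (∀ u, idx u ≤ idx w → x u = y u) → Y w x → Y w y) →
    (∀ w ∈ I, ∀ x : V → α,
      ((Finset.univ.filter fun b : α => Y w (Function.update x w b)).card : ℝ) ≤
        ρ * Fintype.card α) →
    ∑ x : V → α, Real.exp ((I.filter fun w => Y w x).card : ℝ) ≤
      (1 + ρ * (Real.exp 1 - 1)) ^ n * Fintype.card (V → α) := by
  induction n with
  | zero =>
    intro I hI _ _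
    rw [Finset.card_eq_zero] at hI
    subst hI
    simp
  | succ n ih =>
    intro I hI hdep hp
    have hne : I.Nonempty := by
      rw [← Finset.card_pos]
      omega
    obtain ⟨w, hwI, hmax⟩ := Finset.exists_max_image I idx hne
    have hcardJ : (I.erase w).card = n := by
      rw [Finset.card_erase_of_mem hwI, hI]
      rfl
    have hind := ih (I.erase w) hcardJ
      (fun u hu => hdep u (Finset.mem_of_mem_erase hu))
      (fun u hu => hp u (Finset.mem_of_mem_erase hu))
    have he : (0 : ℝ) ≤ Real.exp 1 - 1 := by
      have := Real.add_one_le_exp (1 : ℝ)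
      linarith
    -- invariance of the other events
    have hinv : ∀ (x : V → α) (b : α),
        ((I.erase w).filter fun u => Y u (Function.update x w b)) =
          ((I.erase w).filter fun u => Y u x) := by
      intro x b
      apply Finset.filter_congr
      intro u hu
      have huI := Finset.mem_of_mem_erase hu
      have hne' : u ≠ w := Finset.ne_of_mem_erase hu
      have hlt : idx u < idx w :=
        lt_of_le_of_ne (hmax u huI) (fun h => hne' (hidx h))
      have hagree : ∀ v, idx v ≤ idx u → Function.update x w b v = x v := by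
        intro v hv
        have : v ≠ w := by
          intro h
          rw [h] at hv
          omega
        simp [Function.update_of_ne this]
      constructor
      · exact hdep u huI _ _ hagree
      · exact hdep u huI _ _ (fun v hv => (hagree v hv).symm)
    -- splitting off the last event
    have hsplit : ∀ x : V → α, Real.exp ((I.filter fun u => Y u x).card : ℝ) =
        Real.exp (((I.erase w).filter fun u => Y u x).card : ℝ) *
          (1 + (Real.exp 1 - 1) * (if Y w x then 1 else 0)) := by
      intro x
      have hI' : I = insert w (I.erase w) := (Finset.insert_erase hwI).symm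
      have h1 : (I.filter fun u => Y u x) =
          if Y w x then insert w ((I.erase w).filter fun u => Y u x)
            else ((I.erase w).filter fun u => Y u x) := by
        conv_lhs => rw [hI']
        rw [Finset.filter_insert]
      by_cases hY : Y w x
      · rw [h1, if_pos hY, if_pos hY]
        rw [Finset.card_insert_of_notMem (by simp)]
        push_cast
        rw [Real.exp_add]
        ring
      · rw [h1, if_neg hY, if_neg hY]
        ring
    have hpos : (0 : ℝ) < Fintype.card α := by
      exact_mod_cast Fintype.card_pos
    have hkey := adapt_sum w (fun x : V → α => Real.exp ((I.filter fun u => Y u x).card : ℝ))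
    have hle : ∑ x : V → α, ∑ b : α,
        Real.exp ((I.filter fun u => Y u (Function.update x w b)).card : ℝ) ≤
        ∑ x : V → α, Real.exp (((I.erase w).filter fun u => Y u x).card : ℝ) *
          ((1 + ρ * (Real.exp 1 - 1)) * Fintype.card α) := by
      apply Finset.sum_le_sum
      intro x _
      have h1 : ∑ b : α, Real.exp ((I.filter fun u => Y u (Function.update x w b)).card : ℝ) =
          Real.exp (((I.erase w).filter fun u => Y u x).card : ℝ) *
          ∑ b : α, (1 + (Real.exp 1 - 1) * (if Y w (Function.update x w b) then 1 else 0)) := by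
        rw [Finset.mul_sum]
        apply Finset.sum_congr rfl
        intro b _
        rw [hsplit (Function.update x w b), hinv x b]
      rw [h1]
      apply mul_le_mul_of_nonneg_left _ (Real.exp_pos _).le
      rw [Finset.sum_add_distrib, ← Finset.mul_sum, Finset.sum_boole]
      simp only [Finset.sum_const, Finset.card_univ, nsmul_eq_mul, mul_one]
      have h2 := hp w hwI x
      nlinarith [mul_le_mul_of_nonneg_left h2 he]
    have h3 : (Fintype.card α : ℝ) *
        ∑ x : V → α, Real.exp ((I.filter fun u => Y u x).card : ℝ) ≤
        Fintype.card α * ((1 + ρ * (Real.exp 1 - 1)) ^ (n + 1) * Fintype.card (V → α)) := by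
      rw [← hkey]
      refine hle.trans ?_
      rw [← Finset.sum_mul]
      have h4 : (0 : ℝ) ≤ (1 + ρ * (Real.exp 1 - 1)) * Fintype.card α := by
        have := mul_nonneg hρ he
        positivity
      refine (mul_le_mul_of_nonneg_right hind h4).trans (le_of_eq ?_)
      ring
    exact le_of_mul_le_mul_left h3 hpos

open Classical in
/-- the number of adapted events of small conditional probability -/
theorem adapted (idx : V → ℕ) (hidx : Function.Injective idx) (I : Finset V)
    (Y : V → (V → α) → Prop) {ρ : ℝ} (hρ : 0 ≤ ρ)
    (hdep : ∀ w ∈ I, ∀ x y : V → α, (∀ u, idx u ≤ idx w → x u = y u) → Y w x → Y w y)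
    (hp : ∀ w ∈ I, ∀ x : V → α,
      ((Finset.univ.filter fun b : α => Y w (Function.update x w b)).card : ℝ) ≤
        ρ * Fintype.card α) (t : ℝ) :
    (((Finset.univ : Finset (V → α)).filter fun x =>
      t ≤ ((I.filter fun w => Y w x).card : ℝ)).card : ℝ) ≤
      Real.exp (2 * ρ * I.card - t) * Fintype.card (V → α) := by
  have hm := adapt_mom idx hidx Y hρ I.card I rfl hdep hp
  have he : Real.exp 1 - 1 ≤ 2 := by
    have := Real.exp_one_lt_d9
    linarith
  have he0 : (0 : ℝ) ≤ Real.exp 1 - 1 := by
    have := Real.add_one_le_exp (1 : ℝ)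
    linarith
  have h1 : (1 + ρ * (Real.exp 1 - 1)) ^ I.card ≤ Real.exp (2 * ρ * I.card) := by
    have h2 : 1 + ρ * (Real.exp 1 - 1) ≤ Real.exp (2 * ρ) := by
      have h3 := Real.add_one_le_exp (2 * ρ)
      have h4 := mul_le_mul_of_nonneg_left he hρ
      linarith
    have h5 : (0 : ℝ) ≤ 1 + ρ * (Real.exp 1 - 1) := by
      have := mul_nonneg hρ he0
      linarith
    refine (pow_le_pow_left₀ h5 h2 _).trans (le_of_eq ?_)
    rw [← Real.exp_nat_mul]
    congr 1
    ring
  have h6 : (((Finset.univ : Finset (V → α)).filter fun x =>
      t ≤ ((I.filter fun w => Y w x).card : ℝ)).card : ℝ) * Real.exp t ≤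
      ∑ x : V → α, Real.exp ((I.filter fun w => Y w x).card : ℝ) := by
    rw [← nsmul_eq_mul, ← Finset.sum_const]
    refine (Finset.sum_le_sum (f := fun _ => Real.exp t)
      (g := fun x : V → α => Real.exp ((I.filter fun w => Y w x).card : ℝ)) ?_).trans ?_
    · intro x hx
      exact Real.exp_le_exp.mpr (Finset.mem_filter.mp hx).2
    · exact Finset.sum_le_sum_of_subset_of_nonneg (Finset.filter_subset _ _)
        (fun x _ _ => (Real.exp_pos _).le)
  have h7 : (0 : ℝ) ≤ Fintype.card (V → α) := by positivity
  have h8 : (((Finset.univ : Finset (V → α)).filter fun x =>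
      t ≤ ((I.filter fun w => Y w x).card : ℝ)).card : ℝ) * Real.exp t ≤
      Real.exp (2 * ρ * I.card) * Fintype.card (V → α) :=
    h6.trans (hm.trans (mul_le_mul_of_nonneg_right h1 h7))
  rw [Real.exp_sub, div_mul_eq_mul_div, le_div_iff₀ (Real.exp_pos t)]
  exact h8

open Classical in
/-- conditioning on one coordinate -/
theorem cond_one (w : V) (P : (V → α) → Prop) {ρ : ℝ}
    (h : ∀ y : α, (((Finset.univ : Finset (V → α)).filter fun x =>
      P (Function.update x w y)).card : ℝ) ≤ ρ * Fintype.card (V → α)) :
    (((Finset.univ : Finset (V → α)).filter fun x => P x).card : ℝ) ≤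
      ρ * Fintype.card (V → α) := by
  have hpos : (0 : ℝ) < Fintype.card α := by
    exact_mod_cast Fintype.card_pos
  have hkey := adapt_sum w (fun x : V → α => if P x then (1 : ℝ) else 0)
  rw [Finset.sum_comm] at hkey
  simp only [Finset.sum_boole] at hkey
  have h1 : ∑ y : α, ((((Finset.univ : Finset (V → α)).filter fun x =>
      P (Function.update x w y)).card : ℕ) : ℝ) ≤
      ∑ _y : α, ρ * (Fintype.card (V → α) : ℝ) :=
    Finset.sum_le_sum (fun y _ => h y)
  rw [hkey] at h1
  simp only [Finset.sum_const, Finset.card_univ, nsmul_eq_mul] at h1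
  exact le_of_mul_le_mul_left h1 hpos

open Classical in
/-- an event of one coordinate -/
theorem coord_one (w : V) (P : α → Prop) {ρ : ℝ}
    (h : ((Finset.univ.filter fun y : α => P y).card : ℝ) ≤ ρ * Fintype.card α) :
    (((Finset.univ : Finset (V → α)).filter fun x => P (x w)).card : ℝ) ≤
      ρ * Fintype.card (V → α) := by
  have hpos : (0 : ℝ) < Fintype.card α := by
    exact_mod_cast Fintype.card_pos
  have hkey := adapt_sum w (fun x : V → α => if P (x w) then (1 : ℝ) else 0)
  simp only [Function.update_self, Finset.sum_boole, Finset.sum_const, Finset.card_univ,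
    nsmul_eq_mul] at hkey
  have h7 : (0 : ℝ) ≤ Fintype.card (V → α) := by positivity
  have h1 := mul_le_mul_of_nonneg_left h h7
  rw [hkey] at h1
  have h2 : (Fintype.card α : ℝ) *
      (((Finset.univ : Finset (V → α)).filter fun x => P (x w)).card : ℝ) ≤
      Fintype.card α * (ρ * Fintype.card (V → α)) := by
    refine h1.trans (le_of_eq ?_)
    ring
  exact le_of_mul_le_mul_left h2 hpos

end Pool.Agent.PK
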