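import Pool.Agent.H24.LP.Upper

/-!
# Packing (PK): asymptotic values of the packing numbers

`FullPack` is the statement that graphs with maximum average degree less than `(1 - ε) K` are
packable for `K` large; everything about the packing numbers is derived from it.
-/

set_option autoImplicit false

namespace Pool.Agent.PK

open Finset Filter Topology
open Pool.Agent.H24.LP

/-- Graphs with maximum average degree less than `(1 - ε) K` are packable for `K` large. -/
def FullPack : Prop := ∀ ε : ℝ, 0 < ε → ∃ K0 : ℕ, ∀ K ≥ K0, ∀ (V : Type) (_ : Finite V)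
  (G : SimpleGraph V), MadLT G ((1 - ε) * K) → PermPackable G K

/-- `a(k)`: the largest `a` such that the list packing numbers of the finite graphs of maximum
average degree less than `a` are at most `k`. -/
noncomputable def aList (k : ℕ) : ℝ := sSup {a : ℝ | ∀ m ∈ valuesL a, m ≤ k}

/-- `b(k)`: the largest `b` such that the correspondence packing numbers of the finite graphs of
maximum average degree less than `b` are at most `k`. -/
noncomputable def bCorr (k : ℕ) : ℝ := sSup {a : ℝ | ∀ m ∈ valuesC a, m ≤ k}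

/-- The maximum of the list packing numbers of the finite graphs of maximum average degree less
than `a`. -/
noncomputable def maxL (a : ℝ) : ℕ := sSup (valuesL a)

/-- The maximum of the correspondence packing numbers of the finite graphs of maximum average
degree less than `a`. -/
noncomputable def maxC (a : ℝ) : ℕ := sSup (valuesC a)

section

variable {V : Type} {G : SimpleGraph V}

theorem madLT_mono {a b : ℝ} (h : MadLT G a) (hab : a ≤ b) : MadLT G b := fun H hH =>
  (h H hH).trans_le (mul_le_mul_of_nonneg_right hab (Nat.cast_nonneg _))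

theorem madLT_of_deg [Finite V] {d a : ℝ} (h : ∀ v, ((G.neighborSet v).ncard : ℝ) ≤ d)
    (hda : d < a) : MadLT G a := by
  classical
  cases nonempty_fintype V
  intro H hH
  let A : Finset V := Finset.univ.filter fun v => v ∈ H.verts
  have hA : H.verts.ncard = A.card := by
    rw [← Set.ncard_coe_finset]
    congr 1
    ext v
    simp [A]
  have hAne : A.Nonempty := by
    obtain ⟨v, hv⟩ := hH
    exact ⟨v, by simp [A, hv]⟩
  have h1 := two_mul_edges H
  have h2 : ∑ v : V, (Finset.univ.filter fun u => H.Adj v u).card =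
      ∑ v ∈ A, (Finset.univ.filter fun u => H.Adj v u).card := by
    rw [← Finset.sum_subset (Finset.subset_univ A)]
    intro v _ hv
    rw [Finset.card_eq_zero, Finset.filter_eq_empty_iff]
    intro u _ hadj
    apply hv
    simp only [A, Finset.mem_filter, Finset.mem_univ, true_and]
    exact H.edge_vert hadj
  have h3 : ∀ v ∈ A, ((Finset.univ.filter fun u => H.Adj v u).card : ℝ) ≤ d := by
    intro v _
    refine le_trans ?_ (h v)
    have h4 : (Finset.univ.filter fun u => H.Adj v u).card ≤ (G.neighborSet v).ncard := by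
      rw [← Set.ncard_coe_finset]
      apply Set.ncard_le_ncard _ (Set.toFinite _)
      intro u hu
      rw [Finset.mem_coe, Finset.mem_filter] at hu
      exact H.adj_sub hu.2
    exact_mod_cast h4
  have h5 : (2 * (H.edgeSet.ncard : ℝ)) = ∑ v ∈ A,
      ((Finset.univ.filter fun u => H.Adj v u).card : ℝ) := by
    have h6 : (2 * H.edgeSet.ncard : ℕ) =
      ∑ v ∈ A, (Finset.univ.filter fun u => H.Adj v u).card := by rw [h1, h2]
    exact_mod_cast h6
  rw [h5, hA]
  have h6 := Finset.sum_le_sum h3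
  rw [Finset.sum_const, nsmul_eq_mul] at h6
  have h7 : (0 : ℝ) < A.card := by exact_mod_cast hAne.card_pos
  nlinarith

/-- Every finite graph is packable for some number of colours. -/
theorem exists_packable (hF : FullPack) (V : Type) [Finite V] (G : SimpleGraph V) :
    ∃ m : ℕ, 1 ≤ m ∧ CorrPackable G m := by
  obtain ⟨K0, hK0⟩ := hF (1 / 2) (by norm_num)
  refine ⟨max (max 1 K0) (2 * Nat.card V + 2),
    (le_max_left _ _).trans (le_max_left _ _), ?_⟩
  apply corrPackable_of_perm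
  refine hK0 _ ((le_max_right _ _).trans (le_max_left _ _)) V inferInstance G ?_
  apply madLT_of_deg (d := Nat.card V)
  · intro v
    have : (G.neighborSet v).ncard ≤ Nat.card V := by
      rw [← Set.ncard_univ]
      exact Set.ncard_le_ncard (Set.subset_univ _) (Set.toFinite _)
    exact_mod_cast this
  · have h1 : 2 * Nat.card V + 2 ≤ max (max 1 K0) (2 * Nat.card V + 2) := le_max_right _ _
    have h2 : (2 * (Nat.card V : ℝ) + 2) ≤ ((max (max 1 K0) (2 * Nat.card V + 2) : ℕ) : ℝ) := by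
      exact_mod_cast h1
    linarith

theorem chiL_le_chiC (hF : FullPack) (V : Type) [Finite V] (G : SimpleGraph V) :
    chiL G ≤ chiC G := by
  obtain ⟨m, hm1, hm⟩ := exists_packable hF V G
  have h := Nat.sInf_mem (⟨m, hm1, hm⟩ : {k : ℕ | 1 ≤ k ∧ CorrPackable G k}.Nonempty)
  exact Nat.sInf_le ⟨h.1, listPackable_of_corr h.2⟩

end

/-- The complete graph on `k + 1` vertices has no packing for the `k`-list-assignment with all
lists equal. -/
theorem not_listPackable_complete {k : ℕ} (hk : 1 ≤ k) :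
    ¬ ListPackable (⊤ : SimpleGraph (Fin (k + 1))) k := by
  classical
  intro h
  obtain ⟨c, hc, -⟩ := h (fun _ => Finset.range k) (fun _ => Finset.card_range k)
  have h1 := hc ⟨0, hk⟩
  have h2 : (Finset.univ : Finset (Fin (k + 1))).card ≤ (Finset.range k).card :=
    Finset.card_le_card_of_injOn (c ⟨0, hk⟩) (fun v _ => h1.1 v) (by
      intro u _ v _ huv
      by_contra hne
      exact h1.2 u v ((SimpleGraph.top_adj u v).2 hne) huv)
  rw [Finset.card_univ, Fintype.card_fin, Finset.card_range] at h2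
  omega

theorem madLT_complete {k : ℕ} {a : ℝ} (h : (k : ℝ) < a) :
    MadLT (⊤ : SimpleGraph (Fin (k + 1))) a := by
  classical
  refine madLT_of_deg (d := k) ?_ h
  intro v
  have h1 : ((⊤ : SimpleGraph (Fin (k + 1))).neighborSet v).ncard ≤ k := by
    have h2 : ((⊤ : SimpleGraph (Fin (k + 1))).neighborSet v) ⊆
        ((Finset.univ.erase v : Finset (Fin (k + 1))) : Set (Fin (k + 1))) := by
      intro u hu
      rw [SimpleGraph.mem_neighborSet, SimpleGraph.top_adj] at hu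
      rw [Finset.mem_coe, Finset.mem_erase]
      exact ⟨hu.symm, Finset.mem_univ _⟩
    refine (Set.ncard_le_ncard h2 (Finset.finite_toSet _)).trans ?_
    rw [Set.ncard_coe_finset, Finset.card_erase_of_mem (Finset.mem_univ _), Finset.card_univ,
      Fintype.card_fin]
    omega
  exact_mod_cast h1

/-- The condition `MadLT G a` is open in `a`. -/
theorem exists_lt_madLT {V : Type} [Finite V] {G : SimpleGraph V} {a : ℝ} (h : MadLT G a) :
    ∃ b < a, MadLT G b := by
  classical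
  have hfin : (Set.range fun H : {H : G.Subgraph // H.verts.Nonempty} =>
      2 * ((H.1.edgeSet.ncard : ℕ) : ℝ) / (H.1.verts.ncard : ℝ)).Finite := Set.finite_range _
  have hpos : ∀ H : G.Subgraph, H.verts.Nonempty → (0 : ℝ) < (H.verts.ncard : ℝ) := by
    intro H hH
    exact_mod_cast (Set.ncard_pos (Set.toFinite _)).2 hH
  have key : ∃ b < a, ∀ x ∈ (Set.range fun H : {H : G.Subgraph // H.verts.Nonempty} =>
      2 * ((H.1.edgeSet.ncard : ℕ) : ℝ) / (H.1.verts.ncard : ℝ)), x < b := by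
    rcases (Set.range fun H : {H : G.Subgraph // H.verts.Nonempty} =>
      2 * ((H.1.edgeSet.ncard : ℕ) : ℝ) / (H.1.verts.ncard : ℝ)).eq_empty_or_nonempty with
      he | hne
    · exact ⟨a - 1, by linarith, fun x hx => by rw [he] at hx; exact absurd hx (by simp)⟩
    · obtain ⟨M, ⟨H, hH⟩, hmax⟩ := Set.exists_max_image _ (fun x : ℝ => x) hfin hne
      have h1 : M < a := by
        rw [← hH]
        show 2 * ((H.1.edgeSet.ncard : ℕ) : ℝ) / (H.1.verts.ncard : ℝ) < a
        rw [div_lt_iff₀ (hpos H.1 H.2)]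
        exact h H.1 H.2
      exact ⟨(M + a) / 2, by linarith, fun x hx => by
        have : x ≤ M := hmax x hx
        linarith⟩
  obtain ⟨b, hb, hall⟩ := key
  refine ⟨b, hb, fun H hH => ?_⟩
  have h2 := hall _ ⟨⟨H, hH⟩, rfl⟩
  simp only at h2
  rwa [div_lt_iff₀ (hpos H hH)] at h2

section

variable (hF : FullPack)

include hF

theorem lt_chiL_complete {k : ℕ} (hk : 1 ≤ k) :
    k < chiL (⊤ : SimpleGraph (Fin (k + 1))) := by
  obtain ⟨m, hm1, hm⟩ := exists_packable hF (Fin (k + 1)) (⊤ : SimpleGraph (Fin (k + 1)))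
  exact lt_chiL hm1 (listPackable_of_corr hm) (not_listPackable_complete hk)

theorem le_of_memL {k : ℕ} (hk : 1 ≤ k) {a : ℝ} (h : ∀ m ∈ valuesL a, m ≤ k) : a ≤ k := by
  by_contra hlt
  push Not at hlt
  have h1 := h _ ⟨Fin (k + 1), inferInstance, ⊤, madLT_complete hlt, rfl⟩
  have h2 := lt_chiL_complete hF hk
  omega

theorem memL_of_memC {k : ℕ} {a : ℝ} (h : ∀ m ∈ valuesC a, m ≤ k) :
    ∀ m ∈ valuesL a, m ≤ k := by
  rintro m ⟨V, hV, G, hG, rfl⟩
  exact (chiL_le_chiC hF V G).trans (h _ ⟨V, hV, G, hG, rfl⟩)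

theorem bddAboveL {k : ℕ} (hk : 1 ≤ k) : BddAbove {a : ℝ | ∀ m ∈ valuesL a, m ≤ k} :=
  ⟨k, fun _ ha => le_of_memL hF hk ha⟩

theorem bddAboveC {k : ℕ} (hk : 1 ≤ k) : BddAbove {a : ℝ | ∀ m ∈ valuesC a, m ≤ k} :=
  ⟨k, fun _ ha => le_of_memL hF hk (memL_of_memC hF ha)⟩

omit hF in
theorem one_memL {k : ℕ} (hk : 1 ≤ k) : ∀ m ∈ valuesL 1, m ≤ k := by
  rintro m ⟨V, hV, G, hG, rfl⟩
  exact (chiL_le le_rfl (corrPackable_of_perm (permPackable_one le_rfl hG))).trans hk

omit hF in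
theorem one_memC {k : ℕ} (hk : 1 ≤ k) : ∀ m ∈ valuesC 1, m ≤ k := by
  rintro m ⟨V, hV, G, hG, rfl⟩
  exact (chiC_le le_rfl (corrPackable_of_perm (permPackable_one le_rfl hG))).trans hk

/-- `a(k)` is attained. -/
theorem isGreatest_aList {k : ℕ} (hk : 1 ≤ k) :
    IsGreatest {a : ℝ | ∀ m ∈ valuesL a, m ≤ k} (aList k) := by
  refine ⟨?_, fun a ha => le_csSup (bddAboveL hF hk) ha⟩
  rintro m ⟨V, hV, G, hG, rfl⟩
  obtain ⟨b, hb, hGb⟩ := exists_lt_madLT hG
  have hne : {a : ℝ | ∀ m ∈ valuesL a, m ≤ k}.Nonempty := ⟨1, one_memL hk⟩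
  obtain ⟨c, hc, hbc⟩ := exists_lt_of_lt_csSup hne hb
  exact hc _ ⟨V, hV, G, madLT_mono hGb hbc.le, rfl⟩

/-- `b(k)` is attained. -/
theorem isGreatest_bCorr {k : ℕ} (hk : 1 ≤ k) :
    IsGreatest {a : ℝ | ∀ m ∈ valuesC a, m ≤ k} (bCorr k) := by
  refine ⟨?_, fun a ha => le_csSup (bddAboveC hF hk) ha⟩
  rintro m ⟨V, hV, G, hG, rfl⟩
  obtain ⟨b, hb, hGb⟩ := exists_lt_madLT hG
  have hne : {a : ℝ | ∀ m ∈ valuesC a, m ≤ k}.Nonempty := ⟨1, one_memC hk⟩
  obtain ⟨c, hc, hbc⟩ := exists_lt_of_lt_csSup hne hb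
  exact hc _ ⟨V, hV, G, madLT_mono hGb hbc.le, rfl⟩

theorem aList_le {k : ℕ} (hk : 1 ≤ k) : aList k ≤ k :=
  le_of_memL hF hk (isGreatest_aList hF hk).1

theorem bCorr_le_aList {k : ℕ} (hk : 1 ≤ k) : bCorr k ≤ aList k :=
  (isGreatest_aList hF hk).2 (memL_of_memC hF (isGreatest_bCorr hF hk).1)

theorem le_bCorr {ε : ℝ} (hε : 0 < ε) :
    ∃ k0 : ℕ, ∀ k ≥ k0, (1 - ε) * k ≤ bCorr k := by
  obtain ⟨K0, hK0⟩ := hF ε hε
  refine ⟨max 1 K0, fun k hk => ?_⟩
  have hk1 : 1 ≤ k := (le_max_left _ _).trans hk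
  refine (isGreatest_bCorr hF hk1).2 ?_
  rintro m ⟨V, hV, G, hG, rfl⟩
  exact chiC_le hk1 (corrPackable_of_perm (hK0 k ((le_max_right _ _).trans hk) V hV G hG))

theorem tendsto_bCorr : Tendsto (fun k : ℕ => bCorr k / k) atTop (𝓝 1) := by
  rw [Metric.tendsto_atTop]
  intro ε hε
  obtain ⟨k0, hk0⟩ := le_bCorr hF (half_pos hε)
  refine ⟨max 1 k0, fun k hk => ?_⟩
  have hk1 : 1 ≤ k := (le_max_left _ _).trans hk
  have hkpos : (0 : ℝ) < k := by exact_mod_cast hk1
  have h1 := hk0 k ((le_max_right _ _).trans hk)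
  have h2 := (bCorr_le_aList hF hk1).trans (aList_le hF hk1)
  rw [Real.dist_eq, abs_lt]
  have h3 : 1 - ε / 2 ≤ bCorr k / k := by
    rw [le_div_iff₀ hkpos]
    exact h1
  have h4 : bCorr k / k ≤ 1 := by
    rw [div_le_iff₀ hkpos, one_mul]
    exact h2
  constructor <;> linarith

theorem tendsto_aList : Tendsto (fun k : ℕ => aList k / k) atTop (𝓝 1) := by
  rw [Metric.tendsto_atTop]
  intro ε hε
  obtain ⟨k0, hk0⟩ := le_bCorr hF (half_pos hε)
  refine ⟨max 1 k0, fun k hk => ?_⟩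
  have hk1 : 1 ≤ k := (le_max_left _ _).trans hk
  have hkpos : (0 : ℝ) < k := by exact_mod_cast hk1
  have h1 := (hk0 k ((le_max_right _ _).trans hk)).trans (bCorr_le_aList hF hk1)
  have h2 := aList_le hF hk1
  rw [Real.dist_eq, abs_lt]
  have h3 : 1 - ε / 2 ≤ aList k / k := by
    rw [le_div_iff₀ hkpos]
    exact h1
  have h4 : aList k / k ≤ 1 := by
    rw [div_le_iff₀ hkpos, one_mul]
    exact h2
  constructor <;> linarith

end

section

variable (hF : FullPack)

theorem nonemptyL (a : ℝ) : (valuesL a).Nonempty := by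
  refine ⟨_, Fin 0, inferInstance, ⊤, fun H hH => ?_, rfl⟩
  obtain ⟨v, -⟩ := hH
  exact v.elim0

theorem nonemptyC (a : ℝ) : (valuesC a).Nonempty := by
  refine ⟨_, Fin 0, inferInstance, ⊤, fun H hH => ?_, rfl⟩
  obtain ⟨v, -⟩ := hH
  exact v.elim0

include hF

theorem bddC (a : ℝ) : BddAbove (valuesC a) := by
  obtain ⟨K0, hK0⟩ := hF (1 / 2) (by norm_num)
  obtain ⟨N, hN⟩ := exists_nat_ge (2 * a)
  refine ⟨max (max 1 K0) N, ?_⟩
  rintro m ⟨V, hV, G, hG, rfl⟩
  refine chiC_le ((le_max_left _ _).trans (le_max_left _ _)) (corrPackable_of_perm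
    (hK0 _ ((le_max_right _ _).trans (le_max_left _ _)) V hV G (madLT_mono hG ?_)))
  have h1 : (N : ℝ) ≤ ((max (max 1 K0) N : ℕ) : ℝ) := by
    exact_mod_cast le_max_right (max 1 K0) N
  linarith

theorem bddL (a : ℝ) : BddAbove (valuesL a) := by
  obtain ⟨K, hK⟩ := bddC hF a
  refine ⟨K, ?_⟩
  rintro m ⟨V, hV, G, hG, rfl⟩
  exact (chiL_le_chiC hF V G).trans (hK ⟨V, hV, G, hG, rfl⟩)

/-- The maximum of the list packing numbers exists. -/
theorem isGreatest_maxL (a : ℝ) : IsGreatest (valuesL a) (maxL a) :=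
  ⟨Nat.sSup_mem (nonemptyL a) (bddL hF a), fun _ hm => le_csSup (bddL hF a) hm⟩

/-- The maximum of the correspondence packing numbers exists. -/
theorem isGreatest_maxC (a : ℝ) : IsGreatest (valuesC a) (maxC a) :=
  ⟨Nat.sSup_mem (nonemptyC a) (bddC hF a), fun _ hm => le_csSup (bddC hF a) hm⟩

theorem maxL_le_maxC (a : ℝ) : maxL a ≤ maxC a := by
  obtain ⟨V, hV, G, hG, h⟩ := (isGreatest_maxL hF a).1
  rw [← h]
  exact (chiL_le_chiC hF V G).trans ((isGreatest_maxC hF a).2 ⟨V, hV, G, hG, rfl⟩)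

theorem le_maxL {a : ℝ} (ha : 1 < a) : a ≤ maxL a := by
  obtain ⟨n, hn1, hn2⟩ : ∃ n : ℕ, (n : ℝ) < a ∧ a ≤ n + 1 := by
    have h0 : 0 < ⌈a⌉₊ := Nat.ceil_pos.2 (by linarith)
    refine ⟨⌈a⌉₊ - 1, ?_, ?_⟩
    · have h1 : ⌈a⌉₊ - 1 < ⌈a⌉₊ := by omega
      exact Nat.lt_ceil.1 h1
    · have h1 := Nat.le_ceil a
      have h2 : ((⌈a⌉₊ - 1 : ℕ) : ℝ) + 1 = ⌈a⌉₊ := by
        have : ⌈a⌉₊ - 1 + 1 = ⌈a⌉₊ := by omega
        exact_mod_cast this
      rw [h2]
      exact h1
  have hn : 1 ≤ n := by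
    rcases Nat.eq_zero_or_pos n with h | h
    · subst h
      norm_num at hn2
      linarith
    · exact h
  have h1 := lt_chiL_complete hF hn
  have h2 := (isGreatest_maxL hF a).2 ⟨Fin (n + 1), inferInstance, ⊤, madLT_complete hn1, rfl⟩
  have h3 : n + 1 ≤ maxL a := le_trans h1 h2
  have h4 : ((n : ℝ) + 1) ≤ maxL a := by exact_mod_cast h3
  linarith

theorem maxC_le {ε : ℝ} (hε : 0 < ε) : ∃ a0 : ℝ, ∀ a ≥ a0, (maxC a : ℝ) ≤ (1 + ε) * a := by
  obtain ⟨K0, hK0⟩ := hF (ε / (2 * (1 + ε))) (by positivity)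
  refine ⟨max (2 / ε) (K0 + 1), fun a ha => ?_⟩
  have ha1 : 2 / ε ≤ a := (le_max_left _ _).trans ha
  have ha2 : (K0 : ℝ) + 1 ≤ a := (le_max_right _ _).trans ha
  have hK0' : (0 : ℝ) ≤ K0 := Nat.cast_nonneg _
  have ha0 : 0 < a := by linarith
  have h1 : (⌊(1 + ε) * a⌋₊ : ℝ) ≤ (1 + ε) * a := Nat.floor_le (by positivity)
  have h2 : (1 + ε) * a < ⌊(1 + ε) * a⌋₊ + 1 := Nat.lt_floor_add_one _
  have h3 : K0 + 1 ≤ ⌊(1 + ε) * a⌋₊ := by
    rw [Nat.le_floor_iff (by positivity)]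
    push_cast
    nlinarith
  refine le_trans ?_ h1
  have h4 : maxC a ≤ ⌊(1 + ε) * a⌋₊ := by
    obtain ⟨V, hV, G, hG, h⟩ := (isGreatest_maxC hF a).1
    rw [← h]
    refine chiC_le (by omega) (corrPackable_of_perm (hK0 _ (by omega) V hV G
      (madLT_mono hG ?_)))
    have h5 : 2 ≤ ε * a := by
      rw [div_le_iff₀ hε] at ha1
      linarith
    have h6 : (1 - ε / (2 * (1 + ε))) * ((1 + ε) * a) = a + ε * a / 2 := by
      field_simp
      ring
    have h7 : 0 ≤ 1 - ε / (2 * (1 + ε)) := by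
      rw [sub_nonneg, div_le_one (by positivity)]
      linarith
    have h8 : 1 - ε / (2 * (1 + ε)) ≤ 1 := by
      have : 0 ≤ ε / (2 * (1 + ε)) := by positivity
      linarith
    nlinarith [mul_le_mul_of_nonneg_left h2.le h7]
  exact_mod_cast h4

theorem tendsto_maxL : Tendsto (fun a : ℝ => (maxL a : ℝ) / a) atTop (𝓝 1) := by
  rw [Metric.tendsto_atTop]
  intro ε hε
  obtain ⟨a0, ha0⟩ := maxC_le hF (half_pos hε)
  refine ⟨max 2 a0, fun a ha => ?_⟩
  have ha1 : 2 ≤ a := (le_max_left _ _).trans ha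
  have h1 := ha0 a ((le_max_right _ _).trans ha)
  have h2 : (maxL a : ℝ) ≤ maxC a := by exact_mod_cast maxL_le_maxC hF a
  have h3 := le_maxL hF (show 1 < a by linarith)
  have hpos : 0 < a := by linarith
  rw [Real.dist_eq, abs_lt]
  have h4 : 1 ≤ (maxL a : ℝ) / a := by
    rw [le_div_iff₀ hpos, one_mul]
    exact h3
  have h5 : (maxL a : ℝ) / a ≤ 1 + ε / 2 := by
    rw [div_le_iff₀ hpos]
    linarith
  constructor <;> linarith

theorem tendsto_maxC : Tendsto (fun a : ℝ => (maxC a : ℝ) / a) atTop (𝓝 1) := by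
  rw [Metric.tendsto_atTop]
  intro ε hε
  obtain ⟨a0, ha0⟩ := maxC_le hF (half_pos hε)
  refine ⟨max 2 a0, fun a ha => ?_⟩
  have ha1 : 2 ≤ a := (le_max_left _ _).trans ha
  have h1 := ha0 a ((le_max_right _ _).trans ha)
  have h2 : (maxL a : ℝ) ≤ maxC a := by exact_mod_cast maxL_le_maxC hF a
  have h3 := le_maxL hF (show 1 < a by linarith)
  have hpos : 0 < a := by linarith
  rw [Real.dist_eq, abs_lt]
  have h4 : 1 ≤ (maxC a : ℝ) / a := by
    rw [le_div_iff₀ hpos, one_mul]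
    linarith
  have h5 : (maxC a : ℝ) / a ≤ 1 + ε / 2 := by
    rw [div_le_iff₀ hpos]
    linarith
  constructor <;> linarith

end

end Pool.Agent.PK
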