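import Pool.Agent.PK.Defs

set_option autoImplicit false

namespace Pool.Agent.PK

open Finset
open Pool.Agent.H24.LP Pool.Agent.H24.LP.Nib

/-- a list of length `N` with prescribed multiplicities -/
theorem birk_list {α : Type*} [Fintype α] [DecidableEq α] (N : ℕ) (m : α → ℕ)
    (hm : ∑ a, m a = N) :
    ∃ τ : Fin N → α, ∀ a, (Finset.univ.filter fun j => τ j = a).card = m a := by
  classical
  have hcard : Fintype.card (Fin N) = Fintype.card (Σ a : α, Fin (m a)) := by
    rw [Fintype.card_sigma]
    simp [hm]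
  let e : Fin N ≃ (Σ a : α, Fin (m a)) := Fintype.equivOfCardEq hcard
  refine ⟨fun j => (e j).1, fun a => ?_⟩
  have h1 : (Finset.univ.filter fun j => (e j).1 = a).card
      = (Finset.univ.filter fun s : (Σ a : α, Fin (m a)) => s.1 = a).card := by
    apply Finset.card_bij (fun j _ => e j)
    · intro j hj
      simpa using hj
    · intro j _ j' _ h
      exact e.injective h
    · intro s hs
      refine ⟨e.symm s, ?_, by simp⟩
      simpa using hs
  rw [h1]
  have h2 : (Finset.univ.filter fun s : (Σ a : α, Fin (m a)) => s.1 = a).card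
      = (Finset.univ : Finset (Fin (m a))).card := by
    symm
    apply Finset.card_bij (fun (x : Fin (m a)) _ => (⟨a, x⟩ : Σ a : α, Fin (m a)))
    · intro x _
      simp
    · intro x _ y _ h
      simpa using h
    · rintro ⟨b, x⟩ hs
      have hb : b = a := by simpa using hs
      subst hb
      exact ⟨x, mem_univ _, rfl⟩
  rw [h2]
  simp

/-- Birkhoff's theorem, rounded to a long list of permutations -/
theorem birk {K : ℕ} (hK : 0 < K) (q : Fin K → Fin K → ℝ) (h0 : ∀ i j, 0 ≤ q i j)
    (hrow : ∀ i, ∑ j, q i j = 1) (hcol : ∀ j, ∑ i, q i j = 1) :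
    ∃ τ : Fin (K.factorial * K ^ 5) → Equiv.Perm (Fin K), (∀ j i, 0 < q i (τ j i)) ∧
      ∀ i c, ((Finset.univ.filter fun j => τ j i = c).card : ℝ) ≤
        (q i c + 1 / K ^ 5) * (K.factorial * K ^ 5 : ℕ) := by
  classical
  have hM : (Matrix.of q : Matrix (Fin K) (Fin K) ℝ) ∈ doublyStochastic ℝ (Fin K) := by
    rw [mem_doublyStochastic_iff_sum]
    exact ⟨h0, hrow, hcol⟩
  obtain ⟨w, hw0, hw1, hw2⟩ := exists_eq_sum_perm_of_mem_doublyStochastic hM
  have hq : ∀ i c, q i c = ∑ σ : Equiv.Perm (Fin K), if σ i = c then w σ else 0 := by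
    intro i c
    have h := congrFun (congrFun hw2 i) c
    rw [Matrix.of_apply] at h
    rw [← h, Matrix.sum_apply]
    refine Finset.sum_congr rfl fun σ _ => ?_
    rw [Matrix.smul_apply, Equiv.Perm.permMatrix, PEquiv.toMatrix_apply]
    by_cases hc : σ i = c
    · simp [Equiv.toPEquiv_apply, hc]
    · simp [Equiv.toPEquiv_apply, hc]
  set N : ℕ := K.factorial * K ^ 5 with hN
  have hKr : (0 : ℝ) < (K : ℝ) := by exact_mod_cast hK
  have hNcast : (N : ℝ) = (K.factorial : ℝ) * (K : ℝ) ^ 5 := by
    rw [hN]; push_cast; ring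
  have hNpos : (0 : ℝ) ≤ (N : ℝ) := Nat.cast_nonneg _
  -- floors
  let m : Equiv.Perm (Fin K) → ℕ := fun σ => ⌊w σ * N⌋₊
  have hmle : ∀ σ, (m σ : ℝ) ≤ w σ * N := fun σ =>
    Nat.floor_le (mul_nonneg (hw0 σ) hNpos)
  have hmge : ∀ σ, w σ * N ≤ (m σ : ℝ) + 1 := fun σ => (Nat.lt_floor_add_one _).le
  have hsum1 : (∑ σ, (m σ : ℝ)) ≤ N := by
    calc (∑ σ, (m σ : ℝ)) ≤ ∑ σ, w σ * N := Finset.sum_le_sum fun σ _ => hmle σ
      _ = N := by rw [← Finset.sum_mul, hw1, one_mul]
  have hsum1' : ∑ σ, m σ ≤ N := by exact_mod_cast hsum1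
  have hsum2 : (N : ℝ) ≤ (∑ σ, (m σ : ℝ)) + K.factorial := by
    calc (N : ℝ) = ∑ σ, w σ * N := by rw [← Finset.sum_mul, hw1, one_mul]
      _ ≤ ∑ σ : Equiv.Perm (Fin K), ((m σ : ℝ) + 1) := Finset.sum_le_sum fun σ _ => hmge σ
      _ = (∑ σ, (m σ : ℝ)) + K.factorial := by
        rw [Finset.sum_add_distrib]
        simp [Fintype.card_perm]
  -- a permutation with positive weight
  obtain ⟨σ0, hσ0⟩ : ∃ σ0, 0 < w σ0 := by
    by_contra hcon
    push Not at hcon
    have : ∑ σ, w σ ≤ 0 := Finset.sum_nonpos fun σ _ => hcon σ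
    linarith
  let r : ℕ := N - ∑ σ, m σ
  have hr : (r : ℝ) ≤ K.factorial := by
    have : (r : ℝ) = N - ∑ σ, (m σ : ℝ) := by
      show ((N - ∑ σ, m σ : ℕ) : ℝ) = _
      rw [Nat.cast_sub hsum1']
      push_cast
      ring
    rw [this]
    linarith
  let m' : Equiv.Perm (Fin K) → ℕ := fun σ => m σ + if σ = σ0 then r else 0
  have hm' : ∑ σ, m' σ = N := by
    show ∑ σ, (m σ + if σ = σ0 then r else 0) = N
    rw [Finset.sum_add_distrib]
    have : (∑ σ : Equiv.Perm (Fin K), if σ = σ0 then r else 0) = r := by simp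
    rw [this]
    show (∑ σ, m σ) + (N - ∑ σ, m σ) = N
    omega
  obtain ⟨τ, hτ⟩ := birk_list N m' hm'
  refine ⟨τ, ?_, ?_⟩
  · intro j i
    have hpos : 0 < m' (τ j) := by
      rw [← hτ (τ j)]
      exact Finset.card_pos.2 ⟨j, by simp⟩
    have hw : 0 < w (τ j) := by
      by_cases h : τ j = σ0
      · rw [h]; exact hσ0
      · have h1 : m' (τ j) = m (τ j) := by
          show m (τ j) + (if τ j = σ0 then r else 0) = m (τ j)
          rw [if_neg h, add_zero]
        rw [h1] at hpos
        have h2 : (0 : ℝ) < (m (τ j) : ℝ) := by exact_mod_cast hpos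
        have h3 : 0 < w (τ j) * N := lt_of_lt_of_le h2 (hmle _)
        by_contra hcon
        push Not at hcon
        have h4 : w (τ j) = 0 := le_antisymm hcon (hw0 _)
        rw [h4, zero_mul] at h3
        exact lt_irrefl _ h3
    rw [hq i (τ j i)]
    refine lt_of_lt_of_le hw ?_
    have := Finset.single_le_sum (f := fun σ : Equiv.Perm (Fin K) =>
      if σ i = τ j i then w σ else 0) (s := Finset.univ)
      (fun σ _ => by
        split_ifs
        · exact hw0 σ
        · exact le_refl _) (mem_univ (τ j))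
    simpa using this
  · intro i c
    have h1 : (Finset.univ.filter fun j => τ j i = c).card
        = ∑ σ : Equiv.Perm (Fin K), if σ i = c then m' σ else 0 := by
      have h2 : (Finset.univ.filter fun j => τ j i = c).card
          = ∑ σ : Equiv.Perm (Fin K),
            ((Finset.univ.filter fun j => τ j i = c).filter fun j => τ j = σ).card :=
        Finset.card_eq_sum_card_fiberwise (fun j _ => mem_univ _)
      rw [h2]
      refine Finset.sum_congr rfl fun σ _ => ?_
      by_cases hc : σ i = c
      · rw [if_pos hc, ← hτ σ]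
        congr 1
        ext j
        simp only [mem_filter, mem_univ, true_and]
        constructor
        · exact fun h => h.2
        · intro h
          exact ⟨by rw [h]; exact hc, h⟩
      · rw [if_neg hc, Finset.card_eq_zero]
        ext j
        simp only [mem_filter, mem_univ, true_and, notMem_empty, iff_false]
        rintro ⟨h, h'⟩
        rw [h'] at h
        exact hc h
    have h3 : ((Finset.univ.filter fun j => τ j i = c).card : ℝ)
        ≤ ∑ σ : Equiv.Perm (Fin K), ((if σ i = c then w σ else 0) * N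
          + if σ = σ0 then (r : ℝ) else 0) := by
      rw [h1]
      push_cast
      refine Finset.sum_le_sum fun σ _ => ?_
      have hr0 : (0 : ℝ) ≤ if σ = σ0 then (r : ℝ) else 0 := by
        split_ifs
        · exact Nat.cast_nonneg _
        · exact le_refl _
      by_cases hc : σ i = c
      · rw [if_pos hc, if_pos hc]
        have : ((m' σ : ℕ) : ℝ) = (m σ : ℝ) + if σ = σ0 then (r : ℝ) else 0 := by
          show (((m σ + if σ = σ0 then r else 0) : ℕ) : ℝ) = _
          push_cast
          rfl
        rw [this]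
        linarith [hmle σ]
      · rw [if_neg hc, if_neg hc, zero_mul, zero_add]
        exact hr0
    have h4 : ∑ σ : Equiv.Perm (Fin K), ((if σ i = c then w σ else 0) * N
          + if σ = σ0 then (r : ℝ) else 0) = q i c * N + r := by
      rw [Finset.sum_add_distrib, ← Finset.sum_mul, ← hq i c]
      simp
    have hK5 : (1 / (K : ℝ) ^ 5) * N = K.factorial := by
      rw [hNcast]
      field_simp
    calc ((Finset.univ.filter fun j => τ j i = c).card : ℝ) ≤ q i c * N + r := by
          rw [← h4]; exact h3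
      _ ≤ q i c * N + K.factorial := by linarith
      _ = (q i c + 1 / (K : ℝ) ^ 5) * (N : ℝ) := by rw [add_mul, hK5]

end Pool.Agent.PK
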