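import Pool.Agent.PK.Def2
import Pool.Agent.PK.Cher

/-!
# Packing (PK): the event of the lines
-/

set_option autoImplicit false

namespace Pool.Agent.PK

open Finset
open Pool.Agent.H24.LP Pool.Agent.H24.LP.Nib

namespace Ev2X

theorem ch_eq {K : ℕ} (π : Equiv.Perm (Fin K)) (bd : Finset (Fin K))
    (A : Finset (Fin K × Fin K)) :
    ch π bd A = (A.filter fun y => y.1 ∉ bd ∧ π y.1 = y.2).card := by
  unfold ch
  refine Finset.card_bij (fun i _ => (i, π i)) ?_ ?_ ?_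
  · intro i hi
    rw [Finset.mem_filter] at hi ⊢
    exact ⟨hi.2.2, hi.2.1, rfl⟩
  · intro i _ j _ h
    exact congrArg Prod.fst h
  · intro y hy
    rw [Finset.mem_filter] at hy
    obtain ⟨h1, h2, h3⟩ := hy
    refine ⟨y.1, ?_, ?_⟩
    · rw [Finset.mem_filter]
      refine ⟨Finset.mem_univ _, h2, ?_⟩
      rw [h3]
      exact h1
    · rw [h3]

/-- the expected number of clean hits -/
theorem ch_sum {K n : ℕ} (hK : 0 < K) (F : Fin n → Equiv.Perm (Fin K)) (bd : Fin n → Finset (Fin K))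
    (q : Fin K → Fin K → ℝ)
    (hc : ∀ i j, ((Finset.univ.filter fun ω => i ∉ bd ω ∧ F ω i = j).card : ℝ) ≤
      (q i j + 1 / K ^ 3) * n) (A : Finset (Fin K × Fin K)) :
    ∑ ω, (ch (F ω) (bd ω) A : ℝ) ≤ (mass q A + 1 / K) * n := by
  have hK' : (0 : ℝ) < K := by exact_mod_cast hK
  have h1 : ∀ ω, (ch (F ω) (bd ω) A : ℝ) =
      ∑ y ∈ A, if y.1 ∉ bd ω ∧ F ω y.1 = y.2 then (1 : ℝ) else 0 := by
    intro ω
    rw [ch_eq, Finset.card_filter]
    push_cast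
    rfl
  rw [Finset.sum_congr rfl fun ω _ => h1 ω, Finset.sum_comm]
  have h2 : ∀ y ∈ A, ∑ ω, (if y.1 ∉ bd ω ∧ F ω y.1 = y.2 then (1 : ℝ) else 0) ≤
      (q y.1 y.2 + 1 / K ^ 3) * n := by
    intro y _
    refine le_trans (le_of_eq ?_) (hc y.1 y.2)
    rw [Finset.card_filter]
    push_cast
    rfl
  refine (Finset.sum_le_sum h2).trans ?_
  rw [← Finset.sum_mul]
  refine mul_le_mul_of_nonneg_right ?_ (Nat.cast_nonneg n)
  rw [Finset.sum_add_distrib, Finset.sum_const, nsmul_eq_mul]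
  unfold mass
  have h3 : (A.card : ℝ) ≤ (K : ℝ) ^ 2 := by
    have h4 : A.card ≤ K * K := by
      refine (Finset.card_le_univ A).trans (le_of_eq ?_)
      simp
    have h5 : (A.card : ℝ) ≤ ((K * K : ℕ) : ℝ) := by exact_mod_cast h4
    refine h5.trans (le_of_eq ?_)
    push_cast
    ring
  have h6 : (A.card : ℝ) * (1 / (K : ℝ) ^ 3) ≤ 1 / K := by
    rw [mul_one_div, div_le_div_iff₀ (by positivity) hK']
    have := mul_le_mul_of_nonneg_right h3 hK'.le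
    nlinarith
  linarith

/-- one line -/
theorem one {V : Type} [Fintype V] [DecidableEq V] {ε δ D κ ν C t : ℝ} (hδ1 : δ ≤ 1)
    (hκ : 0 < κ) (ht : 0 < t) {K n m : ℕ} (hK : 0 < K) (hK2 : 2 ≤ t * K)
    (Ω : Slt V K n ε δ D κ ν C) (hn : 0 < n) (hm : 0 < m) {v : V} (hv : v ∈ Ω.W ∪ Ω.U)
    (A : Finset (Fin K × Fin K))
    (h1 : ∀ w ∈ nb Ω.G Ω.W v, ∀ ω, ch (Ω.F w ω) (Ω.bd w ω) (Ω.AA v w A) ≤ 1)
    (P : (V → Out K n m) → Prop) [DecidablePred P]
    (hP : ∀ x, P x → ¬ (Ω.hit x v A ≤ (1 + κ) * Ω.exh v A + t * K)) :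
    (((Finset.univ : Finset (V → Out K n m)).filter P).card : ℝ) ≤
      Real.exp (-(t ^ 2 / 2 * K)) * Fintype.card (V → Out K n m) := by
  have hK' : (0 : ℝ) < K := by exact_mod_cast hK
  have hne : Nonempty (Out K n m) := ⟨(⟨0, hn⟩, fun _ => ⟨0, hm⟩)⟩
  have hsub : ∀ w, w ∈ nb Ω.G Ω.W v → w ∈ Ω.W := by
    intro w hw
    unfold nb at hw
    classical
    exact (Finset.mem_filter.1 hw).1
  have hI : ((nb Ω.G Ω.W v).card : ℝ) ≤ K := by
    have h2 := Ω.hdeg v hv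
    nlinarith
  have h0 : ∀ w ∈ nb Ω.G Ω.W v, ∀ y : Out K n m,
      (0 : ℝ) ≤ (ch (Ω.F w y.1) (Ω.bd w y.1) (Ω.AA v w A) : ℝ) ∧
      (ch (Ω.F w y.1) (Ω.bd w y.1) (Ω.AA v w A) : ℝ) ≤ 1 := by
    intro w hw y
    exact ⟨Nat.cast_nonneg _, by exact_mod_cast h1 w hw y.1⟩
  have hμ : ∀ w ∈ nb Ω.G Ω.W v,
      ∑ y : Out K n m, (ch (Ω.F w y.1) (Ω.bd w y.1) (Ω.AA v w A) : ℝ) ≤
        (mass (Ω.qq w) (Ω.AA v w A) + 1 / K) * Fintype.card (Out K n m) := by
    intro w hw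
    rw [Fintype.sum_prod_type]
    simp only [Finset.sum_const, Finset.card_univ, nsmul_eq_mul]
    rw [← Finset.mul_sum]
    have h3 := ch_sum hK (Ω.F w) (Ω.bd w) (Ω.qq w) (Ω.hsamp w (hsub w hw)).cell (Ω.AA v w A)
    have h4 : (Fintype.card (Out K n m) : ℝ) = n * Fintype.card (Fin K → Fin m) := by
      rw [Fintype.card_prod, Fintype.card_fin]
      push_cast
      rfl
    rw [h4]
    have h5 : (0 : ℝ) ≤ Fintype.card (Fin K → Fin m) := Nat.cast_nonneg _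
    have h6 := mul_le_mul_of_nonneg_left h3 h5
    refine h6.trans (le_of_eq ?_)
    ring
  have hmain := hoeff (nb Ω.G Ω.W v)
    (fun w (y : Out K n m) => (ch (Ω.F w y.1) (Ω.bd w y.1) (Ω.AA v w A) : ℝ))
    (fun w => mass (Ω.qq w) (Ω.AA v w A) + 1 / K) one_pos h0 hμ (t := t * K / 2) (N := K)
    (by positivity) hK' hI
  have hexp : -(2 * (t * K / 2) ^ 2 / (K * 1 ^ 2)) = -(t ^ 2 / 2 * K) := by
    field_simp
  rw [hexp] at hmain
  refine (Nat.cast_le.2 (Finset.card_le_card ?_)).trans hmain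
  intro x hx
  rw [Finset.mem_filter] at hx ⊢
  refine ⟨Finset.mem_univ _, ?_⟩
  have h7 := hP x hx.2
  push Not at h7
  have h8 : Ω.hit x v A = ∑ w ∈ nb Ω.G Ω.W v,
      (ch (Ω.F w (x w).1) (Ω.bd w (x w).1) (Ω.AA v w A) : ℝ) := rfl
  rw [← h8, Finset.sum_add_distrib, Finset.sum_const, nsmul_eq_mul]
  have h9 : Ω.exh v A = ∑ w ∈ nb Ω.G Ω.W v, mass (Ω.qq w) (Ω.AA v w A) := rfl
  rw [← h9]
  have h10 : 0 ≤ Ω.exh v A := by
    rw [h9]
    refine Finset.sum_nonneg fun w hw => ?_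
    unfold mass
    refine Finset.sum_nonneg fun y _ => ?_
    exact add_nonneg ((Ω.hlaw w (hsub w hw)).n1 _ _) ((Ω.hlaw w (hsub w hw)).n2 _ _)
  have h11 : ((nb Ω.G Ω.W v).card : ℝ) * (1 / K) ≤ 1 := by
    rw [mul_one_div, div_le_one hK']
    exact hI
  nlinarith [mul_nonneg hκ.le h10]

theorem line_row {K : ℕ} (π : Equiv.Perm (Fin K)) (bd : Finset (Fin K))
    (A : Finset (Fin K × Fin K)) (i : Fin K) (h : ∀ y ∈ A, y.1 = i) : ch π bd A ≤ 1 := by
  rw [ch_eq, Finset.card_le_one]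
  intro y hy z hz
  rw [Finset.mem_filter] at hy hz
  have h1 := h y hy.1
  have h2 := h z hz.1
  refine Prod.ext (h1.trans h2.symm) ?_
  rw [← hy.2.2, ← hz.2.2, h1, h2]

theorem line_col {K : ℕ} (π : Equiv.Perm (Fin K)) (bd : Finset (Fin K))
    (A : Finset (Fin K × Fin K)) (j : Fin K) (h : ∀ y ∈ A, y.2 = j) : ch π bd A ≤ 1 := by
  rw [ch_eq, Finset.card_le_one]
  intro y hy z hz
  rw [Finset.mem_filter] at hy hz
  have h1 := h y hy.1
  have h2 := h z hz.1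
  refine Prod.ext ?_ (h1.trans h2.symm)
  apply π.injective
  rw [hy.2.2, hz.2.2, h1, h2]

theorem num {b : ℝ} (hb : 0 < b) {K : ℕ} (hK : 0 < K)
    (h : 2 * ((22 : ℕ).factorial : ℝ) / b ^ 22 ≤ K) :
    2 * K * Real.exp (-(b * K)) ≤ 1 / (K : ℝ) ^ 20 := by
  have hK' : (0 : ℝ) < K := by exact_mod_cast hK
  have h1 := Real.pow_div_factorial_le_exp (b * K) (by positivity) 22
  have hf : (0 : ℝ) < ((22 : ℕ).factorial : ℝ) := by exact_mod_cast Nat.factorial_pos 22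
  rw [Real.exp_neg, ← div_eq_mul_inv, div_le_div_iff₀ (Real.exp_pos _) (by positivity), one_mul]
  refine le_trans ?_ h1
  rw [le_div_iff₀ hf, mul_pow]
  rw [div_le_iff₀ (by positivity)] at h
  have h2 := mul_le_mul_of_nonneg_right h (by positivity : (0 : ℝ) ≤ (K : ℝ) ^ 21)
  calc 2 * (K : ℝ) * K ^ 20 * ((22 : ℕ).factorial : ℝ)
      = 2 * ((22 : ℕ).factorial : ℝ) * (K : ℝ) ^ 21 := by ring
    _ ≤ K * b ^ 22 * K ^ 21 := h2
    _ = b ^ 22 * (K : ℝ) ^ 22 := by ring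

end Ev2X

open Classical in
theorem ev2 {ε δ D κ C t : ℝ} (hε : 0 < ε) (hε1 : ε ≤ 1) (hδ : 0 < δ) (hδ1 : δ ≤ 1) (hκ : 0 < κ)
    (hκ1 : κ ≤ 1 / 4) (ht : 0 < t) : ∃ K0 : ℕ, ∀ K : ℕ, K0 ≤ K → ∀ (V : Type) [Fintype V]
    [DecidableEq V] (n m : ℕ) (ν : ℝ) (Ω : Slt V K n ε δ D κ ν C), 0 < n → 0 < m →
    ∀ v ∈ Ω.W ∪ Ω.U,
      (((Finset.univ : Finset (V → Out K n m)).filter fun x => ¬ Ω.G2 t x v).card : ℝ) ≤
        1 / (K : ℝ) ^ 20 * Fintype.card (V → Out K n m) := by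
  have _ := hε
  have _ := hε1
  have _ := hκ1
  have _ := hδ
  have hb : 0 < t ^ 2 / 2 := by positivity
  refine ⟨⌈2 / t⌉₊ + ⌈2 * ((22 : ℕ).factorial : ℝ) / (t ^ 2 / 2) ^ 22⌉₊ + 1, ?_⟩
  intro K hK V _ _ n m ν Ω hn hm v hv
  have hK0 : 0 < K := by omega
  have hK1 : 2 ≤ t * K := by
    have h1 : ⌈2 / t⌉₊ ≤ K := by omega
    have h2 := Nat.ceil_le.1 h1
    rw [div_le_iff₀ ht] at h2
    linarith
  have hK2 : 2 * ((22 : ℕ).factorial : ℝ) / (t ^ 2 / 2) ^ 22 ≤ K := by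
    have h1 : ⌈2 * ((22 : ℕ).factorial : ℝ) / (t ^ 2 / 2) ^ 22⌉₊ ≤ K := by omega
    exact Nat.ceil_le.1 h1
  have hnum := Ev2X.num hb hK0 hK2
  set X : ℝ := ((Fintype.card (V → Out K n m) : ℕ) : ℝ) with hX
  have hX0 : 0 ≤ X := Nat.cast_nonneg _
  -- rows
  have hr : ∀ i : Fin K, (((Finset.univ : Finset (V → Out K n m)).filter fun x =>
      ¬ (Ω.hit x v (rect (Ω.Bv v) {i} Finset.univ) ≤
        (1 + κ) * Ω.exh v (rect (Ω.Bv v) {i} Finset.univ) + t * K)).card : ℝ) ≤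
      Real.exp (-(t ^ 2 / 2 * K)) * X := by
    intro i
    refine Ev2X.one hδ1 hκ ht hK0 hK1 Ω hn hm hv _ ?_ _ fun x hx => hx
    intro w _ ω
    refine Ev2X.line_row _ _ _ i fun y hy => ?_
    have h1 := (Finset.mem_filter.1 hy).2
    unfold rect at h1
    simpa using (Finset.mem_filter.1 h1).2
  have hc : ∀ j : Fin K, (((Finset.univ : Finset (V → Out K n m)).filter fun x =>
      ¬ (Ω.hit x v (rect (Ω.Bv v) Finset.univ {j}) ≤
        (1 + κ) * Ω.exh v (rect (Ω.Bv v) Finset.univ {j}) + t * K)).card : ℝ) ≤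
      Real.exp (-(t ^ 2 / 2 * K)) * X := by
    intro j
    refine Ev2X.one hδ1 hκ ht hK0 hK1 Ω hn hm hv _ ?_ _ fun x hx => hx
    intro w _ ω
    refine Ev2X.line_col _ _ _ ((Ω.σ w v).symm j) fun y hy => ?_
    have h1 := (Finset.mem_filter.1 hy).2
    unfold rect at h1
    have h2 : Ω.σ w v y.2 = j := by simpa using (Finset.mem_filter.1 h1).2
    rw [← h2, Equiv.symm_apply_apply]
  have hsub : ((Finset.univ : Finset (V → Out K n m)).filter fun x => ¬ Ω.G2 t x v) ⊆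
      ((Finset.univ : Finset (Fin K)).biUnion fun i =>
        (Finset.univ : Finset (V → Out K n m)).filter fun x =>
          ¬ (Ω.hit x v (rect (Ω.Bv v) {i} Finset.univ) ≤
            (1 + κ) * Ω.exh v (rect (Ω.Bv v) {i} Finset.univ) + t * K)) ∪
      ((Finset.univ : Finset (Fin K)).biUnion fun j =>
        (Finset.univ : Finset (V → Out K n m)).filter fun x =>
          ¬ (Ω.hit x v (rect (Ω.Bv v) Finset.univ {j}) ≤
            (1 + κ) * Ω.exh v (rect (Ω.Bv v) Finset.univ {j}) + t * K)) := by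
    intro x hx
    have h1 := (Finset.mem_filter.1 hx).2
    unfold Slt.G2 at h1
    rw [not_and_or] at h1
    rw [Finset.mem_union]
    rcases h1 with h1 | h1
    · rw [not_forall] at h1
      obtain ⟨i, hi⟩ := h1
      exact Or.inl (Finset.mem_biUnion.2 ⟨i, Finset.mem_univ _,
        Finset.mem_filter.2 ⟨Finset.mem_univ _, hi⟩⟩)
    · rw [not_forall] at h1
      obtain ⟨j, hj⟩ := h1
      exact Or.inr (Finset.mem_biUnion.2 ⟨j, Finset.mem_univ _,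
        Finset.mem_filter.2 ⟨Finset.mem_univ _, hj⟩⟩)
  have h1 := (Finset.card_le_card hsub).trans ((Finset.card_union_le _ _).trans
    (add_le_add Finset.card_biUnion_le Finset.card_biUnion_le))
  have h2 : (((Finset.univ : Finset (V → Out K n m)).filter fun x => ¬ Ω.G2 t x v).card : ℝ) ≤
      K * (Real.exp (-(t ^ 2 / 2 * K)) * X) + K * (Real.exp (-(t ^ 2 / 2 * K)) * X) := by
    refine (Nat.cast_le.2 h1).trans ?_
    push_cast
    refine add_le_add ?_ ?_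
    · refine (Finset.sum_le_sum fun i _ => hr i).trans (le_of_eq ?_)
      simp
    · refine (Finset.sum_le_sum fun j _ => hc j).trans (le_of_eq ?_)
      simp
  refine h2.trans ?_
  have h3 := mul_le_mul_of_nonneg_right hnum hX0
  linarith

end Pool.Agent.PK
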