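import Pool.Agent.PK.Def2
import Pool.Agent.PK.Cher
import Pool.Agent.PK.Adapt

/-!
# Packing (PK): the event of the modified cells in a line
-/

set_option autoImplicit false

namespace Pool.Agent.PK

open Finset
open Pool.Agent.H24.LP Pool.Agent.H24.LP.Nib

theorem e3_card_out (K n m : ℕ) :
    (Fintype.card (Out K n m) : ℝ) = n * (m : ℝ) ^ K := by
  simp [Out]

theorem e3_fst {K n m : ℕ} (P : Fin n → Prop) [DecidablePred P] :
    ((Finset.univ.filter fun y : Out K n m => P y.1).card : ℝ) =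
      ((Finset.univ.filter P).card : ℝ) * (m : ℝ) ^ K := by
  have h1 : (Finset.univ.filter fun y : Out K n m => P y.1) =
      (Finset.univ.filter P) ×ˢ (Finset.univ : Finset (Fin K → Fin m)) := by
    ext y
    simp
  rw [h1, Finset.card_product]
  simp

theorem e3_zero {K m : ℕ} (hm : 0 < m) (i : Fin K) :
    ∑ z : Fin K → Fin m, (if (z i : ℕ) = 0 then (1 : ℝ) else 0) = 1 / m * (m : ℝ) ^ K := by
  have h := adapt_sum (V := Fin K) (α := Fin m) i
    (fun z => if (z i : ℕ) = 0 then (1 : ℝ) else 0)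
  simp only [Function.update_self] at h
  have h1 : ∑ b : Fin m, (if (b : ℕ) = 0 then (1 : ℝ) else 0) = 1 := by
    rw [Finset.sum_eq_single (⟨0, hm⟩ : Fin m)]
    · simp
    · intro b _ hb
      rw [if_neg]
      intro h0
      exact hb (Fin.ext h0)
    · intro h0
      exact absurd (Finset.mem_univ _) h0
  rw [h1] at h
  simp only [Finset.sum_const, Finset.card_univ, Fintype.card_fun, Fintype.card_fin,
    nsmul_eq_mul, mul_one, Nat.cast_pow] at h
  have hm' : (m : ℝ) ≠ 0 := by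
    have : (0 : ℝ) < m := by exact_mod_cast hm
    exact this.ne'
  rw [h]
  field_simp

theorem e3_mean {K n m : ℕ} (hm : 0 < m) (r : Fin n → Fin K) :
    ∑ y : Out K n m, (if (y.2 (r y.1) : ℕ) = 0 then (1 : ℝ) else 0) =
      1 / m * Fintype.card (Out K n m) := by
  rw [e3_card_out, Fintype.sum_prod_type]
  have h1 : ∀ ω : Fin n, ∑ z : Fin K → Fin m,
      (if (((ω, z) : Out K n m).2 (r ((ω, z) : Out K n m).1) : ℕ) = 0 then (1 : ℝ) else 0) =
      1 / m * (m : ℝ) ^ K := fun ω => e3_zero hm (r ω)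
  rw [Finset.sum_congr rfl fun ω _ => h1 ω, Finset.sum_const, Finset.card_univ, Fintype.card_fin,
    nsmul_eq_mul]
  ring

section line

variable {V : Type} [Fintype V] [DecidableEq V] {K n m : ℕ} {ε δ D κ ν C t : ℝ}

open Classical in
/-- the conditional probability of a conflict -/
theorem e3_cf (Ω : Slt V K n ε δ D κ ν C) (hK : 2 ≤ K) (hε : 0 < ε) (hε1 : ε ≤ 1) (hδ : 0 < δ)
    (hκ1 : κ ≤ 1 / 4) (hκ : 0 < κ) {w : V} (hw : w ∈ Ω.W) (P : Out K n m → Prop) (s c : V → Fin K)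
    (h : ∀ b, P b → ∃ u ∈ nb Ω.G Ω.W w, s u ∉ Ω.bd w b.1 ∧ Ω.F w b.1 (s u) = c u) :
    ((Finset.univ.filter fun b : Out K n m => P b).card : ℝ) ≤
      2 * δ / ε * Fintype.card (Out K n m) := by
  have hK0 : (0 : ℝ) < K := by
    have : 0 < K := by omega
    exact_mod_cast this
  have hsub : (Finset.univ.filter fun b : Out K n m => P b) ⊆
      (nb Ω.G Ω.W w).biUnion fun u =>
        Finset.univ.filter fun b : Out K n m => s u ∉ Ω.bd w b.1 ∧ Ω.F w b.1 (s u) = c u := by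
    intro b hb
    obtain ⟨u, hu, h1⟩ := h b (Finset.mem_filter.1 hb).2
    exact Finset.mem_biUnion.2 ⟨u, hu, Finset.mem_filter.2 ⟨Finset.mem_univ _, h1⟩⟩
  have h1 : ((Finset.univ.filter fun b : Out K n m => P b).card : ℝ) ≤
      ∑ u ∈ nb Ω.G Ω.W w, ((Finset.univ.filter fun b : Out K n m =>
        s u ∉ Ω.bd w b.1 ∧ Ω.F w b.1 (s u) = c u).card : ℝ) := by
    have := (Finset.card_le_card hsub).trans Finset.card_biUnion_le
    exact_mod_cast this
  have hmK : (0 : ℝ) ≤ (m : ℝ) ^ K := by positivity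
  have h2 : ∀ u ∈ nb Ω.G Ω.W w, ((Finset.univ.filter fun b : Out K n m =>
        s u ∉ Ω.bd w b.1 ∧ Ω.F w b.1 (s u) = c u).card : ℝ) ≤
        ((1 + κ) / (ε * K) + 1 / (K : ℝ) ^ 3) * n * (m : ℝ) ^ K := by
    intro u _
    have e1 := e3_fst (K := K) (m := m)
      (fun ω : Fin n => s u ∉ Ω.bd w ω ∧ Ω.F w ω (s u) = c u)
    rw [e1]
    refine mul_le_mul_of_nonneg_right ?_ hmK
    have e2 := (Ω.hsamp w hw).cell (s u) (c u)
    refine e2.trans (mul_le_mul_of_nonneg_right ?_ (Nat.cast_nonneg n))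
    have e3 := (Ω.hlaw w hw).cap (s u) (c u)
    have e4 : (1 + κ) / (Ω.p w * K) ≤ (1 + κ) / (ε * K) := by
      refine div_le_div_of_nonneg_left (by linarith) (by positivity) ?_
      exact mul_le_mul_of_nonneg_right (Ω.hp w hw) hK0.le
    linarith
  have h3 := h1.trans (Finset.sum_le_sum h2)
  rw [Finset.sum_const, nsmul_eq_mul] at h3
  have h4 := Ω.hdeg w (Finset.mem_union_left _ hw)
  have hA : (0 : ℝ) ≤ ((1 + κ) / (ε * K) + 1 / (K : ℝ) ^ 3) * n * (m : ℝ) ^ K := by positivity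
  have h5 := h3.trans (mul_le_mul_of_nonneg_right h4 hA)
  refine h5.trans ?_
  rw [e3_card_out]
  have h6 : δ * K * ((1 + κ) / (ε * K) + 1 / (K : ℝ) ^ 3) ≤ 2 * δ / ε := by
    have e1 : δ * K * ((1 + κ) / (ε * K) + 1 / (K : ℝ) ^ 3) =
        δ / ε * ((1 + κ) + ε / (K : ℝ) ^ 2) := by
      field_simp
    rw [e1]
    have e2 : ε / (K : ℝ) ^ 2 ≤ 1 / 4 := by
      rw [div_le_div_iff₀ (by positivity) (by norm_num)]
      have : (2 : ℝ) ≤ K := by exact_mod_cast hK
      nlinarith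
    have e3 : 0 ≤ δ / ε := by positivity
    have e4 : 2 * δ / ε = δ / ε * 2 := by ring
    rw [e4]
    exact mul_le_mul_of_nonneg_left (by linarith) e3
  have h7 : (0 : ℝ) ≤ n * (m : ℝ) ^ K := by positivity
  calc δ * K * (((1 + κ) / (ε * K) + 1 / (K : ℝ) ^ 3) * n * (m : ℝ) ^ K)
      = (δ * K * ((1 + κ) / (ε * K) + 1 / (K : ℝ) ^ 3)) * (n * (m : ℝ) ^ K) := by ring
    _ ≤ 2 * δ / ε * (n * (m : ℝ) ^ K) := mul_le_mul_of_nonneg_right h6 h7

open Classical in
/-- one line -/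
theorem e3_line (Ω : Slt V K n ε δ D κ ν C) (hK : 2 ≤ K) (hn : 0 < n) (hm : 0 < m) (hε : 0 < ε)
    (hε1 : ε ≤ 1) (hδ : 0 < δ) (hδ1 : δ ≤ 1) (hκ : 0 < κ) (hκ1 : κ ≤ 1 / 4) (ht : 0 < t) {v : V} (hv : v ∈ Ω.W ∪ Ω.U)
    (r : V → Fin n → Fin K)
    (h2 : ∀ w ∈ Ω.W, ((Finset.univ.filter fun ω => r w ω ∈ Ω.bd w ω).card : ℝ) ≤ κ * n)
    (h3 : ∀ w ∈ Ω.W, ∀ x : V → Out K n m, ∃ s c : V → Fin K, ∀ b : Out K n m,
      r w b.1 ∈ Ω.Cf (Function.update x w b) w →
        ∃ u ∈ nb Ω.G Ω.W w, s u ∉ Ω.bd w b.1 ∧ Ω.F w b.1 (s u) = c u) :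
    (((Finset.univ : Finset (V → Out K n m)).filter fun x =>
      ((1 / m + κ + 4 * δ / ε) * δ + t) * K <
        (((nb Ω.G Ω.W v).filter fun w => r w (x w).1 ∈ Ω.Zx x w).card : ℝ)).card : ℝ) ≤
      3 * Real.exp (-(min (2 * t ^ 2 / 9) (t / 3) * K)) * Fintype.card (V → Out K n m) := by
  have : Nonempty (Out K n m) := ⟨(⟨0, hn⟩, fun _ => ⟨0, hm⟩)⟩
  have hK0 : (0 : ℝ) < K := by
    have : 0 < K := by omega
    exact_mod_cast this
  have hm0 : (0 : ℝ) < m := by exact_mod_cast hm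
  set I : Finset V := nb Ω.G Ω.W v with hI
  have hIc : (I.card : ℝ) ≤ δ * K := Ω.hdeg v hv
  have hIW : ∀ w ∈ I, w ∈ Ω.W := fun w hw => (mem_nb.1 hw).1
  set N : ℝ := (Fintype.card (V → Out K n m) : ℝ) with hN
  have hN0 : 0 ≤ N := by positivity
  set c : ℝ := min (2 * t ^ 2 / 9) (t / 3) with hc
  -- the random rows
  have hE1 := hoeff (V := V) (α := Out K n m) I
    (fun w y => if (y.2 (r w y.1) : ℕ) = 0 then (1 : ℝ) else 0) (fun _ => 1 / (m : ℝ))
    (b := 1) one_pos (fun w _ y => by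
      split_ifs <;> norm_num)
    (fun w _ => le_of_eq (e3_mean hm (r w))) (t := t * K / 3) (N := δ * K) (by positivity)
    (by positivity) hIc
  -- the dirty rows
  have hE2 := hoeff (V := V) (α := Out K n m) I
    (fun w y => if r w y.1 ∈ Ω.bd w y.1 then (1 : ℝ) else 0) (fun _ => κ)
    (b := 1) one_pos (fun w _ y => by
      split_ifs <;> norm_num)
    (fun w hw => by
      rw [Finset.sum_boole, e3_card_out]
      have e1 := e3_fst (K := K) (m := m) (fun ω : Fin n => r w ω ∈ Ω.bd w ω)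
      rw [e1, ← mul_assoc]
      exact mul_le_mul_of_nonneg_right (h2 w (hIW w hw)) (by positivity))
    (t := t * K / 3) (N := δ * K) (by positivity) (by positivity) hIc
  -- the conflicts
  obtain ⟨Y, hY⟩ : ∃ Y : V → (V → Out K n m) → Prop,
      ∀ w x, Y w x ↔ r w (x w).1 ∈ Ω.Cf x w := ⟨_, fun _ _ => Iff.rfl⟩
  have hE3 := adapted (V := V) (α := Out K n m) Ω.idx Ω.hidx I
    Y (ρ := 2 * δ / ε) (by positivity)
    (by
      intro w _ x y hxy hmem
      rw [hY] at hmem ⊢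
      have hw1 : x w = y w := hxy w le_rfl
      unfold Slt.Cf Slt.bx Slt.Fx at hmem ⊢
      rw [Finset.mem_filter] at hmem ⊢
      obtain ⟨_, h4, u, hu, hlt, h5, h6⟩ := hmem
      have hu1 : x u = y u := hxy u hlt.le
      rw [← hw1]
      refine ⟨Finset.mem_univ _, h4, u, hu, hlt, ?_, ?_⟩
      · rw [← hu1]
        exact h5
      · rw [← hu1]
        exact h6)
    (by
      intro w hw x
      obtain ⟨s, c', hsc⟩ := h3 w (hIW w hw) x
      refine e3_cf Ω hK hε hε1 hδ hκ1 hκ (hIW w hw)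
        (fun b => Y w (Function.update x w b)) s c' ?_
      intro b hb
      rw [hY, Function.update_self] at hb
      exact hsc b hb)
    (4 * δ / ε * (δ * K) + t * K / 3)
  rw [← hN] at hE1 hE2 hE3
  have hcK1 : Real.exp (-(2 * (t * K / 3) ^ 2 / (δ * K * 1 ^ 2))) ≤ Real.exp (-(c * K)) := by
    apply Real.exp_le_exp.2
    rw [neg_le_neg_iff]
    have e1 : 2 * (t * K / 3) ^ 2 / (δ * K * 1 ^ 2) = (2 * t ^ 2 / 9) / δ * K := by
      field_simp
      ring
    rw [e1]
    refine mul_le_mul_of_nonneg_right ?_ hK0.le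
    refine (min_le_left _ _).trans ?_
    rw [le_div_iff₀ hδ]
    have : 0 ≤ 2 * t ^ 2 / 9 := by positivity
    nlinarith
  have hcK3 : Real.exp (2 * (2 * δ / ε) * I.card - (4 * δ / ε * (δ * K) + t * K / 3)) ≤
      Real.exp (-(c * K)) := by
    apply Real.exp_le_exp.2
    have e1 : 2 * (2 * δ / ε) * I.card ≤ 4 * δ / ε * (δ * K) := by
      have : 2 * (2 * δ / ε) = 4 * δ / ε := by ring
      rw [this]
      exact mul_le_mul_of_nonneg_left hIc (by positivity)
    have e2 : c * K ≤ t / 3 * K := mul_le_mul_of_nonneg_right (min_le_right _ _) hK0.le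
    linarith
  have hsub : ((Finset.univ : Finset (V → Out K n m)).filter fun x =>
      ((1 / m + κ + 4 * δ / ε) * δ + t) * K <
        (((nb Ω.G Ω.W v).filter fun w => r w (x w).1 ∈ Ω.Zx x w).card : ℝ)) ⊆
      (((Finset.univ : Finset (V → Out K n m)).filter fun x =>
        ∑ w ∈ I, (1 / (m : ℝ)) + t * K / 3 ≤
          ∑ w ∈ I, (if ((x w).2 (r w (x w).1) : ℕ) = 0 then (1 : ℝ) else 0)) ∪
      ((Finset.univ : Finset (V → Out K n m)).filter fun x =>
        ∑ w ∈ I, κ + t * K / 3 ≤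
          ∑ w ∈ I, (if r w (x w).1 ∈ Ω.bd w (x w).1 then (1 : ℝ) else 0))) ∪
      ((Finset.univ : Finset (V → Out K n m)).filter fun x =>
        4 * δ / ε * (δ * K) + t * K / 3 ≤
          ((I.filter fun w => Y w x).card : ℝ)) := by
    intro x hx
    have hx' := (Finset.mem_filter.1 hx).2
    rw [Finset.mem_union, Finset.mem_union, Finset.mem_filter, Finset.mem_filter,
      Finset.mem_filter]
    by_contra hcon
    simp only [Finset.mem_univ, true_and, not_or, not_le] at hcon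
    obtain ⟨⟨g1, g2⟩, g3⟩ := hcon
    rw [Finset.sum_boole, Finset.sum_const, nsmul_eq_mul] at g1 g2
    have g4 : ((I.filter fun w => r w (x w).1 ∈ Ω.Zx x w).card : ℝ) ≤
        ((I.filter fun w => ((x w).2 (r w (x w).1) : ℕ) = 0).card : ℝ) +
        ((I.filter fun w => r w (x w).1 ∈ Ω.bd w (x w).1).card : ℝ) +
        ((I.filter fun w => Y w x).card : ℝ) := by
      have e1 : (I.filter fun w => r w (x w).1 ∈ Ω.Zx x w) ⊆
          ((I.filter fun w => ((x w).2 (r w (x w).1) : ℕ) = 0) ∪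
          (I.filter fun w => r w (x w).1 ∈ Ω.bd w (x w).1)) ∪
          (I.filter fun w => Y w x) := by
        intro w hw
        obtain ⟨hwI, hw2⟩ := Finset.mem_filter.1 hw
        unfold Slt.Zx Slt.Z0 Slt.bx at hw2
        rw [Finset.mem_union, Finset.mem_union, Finset.mem_filter] at hw2
        rw [Finset.mem_union, Finset.mem_union, Finset.mem_filter, Finset.mem_filter,
          Finset.mem_filter]
        rcases hw2 with (hw2 | hw2) | hw2
        · exact Or.inl (Or.inl ⟨hwI, hw2.2⟩)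
        · exact Or.inl (Or.inr ⟨hwI, hw2⟩)
        · exact Or.inr ⟨hwI, (hY w x).2 hw2⟩
      have e2 := (Finset.card_le_card e1).trans ((Finset.card_union_le _ _).trans
        (Nat.add_le_add_right (Finset.card_union_le _ _) _))
      exact_mod_cast e2
    have g5 : (I.card : ℝ) * (1 / m) ≤ δ * K * (1 / m) :=
      mul_le_mul_of_nonneg_right hIc (by positivity)
    have g6 : (I.card : ℝ) * κ ≤ δ * K * κ := mul_le_mul_of_nonneg_right hIc hκ.le
    have g7 : ((1 / m + κ + 4 * δ / ε) * δ + t) * K = δ * K * (1 / m) + δ * K * κ +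
        4 * δ / ε * (δ * K) + t * K := by ring
    rw [g7] at hx'
    linarith
  have hcard := (Finset.card_le_card hsub).trans ((Finset.card_union_le _ _).trans
    (Nat.add_le_add_right (Finset.card_union_le _ _) _))
  have hcard' : (((Finset.univ : Finset (V → Out K n m)).filter fun x =>
      ((1 / m + κ + 4 * δ / ε) * δ + t) * K <
        (((nb Ω.G Ω.W v).filter fun w => r w (x w).1 ∈ Ω.Zx x w).card : ℝ)).card : ℝ) ≤
      ((((Finset.univ : Finset (V → Out K n m)).filter fun x =>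
        ∑ w ∈ I, (1 / (m : ℝ)) + t * K / 3 ≤
          ∑ w ∈ I, (if ((x w).2 (r w (x w).1) : ℕ) = 0 then (1 : ℝ) else 0)).card : ℝ) +
      (((Finset.univ : Finset (V → Out K n m)).filter fun x =>
        ∑ w ∈ I, κ + t * K / 3 ≤
          ∑ w ∈ I, (if r w (x w).1 ∈ Ω.bd w (x w).1 then (1 : ℝ) else 0)).card : ℝ)) +
      (((Finset.univ : Finset (V → Out K n m)).filter fun x =>
        4 * δ / ε * (δ * K) + t * K / 3 ≤
          ((I.filter fun w => Y w x).card : ℝ)).card : ℝ) := by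
    exact_mod_cast hcard
  have k1 := hE1.trans (mul_le_mul_of_nonneg_right hcK1 hN0)
  have k2 := hE2.trans (mul_le_mul_of_nonneg_right hcK1 hN0)
  have k3 := hE3.trans (mul_le_mul_of_nonneg_right hcK3 hN0)
  linarith

end line

/-- the numerical condition -/
theorem e3_num {c : ℝ} (hc : 0 < c) : ∃ K0 : ℕ, ∀ K : ℕ, K0 ≤ K →
    2 * (K : ℝ) * (3 * Real.exp (-(c * K))) ≤ 1 / (K : ℝ) ^ 20 := by
  have h1 := Real.tendsto_pow_mul_exp_neg_atTop_nhds_zero 21
  have h2 : Filter.Tendsto (fun K : ℕ => c * (K : ℝ)) Filter.atTop Filter.atTop :=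
    Filter.Tendsto.const_mul_atTop hc tendsto_natCast_atTop_atTop
  have h3 := h1.comp h2
  have h4 : (0 : ℝ) < c ^ 21 / 6 := by positivity
  obtain ⟨K1, hK1⟩ := Filter.eventually_atTop.1 (h3.eventually (gt_mem_nhds h4))
  refine ⟨max K1 1, fun K hK => ?_⟩
  have h5 := hK1 K ((le_max_left _ _).trans hK)
  have hK0 : (0 : ℝ) < K := by
    have : 0 < K := lt_of_lt_of_le one_pos ((le_max_right _ _).trans hK)
    exact_mod_cast this
  simp only [Function.comp_apply] at h5
  rw [le_div_iff₀ (by positivity)]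
  have h6 : (c * (K : ℝ)) ^ 21 * Real.exp (-(c * K)) =
      c ^ 21 * ((K : ℝ) ^ 21 * Real.exp (-(c * K))) := by ring
  rw [h6] at h5
  have h7 : (K : ℝ) ^ 21 * Real.exp (-(c * K)) < 1 / 6 := by
    have hc21 : (0 : ℝ) < c ^ 21 := by positivity
    have : c ^ 21 * ((K : ℝ) ^ 21 * Real.exp (-(c * K))) < c ^ 21 * (1 / 6) := by
      rw [mul_one_div]
      exact h5
    exact lt_of_mul_lt_mul_left this hc21.le
  have h8 : 2 * (K : ℝ) * (3 * Real.exp (-(c * K))) * (K : ℝ) ^ 20 =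
      6 * ((K : ℝ) ^ 21 * Real.exp (-(c * K))) := by ring
  rw [h8]
  linarith

open Classical in
theorem ev3 {ε δ D κ C t : ℝ} (hε : 0 < ε) (hε1 : ε ≤ 1) (hδ : 0 < δ) (hδ1 : δ ≤ 1) (hκ : 0 < κ)
    (hκ1 : κ ≤ 1 / 4) (ht : 0 < t) : ∃ K0 : ℕ, ∀ K : ℕ, K0 ≤ K → ∀ (V : Type) [Fintype V]
    [DecidableEq V] (n m : ℕ) (ν : ℝ) (Ω : Slt V K n ε δ D κ ν C), 0 < n → 0 < m →
    ∀ v ∈ Ω.W ∪ Ω.U,
      (((Finset.univ : Finset (V → Out K n m)).filter fun x => ¬ Ω.G3 t x v).card : ℝ) ≤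
        1 / (K : ℝ) ^ 20 * Fintype.card (V → Out K n m) := by
  have hc : 0 < min (2 * t ^ 2 / 9) (t / 3) := lt_min (by positivity) (by positivity)
  obtain ⟨K1, hK1⟩ := e3_num hc
  refine ⟨max K1 2, fun K hK V _ _ n m ν Ω hn hm v hv => ?_⟩
  have hK2 : 2 ≤ K := (le_max_right _ _).trans hK
  have hnum := hK1 K ((le_max_left _ _).trans hK)
  set N : ℝ := (Fintype.card (V → Out K n m) : ℝ) with hN
  have hN0 : 0 ≤ N := by positivity
  set c : ℝ := min (2 * t ^ 2 / 9) (t / 3) with hcdef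
  -- rows
  have hrow : ∀ i : Fin K, (((Finset.univ : Finset (V → Out K n m)).filter fun x =>
      ((1 / m + κ + 4 * δ / ε) * δ + t) * K <
        (((nb Ω.G Ω.W v).filter fun w => i ∈ Ω.Zx x w).card : ℝ)).card : ℝ) ≤
      3 * Real.exp (-(c * K)) * N := by
    intro i
    refine e3_line Ω hK2 hn hm hε hε1 hδ hδ1 hκ hκ1 ht hv (fun _ _ => i) ?_ ?_
    · intro w hw
      exact (Ω.hsamp w hw).rows i
    · intro w hw x
      refine ⟨fun _ => i, fun u => Ω.σ u w (Ω.Fx x u i), ?_⟩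
      intro b hb
      unfold Slt.Cf at hb
      rw [Finset.mem_filter] at hb
      obtain ⟨_, h4, u, hu, hlt, _, h6⟩ := hb
      have huw : u ≠ w := by
        rintro rfl
        exact lt_irrefl _ hlt
      refine ⟨u, hu, ?_, ?_⟩
      · unfold Slt.bx at h4
        rw [Function.update_self] at h4
        exact h4
      · unfold Slt.Fx at h6 ⊢
        rw [Function.update_self, Function.update_of_ne huw] at h6
        exact h6.symm
  -- columns
  have hcol : ∀ j : Fin K, (((Finset.univ : Finset (V → Out K n m)).filter fun x =>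
      ((1 / m + κ + 4 * δ / ε) * δ + t) * K <
        (((nb Ω.G Ω.W v).filter fun w =>
          (Ω.Fx x w).symm ((Ω.σ w v).symm j) ∈ Ω.Zx x w).card : ℝ)).card : ℝ) ≤
      3 * Real.exp (-(c * K)) * N := by
    intro j
    refine e3_line Ω hK2 hn hm hε hε1 hδ hδ1 hκ hκ1 ht hv
      (fun w ω => (Ω.F w ω).symm ((Ω.σ w v).symm j)) ?_ ?_
    · intro w hw
      exact (Ω.hsamp w hw).cols _
    · intro w hw x
      refine ⟨fun u => (Ω.Fx x u).symm ((Ω.σ u w).symm ((Ω.σ w v).symm j)),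
        fun _ => (Ω.σ w v).symm j, ?_⟩
      intro b hb
      unfold Slt.Cf at hb
      rw [Finset.mem_filter] at hb
      obtain ⟨_, h4, u, hu, hlt, _, h6⟩ := hb
      have huw : u ≠ w := by
        rintro rfl
        exact lt_irrefl _ hlt
      unfold Slt.bx at h4
      unfold Slt.Fx at h6
      rw [Function.update_self] at h4
      rw [Function.update_self, Function.update_of_ne huw, Equiv.apply_symm_apply] at h6
      have h7 : (Ω.Fx x u).symm ((Ω.σ u w).symm ((Ω.σ w v).symm j)) =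
          (Ω.F w b.1).symm ((Ω.σ w v).symm j) := by
        rw [Equiv.symm_apply_eq, Equiv.symm_apply_eq]
        exact h6.symm
      refine ⟨u, hu, ?_, ?_⟩
      · show (Ω.Fx x u).symm ((Ω.σ u w).symm ((Ω.σ w v).symm j)) ∉ Ω.bd w b.1
        rw [h7]
        exact h4
      · show Ω.F w b.1 ((Ω.Fx x u).symm ((Ω.σ u w).symm ((Ω.σ w v).symm j))) =
          (Ω.σ w v).symm j
        rw [h7, Equiv.apply_symm_apply]
  have hsub : ((Finset.univ : Finset (V → Out K n m)).filter fun x => ¬ Ω.G3 t x v) ⊆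
      ((Finset.univ : Finset (Fin K)).biUnion fun i =>
        ((Finset.univ : Finset (V → Out K n m)).filter fun x =>
          ((1 / m + κ + 4 * δ / ε) * δ + t) * K <
            (((nb Ω.G Ω.W v).filter fun w => i ∈ Ω.Zx x w).card : ℝ))) ∪
      ((Finset.univ : Finset (Fin K)).biUnion fun j =>
        ((Finset.univ : Finset (V → Out K n m)).filter fun x =>
          ((1 / m + κ + 4 * δ / ε) * δ + t) * K <
            (((nb Ω.G Ω.W v).filter fun w =>
              (Ω.Fx x w).symm ((Ω.σ w v).symm j) ∈ Ω.Zx x w).card : ℝ))) := by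
    intro x hx
    have hx' := (Finset.mem_filter.1 hx).2
    unfold Slt.G3 at hx'
    rw [not_and_or, not_forall, not_forall] at hx'
    rw [Finset.mem_union, Finset.mem_biUnion, Finset.mem_biUnion]
    rcases hx' with ⟨i, hi⟩ | ⟨j, hj⟩
    · exact Or.inl ⟨i, Finset.mem_univ _, Finset.mem_filter.2 ⟨Finset.mem_univ _, not_le.1 hi⟩⟩
    · exact Or.inr ⟨j, Finset.mem_univ _, Finset.mem_filter.2 ⟨Finset.mem_univ _, not_le.1 hj⟩⟩
  have h1 : (((Finset.univ : Finset (V → Out K n m)).filter fun x =>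
      ¬ Ω.G3 t x v).card : ℝ) ≤
      ∑ i : Fin K, (((Finset.univ : Finset (V → Out K n m)).filter fun x =>
          ((1 / m + κ + 4 * δ / ε) * δ + t) * K <
            (((nb Ω.G Ω.W v).filter fun w => i ∈ Ω.Zx x w).card : ℝ)).card : ℝ) +
      ∑ j : Fin K, (((Finset.univ : Finset (V → Out K n m)).filter fun x =>
          ((1 / m + κ + 4 * δ / ε) * δ + t) * K <
            (((nb Ω.G Ω.W v).filter fun w =>
              (Ω.Fx x w).symm ((Ω.σ w v).symm j) ∈ Ω.Zx x w).card : ℝ)).card : ℝ) := by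
    have e1 := (Finset.card_le_card hsub).trans ((Finset.card_union_le _ _).trans
      (Nat.add_le_add Finset.card_biUnion_le Finset.card_biUnion_le))
    exact_mod_cast e1
  have h2 := Finset.sum_le_sum (s := (Finset.univ : Finset (Fin K))) fun i _ => hrow i
  have h3 := Finset.sum_le_sum (s := (Finset.univ : Finset (Fin K))) fun j _ => hcol j
  rw [Finset.sum_const, Finset.card_univ, Fintype.card_fin, nsmul_eq_mul] at h2 h3
  have h4 := mul_le_mul_of_nonneg_right hnum hN0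
  have h5 : 2 * (K : ℝ) * (3 * Real.exp (-(c * K))) * N =
      K * (3 * Real.exp (-(c * K)) * N) + K * (3 * Real.exp (-(c * K)) * N) := by ring
  rw [h5] at h4
  linarith

end Pool.Agent.PK
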