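import Pool.Agent.PK.Def2
import Pool.Agent.PK.Cher
import Pool.Agent.PK.Adapt

/-!
# Packing (PK): the event of few conflicts
-/

set_option autoImplicit false

namespace Pool.Agent.PK

open Finset
open Pool.Agent.H24.LP Pool.Agent.H24.LP.Nib

namespace Ev4X

/-- conditioning on all coordinates except `w` -/
theorem avg {V α : Type} [Fintype V] [DecidableEq V] [Fintype α] [Nonempty α]
    (w : V) (P : (V → α) → Prop) [DecidablePred P] {ρ : ℝ}
    (h : ∀ x : V → α, ((Finset.univ.filter fun b : α => P (Function.update x w b)).card : ℝ) ≤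
      ρ * Fintype.card α) :
    (((Finset.univ : Finset (V → α)).filter fun x => P x).card : ℝ) ≤
      ρ * Fintype.card (V → α) := by
  have hpos : (0 : ℝ) < Fintype.card α := by
    exact_mod_cast Fintype.card_pos
  have hkey := adapt_sum w (fun x : V → α => if P x then (1 : ℝ) else 0)
  simp only [Finset.sum_boole] at hkey
  have h1 : ∑ x : V → α, ((((Finset.univ : Finset α).filter fun b =>
      P (Function.update x w b)).card : ℕ) : ℝ) ≤ ∑ _x : V → α, ρ * (Fintype.card α : ℝ) :=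
    Finset.sum_le_sum fun x _ => h x
  rw [hkey, Finset.sum_const, nsmul_eq_mul, Finset.card_univ] at h1
  have h2 : (Fintype.card α : ℝ) * (((Finset.univ : Finset (V → α)).filter fun x => P x).card : ℝ) ≤
      Fintype.card α * (ρ * Fintype.card (V → α)) := by
    refine h1.trans (le_of_eq ?_)
    ring
  exact le_of_mul_le_mul_left h2 hpos

variable {V : Type} [Fintype V] [DecidableEq V] {K n m : ℕ} {ε δ D κ ν C : ℝ}
  (Ω : Slt V K n ε δ D κ ν C)

open Classical in
/-- the cells blocked by the clean rows of the earlier neighbours -/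
noncomputable def A (x : V → Out K n m) (w : V) : Finset (Fin K × Fin K) :=
  Finset.univ.filter fun y => ∃ u ∈ nb Ω.G Ω.W w, Ω.idx u < Ω.idx w ∧
    y.1 ∉ Ω.bx x u ∧ Ω.σ u w (Ω.Fx x u y.1) = y.2

theorem card_Cf (x : V → Out K n m) (w : V) (b : Out K n m) :
    (Ω.Cf (Function.update x w b) w).card = ch (Ω.F w b.1) (Ω.bd w b.1) (A Ω x w) := by
  unfold Slt.Cf ch A
  congr 1
  ext i
  simp only [Finset.mem_filter, Finset.mem_univ, true_and, Slt.bx, Slt.Fx, Function.update_self]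
  refine and_congr Iff.rfl (exists_congr fun u => and_congr Iff.rfl (and_congr_right fun hu => ?_))
  have hne : u ≠ w := by
    rintro rfl
    exact lt_irrefl _ hu
  rw [Function.update_of_ne hne]

theorem card_A (x : V → Out K n m) (w : V) : (A Ω x w).card ≤ (nb Ω.G Ω.W w).card * K := by
  classical
  have hsub : A Ω x w ⊆ (nb Ω.G Ω.W w).biUnion fun u =>
      (Finset.univ : Finset (Fin K)).image fun i => (i, Ω.σ u w (Ω.Fx x u i)) := by
    intro y hy
    obtain ⟨u, hu, -, -, h⟩ := (Finset.mem_filter.1 hy).2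
    refine Finset.mem_biUnion.2 ⟨u, hu, Finset.mem_image.2 ⟨y.1, Finset.mem_univ _, ?_⟩⟩
    rw [h]
  refine (Finset.card_le_card hsub).trans (Finset.card_biUnion_le_card_mul _ _ _ fun u _ => ?_)
  exact Finset.card_image_le.trans (by simp)

theorem mass_A (hε : 0 < ε) (hκ : 0 < κ) (hK : 0 < K) (x : V → Out K n m) {w : V} (hw : w ∈ Ω.W) :
    mass (fun i j => Ω.q1 w i j + Ω.q2 w i j) (A Ω x w) ≤ δ * (1 + κ) / ε * K := by
  have hK0 : (0 : ℝ) < K := by exact_mod_cast hK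
  have hp := Ω.hp w hw
  have hcap : ∀ y ∈ A Ω x w, Ω.q1 w y.1 y.2 + Ω.q2 w y.1 y.2 ≤ (1 + κ) / (ε * K) := by
    intro y _
    refine ((Ω.hlaw w hw).cap y.1 y.2).trans ?_
    gcongr
  have h1 : mass (fun i j => Ω.q1 w i j + Ω.q2 w i j) (A Ω x w) ≤
      (A Ω x w).card * ((1 + κ) / (ε * K)) := by
    unfold mass
    refine (Finset.sum_le_sum hcap).trans (le_of_eq ?_)
    rw [Finset.sum_const, nsmul_eq_mul]
  have h2 : ((A Ω x w).card : ℝ) ≤ δ * K * K := by
    have h3 : ((A Ω x w).card : ℝ) ≤ (nb Ω.G Ω.W w).card * K := by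
      exact_mod_cast card_A Ω x w
    refine h3.trans (mul_le_mul_of_nonneg_right ?_ hK0.le)
    exact Ω.hdeg w (Finset.mem_union_left _ hw)
  refine h1.trans ((mul_le_mul_of_nonneg_right h2 (by positivity)).trans (le_of_eq ?_))
  field_simp

/-- the exponential moment over the outcomes of one vertex -/
theorem mom1 {w : V} (hw : w ∈ Ω.W) (A : Finset (Fin K × Fin K)) {s : ℝ} (hs : 0 ≤ s)
    (hs1 : s ≤ Real.log K ^ 2 / K) :
    ∑ b : Out K n m, Real.exp (s * ch (Ω.F w b.1) (Ω.bd w b.1) A) ≤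
      Real.exp (s * ((1 + κ) * (mass (fun i j => Ω.q1 w i j + Ω.q2 w i j) A + 1))) *
        Fintype.card (Out K n m) := by
  have h1 := (Ω.hsamp w hw).mom A s hs hs1
  have h2 : ∑ b : Out K n m, Real.exp (s * ch (Ω.F w b.1) (Ω.bd w b.1) A) =
      Fintype.card (Fin K → Fin m) * ∑ ω, Real.exp (s * ch (Ω.F w ω) (Ω.bd w ω) A) := by
    rw [Fintype.sum_prod_type, Finset.mul_sum]
    refine Finset.sum_congr rfl fun ω _ => ?_
    change ∑ _y : (Fin K → Fin m), Real.exp (s * ch (Ω.F w ω) (Ω.bd w ω) A) = _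
    rw [Finset.sum_const, nsmul_eq_mul, Finset.card_univ]
  rw [h2]
  refine (mul_le_mul_of_nonneg_left h1 (Nat.cast_nonneg _)).trans (le_of_eq ?_)
  rw [Fintype.card_prod, Fintype.card_fin]
  push_cast
  ring

open Classical in
/-- the probability of many conflicts, given the outcomes of the other vertices -/
theorem tail (hε : 0 < ε) (hκ : 0 < κ) (hK : 0 < K) (x : V → Out K n m) {w : V} (hw : w ∈ Ω.W)
    {s : ℝ} (hs : 0 ≤ s) (hs1 : s ≤ Real.log K ^ 2 / K) :
    (((Finset.univ : Finset (Out K n m)).filter fun b =>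
      ¬ Ω.G4 (Function.update x w b) w).card : ℝ) ≤
      Real.exp (s * ((1 + κ) * (δ * (1 + κ) / ε * K + 1)) - s * (8 * δ / ε * K)) *
        Fintype.card (Out K n m) := by
  set M : ℝ := s * ((1 + κ) * (δ * (1 + κ) / ε * K + 1)) with hM
  have h1 : (((Finset.univ : Finset (Out K n m)).filter fun b =>
      ¬ Ω.G4 (Function.update x w b) w).card : ℝ) * Real.exp (s * (8 * δ / ε * K)) ≤
      Real.exp M * Fintype.card (Out K n m) := by
    calc (((Finset.univ : Finset (Out K n m)).filter fun b =>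
          ¬ Ω.G4 (Function.update x w b) w).card : ℝ) * Real.exp (s * (8 * δ / ε * K))
        = ∑ b ∈ (Finset.univ : Finset (Out K n m)).filter (fun b =>
          ¬ Ω.G4 (Function.update x w b) w), Real.exp (s * (8 * δ / ε * K)) := by
          rw [Finset.sum_const, nsmul_eq_mul]
      _ ≤ ∑ b ∈ (Finset.univ : Finset (Out K n m)).filter (fun b =>
          ¬ Ω.G4 (Function.update x w b) w),
          Real.exp (s * ch (Ω.F w b.1) (Ω.bd w b.1) (A Ω x w)) := by
          refine Finset.sum_le_sum fun b hb => ?_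
          have hb1 := (Finset.mem_filter.1 hb).2
          unfold Slt.G4 at hb1
          rw [card_Cf, not_le] at hb1
          exact Real.exp_le_exp.2 (mul_le_mul_of_nonneg_left hb1.le hs)
      _ ≤ ∑ b : Out K n m, Real.exp (s * ch (Ω.F w b.1) (Ω.bd w b.1) (A Ω x w)) :=
          Finset.sum_le_sum_of_subset_of_nonneg (Finset.filter_subset _ _)
            fun b _ _ => (Real.exp_pos _).le
      _ ≤ Real.exp (s * ((1 + κ) * (mass (fun i j => Ω.q1 w i j + Ω.q2 w i j) (A Ω x w) + 1))) *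
          Fintype.card (Out K n m) := mom1 Ω hw _ hs hs1
      _ ≤ Real.exp M * Fintype.card (Out K n m) := by
          refine mul_le_mul_of_nonneg_right (Real.exp_le_exp.2 ?_) (Nat.cast_nonneg _)
          have h2 := mass_A Ω hε hκ hK x hw
          rw [hM]
          gcongr
  have h3 : Real.exp (M - s * (8 * δ / ε * K)) = Real.exp M / Real.exp (s * (8 * δ / ε * K)) :=
    Real.exp_sub _ _
  rw [h3, div_mul_eq_mul_div, le_div_iff₀ (Real.exp_pos _)]
  exact h1

/-- the number -/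
theorem num {c κ K : ℝ} (hc : 0 < c) (hκ : 0 < κ) (hκ1 : κ ≤ 1 / 4) (hK1 : 1 < K)
    (h1 : 5 / (4 * c) ≤ K) (h2 : 4 / c ≤ Real.log K) :
    Real.log K ^ 2 / K * ((1 + κ) * (c * (1 + κ) * K + 1)) - Real.log K ^ 2 / K * (8 * c * K) ≤
      -(20 * Real.log K) := by
  have hK0 : 0 < K := by linarith
  have hl : 0 < Real.log K := Real.log_pos hK1
  have e1 : Real.log K ^ 2 / K * ((1 + κ) * (c * (1 + κ) * K + 1)) -
      Real.log K ^ 2 / K * (8 * c * K) =
      Real.log K ^ 2 * (c * ((1 + κ) ^ 2 - 8) + (1 + κ) / K) := by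
    field_simp
    ring
  have e2 : (1 + κ) ^ 2 ≤ 2 := by nlinarith
  have e3 : (1 + κ) / K ≤ c := by
    rw [div_le_iff₀ hK0]
    rw [div_le_iff₀ (by positivity)] at h1
    nlinarith
  have e4 : c * ((1 + κ) ^ 2 - 8) + (1 + κ) / K ≤ -(5 * c) := by
    nlinarith
  have e5 : 4 ≤ c * Real.log K := by
    rw [div_le_iff₀ hc] at h2
    linarith
  rw [e1]
  have e6 : Real.log K ^ 2 * (c * ((1 + κ) ^ 2 - 8) + (1 + κ) / K) ≤
      Real.log K ^ 2 * (-(5 * c)) := mul_le_mul_of_nonneg_left e4 (by positivity)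
  nlinarith [mul_le_mul_of_nonneg_left e5 hl.le]

end Ev4X

open Classical in
theorem ev4 {ε δ D κ C : ℝ} (hε : 0 < ε) (hε1 : ε ≤ 1) (hδ : 0 < δ) (hδ1 : δ ≤ 1) (hκ : 0 < κ)
    (hκ1 : κ ≤ 1 / 4) : ∃ K0 : ℕ, ∀ K : ℕ, K0 ≤ K → ∀ (V : Type) [Fintype V]
    [DecidableEq V] (n m : ℕ) (ν : ℝ) (Ω : Slt V K n ε δ D κ ν C), 0 < n → 0 < m →
    ∀ w ∈ Ω.W,
      (((Finset.univ : Finset (V → Out K n m)).filter fun x => ¬ Ω.G4 x w).card : ℝ) ≤
        1 / (K : ℝ) ^ 20 * Fintype.card (V → Out K n m) := by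
  have hc : 0 < δ / ε := by positivity
  refine ⟨⌈Real.exp (4 / (δ / ε))⌉₊ + ⌈5 / (4 * (δ / ε))⌉₊ + 2, ?_⟩
  intro K hK V _ _ n m ν Ω hn hm w hw
  have hKr : (⌈Real.exp (4 / (δ / ε))⌉₊ : ℝ) + ⌈5 / (4 * (δ / ε))⌉₊ + 2 ≤ K := by
    exact_mod_cast hK
  have ha := Nat.le_ceil (Real.exp (4 / (δ / ε)))
  have hb := Nat.le_ceil (5 / (4 * (δ / ε)))
  have hb0 : (0 : ℝ) ≤ (⌈5 / (4 * (δ / ε))⌉₊ : ℝ) := Nat.cast_nonneg _
  have ha0 : (0 : ℝ) < Real.exp (4 / (δ / ε)) := Real.exp_pos _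
  have hK1 : (1 : ℝ) < K := by linarith
  have hK0 : 0 < K := by
    have : (0 : ℝ) < K := by linarith
    exact_mod_cast this
  have hKr0 : (0 : ℝ) < K := by linarith
  have hlog : 4 / (δ / ε) ≤ Real.log K := by
    rw [Real.le_log_iff_exp_le hKr0]
    linarith
  have hnum := Ev4X.num hc hκ hκ1 hK1 (by linarith) hlog
  have _ : Nonempty (Fin n) := ⟨⟨0, hn⟩⟩
  have _ : Nonempty (Fin m) := ⟨⟨0, hm⟩⟩
  refine Ev4X.avg (α := Out K n m) w (fun x => ¬ Ω.G4 x w) fun x => ?_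
  have ht := Ev4X.tail Ω hε hκ hK0 x hw (s := Real.log K ^ 2 / K) (by positivity) le_rfl
  refine ht.trans (mul_le_mul_of_nonneg_right ?_ (Nat.cast_nonneg _))
  have h1 : Real.log K ^ 2 / K * ((1 + κ) * (δ * (1 + κ) / ε * K + 1)) -
      Real.log K ^ 2 / K * (8 * δ / ε * K) ≤ -(20 * Real.log K) := by
    refine le_trans (le_of_eq ?_) hnum
    ring
  refine (Real.exp_le_exp.2 h1).trans (le_of_eq ?_)
  rw [Real.exp_neg, one_div, mul_comm, Real.exp_mul, Real.exp_log hKr0]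
  congr 1
  exact_mod_cast Real.rpow_natCast (K : ℝ) 20

end Pool.Agent.PK
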