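import Pool.Agent.PK.Def2
import Pool.Agent.PK.Cher
import Pool.Agent.PK.Adapt

/-!
# Packing (PK): the events of the random grid
-/

set_option autoImplicit false

namespace Pool.Agent.PK

open Finset
open Pool.Agent.H24.LP Pool.Agent.H24.LP.Nib

namespace Ev5X

theorem num {b : ℝ} (hb : 0 < b) {K : ℕ} (hK : 0 < K)
    (h : 2 * ((22 : ℕ).factorial : ℝ) / b ^ 22 ≤ K) :
    2 * K * Real.exp (-(b * K)) ≤ 1 / (K : ℝ) ^ 20 := by
  have hK' : (0 : ℝ) < K := by exact_mod_cast hK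
  have h1 := Real.pow_div_factorial_le_exp (b * K) (by positivity) 22
  have hf : (0 : ℝ) < ((22 : ℕ).factorial : ℝ) := by exact_mod_cast Nat.factorial_pos 22
  rw [Real.exp_neg, ← div_eq_mul_inv, div_le_div_iff₀ (Real.exp_pos _) (by positivity), one_mul]
  refine le_trans ?_ h1
  rw [le_div_iff₀ hf, mul_pow]
  rw [div_le_iff₀ (by positivity)] at h
  have h2 := mul_le_mul_of_nonneg_right h (by positivity : (0 : ℝ) ≤ (K : ℝ) ^ 21)
  calc 2 * (K : ℝ) * K ^ 20 * ((22 : ℕ).factorial : ℝ)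
      = 2 * ((22 : ℕ).factorial : ℝ) * (K : ℝ) ^ 21 := by ring
    _ ≤ K * b ^ 22 * K ^ 21 := h2
    _ = b ^ 22 * (K : ℝ) ^ 22 := by ring

/-- the mean of a row of the grid -/
theorem mean {m : ℕ} (hm : 0 < m) (c : ℝ) :
    ∑ y : Fin m, (if (y : ℕ) = 0 then c else 0) = c / m * Fintype.card (Fin m) := by
  have hm' : (m : ℝ) ≠ 0 := by exact_mod_cast hm.ne'
  rw [Fintype.card_fin, div_mul_cancel₀ _ hm', Finset.sum_eq_single (⟨0, hm⟩ : Fin m)]
  · simp
  · intro y _ hy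
    rw [if_neg]
    intro h
    exact hy (Fin.ext h)
  · intro h
    exact absurd (Finset.mem_univ _) h

/-- rows of one sample, lower tail -/
theorem low {K m : ℕ} (hK : 0 < K) (hm : 0 < m) {b t : ℝ} (hb : 0 < b) (ht : 0 < t)
    (g : Fin K → ℝ) (hg : ∀ k, 0 ≤ g k ∧ g k ≤ b) :
    (((Finset.univ : Finset (Fin K → Fin m)).filter fun z =>
      ∑ k ∈ Finset.univ.filter (fun k => (z k : ℕ) = 0), g k <
        1 / m * ∑ k, g k - t * K).card : ℝ) ≤
      Real.exp (-(2 * t ^ 2 / b ^ 2 * K)) * Fintype.card (Fin K → Fin m) := by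
  have hK' : (0 : ℝ) < K := by exact_mod_cast hK
  have hne : Nonempty (Fin m) := ⟨⟨0, hm⟩⟩
  have h1 := hoeff_low (V := Fin K) (α := Fin m) Finset.univ
    (fun k y => if (y : ℕ) = 0 then g k else 0) (fun k => g k / m) hb (by
      intro k _ y
      split_ifs
      · exact hg k
      · exact ⟨le_refl _, hb.le⟩) (fun k _ => (mean hm (g k)).ge) (t := t * K) (N := K)
    (by positivity) hK' (by simp)
  have h2 : -(2 * (t * K) ^ 2 / (K * b ^ 2)) = -(2 * t ^ 2 / b ^ 2 * K) := by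
    field_simp
  rw [h2] at h1
  refine (Nat.cast_le.2 (Finset.card_le_card ?_)).trans h1
  intro z hz
  have h3 := (Finset.mem_filter.1 hz).2
  refine Finset.mem_filter.2 ⟨Finset.mem_univ _, ?_⟩
  rw [← Finset.sum_filter, ← Finset.sum_div]
  have h4 : (∑ k, g k) / m = 1 / m * ∑ k, g k := by ring
  rw [h4]
  exact h3.le

/-- rows of one sample, upper tail -/
theorem upp {K m : ℕ} (hK : 0 < K) (hm : 0 < m) {b t : ℝ} (hb : 0 < b) (ht : 0 < t)
    (g : Fin K → ℝ) (hg : ∀ k, 0 ≤ g k ∧ g k ≤ b) :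
    (((Finset.univ : Finset (Fin K → Fin m)).filter fun z =>
      1 / m * ∑ k, g k + t * K <
      ∑ k ∈ Finset.univ.filter (fun k => (z k : ℕ) = 0), g k).card : ℝ) ≤
      Real.exp (-(2 * t ^ 2 / b ^ 2 * K)) * Fintype.card (Fin K → Fin m) := by
  have hK' : (0 : ℝ) < K := by exact_mod_cast hK
  have hne : Nonempty (Fin m) := ⟨⟨0, hm⟩⟩
  have h1 := hoeff (V := Fin K) (α := Fin m) Finset.univ
    (fun k y => if (y : ℕ) = 0 then g k else 0) (fun k => g k / m) hb (by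
      intro k _ y
      split_ifs
      · exact hg k
      · exact ⟨le_refl _, hb.le⟩) (fun k _ => (mean hm (g k)).le) (t := t * K) (N := K)
    (by positivity) hK' (by simp)
  have h2 : -(2 * (t * K) ^ 2 / (K * b ^ 2)) = -(2 * t ^ 2 / b ^ 2 * K) := by
    field_simp
  rw [h2] at h1
  refine (Nat.cast_le.2 (Finset.card_le_card ?_)).trans h1
  intro z hz
  have h3 := (Finset.mem_filter.1 hz).2
  refine Finset.mem_filter.2 ⟨Finset.mem_univ _, ?_⟩
  rw [← Finset.sum_filter, ← Finset.sum_div]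
  have h4 : (∑ k, g k) / m = 1 / m * ∑ k, g k := by ring
  rw [h4]
  exact h3.le

/-- from one sample to one vertex -/
theorem one {V : Type} [Fintype V] [DecidableEq V] {K n m : ℕ} (hn : 0 < n) (hm : 0 < m) (w : V)
    {ρ : ℝ} (P : Fin n → (Fin K → Fin m) → Prop) [∀ ω z, Decidable (P ω z)]
    (h : ∀ ω, (((Finset.univ : Finset (Fin K → Fin m)).filter fun z => P ω z).card : ℝ) ≤
      ρ * Fintype.card (Fin K → Fin m)) :
    (((Finset.univ : Finset (V → Out K n m)).filter fun x => P (x w).1 (x w).2).card : ℝ) ≤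
      ρ * Fintype.card (V → Out K n m) := by
  have hne : Nonempty (Out K n m) := ⟨(⟨0, hn⟩, fun _ => ⟨0, hm⟩)⟩
  have h0 := coord_one w (fun y : Out K n m => P y.1 y.2) (ρ := ρ) ?_
  · refine le_trans (le_of_eq ?_) h0
    congr!
  have h1 : (((Finset.univ : Finset (Out K n m)).filter fun y => P y.1 y.2).card : ℝ) =
      ∑ ω : Fin n, (((Finset.univ : Finset (Fin K → Fin m)).filter fun z => P ω z).card : ℝ) := by
    rw [Finset.card_filter]
    push_cast
    rw [Fintype.sum_prod_type]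
    refine Finset.sum_congr rfl fun ω _ => ?_
    rw [Finset.card_filter]
    push_cast
    rfl
  have h2 : (((Finset.univ : Finset (Out K n m)).filter fun y => P y.1 y.2).card : ℝ) ≤
      ρ * Fintype.card (Out K n m) := by
    rw [h1]
    refine (Finset.sum_le_sum fun ω _ => h ω).trans (le_of_eq ?_)
    rw [Finset.sum_const, Finset.card_univ, nsmul_eq_mul, Fintype.card_prod]
    push_cast
    ring
  refine le_trans (le_of_eq ?_) h2
  congr!

/-- union over all lines -/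
theorem union {V : Type} [Fintype V] [DecidableEq V] {K n m : ℕ} {ρ : ℝ}
    (P : (V → Out K n m) → Prop) (Pr Pc : Fin K → (V → Out K n m) → Prop)
    [DecidablePred P] [∀ i, DecidablePred (Pr i)] [∀ i, DecidablePred (Pc i)]
    (hP : ∀ x, P x → (∃ i, Pr i x) ∨ ∃ j, Pc j x)
    (hr : ∀ i, (((Finset.univ : Finset (V → Out K n m)).filter fun x => Pr i x).card : ℝ) ≤
      ρ * Fintype.card (V → Out K n m))
    (hc : ∀ j, (((Finset.univ : Finset (V → Out K n m)).filter fun x => Pc j x).card : ℝ) ≤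
      ρ * Fintype.card (V → Out K n m)) :
    (((Finset.univ : Finset (V → Out K n m)).filter fun x => P x).card : ℝ) ≤
      2 * K * ρ * Fintype.card (V → Out K n m) := by
  have hsub : ((Finset.univ : Finset (V → Out K n m)).filter fun x => P x) ⊆
      ((Finset.univ : Finset (Fin K)).biUnion fun i =>
        (Finset.univ : Finset (V → Out K n m)).filter fun x => Pr i x) ∪
      ((Finset.univ : Finset (Fin K)).biUnion fun j =>
        (Finset.univ : Finset (V → Out K n m)).filter fun x => Pc j x) := by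
    intro x hx
    rw [Finset.mem_union]
    rcases hP x (Finset.mem_filter.1 hx).2 with ⟨i, hi⟩ | ⟨j, hj⟩
    · exact Or.inl (Finset.mem_biUnion.2 ⟨i, Finset.mem_univ _,
        Finset.mem_filter.2 ⟨Finset.mem_univ _, hi⟩⟩)
    · exact Or.inr (Finset.mem_biUnion.2 ⟨j, Finset.mem_univ _,
        Finset.mem_filter.2 ⟨Finset.mem_univ _, hj⟩⟩)
  have h1 := (Finset.card_le_card hsub).trans ((Finset.card_union_le _ _).trans
    (add_le_add Finset.card_biUnion_le Finset.card_biUnion_le))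
  refine (Nat.cast_le.2 h1).trans ?_
  push_cast
  have h2 := Finset.sum_le_sum fun i (_ : i ∈ (Finset.univ : Finset (Fin K))) => hr i
  have h3 := Finset.sum_le_sum fun j (_ : j ∈ (Finset.univ : Finset (Fin K))) => hc j
  rw [Finset.sum_const, Finset.card_univ, nsmul_eq_mul, Fintype.card_fin] at h2 h3
  linarith

theorem sum_perm {K : ℕ} (F : Equiv.Perm (Fin K)) (f : Fin K → ℝ) :
    ∑ k, f (F k) = ∑ j, f j := Equiv.sum_comp F f

theorem card_sum {K : ℕ} (s : Finset (Fin K)) (P : Fin K → Prop) [DecidablePred P] :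
    ((s.filter P).card : ℝ) = ∑ k ∈ s, (if P k then (1 : ℝ) else 0) := by
  rw [Finset.card_filter]
  push_cast
  rfl

end Ev5X

open Classical in
theorem ev5 {ε δ D κ C t : ℝ} (ht : 0 < t) : ∃ K0 : ℕ, ∀ K : ℕ, K0 ≤ K → ∀ (V : Type) [Fintype V]
    [DecidableEq V] (n m : ℕ) (ν : ℝ) (Ω : Slt V K n ε δ D κ ν C), 0 < n → 0 < m →
    ∀ w ∈ Ω.W,
      (((Finset.univ : Finset (V → Out K n m)).filter fun x => ¬ Ω.G5 t x w).card : ℝ) ≤
        1 / (K : ℝ) ^ 20 * Fintype.card (V → Out K n m) := by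
  have hb : 0 < 2 * t ^ 2 / (1 : ℝ) ^ 2 := by positivity
  refine ⟨⌈2 * ((22 : ℕ).factorial : ℝ) / (2 * t ^ 2 / (1 : ℝ) ^ 2) ^ 22⌉₊ + 1, ?_⟩
  intro K hK V _ _ n m ν Ω hn hm w hw
  have hK0 : 0 < K := by omega
  have hnum := Ev5X.num hb hK0 (Nat.ceil_le.1 (by omega))
  have hX0 : (0 : ℝ) ≤ ((Fintype.card (V → Out K n m) : ℕ) : ℝ) := Nat.cast_nonneg _
  refine le_trans ?_ (mul_le_mul_of_nonneg_right hnum hX0)
  refine Ev5X.union (fun x => ¬ Ω.G5 t x w)
    (fun i x => ∑ k ∈ Finset.univ.filter (fun k => ((x w).2 k : ℕ) = 0),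
      (if (i, Ω.F w (x w).1 k) ∈ Ω.Bv w then (1 : ℝ) else 0) <
      1 / m * ∑ k, (if (i, Ω.F w (x w).1 k) ∈ Ω.Bv w then (1 : ℝ) else 0) - t * K)
    (fun j x => ∑ k ∈ Finset.univ.filter (fun k => ((x w).2 k : ℕ) = 0),
      (if (k, j) ∈ Ω.Bv w then (1 : ℝ) else 0) <
      1 / m * ∑ k, (if (k, j) ∈ Ω.Bv w then (1 : ℝ) else 0) - t * K) ?_ ?_ ?_
  · intro x hx
    unfold Slt.G5 at hx
    rw [not_and_or] at hx
    rcases hx with hx | hx
    · left
      rw [not_forall] at hx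
      obtain ⟨i, hi⟩ := hx
      refine ⟨i, ?_⟩
      rw [not_le, Ev5X.card_sum, Ev5X.card_sum] at hi
      rw [Ev5X.sum_perm (Ω.F w (x w).1) fun j => if (i, j) ∈ Ω.Bv w then (1 : ℝ) else 0]
      exact hi
    · right
      rw [not_forall] at hx
      obtain ⟨j, hj⟩ := hx
      refine ⟨j, ?_⟩
      rw [not_le, Ev5X.card_sum, Ev5X.card_sum] at hj
      exact hj
  · intro i
    refine Ev5X.one hn hm w (fun ω z => ∑ k ∈ Finset.univ.filter (fun k => (z k : ℕ) = 0),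
      (if (i, Ω.F w ω k) ∈ Ω.Bv w then (1 : ℝ) else 0) <
      1 / m * ∑ k, (if (i, Ω.F w ω k) ∈ Ω.Bv w then (1 : ℝ) else 0) - t * K) fun ω => ?_
    refine Ev5X.low hK0 hm one_pos ht _ fun k => ?_
    split_ifs
    · exact ⟨zero_le_one, le_refl _⟩
    · exact ⟨le_refl _, zero_le_one⟩
  · intro j
    refine Ev5X.one hn hm w (fun _ z => ∑ k ∈ Finset.univ.filter (fun k => (z k : ℕ) = 0),
      (if (k, j) ∈ Ω.Bv w then (1 : ℝ) else 0) <
      1 / m * ∑ k, (if (k, j) ∈ Ω.Bv w then (1 : ℝ) else 0) - t * K) fun ω => ?_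
    refine Ev5X.low hK0 hm one_pos ht _ fun k => ?_
    split_ifs
    · exact ⟨zero_le_one, le_refl _⟩
    · exact ⟨le_refl _, zero_le_one⟩

open Classical in
theorem ev6 {ε δ D κ C t : ℝ} (hC : 0 < C) (ht : 0 < t) : ∃ K0 : ℕ, ∀ K : ℕ, K0 ≤ K →
    ∀ (V : Type) [Fintype V] [DecidableEq V] (n m : ℕ) (ν : ℝ) (Ω : Slt V K n ε δ D κ ν C),
    0 < n → 0 < m → ∀ w ∈ Ω.W,
      (((Finset.univ : Finset (V → Out K n m)).filter fun x => ¬ Ω.G6 t x w).card : ℝ) ≤
        1 / (K : ℝ) ^ 20 * Fintype.card (V → Out K n m) := by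
  have hC1 : 0 < C + 1 := by linarith
  have hb : 0 < 2 * t ^ 2 / (C + 1) ^ 2 := by positivity
  refine ⟨⌈2 * ((22 : ℕ).factorial : ℝ) / (2 * t ^ 2 / (C + 1) ^ 2) ^ 22⌉₊ + 1, ?_⟩
  intro K hK V _ _ n m ν Ω hn hm w hw
  have hK0 : 0 < K := by omega
  have hnum := Ev5X.num hb hK0 (Nat.ceil_le.1 (by omega))
  have hX0 : (0 : ℝ) ≤ ((Fintype.card (V → Out K n m) : ℕ) : ℝ) := Nat.cast_nonneg _
  have hR : ∀ i j, 0 ≤ Ω.R w i j ∧ Ω.R w i j ≤ C + 1 := by
    intro i j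
    have hst := Ω.hst w hw
    refine ⟨hst.R0 i j, ?_⟩
    have h1 := hst.Rc i j
    have h2 := Ω.hc w hw
    have h3 : (if (i, j) ∈ Al Ω.G Ω.σ Ω.Q Ω.π w then (0 : ℝ) else 1) ≤ 1 := by
      split_ifs <;> norm_num
    linarith
  refine le_trans ?_ (mul_le_mul_of_nonneg_right hnum hX0)
  refine Ev5X.union (fun x => ¬ Ω.G6 t x w)
    (fun i x => 1 / m * ∑ k, Ω.R w i (Ω.F w (x w).1 k) + t * K <
      ∑ k ∈ Finset.univ.filter (fun k => ((x w).2 k : ℕ) = 0), Ω.R w i (Ω.F w (x w).1 k))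
    (fun j x => 1 / m * ∑ k, Ω.R w k j + t * K <
      ∑ k ∈ Finset.univ.filter (fun k => ((x w).2 k : ℕ) = 0), Ω.R w k j) ?_ ?_ ?_
  · intro x hx
    unfold Slt.G6 at hx
    rw [not_and_or] at hx
    rcases hx with hx | hx
    · left
      rw [not_forall] at hx
      obtain ⟨i, hi⟩ := hx
      refine ⟨i, ?_⟩
      rw [not_le] at hi
      rw [Ev5X.sum_perm (Ω.F w (x w).1) fun j => Ω.R w i j]
      exact hi
    · right
      rw [not_forall] at hx
      obtain ⟨j, hj⟩ := hx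
      refine ⟨j, ?_⟩
      rw [not_le] at hj
      exact hj
  · intro i
    refine Ev5X.one hn hm w (fun ω z => 1 / m * ∑ k, Ω.R w i (Ω.F w ω k) + t * K <
      ∑ k ∈ Finset.univ.filter (fun k => (z k : ℕ) = 0), Ω.R w i (Ω.F w ω k)) fun ω => ?_
    exact Ev5X.upp hK0 hm hC1 ht _ fun k => hR _ _
  · intro j
    refine Ev5X.one hn hm w (fun _ z => 1 / m * ∑ k, Ω.R w k j + t * K <
      ∑ k ∈ Finset.univ.filter (fun k => (z k : ℕ) = 0), Ω.R w k j) fun ω => ?_
    exact Ev5X.upp hK0 hm hC1 ht _ fun k => hR _ _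

open Classical in
theorem ev7 {t : ℝ} (ht : 0 < t) : ∃ K0 : ℕ, ∀ K : ℕ, K0 ≤ K → ∀ (V : Type) [Fintype V]
    [DecidableEq V] (n m : ℕ), 0 < n → 0 < m → ∀ w : V,
      (((Finset.univ : Finset (V → Out K n m)).filter fun x => ¬ Slt.G7 t x w).card : ℝ) ≤
        1 / (K : ℝ) ^ 20 * Fintype.card (V → Out K n m) := by
  have hb : 0 < 2 * t ^ 2 / (1 : ℝ) ^ 2 := by positivity
  refine ⟨⌈2 * ((22 : ℕ).factorial : ℝ) / (2 * t ^ 2 / (1 : ℝ) ^ 2) ^ 22⌉₊ + 1, ?_⟩
  intro K hK V _ _ n m hn hm w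
  have hK0 : 0 < K := by omega
  have hK' : (1 : ℝ) ≤ K := by exact_mod_cast hK0
  have hnum := Ev5X.num hb hK0 (Nat.ceil_le.1 (by omega))
  have hX0 : (0 : ℝ) ≤ ((Fintype.card (V → Out K n m) : ℕ) : ℝ) := Nat.cast_nonneg _
  refine le_trans ?_ (mul_le_mul_of_nonneg_right hnum hX0)
  have h1 := Ev5X.one hn hm w (fun _ z => ∑ k ∈ Finset.univ.filter (fun k => (z k : ℕ) = 0),
      (1 : ℝ) < 1 / m * ∑ _k : Fin K, (1 : ℝ) - t * K) (ρ :=
      Real.exp (-(2 * t ^ 2 / (1 : ℝ) ^ 2 * K))) (fun ω => Ev5X.low hK0 hm one_pos ht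
        (fun _ => 1) fun _ => ⟨zero_le_one, le_refl _⟩)
  refine (Nat.cast_le.2 (Finset.card_le_card ?_)).trans (h1.trans ?_)
  · intro x hx
    have h2 := (Finset.mem_filter.1 hx).2
    refine Finset.mem_filter.2 ⟨Finset.mem_univ _, ?_⟩
    unfold Slt.G7 at h2
    rw [not_le] at h2
    simp only [Finset.sum_const, Finset.card_univ, Fintype.card_fin, nsmul_eq_mul, mul_one]
    exact h2
  · refine mul_le_mul_of_nonneg_right ?_ hX0
    have h3 := (Real.exp_pos (-(2 * t ^ 2 / (1 : ℝ) ^ 2 * K))).le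
    nlinarith

end Pool.Agent.PK
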