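import Pool.Agent.H16.Cube.Lll

/-!
# The local lemma
-/

set_option autoImplicit false

namespace Pool.Agent.PK

open Finset

open Classical in
theorem local_lemma {V α : Type} [Fintype V] [DecidableEq V] [Fintype α] [DecidableEq α]
    [Nonempty α] (P : V → (V → α) → Prop) (S : V → Finset V)
    (hdep : ∀ v, ∀ x y : V → α, (∀ u ∈ S v, x u = y u) → P v x → P v y) {q : ℝ} (hq0 : 0 ≤ q)
    (hq : ∀ v, (((Finset.univ : Finset (V → α)).filter fun x => ¬ P v x).card : ℝ) ≤
      q * Fintype.card (V → α)) (D : ℕ)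
    (hD : ∀ v, ((Finset.univ.filter fun u => ¬ Disjoint (S v) (S u)).card) ≤ D)
    (h4 : 4 * q * D ≤ 1) (h2 : 2 * q < 1) : ∃ x : V → α, ∀ v, P v x := by
  set E : V → Finset (V → α) := fun v => (Finset.univ : Finset (V → α)).filter fun x => ¬ P v x
    with hE
  have hdepE : ∀ v, Pool.Agent.H16.Cube.DependsOn (E v) (S v) := by
    intro v x y hxy hx
    simp only [hE, mem_filter, mem_univ, true_and] at hx ⊢
    intro hy
    exact hx (hdep v y x (fun u hu => (hxy u hu).symm) hy)
  have hD' : ∀ v, (univ.filter (fun z => z ≠ v ∧ ¬ Disjoint (S v) (S z))).card ≤ D := by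
    intro v
    refine le_trans (card_le_card ?_) (hD v)
    intro z hz
    simp only [mem_filter, mem_univ, true_and] at hz ⊢
    exact hz.2
  have h := Pool.Agent.H16.Cube.lll (E := E) (S := S) hdepE hq0 hq
    (fun v => by convert hD' v using 2) h4 h2.le
  have hpos : (0 : ℝ) < (1 - 2 * q) ^ Fintype.card V * Fintype.card (V → α) := by
    refine mul_pos (pow_pos (by linarith) _) ?_
    exact_mod_cast Fintype.card_pos
  have h0 : 0 < (Pool.Agent.H16.Cube.avoid E univ).card := by
    have := lt_of_lt_of_le hpos h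
    exact_mod_cast this
  obtain ⟨x, hx⟩ := card_pos.mp h0
  refine ⟨x, fun v => ?_⟩
  simp only [Pool.Agent.H16.Cube.avoid, mem_filter, mem_univ, true_and, forall_const, hE,
    not_not] at hx
  exact hx v

end Pool.Agent.PK
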