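import Pool.Agent.PK.Ev1
import Pool.Agent.PK.Ev2
import Pool.Agent.PK.Ev3
import Pool.Agent.PK.Ev4
import Pool.Agent.PK.Ev5
import Pool.Agent.PK.Lll

/-!
# Packing (PK): the choice of the outcomes
-/

set_option autoImplicit false

namespace Pool.Agent.PK

open Finset
open Pool.Agent.H24.LP Pool.Agent.H24.LP.Nib

namespace Chc

theorem bad_and {α : Type} [Fintype α] {A B : α → Prop} {i1 : DecidablePred fun x => ¬ A x}
    {i2 : DecidablePred fun x => ¬ B x} {i3 : DecidablePred fun x => ¬ (A x ∧ B x)} {a b : ℝ}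
    (hA : ((@Finset.filter α (fun x => ¬ A x) i1 Finset.univ).card : ℝ) ≤ a)
    (hB : ((@Finset.filter α (fun x => ¬ B x) i2 Finset.univ).card : ℝ) ≤ b) :
    ((@Finset.filter α (fun x => ¬ (A x ∧ B x)) i3 Finset.univ).card : ℝ) ≤ a + b := by
  classical
  have h : (@Finset.filter α (fun x => ¬ (A x ∧ B x)) i3 Finset.univ) ⊆
      (@Finset.filter α (fun x => ¬ A x) i1 Finset.univ) ∪
        (@Finset.filter α (fun x => ¬ B x) i2 Finset.univ) := by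
    intro x hx
    simp only [mem_filter, mem_univ, true_and, mem_union] at hx ⊢
    tauto
  have h2 := (card_le_card h).trans (card_union_le _ _)
  have h3 : (((@Finset.filter α (fun x => ¬ (A x ∧ B x)) i3 Finset.univ).card : ℕ) : ℝ) ≤
      (((@Finset.filter α (fun x => ¬ A x) i1 Finset.univ).card +
        (@Finset.filter α (fun x => ¬ B x) i2 Finset.univ).card : ℕ) : ℝ) := by
    exact_mod_cast h2
  push_cast at h3
  linarith

theorem bad_imp {α : Type} [Fintype α] {c : Prop} {A : α → Prop}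
    {i1 : DecidablePred fun x => ¬ A x} {i2 : DecidablePred fun x => ¬ (c → A x)} {a : ℝ}
    (ha : 0 ≤ a)
    (hA : c → ((@Finset.filter α (fun x => ¬ A x) i1 Finset.univ).card : ℝ) ≤ a) :
    ((@Finset.filter α (fun x => ¬ (c → A x)) i2 Finset.univ).card : ℝ) ≤ a := by
  by_cases hc : c
  · refine le_trans ?_ (hA hc)
    exact_mod_cast card_le_card (fun x hx => by
      simp only [mem_filter, mem_univ, true_and] at hx ⊢
      tauto)
  · have h : (@Finset.filter α (fun x => ¬ (c → A x)) i2 Finset.univ) = ∅ := by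
      apply filter_eq_empty_iff.mpr
      intro x _ h
      exact h fun hc' => (hc hc').elim
    rw [h]
    simpa using ha

section Dep

variable {V : Type} [Fintype V] [DecidableEq V] {K n m : ℕ} {ε δ D κ ν C : ℝ}
  (Ω : Slt V K n ε δ D κ ν C)

/-- the dependence set of the events of a vertex -/
noncomputable def Sd (v : V) : Finset V :=
  if v ∈ Ω.W ∪ Ω.U then
    insert v (nb Ω.G Ω.W v ∪ (nb Ω.G Ω.W v).biUnion fun w => nb Ω.G Ω.W w)
  else ∅

variable {Ω}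

theorem Cf_congr {x y : V → Out K n m} {w : V} (hw : x w = y w)
    (h : ∀ u ∈ nb Ω.G Ω.W w, x u = y u) : Ω.Cf x w = Ω.Cf y w := by
  classical
  unfold Slt.Cf Slt.bx Slt.Fx
  ext i
  simp only [mem_filter, mem_univ, true_and, hw]
  refine and_congr_right fun _ => ?_
  refine exists_congr fun u => ?_
  refine and_congr_right fun hu => ?_
  rw [h u hu]

theorem Zx_congr {x y : V → Out K n m} {w : V} (hw : x w = y w)
    (h : ∀ u ∈ nb Ω.G Ω.W w, x u = y u) : Ω.Zx x w = Ω.Zx y w := by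
  unfold Slt.Zx
  rw [Cf_congr hw h]
  unfold Slt.Z0 Slt.bx
  rw [hw]

theorem hit_congr {x y : V → Out K n m} {v : V} (h : ∀ w ∈ nb Ω.G Ω.W v, x w = y w)
    (A : Finset (Fin K × Fin K)) : Ω.hit x v A = Ω.hit y v A := by
  unfold Slt.hit Slt.Fx Slt.bx
  exact sum_congr rfl fun w hw => by rw [h w hw]

theorem mem_Sd {u v : V} : u ∈ Sd Ω v ↔ v ∈ Ω.W ∪ Ω.U ∧
    (u = v ∨ u ∈ nb Ω.G Ω.W v ∨ ∃ w ∈ nb Ω.G Ω.W v, u ∈ nb Ω.G Ω.W w) := by
  unfold Sd
  split_ifs with h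
  · simp only [mem_insert, mem_union, mem_biUnion, h, true_and]
  · simp [h]

theorem dep {t : ℝ} {v : V} {x y : V → Out K n m} (hxy : ∀ u ∈ Sd Ω v, x u = y u)
    (hx : (v ∈ Ω.W ∪ Ω.U → Ω.G1 t x v ∧ Ω.G2 t x v ∧ Ω.G3 t x v) ∧
      (v ∈ Ω.W → Ω.G4 x v ∧ Ω.G5 t x v ∧ Ω.G6 t x v ∧ Slt.G7 t x v)) :
    (v ∈ Ω.W ∪ Ω.U → Ω.G1 t y v ∧ Ω.G2 t y v ∧ Ω.G3 t y v) ∧
      (v ∈ Ω.W → Ω.G4 y v ∧ Ω.G5 t y v ∧ Ω.G6 t y v ∧ Slt.G7 t y v) := by
  classical
  refine ⟨fun hv => ?_, fun hv => ?_⟩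
  · have e1 : ∀ w ∈ nb Ω.G Ω.W v, x w = y w := fun w hw =>
      hxy w (mem_Sd.mpr ⟨hv, Or.inr (Or.inl hw)⟩)
    have e2 : ∀ w ∈ nb Ω.G Ω.W v, Ω.Zx x w = Ω.Zx y w := fun w hw =>
      Zx_congr (e1 w hw) fun u hu => hxy u (mem_Sd.mpr ⟨hv, Or.inr (Or.inr ⟨w, hw, hu⟩)⟩)
    obtain ⟨h1, h2, h3⟩ := hx.1 hv
    refine ⟨?_, ?_, ?_⟩
    · intro S T
      rw [← hit_congr e1]
      exact h1 S T
    · refine ⟨fun i => ?_, fun j => ?_⟩
      · rw [← hit_congr e1]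
        exact h2.1 i
      · rw [← hit_congr e1]
        exact h2.2 j
    · refine ⟨fun i => ?_, fun j => ?_⟩
      · have e3 : ((nb Ω.G Ω.W v).filter fun w => i ∈ Ω.Zx y w) =
            (nb Ω.G Ω.W v).filter fun w => i ∈ Ω.Zx x w :=
          filter_congr fun w hw => by rw [e2 w hw]
        rw [e3]
        exact h3.1 i
      · have e3 : ((nb Ω.G Ω.W v).filter fun w =>
            (Ω.Fx y w).symm ((Ω.σ w v).symm j) ∈ Ω.Zx y w) =
            (nb Ω.G Ω.W v).filter fun w =>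
              (Ω.Fx x w).symm ((Ω.σ w v).symm j) ∈ Ω.Zx x w :=
          filter_congr fun w hw => by
            rw [e2 w hw]
            unfold Slt.Fx
            rw [e1 w hw]
        rw [e3]
        exact h3.2 j
  · have hv' : v ∈ Ω.W ∪ Ω.U := mem_union_left _ hv
    have e0 : x v = y v := hxy v (mem_Sd.mpr ⟨hv', Or.inl rfl⟩)
    have e1 : ∀ w ∈ nb Ω.G Ω.W v, x w = y w := fun w hw =>
      hxy w (mem_Sd.mpr ⟨hv', Or.inr (Or.inl hw)⟩)
    obtain ⟨h4, h5, h6, h7⟩ := hx.2 hv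
    have eZ : Slt.Z0 x v = Slt.Z0 y v := by
      unfold Slt.Z0
      rw [e0]
    have eF : Ω.Fx x v = Ω.Fx y v := by
      unfold Slt.Fx
      rw [e0]
    refine ⟨?_, ?_, ?_, ?_⟩
    · unfold Slt.G4
      rw [← Cf_congr e0 e1]
      exact h4
    · unfold Slt.G5
      rw [← eZ, ← eF]
      exact h5
    · unfold Slt.G6
      rw [← eZ, ← eF]
      exact h6
    · unfold Slt.G7
      rw [← eZ]
      exact h7

theorem card_Sd (hδ : 0 ≤ δ) (v : V) : ((Sd Ω v).card : ℝ) ≤ 1 + δ * K + δ ^ 2 * K ^ 2 := by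
  unfold Sd
  split_ifs with h
  · have hb : ((((nb Ω.G Ω.W v).biUnion fun w => nb Ω.G Ω.W w).card : ℕ) : ℝ) ≤
        δ * K * (δ * K) := by
      have h1 : ((((nb Ω.G Ω.W v).biUnion fun w => nb Ω.G Ω.W w).card : ℕ) : ℝ) ≤
          ∑ w ∈ nb Ω.G Ω.W v, ((nb Ω.G Ω.W w).card : ℝ) := by
        exact_mod_cast card_biUnion_le
      refine h1.trans ?_
      have h2 : ∑ w ∈ nb Ω.G Ω.W v, ((nb Ω.G Ω.W w).card : ℝ) ≤
          ∑ w ∈ nb Ω.G Ω.W v, δ * K := by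
        refine sum_le_sum fun w hw => ?_
        have hwW : w ∈ Ω.W := (mem_nb.mp hw).1
        exact Ω.hdeg w (mem_union_left _ hwW)
      refine h2.trans ?_
      rw [sum_const, nsmul_eq_mul]
      exact mul_le_mul_of_nonneg_right (Ω.hdeg v h) (by positivity)
    have h3 := (card_insert_le v (nb Ω.G Ω.W v ∪
      (nb Ω.G Ω.W v).biUnion fun w => nb Ω.G Ω.W w)).trans
      (Nat.add_le_add_right (card_union_le _ _) 1)
    have h4 : (((insert v (nb Ω.G Ω.W v ∪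
        (nb Ω.G Ω.W v).biUnion fun w => nb Ω.G Ω.W w)).card : ℕ) : ℝ) ≤
        (((nb Ω.G Ω.W v).card + ((nb Ω.G Ω.W v).biUnion fun w => nb Ω.G Ω.W w).card + 1 : ℕ) :
          ℝ) := by
      exact_mod_cast h3
    push_cast at h4
    have h5 := Ω.hdeg v h
    nlinarith
  · simp only [card_empty, Nat.cast_zero]
    positivity

theorem card_inv (hδ : 0 ≤ δ) (hD : 0 ≤ D) (z : V) :
    (((Finset.univ.filter fun u => z ∈ Sd Ω u).card : ℕ) : ℝ) ≤
      1 + D * K + δ * D * K ^ 2 := by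
  classical
  by_cases hz : z ∈ Ω.W
  · have hsub : (Finset.univ.filter fun u => z ∈ Sd Ω u) ⊆
        insert z (nb Ω.G (Ω.W ∪ Ω.U) z ∪
          (nb Ω.G Ω.W z).biUnion fun w => nb Ω.G (Ω.W ∪ Ω.U) w) := by
      intro u hu
      simp only [mem_filter, mem_univ, true_and] at hu
      obtain ⟨huW, hu⟩ := mem_Sd.mp hu
      simp only [mem_insert, mem_union, mem_biUnion, mem_nb] at hu ⊢
      simp only [mem_union] at huW
      rcases hu with rfl | ⟨_, h⟩ | ⟨w, ⟨hwW, hw1⟩, _, hw2⟩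
      · exact Or.inl rfl
      · exact Or.inr (Or.inl ⟨huW, h.symm⟩)
      · exact Or.inr (Or.inr ⟨w, ⟨hwW, hw2.symm⟩, huW, hw1.symm⟩)
    have hb : ((((nb Ω.G Ω.W z).biUnion fun w => nb Ω.G (Ω.W ∪ Ω.U) w).card : ℕ) : ℝ) ≤
        δ * K * (D * K) := by
      have h1 : ((((nb Ω.G Ω.W z).biUnion fun w => nb Ω.G (Ω.W ∪ Ω.U) w).card : ℕ) : ℝ) ≤
          ∑ w ∈ nb Ω.G Ω.W z, ((nb Ω.G (Ω.W ∪ Ω.U) w).card : ℝ) := by
        exact_mod_cast card_biUnion_le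
      refine h1.trans ?_
      have h2 : ∑ w ∈ nb Ω.G Ω.W z, ((nb Ω.G (Ω.W ∪ Ω.U) w).card : ℝ) ≤
          ∑ w ∈ nb Ω.G Ω.W z, D * K := by
        refine sum_le_sum fun w hw => ?_
        have hwW : w ∈ Ω.W := (mem_nb.mp hw).1
        exact Ω.hD w hwW
      refine h2.trans ?_
      rw [sum_const, nsmul_eq_mul]
      exact mul_le_mul_of_nonneg_right (Ω.hdeg z (mem_union_left _ hz)) (by positivity)
    have h3 := (card_le_card hsub).trans ((card_insert_le z _).trans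
      (Nat.add_le_add_right (card_union_le _ _) 1))
    have h4 : (((Finset.univ.filter fun u => z ∈ Sd Ω u).card : ℕ) : ℝ) ≤
        (((nb Ω.G (Ω.W ∪ Ω.U) z).card +
          ((nb Ω.G Ω.W z).biUnion fun w => nb Ω.G (Ω.W ∪ Ω.U) w).card + 1 : ℕ) : ℝ) := by
      exact_mod_cast h3
    push_cast at h4
    have h5 := Ω.hD z hz
    nlinarith
  · have hsub : (Finset.univ.filter fun u => z ∈ Sd Ω u) ⊆ {z} := by
      intro u hu
      simp only [mem_filter, mem_univ, true_and] at hu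
      obtain ⟨huW, hu⟩ := mem_Sd.mp hu
      simp only [mem_nb, hz, false_and, and_false, or_false, exists_false] at hu
      simp only [mem_singleton]
      exact hu.symm
    have h3 := card_le_card hsub
    rw [card_singleton] at h3
    have h4 : (((Finset.univ.filter fun u => z ∈ Sd Ω u).card : ℕ) : ℝ) ≤ 1 := by
      exact_mod_cast h3
    have h5 : 0 ≤ D * K + δ * D * K ^ 2 := by positivity
    linarith

theorem card_dep (hδ : 0 ≤ δ) (hD : 0 ≤ D) (v : V) :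
    (((Finset.univ.filter fun u => ¬ Disjoint (Sd Ω v) (Sd Ω u)).card : ℕ) : ℝ) ≤
      (1 + δ * K + δ ^ 2 * K ^ 2) * (1 + D * K + δ * D * K ^ 2) := by
  classical
  have hsub : (Finset.univ.filter fun u => ¬ Disjoint (Sd Ω v) (Sd Ω u)) ⊆
      (Sd Ω v).biUnion fun z => Finset.univ.filter fun u => z ∈ Sd Ω u := by
    intro u hu
    simp only [mem_filter, mem_univ, true_and, mem_biUnion] at hu ⊢
    obtain ⟨z, hz1, hz2⟩ := not_disjoint_iff.mp hu
    exact ⟨z, hz1, hz2⟩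
  have h1 := (card_le_card hsub).trans card_biUnion_le
  have h2 : (((Finset.univ.filter fun u => ¬ Disjoint (Sd Ω v) (Sd Ω u)).card : ℕ) : ℝ) ≤
      ∑ z ∈ Sd Ω v, (((Finset.univ.filter fun u => z ∈ Sd Ω u).card : ℕ) : ℝ) := by
    exact_mod_cast h1
  refine h2.trans ((sum_le_sum fun z _ => card_inv hδ hD z).trans ?_)
  rw [sum_const, nsmul_eq_mul]
  exact mul_le_mul_of_nonneg_right (card_Sd hδ v) (by positivity)

end Dep

end Chc

theorem choice {ε δ D κ C t : ℝ} (hε : 0 < ε) (hε1 : ε ≤ 1) (hδ : 0 < δ) (hδ1 : δ ≤ 1)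
    (hD : 0 < D) (hκ : 0 < κ) (hκ1 : κ ≤ 1 / 4) (hC : 0 < C) (ht : 0 < t) :
    ∃ K0 : ℕ, ∀ K : ℕ, K0 ≤ K → ∀ (V : Type) [Fintype V] [DecidableEq V] (n m : ℕ) (ν : ℝ)
    (Ω : Slt V K n ε δ D κ ν C), 0 < n → 0 < m → ∃ x : V → Out K n m, Ω.Gd t x := by
  classical
  obtain ⟨K1, h1⟩ := ev1 (D := D) (C := C) hε hε1 hδ hδ1 hκ hκ1 ht
  obtain ⟨K2, h2⟩ := ev2 (D := D) (C := C) hε hε1 hδ hδ1 hκ hκ1 ht
  obtain ⟨K3, h3⟩ := ev3 (D := D) (C := C) hε hε1 hδ hδ1 hκ hκ1 ht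
  obtain ⟨K4, h4⟩ := ev4 (D := D) (C := C) hε hε1 hδ hδ1 hκ hκ1
  obtain ⟨K5, h5⟩ := ev5 (ε := ε) (δ := δ) (D := D) (κ := κ) (C := C) ht
  obtain ⟨K6, h6⟩ := ev6 (ε := ε) (δ := δ) (D := D) (κ := κ) (C := C) hC ht
  obtain ⟨K7, h7⟩ := ev7 ht
  obtain ⟨K8, h8⟩ := exists_nat_ge (3 * (1 + 2 * D))
  refine ⟨K1 + K2 + K3 + K4 + K5 + K6 + K7 + K8 + 2, ?_⟩
  intro K hK V _ _ n m ν Ω hn hm
  have : Nonempty (Out K n m) := ⟨(⟨0, hn⟩, fun _ => ⟨0, hm⟩)⟩
  have hK2 : 2 ≤ K := by omega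
  have hKr : (2 : ℝ) ≤ K := by exact_mod_cast hK2
  have hK8 : 3 * (1 + 2 * D) ≤ K := by
    refine h8.trans ?_
    exact_mod_cast (by omega : K8 ≤ K)
  have hq0 : (0 : ℝ) ≤ 7 * (1 / (K : ℝ) ^ 20) := by positivity
  have hcard0 : (0 : ℝ) ≤ Fintype.card (V → Out K n m) := Nat.cast_nonneg _
  have key := local_lemma (V := V) (α := Out K n m)
    (fun v x => (v ∈ Ω.W ∪ Ω.U → Ω.G1 t x v ∧ Ω.G2 t x v ∧ Ω.G3 t x v) ∧
      (v ∈ Ω.W → Ω.G4 x v ∧ Ω.G5 t x v ∧ Ω.G6 t x v ∧ Slt.G7 t x v))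
    (Chc.Sd Ω) (fun v x y hxy hx => Chc.dep hxy hx) (q := 7 * (1 / (K : ℝ) ^ 20)) hq0
    ?_ (K ^ 6) ?_ ?_ ?_
  · obtain ⟨x, hx⟩ := key
    exact ⟨x, fun v hv => (hx v).1 hv, fun w hw => (hx w).2 hw⟩
  · intro v
    set N : ℝ := ((Fintype.card (V → Out K n m) : ℕ) : ℝ) with hN
    set a : ℝ := 1 / (K : ℝ) ^ 20 * N with ha
    have ha0 : 0 ≤ a := by positivity
    have e1 : 7 * (1 / (K : ℝ) ^ 20) * N = (a + (a + a)) + (a + (a + (a + a))) := by
      rw [ha]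
      ring
    rw [e1]
    have f1 : v ∈ Ω.W ∪ Ω.U → _ := fun hv => Chc.bad_and
      (h1 K (by omega) V n m ν Ω hn hm v hv)
        (Chc.bad_and (i3 := fun _ => Classical.propDecidable _)
          (h2 K (by omega) V n m ν Ω hn hm v hv) (h3 K (by omega) V n m ν Ω hn hm v hv))
        (i3 := fun _ => Classical.propDecidable _)
    have f2 : v ∈ Ω.W → _ := fun hv => Chc.bad_and
      (h4 K (by omega) V n m ν Ω hn hm v hv)
        (Chc.bad_and (i3 := fun _ => Classical.propDecidable _)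
          (h5 K (by omega) V n m ν Ω hn hm v hv)
          (Chc.bad_and (i3 := fun _ => Classical.propDecidable _)
            (h6 K (by omega) V n m ν Ω hn hm v hv) (h7 K (by omega) V n m hn hm v)))
        (i3 := fun _ => Classical.propDecidable _)
    exact Chc.bad_and (Chc.bad_imp (by positivity) f1
      (i2 := fun _ => Classical.propDecidable _))
      (Chc.bad_imp (by positivity) f2 (i2 := fun _ => Classical.propDecidable _))
  · intro v
    have h := Chc.card_dep (Ω := Ω) hδ.le hD.le v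
    have hb : (1 + δ * K + δ ^ 2 * K ^ 2) * (1 + D * K + δ * D * K ^ 2) ≤ (K : ℝ) ^ 6 := by
      have g1 : 1 + δ * K + δ ^ 2 * K ^ 2 ≤ 3 * (K : ℝ) ^ 2 := by
        have a1 : δ * K ≤ K := by nlinarith
        have a2 : δ ^ 2 * (K : ℝ) ^ 2 ≤ (K : ℝ) ^ 2 := by
          have : δ ^ 2 ≤ 1 := by nlinarith
          nlinarith [sq_nonneg (K : ℝ)]
        nlinarith
      have g2 : 1 + D * K + δ * D * K ^ 2 ≤ (1 + 2 * D) * (K : ℝ) ^ 2 := by
        have a1 : D * K ≤ D * (K : ℝ) ^ 2 :=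
          mul_le_mul_of_nonneg_left (by nlinarith) hD.le
        have a2 : δ * D * (K : ℝ) ^ 2 ≤ D * (K : ℝ) ^ 2 := by
          have : δ * D ≤ D := by nlinarith
          nlinarith [sq_nonneg (K : ℝ)]
        nlinarith
      calc (1 + δ * K + δ ^ 2 * K ^ 2) * (1 + D * K + δ * D * K ^ 2)
          ≤ (3 * (K : ℝ) ^ 2) * ((1 + 2 * D) * (K : ℝ) ^ 2) :=
            mul_le_mul g1 g2 (by positivity) (by positivity)
        _ = (3 * (1 + 2 * D)) * (K : ℝ) ^ 4 := by ring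
        _ ≤ K * (K : ℝ) ^ 4 := mul_le_mul_of_nonneg_right hK8 (by positivity)
        _ = (K : ℝ) ^ 5 := by ring
        _ ≤ (K : ℝ) ^ 6 := pow_le_pow_right₀ (by linarith) (by norm_num)
    have h' := h.trans hb
    exact_mod_cast h'
  · push_cast
    have hK14 : (28 : ℝ) ≤ (K : ℝ) ^ 14 := by
      calc (28 : ℝ) ≤ 2 ^ 14 := by norm_num
        _ ≤ (K : ℝ) ^ 14 := pow_le_pow_left₀ (by norm_num) hKr 14
    have e2 : 4 * (7 * (1 / (K : ℝ) ^ 20)) * (K : ℝ) ^ 6 = 28 / (K : ℝ) ^ 14 := by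
      field_simp
      ring
    rw [e2]
    rw [div_le_one (by positivity)]
    exact hK14
  · have hK20 : (16 : ℝ) ≤ (K : ℝ) ^ 20 := by
      calc (16 : ℝ) ≤ 2 ^ 20 := by norm_num
        _ ≤ (K : ℝ) ^ 20 := pow_le_pow_left₀ (by norm_num) hKr 20
    have e3 : 2 * (7 * (1 / (K : ℝ) ^ 20)) = 14 / (K : ℝ) ^ 20 := by ring
    rw [e3, div_lt_one (by positivity)]
    linarith

end Pool.Agent.PK
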