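import Pool.Agent.PK.Pot

/-!
# Packing (PK): the sum of the potentials over a cluster
-/

set_option autoImplicit false

open Finset

namespace Pool.Agent.PK

variable {V : Type} [Fintype V] [DecidableEq V] (G : SimpleGraph V) [DecidableRel G.Adj]

/-- A weight on ordered pairs of adjacent vertices. -/
theorem clus_sym (A : Finset V) (f : V → V → ℝ) (c : ℝ) (h : ∀ v u, f v u + f u v ≤ 2 * c) :
    ∑ v ∈ A, ∑ u ∈ G.neighborFinset v ∩ A, f v u ≤
      c * ∑ v ∈ A, ((G.neighborFinset v ∩ A).card : ℝ) := by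
  have hN : ∀ v, G.neighborFinset v ∩ A = A.filter fun u => G.Adj v u := by
    intro v
    ext u
    simp [and_comm]
  have h1 : ∑ v ∈ A, ∑ u ∈ G.neighborFinset v ∩ A, f v u =
      ∑ v ∈ A, ∑ u ∈ A, if G.Adj v u then f v u else 0 := by
    refine sum_congr rfl fun v _ => ?_
    rw [hN v, sum_filter]
  have h2 : ∑ v ∈ A, ∑ u ∈ G.neighborFinset v ∩ A, f v u =
      ∑ v ∈ A, ∑ u ∈ A, if G.Adj v u then f u v else 0 := by
    rw [h1, sum_comm]
    refine sum_congr rfl fun v _ => sum_congr rfl fun u _ => ?_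
    simp only [G.adj_comm u v]
  have h3 : ∑ v ∈ A, ((G.neighborFinset v ∩ A).card : ℝ) =
      ∑ v ∈ A, ∑ u ∈ A, if G.Adj v u then (1 : ℝ) else 0 := by
    refine sum_congr rfl fun v _ => ?_
    rw [hN v, card_eq_sum_ones, Nat.cast_sum, sum_filter]
    simp
  have h4 : (∑ v ∈ A, ∑ u ∈ A, if G.Adj v u then f v u else 0) +
      (∑ v ∈ A, ∑ u ∈ A, if G.Adj v u then f u v else 0) ≤
      2 * c * ∑ v ∈ A, ∑ u ∈ A, if G.Adj v u then (1 : ℝ) else 0 := by
    rw [← sum_add_distrib, mul_sum]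
    refine sum_le_sum fun v _ => ?_
    rw [← sum_add_distrib, mul_sum]
    refine sum_le_sum fun u _ => ?_
    by_cases ha : G.Adj v u
    · simp only [ha, if_true]
      linarith [h v u]
    · simp [ha]
  rw [h3]
  linarith [h4, h1, h2]

theorem clus {J : ℕ} (hJ : 1 ≤ J) {e th : ℝ} (he : 0 < e) (hth : 0 ≤ th) (l : V → ℝ)
    (P : ℕ → V → ℝ) (T : ℕ) (A : Finset V) (hA : ∀ v ∈ A, ∀ u, u ∉ A → l v + J + 1 ≤ l u) :
    ∑ v ∈ A, ∑ s ∈ range T, ∑ u ∈ G.neighborFinset v, pc J e th (l v) (P s v) (l u) (P s u) s ≤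
      (1 + th) * ∑ v ∈ A, ((G.neighborFinset v ∩ A).card : ℝ) := by
  have h1 : ∑ v ∈ A, ∑ s ∈ range T, ∑ u ∈ G.neighborFinset v,
      pc J e th (l v) (P s v) (l u) (P s u) s = ∑ v ∈ A, ∑ u ∈ G.neighborFinset v ∩ A,
      ∑ s ∈ range T, pc J e th (l v) (P s v) (l u) (P s u) s := by
    refine sum_congr rfl fun v hv => ?_
    rw [sum_comm]
    refine (sum_subset inter_subset_left fun u hu hu' => ?_).symm
    have huA : u ∉ A := fun h => hu' (mem_inter.2 ⟨hu, h⟩)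
    exact sum_eq_zero fun s _ => pc_far e th (l v) (P s v) (l u) (P s u) s (hA v hv u huA)
  rw [h1]
  refine clus_sym G A (fun v u => ∑ s ∈ range T, pc J e th (l v) (P s v) (l u) (P s u) s)
    (1 + th) fun v u => ?_
  have := pair hJ he hth (l v) (l u) (fun s => P s v) (fun s => P s u) T
  rw [sum_add_distrib] at this
  linarith

/-- The potentials of a cluster have a large sum. -/
theorem clus2 {K J : ℕ} (hK : 1 ≤ K) (hJ : 1 ≤ J) {e : ℝ} (he : 0 < e) (he1 : e < 1) (x : V → ℝ)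
    (hx : ∀ v, 0 ≤ x v) (hS : Spa G K x e) (l : V → ℝ) (T : ℕ) (A : Finset V)
    (hne : A.Nonempty) (hA : ∀ v ∈ A, ∀ u, u ∉ A → l v + J + 1 ≤ l u) :
    e / 4 * A.card < ∑ v ∈ A, pot G K J x (e / 4) (e / 4) (e / 16) l T v := by
  have hK0 : (0 : ℝ) < K := by exact_mod_cast hK
  have hJ1 : (1 : ℝ) ≤ J := by exact_mod_cast hJ
  have hJ0 : (0 : ℝ) < J := by linarith
  have hc0 : (0 : ℝ) < A.card := by exact_mod_cast hne.card_pos
  have h1 := clus G hJ (e := e / 4) (th := e / 4) (by linarith) (by linarith) l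
    (fun s v => pot G K J x (e / 4) (e / 4) (e / 16) l s v) T A hA
  have h2 := hS A
  have hxs : 0 ≤ ∑ v ∈ A, x v := sum_nonneg fun v _ => hx v
  have h3 : ∑ v ∈ A, ∑ s ∈ range T, ex J (l v) s ≤ A.card * (J + 2) := by
    calc ∑ v ∈ A, ∑ s ∈ range T, ex J (l v) s ≤ ∑ v ∈ A, ((J : ℝ) + 2) :=
          sum_le_sum fun v _ => ex_sum_le J (l v) T
      _ = A.card * (J + 2) := by rw [sum_const, nsmul_eq_mul]
  have h4 : ∑ v ∈ A, pot G K J x (e / 4) (e / 4) (e / 16) l T v =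
      A.card * (1 - e / 16) - 2 * ∑ v ∈ A, x v -
      1 / K * (∑ v ∈ A, ∑ s ∈ range T, ∑ u ∈ G.neighborFinset v,
        pc J (e / 4) (e / 4) (l v) (pot G K J x (e / 4) (e / 4) (e / 16) l s v) (l u)
          (pot G K J x (e / 4) (e / 4) (e / 16) l s u) s) -
      e / 16 / J * ∑ v ∈ A, ∑ s ∈ range T, ex J (l v) s := by
    rw [sum_congr rfl fun v _ => pot_sum G K J x (e / 4) (e / 4) (e / 16) l T v]
    simp only [sum_sub_distrib, ← mul_sum, sum_const, nsmul_eq_mul]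
    ring
  rw [h4]
  set S1 := ∑ v ∈ A, ∑ s ∈ range T, ∑ u ∈ G.neighborFinset v,
        pc J (e / 4) (e / 4) (l v) (pot G K J x (e / 4) (e / 4) (e / 16) l s v) (l u)
          (pot G K J x (e / 4) (e / 4) (e / 16) l s u) s with hS1
  set S2 := ∑ v ∈ A, ∑ s ∈ range T, ex J (l v) s with hS2
  set X := ∑ v ∈ A, x v with hX
  set N := ∑ v ∈ A, ((G.neighborFinset v ∩ A).card : ℝ) with hN
  have h5 : 1 / K * N ≤ (1 - e) * A.card - 2 * X := by
    rw [one_div, inv_mul_le_iff₀ hK0]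
    nlinarith [h2]
  have h6 : 1 / K * S1 ≤ (1 + e / 4) * (1 / K * N) := by
    have : 1 / (K : ℝ) * S1 ≤ 1 / K * ((1 + e / 4) * N) :=
      mul_le_mul_of_nonneg_left h1 (by positivity)
    linarith [this, mul_left_comm (1 / (K : ℝ)) (1 + e / 4) N]
  have h7 : e / 16 / J * S2 ≤ 3 * e / 16 * A.card := by
    have h8 : e / 16 / J * S2 ≤ e / 16 / J * (A.card * (J + 2)) :=
      mul_le_mul_of_nonneg_left h3 (by positivity)
    have h9 : e / 16 / J * (A.card * (J + 2)) ≤ 3 * e / 16 * A.card := by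
      rw [div_mul_eq_mul_div, div_le_iff₀ hJ0]
      have : (A.card : ℝ) * (J + 2) ≤ A.card * (3 * J) :=
        mul_le_mul_of_nonneg_left (by linarith) hc0.le
      nlinarith [this]
    linarith
  have h10 : (1 + e / 4) * (1 / K * N) ≤ (1 + e / 4) * ((1 - e) * A.card - 2 * X) :=
    mul_le_mul_of_nonneg_left h5 (by linarith)
  have h11 : (1 + e / 4) * ((1 - e) * A.card - 2 * X) ≤
      (1 - e + e / 4) * A.card - 2 * X := by
    nlinarith [mul_nonneg he.le hxs, mul_pos (mul_pos he he) hc0]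
  have h12 : 0 < e * A.card := mul_pos he hc0
  nlinarith [h6, h7, h10, h11, h12]

end Pool.Agent.PK
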