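import Pool.Agent.PK.Defs

/-!
# Packing (PK): the data of one slot and the events
-/

set_option autoImplicit false

namespace Pool.Agent.PK

open Finset
open Pool.Agent.H24.LP Pool.Agent.H24.LP.Nib

/-- The law of a vertex without flatness. -/
structure Lw {K : ℕ} (B : Finset (Fin K × Fin K)) (a p κ : ℝ) (q1 q2 : Fin K → Fin K → ℝ) :
    Prop where
  n1 : ∀ i j, 0 ≤ q1 i j
  n2 : ∀ i j, 0 ≤ q2 i j
  row : ∀ i, ∑ j, (q1 i j + q2 i j) = 1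
  col : ∀ j, ∑ i, (q1 i j + q2 i j) = 1
  supp : ∀ i j, (i, j) ∉ B → q1 i j = 0 ∧ q2 i j = 0
  cap1 : ∀ i j, q1 i j ≤ (1 + κ) / (a * K)
  cap : ∀ i j, q1 i j + q2 i j ≤ (1 + κ) / (p * K)
  row2 : ∀ i, ∑ j, q2 i j ≤ (1 - p / a) / 2 + κ
  col2 : ∀ j, ∑ i, q2 i j ≤ (1 - p / a) / 2 + κ

/-- Data of one slot: `Q` is the set of processed vertices, `W` the set of the vertices that
are processed in this slot, `U` the set of the awake vertices that are processed later. -/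
structure Slt (V : Type) [Fintype V] [DecidableEq V] (K n : ℕ) (ε δ D κ ν C : ℝ) where
  G : SimpleGraph V
  σ : V → V → Equiv.Perm (Fin K)
  hσ : ∀ u v, G.Adj u v → σ v u = (σ u v)⁻¹
  Q : Finset V
  π : V → Equiv.Perm (Fin K)
  W : Finset V
  U : Finset V
  idx : V → ℕ
  hidx : Function.Injective idx
  hQW : Disjoint Q W
  hQU : Disjoint Q U
  hWU : Disjoint W U
  hval : ValidK G σ Q π
  a : V → ℝ
  p : V → ℝ
  c : V → ℝ
  R : V → Fin K → Fin K → ℝ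
  hst : ∀ w ∈ W, State (Al G σ Q π w) (a w) (p w) ν (c w) (R w)
  hp : ∀ w ∈ W, ε ≤ p w
  hc : ∀ w ∈ W, c w ≤ C
  hdeg : ∀ v ∈ W ∪ U, ((nb G W v).card : ℝ) ≤ δ * K
  hD : ∀ v ∈ W, ((nb G (W ∪ U) v).card : ℝ) ≤ D * K
  q1 : V → Fin K → Fin K → ℝ
  q2 : V → Fin K → Fin K → ℝ
  hlaw : ∀ w ∈ W, Lw (Al G σ Q π w) (a w) (p w) κ (q1 w) (q2 w)
  F : V → Fin n → Equiv.Perm (Fin K)
  bd : V → Fin n → Finset (Fin K)
  hsamp : ∀ w ∈ W, Samp (Al G σ Q π w) (fun i j => q1 w i j + q2 w i j) κ (F w) (bd w)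

/-- the outcomes at one vertex -/
abbrev Out (K n m : ℕ) : Type := Fin n × (Fin K → Fin m)

namespace Slt

variable {V : Type} [Fintype V] [DecidableEq V] {K n m : ℕ} {ε δ D κ ν C : ℝ}
  (Ω : Slt V K n ε δ D κ ν C)

/-- the allowed cells of `v` before the slot -/
noncomputable def Bv (v : V) : Finset (Fin K × Fin K) := Al Ω.G Ω.σ Ω.Q Ω.π v

/-- the sampled permutation of `w` -/
def Fx (x : V → Out K n m) (w : V) : Equiv.Perm (Fin K) := Ω.F w (x w).1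

/-- the dirty rows of the sample -/
def bx (x : V → Out K n m) (w : V) : Finset (Fin K) := Ω.bd w (x w).1

/-- the random rows -/
def Z0 (x : V → Out K n m) (w : V) : Finset (Fin K) :=
  Finset.univ.filter fun i => ((x w).2 i : ℕ) = 0

open Classical in
/-- the clean rows of `w` in conflict with a clean row of an earlier neighbour -/
noncomputable def Cf (x : V → Out K n m) (w : V) : Finset (Fin K) :=
  Finset.univ.filter fun i => i ∉ Ω.bx x w ∧ ∃ u ∈ nb Ω.G Ω.W w, Ω.idx u < Ω.idx w ∧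
    i ∉ Ω.bx x u ∧ Ω.σ u w (Ω.Fx x u i) = Ω.Fx x w i

/-- the modified rows -/
noncomputable def Zx (x : V → Out K n m) (w : V) : Finset (Fin K) :=
  Z0 x w ∪ Ω.bx x w ∪ Ω.Cf x w

/-- the law of `w` -/
def qq (w : V) (i j : Fin K) : ℝ := Ω.q1 w i j + Ω.q2 w i j

/-- a set of cells of `v` in the coordinates of `w` -/
def AA (v w : V) (A : Finset (Fin K × Fin K)) : Finset (Fin K × Fin K) :=
  Finset.univ.filter fun y => (y.1, Ω.σ w v y.2) ∈ A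

/-- the clean hits of the neighbours of `v` in a set `A` of cells of `v` -/
noncomputable def hit (x : V → Out K n m) (v : V) (A : Finset (Fin K × Fin K)) : ℝ :=
  ∑ w ∈ nb Ω.G Ω.W v, (ch (Ω.Fx x w) (Ω.bx x w) (Ω.AA v w A) : ℝ)

/-- the expected number of hits -/
noncomputable def exh (v : V) (A : Finset (Fin K × Fin K)) : ℝ :=
  ∑ w ∈ nb Ω.G Ω.W v, mass (Ω.qq w) (Ω.AA v w A)

/-- rectangles -/
def G1 (t : ℝ) (x : V → Out K n m) (v : V) : Prop := ∀ S T : Finset (Fin K),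
  Ω.hit x v (rect (Ω.Bv v) S T) ≤ (1 + κ) * Ω.exh v (rect (Ω.Bv v) S T) + t * K ^ 2

/-- lines -/
def G2 (t : ℝ) (x : V → Out K n m) (v : V) : Prop :=
  (∀ i, Ω.hit x v (rect (Ω.Bv v) {i} Finset.univ) ≤
    (1 + κ) * Ω.exh v (rect (Ω.Bv v) {i} Finset.univ) + t * K) ∧
  ∀ j, Ω.hit x v (rect (Ω.Bv v) Finset.univ {j}) ≤
    (1 + κ) * Ω.exh v (rect (Ω.Bv v) Finset.univ {j}) + t * K

open Classical in
/-- modified cells in the lines of `v` -/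
def G3 (t : ℝ) (x : V → Out K n m) (v : V) : Prop :=
  (∀ i, (((nb Ω.G Ω.W v).filter fun w => i ∈ Ω.Zx x w).card : ℝ) ≤
    ((1 / m + κ + 4 * δ / ε) * δ + t) * K) ∧
  ∀ j, (((nb Ω.G Ω.W v).filter fun w =>
    (Ω.Fx x w).symm ((Ω.σ w v).symm j) ∈ Ω.Zx x w).card : ℝ) ≤
    ((1 / m + κ + 4 * δ / ε) * δ + t) * K

/-- few conflicts -/
def G4 (x : V → Out K n m) (w : V) : Prop := ((Ω.Cf x w).card : ℝ) ≤ 8 * δ / ε * K

/-- the lines of `B` inside the random grid -/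
def G5 (t : ℝ) (x : V → Out K n m) (w : V) : Prop :=
  (∀ i, 1 / m * ((Finset.univ.filter fun j => (i, j) ∈ Ω.Bv w).card : ℝ) - t * K ≤
    ((Z0 x w).filter fun k => (i, Ω.Fx x w k) ∈ Ω.Bv w).card) ∧
  ∀ j, 1 / m * ((Finset.univ.filter fun i => (i, j) ∈ Ω.Bv w).card : ℝ) - t * K ≤
    ((Z0 x w).filter fun k => (k, j) ∈ Ω.Bv w).card

/-- the witness inside the random grid -/
def G6 (t : ℝ) (x : V → Out K n m) (w : V) : Prop :=
  (∀ i, ∑ k ∈ Z0 x w, Ω.R w i (Ω.Fx x w k) ≤ 1 / m * ∑ j, Ω.R w i j + t * K) ∧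
  ∀ j, ∑ k ∈ Z0 x w, Ω.R w k j ≤ 1 / m * ∑ i, Ω.R w i j + t * K

/-- the size of the random grid -/
def G7 (t : ℝ) (x : V → Out K n m) (w : V) : Prop :=
  1 / m * K - t * K ≤ ((Z0 x w).card : ℝ)

/-- all events -/
def Gd (t : ℝ) (x : V → Out K n m) : Prop :=
  (∀ v ∈ Ω.W ∪ Ω.U, Ω.G1 t x v ∧ Ω.G2 t x v ∧ Ω.G3 t x v) ∧
  ∀ w ∈ Ω.W, Ω.G4 x w ∧ Ω.G5 t x w ∧ Ω.G6 t x w ∧ G7 t x w

end Slt

end Pool.Agent.PK
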