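import Pool.Agent.PK.Def2
import Pool.Agent.PK.Cher

/-!
# Packing (PK): the event of the rectangles
-/

set_option autoImplicit false

namespace Pool.Agent.PK

open Finset
open Pool.Agent.H24.LP Pool.Agent.H24.LP.Nib

namespace Ev1X

/-- one rectangle -/
theorem one {V : Type} [Fintype V] [DecidableEq V] {ε δ D κ ν C t : ℝ} (hδ1 : δ ≤ 1)
    (hκ : 0 < κ) (hκ1 : κ ≤ 1 / 4) {K n m : ℕ} (hK : 0 < K) (hK2 : 4 ≤ t * K)
    (Ω : Slt V K n ε δ D κ ν C) (hn : 0 < n) (hm : 0 < m) {v : V} (hv : v ∈ Ω.W ∪ Ω.U)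
    (A : Finset (Fin K × Fin K))
    (P : (V → Out K n m) → Prop) [DecidablePred P]
    (hP : ∀ x, P x → ¬ (Ω.hit x v A ≤ (1 + κ) * Ω.exh v A + t * K ^ 2)) :
    (((Finset.univ : Finset (V → Out K n m)).filter P).card : ℝ) ≤
      Real.exp (-(t / 2 * K * Real.log K ^ 2)) * Fintype.card (V → Out K n m) := by
  have hK' : (0 : ℝ) < K := by exact_mod_cast hK
  have hne : Nonempty (Out K n m) := ⟨(⟨0, hn⟩, fun _ => ⟨0, hm⟩)⟩
  have hsub : ∀ w, w ∈ nb Ω.G Ω.W v → w ∈ Ω.W := by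
    intro w hw
    exact (mem_nb.1 hw).1
  have hI : ((nb Ω.G Ω.W v).card : ℝ) ≤ K := by
    have h2 := Ω.hdeg v hv
    nlinarith
  set s : ℝ := Real.log K ^ 2 / K with hs
  have hs0 : 0 ≤ s := by positivity
  have hM : ∀ w ∈ nb Ω.G Ω.W v,
      ∑ y : Out K n m, Real.exp (s * (ch (Ω.F w y.1) (Ω.bd w y.1) (Ω.AA v w A) : ℝ)) ≤
        Real.exp (s * ((1 + κ) * (mass (Ω.qq w) (Ω.AA v w A) + 1))) *
          Fintype.card (Out K n m) := by
    intro w hw
    rw [Fintype.sum_prod_type]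
    simp only [Finset.sum_const, Finset.card_univ, nsmul_eq_mul]
    rw [← Finset.mul_sum]
    have h3 := (Ω.hsamp w (hsub w hw)).mom (Ω.AA v w A) s hs0 le_rfl
    have h4 : (Fintype.card (Out K n m) : ℝ) = n * Fintype.card (Fin K → Fin m) := by
      rw [Fintype.card_prod, Fintype.card_fin]
      push_cast
      rfl
    rw [h4]
    have h5 : (0 : ℝ) ≤ Fintype.card (Fin K → Fin m) := Nat.cast_nonneg _
    have h6 := mul_le_mul_of_nonneg_left h3 h5
    refine h6.trans (le_of_eq ?_)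
    have h7 : mass (Ω.qq w) (Ω.AA v w A) =
      mass (fun i j => Ω.q1 w i j + Ω.q2 w i j) (Ω.AA v w A) := rfl
    rw [h7]
    ring
  have hmain := chernoff (nb Ω.G Ω.W v)
    (fun w (y : Out K n m) => (ch (Ω.F w y.1) (Ω.bd w y.1) (Ω.AA v w A) : ℝ))
    (fun w => s * ((1 + κ) * (mass (Ω.qq w) (Ω.AA v w A) + 1))) s hM
    ((1 + κ) * Ω.exh v A + t * K ^ 2) hs0
  refine (Nat.cast_le.2 (Finset.card_le_card ?_)).trans (hmain.trans ?_)
  · intro x hx
    rw [Finset.mem_filter] at hx ⊢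
    refine ⟨Finset.mem_univ _, ?_⟩
    have h7 := hP x hx.2
    push Not at h7
    exact h7.le
  · refine mul_le_mul_of_nonneg_right (Real.exp_le_exp.2 ?_) (Nat.cast_nonneg _)
    have h9 : Ω.exh v A = ∑ w ∈ nb Ω.G Ω.W v, mass (Ω.qq w) (Ω.AA v w A) := rfl
    rw [← Finset.mul_sum, ← Finset.mul_sum, Finset.sum_add_distrib, ← h9, Finset.sum_const,
      nsmul_eq_mul, mul_one]
    have e1 : s * K = Real.log K ^ 2 := by
      rw [hs]
      field_simp
    have e2 : s * ((1 + κ) * (Ω.exh v A + ((nb Ω.G Ω.W v).card : ℝ))) -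
        s * ((1 + κ) * Ω.exh v A + t * K ^ 2) =
        s * ((1 + κ) * ((nb Ω.G Ω.W v).card : ℝ)) - s * K * (t * K) := by ring
    have e3 : s * ((1 + κ) * ((nb Ω.G Ω.W v).card : ℝ)) ≤ s * (2 * K) := by
      refine mul_le_mul_of_nonneg_left ?_ hs0
      refine mul_le_mul (by linarith) hI (Nat.cast_nonneg _) (by norm_num)
    have e4 : s * (2 * K) = 2 * Real.log K ^ 2 := by
      rw [← e1]
      ring
    rw [e2, e1]
    have e5 : 0 ≤ Real.log K ^ 2 := by positivity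
    have e6 : 4 * Real.log K ^ 2 ≤ t * K * Real.log K ^ 2 := mul_le_mul_of_nonneg_right hK2 e5
    nlinarith

theorem num {t : ℝ} (ht : 0 < t) {K : ℕ} (hK : 10 ≤ K)
    (h : 1 + 8 / t ≤ Real.log K) :
    (2 : ℝ) ^ K * (2 ^ K * Real.exp (-(t / 2 * K * Real.log K ^ 2))) ≤ 1 / (K : ℝ) ^ 20 := by
  have hK' : (0 : ℝ) < K := by
    have : 0 < K := by omega
    exact_mod_cast this
  have hK10 : (10 : ℝ) ≤ K := by exact_mod_cast hK
  have h8 : 0 < 8 / t := by positivity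
  set l := Real.log K with hl
  have hl1 : 1 ≤ l := by linarith
  have htl : 8 ≤ t * l := by
    have h1 : 8 / t ≤ l := by linarith
    rw [div_le_iff₀ ht] at h1
    linarith
  have h2 : (2 : ℝ) ^ K ≤ Real.exp K := by
    have h3 : (2 : ℝ) ≤ Real.exp 1 := by
      have := Real.add_one_le_exp (1 : ℝ)
      linarith
    calc (2 : ℝ) ^ K ≤ (Real.exp 1) ^ K := pow_le_pow_left₀ (by norm_num) h3 K
      _ = Real.exp K := by rw [← Real.exp_nat_mul, mul_one]
  have h3 : 1 / (K : ℝ) ^ 20 = Real.exp (-(20 * l)) := by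
    rw [Real.exp_neg, one_div]
    congr 1
    have : (20 : ℝ) * l = ((20 : ℕ) : ℝ) * l := by norm_num
    rw [this, Real.exp_nat_mul, hl, Real.exp_log hK']
  rw [h3]
  have h4 : (2 : ℝ) ^ K * (2 ^ K * Real.exp (-(t / 2 * K * l ^ 2))) ≤
      Real.exp K * (Real.exp K * Real.exp (-(t / 2 * K * l ^ 2))) := by
    gcongr
  refine h4.trans ?_
  rw [← Real.exp_add, ← Real.exp_add]
  refine Real.exp_le_exp.2 ?_
  have e1 : 4 * (K * l) ≤ t / 2 * K * l ^ 2 := by
    have : t / 2 * K * l ^ 2 = (t * l) / 2 * (K * l) := by ring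
    rw [this]
    have e2 : 0 ≤ (K : ℝ) * l := by positivity
    nlinarith
  have e3 : (K : ℝ) ≤ K * l := by nlinarith
  have e4 : 10 * l ≤ K * l := mul_le_mul_of_nonneg_right hK10 (by linarith)
  linarith

end Ev1X

open Classical in
theorem ev1 {ε δ D κ C t : ℝ} (hε : 0 < ε) (hε1 : ε ≤ 1) (hδ : 0 < δ) (hδ1 : δ ≤ 1) (hκ : 0 < κ)
    (hκ1 : κ ≤ 1 / 4) (ht : 0 < t) : ∃ K0 : ℕ, ∀ K : ℕ, K0 ≤ K → ∀ (V : Type) [Fintype V]
    [DecidableEq V] (n m : ℕ) (ν : ℝ) (Ω : Slt V K n ε δ D κ ν C), 0 < n → 0 < m →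
    ∀ v ∈ Ω.W ∪ Ω.U,
      (((Finset.univ : Finset (V → Out K n m)).filter fun x => ¬ Ω.G1 t x v).card : ℝ) ≤
        1 / (K : ℝ) ^ 20 * Fintype.card (V → Out K n m) := by
  have _ := hε
  have _ := hε1
  have _ := hδ
  refine ⟨⌈4 / t⌉₊ + ⌈Real.exp (1 + 8 / t)⌉₊ + 10, ?_⟩
  intro K hK V _ _ n m ν Ω hn hm v hv
  have hK0 : 0 < K := by omega
  have hK' : (0 : ℝ) < K := by exact_mod_cast hK0
  have hK1 : 4 ≤ t * K := by
    have h1 : ⌈4 / t⌉₊ ≤ K := by omega
    have h2 := Nat.ceil_le.1 h1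
    rw [div_le_iff₀ ht] at h2
    linarith
  have hK2 : 1 + 8 / t ≤ Real.log K := by
    have h1 : ⌈Real.exp (1 + 8 / t)⌉₊ ≤ K := by omega
    have h2 := Nat.ceil_le.1 h1
    rwa [Real.le_log_iff_exp_le hK']
  have hnum := Ev1X.num ht (by omega : 10 ≤ K) hK2
  set X : ℝ := ((Fintype.card (V → Out K n m) : ℕ) : ℝ) with hX
  have hX0 : 0 ≤ X := Nat.cast_nonneg _
  have hr : ∀ S T : Finset (Fin K), (((Finset.univ : Finset (V → Out K n m)).filter fun x =>
      ¬ (Ω.hit x v (rect (Ω.Bv v) S T) ≤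
        (1 + κ) * Ω.exh v (rect (Ω.Bv v) S T) + t * K ^ 2)).card : ℝ) ≤
      Real.exp (-(t / 2 * K * Real.log K ^ 2)) * X := by
    intro S T
    exact Ev1X.one hδ1 hκ hκ1 hK0 hK1 Ω hn hm hv _ _ fun x hx => hx
  have hsub : ((Finset.univ : Finset (V → Out K n m)).filter fun x => ¬ Ω.G1 t x v) ⊆
      (Finset.univ : Finset (Finset (Fin K))).biUnion fun S =>
        (Finset.univ : Finset (Finset (Fin K))).biUnion fun T =>
        (Finset.univ : Finset (V → Out K n m)).filter fun x =>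
          ¬ (Ω.hit x v (rect (Ω.Bv v) S T) ≤
            (1 + κ) * Ω.exh v (rect (Ω.Bv v) S T) + t * K ^ 2) := by
    intro x hx
    have h1 := (Finset.mem_filter.1 hx).2
    unfold Slt.G1 at h1
    rw [not_forall] at h1
    obtain ⟨S, hS⟩ := h1
    rw [not_forall] at hS
    obtain ⟨T, hT⟩ := hS
    exact Finset.mem_biUnion.2 ⟨S, Finset.mem_univ _, Finset.mem_biUnion.2 ⟨T, Finset.mem_univ _,
      Finset.mem_filter.2 ⟨Finset.mem_univ _, hT⟩⟩⟩
  have h1 := (Finset.card_le_card hsub).trans (Finset.card_biUnion_le.trans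
    (Finset.sum_le_sum fun S _ => Finset.card_biUnion_le))
  have h2 : (((Finset.univ : Finset (V → Out K n m)).filter fun x => ¬ Ω.G1 t x v).card : ℝ) ≤
      2 ^ K * (2 ^ K * (Real.exp (-(t / 2 * K * Real.log K ^ 2)) * X)) := by
    refine (Nat.cast_le.2 h1).trans ?_
    push_cast
    refine (Finset.sum_le_sum fun S _ => Finset.sum_le_sum fun T _ => hr S T).trans
      (le_of_eq ?_)
    rw [Finset.sum_const, Finset.sum_const, Finset.card_univ, Fintype.card_finset,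
      Fintype.card_fin, nsmul_eq_mul, nsmul_eq_mul]
    push_cast
    ring
  refine h2.trans ?_
  have h3 := mul_le_mul_of_nonneg_right hnum hX0
  refine le_trans (le_of_eq ?_) h3
  ring

end Pool.Agent.PK
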