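import Pool.Agent.PK.Sampler2
import Pool.Agent.PK.Birk

set_option autoImplicit false

namespace Pool.Agent.PK

open Finset
open Pool.Agent.H24.LP Pool.Agent.H24.LP.Nib

namespace SampExAux

lemma num2_pos {N K : ℕ} (hN : 0 < N) (k : ℕ) : 0 < num2 N K k := by
  induction k with
  | zero => exact hN
  | succ k ih =>
      unfold num2
      have := Nat.factorial_pos K
      positivity

/-- the analytic facts on a large `K` -/
lemma large (κ η : ℝ) (hη : 0 < η) :
    ∃ K0 : ℕ, ∀ K ≥ K0, 1 ≤ K ∧ 4 ≤ Real.log K ∧ 1 / Real.log K ≤ η ∧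
      Real.log K ^ 2 / K * (16 * Real.log K ^ 6 / κ + 1) ≤ η := by
  have h1 : Filter.Tendsto (fun K : ℕ => Real.log (K : ℝ)) Filter.atTop Filter.atTop :=
    Real.tendsto_log_atTop.comp tendsto_natCast_atTop_atTop
  have h2 : ∀ m : ℕ, Filter.Tendsto (fun K : ℕ => Real.log (K : ℝ) ^ m / (K : ℝ)) Filter.atTop
      (nhds 0) := by
    intro m
    have h := (Real.isLittleO_pow_log_id_atTop (n := m)).tendsto_div_nhds_zero
    exact h.comp tendsto_natCast_atTop_atTop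
  have h3 : Filter.Tendsto (fun K : ℕ => Real.log (K : ℝ) ^ 2 / K *
      (16 * Real.log K ^ 6 / κ + 1)) Filter.atTop (nhds 0) := by
    have h := ((h2 8).const_mul (16 / κ)).add (h2 2)
    rw [mul_zero, zero_add] at h
    refine h.congr fun K => ?_
    ring
  have e1 : ∀ᶠ K : ℕ in Filter.atTop, 1 ≤ K := Filter.eventually_ge_atTop 1
  have e2 : ∀ᶠ K : ℕ in Filter.atTop, max 4 (1 / η) ≤ Real.log (K : ℝ) :=
    h1.eventually_ge_atTop _
  have e3 : ∀ᶠ K : ℕ in Filter.atTop, Real.log (K : ℝ) ^ 2 / K *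
      (16 * Real.log K ^ 6 / κ + 1) < η := h3.eventually_lt_const hη
  obtain ⟨K0, hK0⟩ := Filter.eventually_atTop.mp (e1.and (e2.and e3))
  refine ⟨K0, fun K hK => ?_⟩
  obtain ⟨a1, a2, a3⟩ := hK0 K hK
  have a4 : (4 : ℝ) ≤ Real.log K := (le_max_left _ _).trans a2
  refine ⟨a1, a4, ?_, a3.le⟩
  have a5 : 1 / η ≤ Real.log (K : ℝ) := (le_max_right _ _).trans a2
  have a6 : (0 : ℝ) < Real.log K := by linarith
  rw [div_le_iff₀ a6]
  rw [div_le_iff₀ hη] at a5
  linarith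

/-- the average number of hits -/
lemma avg {K N : ℕ} (hK : 1 ≤ K) (q : Fin K → Fin K → ℝ) (τ : Fin N → Equiv.Perm (Fin K))
    (h : ∀ i c, ((Finset.univ.filter fun j => τ j i = c).card : ℝ) ≤ (q i c + 1 / K ^ 5) * N)
    (A : Finset (Fin K × Fin K)) : (∑ j, (hits (τ j) A : ℝ)) ≤ N * (mass q A + 1) := by
  have e1 : ∀ j, (hits (τ j) A : ℝ) = ∑ x ∈ A, if τ j x.1 = x.2 then (1 : ℝ) else 0 := by
    intro j
    have e : hits (τ j) A = (A.filter fun x => τ j x.1 = x.2).card := by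
      unfold hits
      refine Finset.card_bij (fun a _ => (a, τ j a)) ?_ ?_ ?_
      · intro a ha
        rw [Finset.mem_filter] at ha ⊢
        exact ⟨ha.2, rfl⟩
      · intro a _ b _ hab
        exact (Prod.mk.inj hab).1
      · intro x hx
        rw [Finset.mem_filter] at hx
        refine ⟨x.1, ?_, ?_⟩
        · rw [Finset.mem_filter, hx.2]
          exact ⟨Finset.mem_univ _, hx.1⟩
        · rw [hx.2]
    rw [e, Finset.card_filter]
    push_cast
    rfl
  have e2 : (∑ j, (hits (τ j) A : ℝ)) =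
      ∑ x ∈ A, ((Finset.univ.filter fun j => τ j x.1 = x.2).card : ℝ) := by
    rw [Finset.sum_congr rfl fun j _ => e1 j, Finset.sum_comm]
    apply Finset.sum_congr rfl
    intro x _
    rw [Finset.card_filter]
    push_cast
    rfl
  have hK' : (1 : ℝ) ≤ K := by exact_mod_cast hK
  have e3 : (A.card : ℝ) ≤ K ^ 2 := by
    have := Finset.card_le_univ A
    rw [Fintype.card_prod, Fintype.card_fin] at this
    have h' : (A.card : ℝ) ≤ (K * K : ℕ) := by exact_mod_cast this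
    push_cast at h'
    nlinarith
  have e4 : (A.card : ℝ) * (1 / K ^ 5) ≤ 1 := by
    have h5 : (K : ℝ) ^ 2 ≤ K ^ 5 := pow_le_pow_right₀ hK' (by norm_num)
    have : (0 : ℝ) < (K : ℝ) ^ 5 := by positivity
    rw [mul_one_div, div_le_one this]
    exact e3.trans h5
  rw [e2]
  calc (∑ x ∈ A, ((Finset.univ.filter fun j => τ j x.1 = x.2).card : ℝ))
      ≤ ∑ x ∈ A, (q x.1 x.2 + 1 / K ^ 5) * N := Finset.sum_le_sum fun x _ => h x.1 x.2
    _ = N * (mass q A + A.card * (1 / K ^ 5)) := by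
        rw [← Finset.sum_mul, Finset.sum_add_distrib, Finset.sum_const, nsmul_eq_mul]
        unfold mass
        ring
    _ ≤ N * (mass q A + 1) := by
        apply mul_le_mul_of_nonneg_left _ (Nat.cast_nonneg _)
        linarith

end SampExAux

open SampExAux in
/-- random permutations following a doubly stochastic matrix -/
theorem samp_exists {κ : ℝ} (hκ : 0 < κ) : ∃ K0 : ℕ, ∀ K ≥ K0, ∃ n : ℕ, 0 < n ∧
    ∀ (B : Finset (Fin K × Fin K)) (q : Fin K → Fin K → ℝ), (∀ i j, 0 ≤ q i j) →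
      (∀ i, ∑ j, q i j = 1) → (∀ j, ∑ i, q i j = 1) → (∀ i j, (i, j) ∉ B → q i j = 0) →
      ∃ (F : Fin n → Equiv.Perm (Fin K)) (bd : Fin n → Finset (Fin K)), Samp B q κ F bd := by
  obtain ⟨η, hη0, hη1, hη2⟩ : ∃ η : ℝ, 0 < η ∧ η ≤ 1 / 2 ∧ 9 * η ≤ κ :=
    ⟨min (1 / 2) (κ / 9), lt_min (by norm_num) (by positivity), min_le_left _ _, by
      have := min_le_right (1 / 2) (κ / 9)
      linarith⟩
  obtain ⟨K0, hK0⟩ := large κ η hη0
  refine ⟨K0, fun K hK => ?_⟩
  obtain ⟨hK1, hL4, hLη, hbig⟩ := hK0 K hK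
  set L : ℝ := Real.log K with hL
  have hK1' : (1 : ℝ) ≤ K := by exact_mod_cast hK1
  have hKpos : (0 : ℝ) < K := by linarith
  have hL3 : (1 : ℝ) ≤ L ^ 3 := by
    have : (1 : ℝ) ≤ L := by linarith
    exact one_le_pow₀ this
  obtain ⟨k0, hk1, hk2⟩ := exists_nat_pow_near hL3 (by norm_num : (1 : ℝ) < 2)
  -- `k = k0 + 1`
  have hk3 : (2 : ℝ) ^ (k0 + 1) ≤ 2 * L ^ 3 := by
    rw [pow_succ]
    linarith
  obtain ⟨k, hkdef⟩ : ∃ k, k = k0 + 1 := ⟨_, rfl⟩
  rw [← hkdef] at hk2 hk3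
  have h2k : (0 : ℝ) < 2 ^ k := by positivity
  have hkk : ((k : ℝ) + 1) ≤ 2 ^ k := by
    have : k + 1 ≤ 2 ^ k := Nat.lt_two_pow_self
    exact_mod_cast this
  obtain ⟨g, hgdef⟩ : ∃ g : ℕ, g = ⌈(k + 1 : ℝ) * 2 ^ (k + 2) / κ⌉₊ := ⟨_, rfl⟩
  have hg0 : (k + 1 : ℝ) * 2 ^ (k + 2) / κ ≤ g := by
    rw [hgdef]
    exact Nat.le_ceil _
  have hg1 : 1 ≤ g := by
    rw [hgdef]
    exact Nat.one_le_iff_ne_zero.mpr (Nat.ceil_pos.mpr (by positivity)).ne'
  have hgpos : (0 : ℝ) < g := by exact_mod_cast hg1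
  have hgκ : (k + 1 : ℝ) * 2 ^ (k + 2) ≤ κ * g := by
    rw [div_le_iff₀ hκ] at hg0
    linarith
  have hgκ' : (2 : ℝ) ^ (k + 1) ≤ κ * g := by
    refine le_trans ?_ hgκ
    have h1 : (0 : ℝ) ≤ k := Nat.cast_nonneg _
    have h2 : (2 : ℝ) ^ (k + 1) ≤ 2 ^ (k + 2) := pow_le_pow_right₀ (by norm_num) (by omega)
    have h3 : (0 : ℝ) < 2 ^ (k + 2) := by positivity
    nlinarith
  have hg2 : (g : ℝ) ≤ 16 * L ^ 6 / κ + 1 := by
    have h1 : (g : ℝ) ≤ (k + 1 : ℝ) * 2 ^ (k + 2) / κ + 1 := by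
      rw [hgdef]
      exact (Nat.ceil_lt_add_one (by positivity)).le
    have h2 : (k + 1 : ℝ) * 2 ^ (k + 2) ≤ 16 * L ^ 6 := by
      have e1 : (2 : ℝ) ^ (k + 2) = 4 * 2 ^ k := by ring
      have e2 : (k + 1 : ℝ) * 2 ^ (k + 2) ≤ 2 ^ k * (4 * 2 ^ k) := by
        rw [e1]
        exact mul_le_mul_of_nonneg_right hkk (by positivity)
      have e3 : (2 : ℝ) ^ k * (4 * 2 ^ k) = 4 * (2 ^ k * 2 ^ k) := by ring
      have e4 : (2 : ℝ) ^ k * 2 ^ k ≤ (2 * L ^ 3) * (2 * L ^ 3) :=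
        mul_le_mul hk3 hk3 h2k.le (by positivity)
      have e5 : (2 * L ^ 3) * (2 * L ^ 3) = 4 * L ^ 6 := by ring
      linarith
    have h3 : (k + 1 : ℝ) * 2 ^ (k + 2) / κ ≤ 16 * L ^ 6 / κ :=
      div_le_div_of_nonneg_right h2 hκ.le
    linarith
  have hN : 0 < K.factorial * K ^ 5 := by
    have := Nat.factorial_pos K
    have : 0 < K := hK1
    positivity
  obtain ⟨N, hNdef⟩ : ∃ N, N = K.factorial * K ^ 5 := ⟨_, rfl⟩
  rw [← hNdef] at hN
  refine ⟨num2 N K k, num2_pos hN k, ?_⟩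
  intro B q q0 qrow qcol qsupp
  have hb := birk hK1 q q0 qrow qcol
  rw [← hNdef] at hb
  obtain ⟨τ, hτ1, hτ2⟩ := hb
  have hsm := sampler2 hN g hg1 τ k
  generalize num2 N K k = n at hsm ⊢
  obtain ⟨F, bd, hF, hcard, hrow, hcol, hcell, hmom⟩ := hsm
  have hN' : (0 : ℝ) < N := by exact_mod_cast hN
  refine ⟨F, bd, ?_, ?_, ?_, ?_, ?_, ?_⟩
  · intro ω i hi
    obtain ⟨j, hj⟩ := hF ω i hi
    by_contra hc
    have h1 := qsupp _ _ hc
    have h2 := hτ1 j i
    rw [hj] at h1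
    exact h2.ne' h1
  · intro ω
    have h1 : (g : ℝ) * (bd ω).card + 2 * K ≤ 2 ^ k * (2 * K) := by exact_mod_cast hcard ω
    have h2 : (g : ℝ) * (bd ω).card ≤ 2 ^ (k + 1) * K := by
      rw [pow_succ]
      nlinarith
    have h3 : (g : ℝ) * (bd ω).card ≤ g * (κ * K) := by
      refine h2.trans ?_
      have := mul_le_mul_of_nonneg_right hgκ' hKpos.le
      linarith
    exact le_of_mul_le_mul_left h3 hgpos
  · intro i
    have h1 : (g : ℝ) * (Finset.univ.filter fun ω => i ∈ bd ω).card ≤ 2 ^ (k + 1) * n := by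
      exact_mod_cast hrow i
    have h3 : (g : ℝ) * (Finset.univ.filter fun ω => i ∈ bd ω).card ≤ g * (κ * n) := by
      refine h1.trans ?_
      have := mul_le_mul_of_nonneg_right hgκ' (Nat.cast_nonneg (α := ℝ) n)
      linarith
    exact le_of_mul_le_mul_left h3 hgpos
  · intro c
    have h1 : (g : ℝ) * (Finset.univ.filter fun ω => (F ω).symm c ∈ bd ω).card ≤
        (k + 1) * 2 ^ (k + 2) * n := by
      exact_mod_cast hcol c
    have h3 : (g : ℝ) * (Finset.univ.filter fun ω => (F ω).symm c ∈ bd ω).card ≤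
        g * (κ * n) := by
      refine h1.trans ?_
      have := mul_le_mul_of_nonneg_right hgκ (Nat.cast_nonneg (α := ℝ) n)
      linarith
    exact le_of_mul_le_mul_left h3 hgpos
  · intro i c
    have h1 : (N : ℝ) * (Finset.univ.filter fun ω => i ∉ bd ω ∧ F ω i = c).card ≤
        (Finset.univ.filter fun j => τ j i = c).card * n := by
      exact_mod_cast hcell i c
    have h2 := hτ2 i c
    have h3 : (N : ℝ) * (Finset.univ.filter fun ω => i ∉ bd ω ∧ F ω i = c).card ≤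
        N * ((q i c + 1 / K ^ 5) * n) := by
      refine h1.trans ?_
      have := mul_le_mul_of_nonneg_right h2 (Nat.cast_nonneg (α := ℝ) n)
      linarith
    refine (le_of_mul_le_mul_left h3 hN').trans ?_
    apply mul_le_mul_of_nonneg_right _ (Nat.cast_nonneg _)
    have h5 : (1 : ℝ) / K ^ 5 ≤ 1 / K ^ 3 :=
      one_div_le_one_div_of_le (by positivity) (pow_le_pow_right₀ hK1' (by norm_num))
    linarith
  · intro A s hs0 hs1
    have hsg : s * g ≤ η := by
      refine le_trans ?_ hbig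
      exact mul_le_mul hs1 hg2 hgpos.le (by positivity)
    have hsg0 : 0 ≤ s * g := by positivity
    have hsK : s * K ≤ L ^ 2 := by
      rw [le_div_iff₀ hKpos] at hs1
      exact hs1
    have hsK0 : 0 ≤ s * K := by positivity
    have hLpos : (0 : ℝ) < L := by linarith
    have hsK2 : (s * K) / 2 ^ k ≤ η := by
      refine le_trans ?_ hLη
      rw [div_le_div_iff₀ h2k hLpos]
      nlinarith
    have c2 : 2 * ((1 + s * g) * (s * K)) ≤ 2 ^ k := by
      have e1 : (1 + s * g) * (s * K) ≤ 2 * L ^ 2 :=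
        mul_le_mul (by linarith) hsK hsK0 (by norm_num)
      have e2 : 4 * L ^ 2 ≤ L ^ 3 := by nlinarith [sq_nonneg L]
      linarith
    refine (hmom A s (mass q A + 1) hs0 (by linarith) c2 (avg hK1 q τ hτ2 A)).trans ?_
    apply mul_le_mul_of_nonneg_left _ (Nat.cast_nonneg _)
    rw [Real.exp_le_exp]
    have hm : 0 ≤ mass q A + 1 := by
      have : 0 ≤ mass q A := Finset.sum_nonneg fun x _ => q0 _ _
      linarith
    have key : (1 + s * g) * (1 + 2 * ((1 + s * g) * (s * K)) / 2 ^ k) ≤ 1 + κ := by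
      have e0 : 2 * ((1 + s * g) * (s * K)) / 2 ^ k = 2 * (1 + s * g) * ((s * K) / 2 ^ k) := by
        ring
      have e1 : 2 * (1 + s * g) * ((s * K) / 2 ^ k) ≤ 3 * η :=
        mul_le_mul (by linarith) hsK2 (by positivity) (by norm_num)
      rw [e0]
      calc (1 + s * g) * (1 + 2 * (1 + s * g) * ((s * K) / 2 ^ k))
          ≤ (1 + η) * (1 + 3 * η) :=
            mul_le_mul (by linarith) (by linarith) (by positivity) (by linarith)
        _ ≤ 1 + κ := by nlinarith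
    have hsm : 0 ≤ s * (mass q A + 1) := mul_nonneg hs0 hm
    have := mul_le_mul_of_nonneg_left key hsm
    linarith

end Pool.Agent.PK
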