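import Pool.Agent.PK.Loop
import Pool.Agent.PK.SampEx
import Pool.Agent.H97.PK.Law

/-!
# Packing (PK): extension of a packing over the slots, `K` large
-/

set_option autoImplicit false

namespace Pool.Agent.PK

open Finset
open Pool.Agent.H24.LP Pool.Agent.H24.LP.Nib

/-- One slot is possible, for fixed `κ`. -/
def SlotAt (ε D C ρ δ κ : ℝ) : Prop := ∃ K0 : ℕ, ∀ K : ℕ, K0 ≤ K → ∀ n : ℕ, 0 < n →
  ∀ ν : ℝ, 0 ≤ ν → ν ≤ κ → ∀ (V : Type) [Fintype V] [DecidableEq V]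
  (Ω : Slt V K n ε δ D κ ν C), Ω.Outcome (ρ * δ) κ

/-- The slot step. -/
def SlotStepEx : Prop := ∀ ε D C ρ : ℝ, 0 < ε → ε ≤ 1 → 0 < D → 0 < C → 0 < ρ →
  ∃ δ1 : ℝ, 0 < δ1 ∧ ∀ δ : ℝ, 0 < δ → δ ≤ δ1 → ∃ κ0 : ℝ, 0 < κ0 ∧ ∀ κ : ℝ, 0 < κ → κ ≤ κ0 →
    SlotAt ε D C ρ δ κ

/-- Extension of a packing along the slots. -/
theorem ext {ε D C ρ δ θ κ' κ0 : ℝ} {J : ℕ} (hε : 0 < ε) (hδ : 0 < δ) (h4δ : 4 * δ ≤ ε)
    (hθ : 0 < θ) (hκ0 : 0 < κ0) (hC : J * (4 * δ / ε) ≤ C) (hmm : 2 * (ρ * δ) ≤ κ')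
    (hslot : ∀ κ : ℝ, 0 < κ → κ ≤ κ0 → SlotAt ε D C ρ δ κ) :
    ∃ K0 : ℕ, ∀ K : ℕ, K0 ≤ K → ∀ (V : Type) [Fintype V] [DecidableEq V] (G : SimpleGraph V)
      (σ : V → V → Equiv.Perm (Fin K)), (∀ u v, G.Adj u v → σ v u = (σ u v)⁻¹) →
      ∀ (W R : Finset V), Disjoint W R → ∀ (π0 : V → Equiv.Perm (Fin K)), ValidK G σ W π0 →
      ∀ (τ : V → ℕ) (p : ℕ → V → ℝ), (∀ v ∈ R, τ v < J) →
      (∀ v ∈ R, 2 * ((nb G W v).card : ℝ) ≤ (1 - p 0 v) * K) → (∀ v ∈ R, p 0 v ≤ 1) →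
      (∀ v ∈ R, ∀ s < τ v, p (s + 1) v +
        1 / K * ∑ w ∈ (nb G R v).filter (fun w => τ w = s), (hh (p s v / p s w) + θ) + κ' ≤
          p s v) →
      (∀ v ∈ R, ∀ s ≤ τ v, ε ≤ p s v) →
      (∀ v ∈ R, ∀ s, (((nb G R v).filter fun w => τ w = s).card : ℝ) ≤ δ * K) →
      (∀ v ∈ R, ((nb G R v).card : ℝ) ≤ D * K) →
      ∃ π : V → Equiv.Perm (Fin K), (∀ v ∈ W, π v = π0 v) ∧ ValidK G σ (W ∪ R) π := by
  classical
  have hl : ∀ κ : ℝ, ∃ ν : ℝ, 0 < ν ∧ (0 < κ → ∃ K0 : ℕ,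
      ∀ K : ℕ, K0 ≤ K → ∀ (B : Finset (Fin K × Fin K)) (a p c : ℝ) (R : Fin K → Fin K → ℝ),
        ε ≤ p → State B a p ν c R → ∃ q1 q2 : Fin K → Fin K → ℝ, Law B a p κ q1 q2) := by
    intro κ
    by_cases h : 0 < κ
    · obtain ⟨ν, hν, hK⟩ := Pool.Agent.H97.PK.law_exists hε h
      exact ⟨ν, hν, fun _ => hK⟩
    · exact ⟨1, one_pos, fun h1 => absurd h1 h⟩
  choose νl hνl hνl2 using hl
  set κm : ℝ := min κ0 (min (θ / 8) 1) with hκm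
  have hκmp : 0 < κm := lt_min hκ0 (lt_min (by positivity) one_pos)
  obtain ⟨ν, κ, hν, hκ, -, hνκ⟩ := bwd (fun x => if 0 < x then min (νl x) x else 1)
    (by
      intro x hx
      rw [if_pos hx]
      exact lt_min (hνl x) hx) hκmp J 1 one_pos
  have hκ1 : ∀ s, κ s ≤ κ0 := fun s => (hκ s).2.trans (min_le_left _ _)
  have hκ2 : ∀ s, κ s ≤ θ / 8 := fun s =>
    (hκ s).2.trans ((min_le_right _ _).trans (min_le_left _ _))
  have hκ3 : ∀ s, κ s ≤ 1 := fun s =>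
    (hκ s).2.trans ((min_le_right _ _).trans (min_le_right _ _))
  have hν1 : ∀ s < J, ν s ≤ νl (κ s) ∧ ν s ≤ κ s := by
    intro s hs
    have h1 := (hνκ s hs).1
    rw [if_pos (hκ s).1] at h1
    exact ⟨h1.trans (min_le_left _ _), h1.trans (min_le_right _ _)⟩
  choose K1 hK1 using fun s => hνl2 (κ s) (hκ s).1
  choose K2 hK2 using fun s => samp_exists (hκ s).1
  choose K3 hK3 using fun s => hslot (κ s) (hκ s).1 (hκ1 s)
  refine ⟨max 1 ((Finset.range J).sup fun s => max (K1 s) (max (K2 s) (K3 s))), ?_⟩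
  intro K hK V _ _ G σ hσ W R hWR π0 hπ0 τ p hτ hp0 hp01 hstep hge hfew hdeg
  have hK0 : 0 < K := lt_of_lt_of_le one_pos ((le_max_left _ _).trans hK)
  have hKs : ∀ s < J, K1 s ≤ K ∧ K2 s ≤ K ∧ K3 s ≤ K := by
    intro s hs
    have h1 : max (K1 s) (max (K2 s) (K3 s)) ≤ K :=
      (Finset.le_sup (f := fun s => max (K1 s) (max (K2 s) (K3 s)))
        (Finset.mem_range.2 hs)).trans ((le_max_right _ _).trans hK)
    exact ⟨(le_max_left _ _).trans h1, ((le_max_left _ _).trans (le_max_right _ _)).trans h1,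
      ((le_max_right _ _).trans (le_max_right _ _)).trans h1⟩
  have hn : ∀ s : ℕ, ∃ n : ℕ, 0 < n ∧ (s < J →
      ∀ (B : Finset (Fin K × Fin K)) (q : Fin K → Fin K → ℝ), (∀ i j, 0 ≤ q i j) →
      (∀ i, ∑ j, q i j = 1) → (∀ j, ∑ i, q i j = 1) → (∀ i j, (i, j) ∉ B → q i j = 0) →
      ∃ (F : Fin n → Equiv.Perm (Fin K)) (bd : Fin n → Finset (Fin K)),
        Samp B q (κ s) F bd) := by
    intro s
    by_cases h : s < J
    · obtain ⟨n, hn0, hn1⟩ := hK2 s K (hKs s h).2.1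
      exact ⟨n, hn0, fun _ => hn1⟩
    · exact ⟨1, one_pos, fun h1 => absurd h1 h⟩
  choose N hN0 hN using hn
  exact loop hK0 G σ hσ W R hWR π0 hπ0 τ p hε hδ.le h4δ ν κ N (fun s => (hν s).le)
    (fun s => (hκ s).1.le) hκ3 (fun s => by have := hκ2 s; linarith) (fun s hs => (hνκ s hs).2)
    hC hmm hτ hp0 hp01 hstep hge hfew hdeg
    (by
      intro s hs B a q c X hq hX
      exact hK1 s K (hKs s hs).1 B a q c X hq (hX.mono (hν1 s hs).1))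
    (fun s hs => hN s hs)
    (fun s hs Ω => hK3 s K (hKs s hs).2.2 (N s) (hN0 s) (ν s) (hν s).le (hν1 s hs).2 V Ω)

end Pool.Agent.PK
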