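import Pool.Agent.PK.SchedDefs

set_option autoImplicit false

open Finset

namespace Pool.Agent.PK

theorem gap {V : Type} [Fintype V] [DecidableEq V] (l : V → ℝ) (m L : ℝ) (hm : 0 < m)
    (hL : (Fintype.card V + 1) * m ≤ L) (v0 : V) (h0 : l v0 = 0) (hl : ∀ v, 0 ≤ l v) :
    ∃ A : Finset V, v0 ∈ A ∧ (∀ v ∈ A, l v < L) ∧ ∀ v ∈ A, ∀ u, u ∉ A → l v + m ≤ l u := by
  classical
  have key : ∃ j : Fin (Fintype.card V + 1), ∀ v, ¬ ((j : ℝ) * m < l v ∧ l v < ((j : ℝ) + 1) * m) := by
    by_contra hcon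
    push Not at hcon
    choose f hf using hcon
    have hinj : Function.Injective f := by
      intro i j hij
      have h1 := hf i
      have h2 := hf j
      rw [hij] at h1
      have h3 : ((i : ℕ) : ℝ) < ((j : ℕ) : ℝ) + 1 := by
        have := h1.1.trans h2.2
        exact lt_of_mul_lt_mul_right this hm.le
      have h4 : ((j : ℕ) : ℝ) < ((i : ℕ) : ℝ) + 1 := by
        have := h2.1.trans h1.2
        exact lt_of_mul_lt_mul_right this hm.le
      have h5 : (i : ℕ) < (j : ℕ) + 1 := by exact_mod_cast h3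
      have h6 : (j : ℕ) < (i : ℕ) + 1 := by exact_mod_cast h4
      apply Fin.ext
      omega
    have hc := Fintype.card_le_of_injective f hinj
    rw [Fintype.card_fin] at hc
    omega
  obtain ⟨j, hj⟩ := key
  have hj0 : (0 : ℝ) ≤ (j : ℝ) * m := mul_nonneg (Nat.cast_nonneg _) hm.le
  refine ⟨Finset.univ.filter fun v => l v ≤ (j : ℝ) * m, ?_, ?_, ?_⟩
  · rw [Finset.mem_filter]
    exact ⟨Finset.mem_univ _, by rw [h0]; exact hj0⟩
  · intro v hv
    rw [Finset.mem_filter] at hv
    have h1 : ((j : ℕ) : ℝ) ≤ (Fintype.card V : ℝ) := by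
      have := j.2
      exact_mod_cast Nat.lt_succ_iff.1 this
    have h2 : (j : ℝ) * m < (Fintype.card V + 1) * m := by
      apply mul_lt_mul_of_pos_right _ hm
      linarith
    linarith [hv.2]
  · intro v hv u hu
    rw [Finset.mem_filter] at hv
    have hu' : ¬ l u ≤ (j : ℝ) * m := fun h => hu (by
      rw [Finset.mem_filter]
      exact ⟨Finset.mem_univ _, h⟩)
    rw [not_le] at hu'
    have h1 : ((j : ℝ) + 1) * m ≤ l u := by
      by_contra h2
      rw [not_le] at h2
      exact hj u ⟨hu', h2⟩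
    have h2 : ((j : ℝ) + 1) * m = (j : ℝ) * m + m := by ring
    linarith [hv.2]

end Pool.Agent.PK
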