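import Pool.Agent.PK.Clus
import Pool.Agent.PK.Gap
import Pool.Agent.PK.Brw

/-!
# Packing (PK): the fluid system has a solution with positive potentials
-/

set_option autoImplicit false

open Finset

namespace Pool.Agent.PK

theorem fluid : FluidS := by
  intro e K J he he1 hK hJ V _ _ G _ x hx hS
  have hJ0 : (0 : ℝ) < (J : ℝ) + 1 := by positivity
  set L : ℝ := ((Fintype.card V : ℝ) + 1) * ((J : ℝ) + 1) with hLdef
  have hL : 0 ≤ L := by positivity
  set T : ℕ := ⌈L⌉₊ + J + 1 with hT
  have he4 : 0 < e / 4 := by positivity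
  obtain ⟨l, hl, hlt, hgt⟩ := brw
    (fun (l : V → ℝ) (v : V) => pot G K J x (e / 4) (e / 4) (e / 16) l T v - e / 4)
    (fun v => (pot_cont G K J x he4 (e / 4) (e / 16) T v).sub continuous_const) L hL
  have key : ∀ v, e / 4 ≤ pot G K J x (e / 4) (e / 4) (e / 16) l T v := by
    intro v0
    by_contra hv
    have hv0 : l v0 = 0 := by
      by_contra h0
      have h1 : 0 < l v0 := lt_of_le_of_ne (hl v0).1 (Ne.symm h0)
      have h2 := hgt v0 h1
      linarith
    obtain ⟨A, hvA, hAL, hAg⟩ := gap l ((J : ℝ) + 1) L hJ0 le_rfl v0 hv0 (fun v => (hl v).1)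
    have hc := clus2 G hK hJ he he1 x hx hS l T A ⟨v0, hvA⟩
      (fun v hv u hu => by have := hAg v hv u hu; linarith)
    have hs : ∑ v ∈ A, pot G K J x (e / 4) (e / 4) (e / 16) l T v ≤ ∑ v ∈ A, e / 4 := by
      refine Finset.sum_le_sum fun v hv => ?_
      have := hlt v (hAL v hv)
      linarith
    rw [Finset.sum_const, nsmul_eq_mul] at hs
    linarith
  refine ⟨l, T, fun v => ⟨(hl v).1, ?_⟩, fun v s hs => ?_⟩
  · have h1 := (hl v).2
    have h2 := Nat.le_ceil L
    rw [hT]
    push_cast
    linarith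
  · have hanti : Antitone fun s => pot G K J x (e / 4) (e / 4) (e / 16) l s v :=
      antitone_nat_of_succ_le fun s => pot_anti G K J x he4 he4.le (by positivity) l s v
    exact (key v).trans (hanti hs)

end Pool.Agent.PK
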