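import Pool.Agent.PK.Def2

/-!
# Packing (PK): the cells of an awake vertex after the slot
-/

set_option autoImplicit false

namespace Pool.Agent.PK

open Finset
open Pool.Agent.H24.LP Pool.Agent.H24.LP.Nib

namespace HitsX

theorem card_row {K : ℕ} (B : Finset (Fin K × Fin K)) (i : Fin K) :
    (univ.filter fun j => (i, j) ∈ B).card = (rect B {i} univ).card := by
  classical
  refine Finset.card_bij (fun j _ => (i, j)) ?_ ?_ ?_
  · intro j hj
    rw [mem_rect]
    exact ⟨(Finset.mem_filter.1 hj).2, Finset.mem_singleton_self _, Finset.mem_univ _⟩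
  · intro j _ j' _ h
    exact (Prod.ext_iff.1 h).2
  · intro y hy
    rw [mem_rect, Finset.mem_singleton] at hy
    refine ⟨y.2, ?_, ?_⟩
    · rw [Finset.mem_filter]
      refine ⟨Finset.mem_univ _, ?_⟩
      rw [← hy.2.1]
      exact hy.1
    · rw [← hy.2.1]

theorem card_col {K : ℕ} (B : Finset (Fin K × Fin K)) (j : Fin K) :
    (univ.filter fun i => (i, j) ∈ B).card = (rect B univ {j}).card := by
  classical
  refine Finset.card_bij (fun i _ => (i, j)) ?_ ?_ ?_
  · intro i hi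
    rw [mem_rect]
    exact ⟨(Finset.mem_filter.1 hi).2, Finset.mem_univ _, Finset.mem_singleton_self _⟩
  · intro i _ i' _ h
    exact (Prod.ext_iff.1 h).1
  · intro y hy
    rw [mem_rect, Finset.mem_singleton] at hy
    refine ⟨y.1, ?_, ?_⟩
    · rw [Finset.mem_filter]
      refine ⟨Finset.mem_univ _, ?_⟩
      rw [← hy.2.2]
      exact hy.1
    · rw [← hy.2.2]

end HitsX

theorem after {V : Type} [Fintype V] [DecidableEq V] {K n m : ℕ} {ε δ D κ ν C t : ℝ}
    (Ω : Slt V K n ε δ D κ ν C) (x : V → Out K n m) (hx : Ω.Gd t x) (π' : V → Equiv.Perm (Fin K))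
    (h1 : ∀ u ∈ Ω.Q, π' u = Ω.π u)
    (h2 : ∀ w ∈ Ω.W, ∀ i, i ∉ Ω.Zx x w → π' w i = Ω.Fx x w i) (v : V) (hv : v ∈ Ω.U) :
    ∃ M : Fin K → Fin K → ℝ, (∀ i j, 0 ≤ M i j) ∧
      (∀ i j, M i j ≤ if (i, j) ∈ Al Ω.G Ω.σ Ω.Q Ω.π v ∧
        (i, j) ∉ Al Ω.G Ω.σ (Ω.Q ∪ Ω.W) π' v then 1 else 0) ∧
      (∀ i, ∑ j, M i j ≤ ((1 / m + κ + 4 * δ / ε) * δ + t) * K) ∧
      (∀ j, ∑ i, M i j ≤ ((1 / m + κ + 4 * δ / ε) * δ + t) * K) ∧
      (∀ S T : Finset (Fin K), ((rect (Al Ω.G Ω.σ Ω.Q Ω.π v) S T).card : ℝ) ≤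
        (rect (Al Ω.G Ω.σ (Ω.Q ∪ Ω.W) π' v) S T).card +
        (1 + κ) * Ω.exh v (rect (Al Ω.G Ω.σ Ω.Q Ω.π v) S T) +
        ∑ i ∈ S, ∑ j ∈ T, M i j + t * K ^ 2) ∧
      (∀ i, ((Finset.univ.filter fun j => (i, j) ∈ Al Ω.G Ω.σ Ω.Q Ω.π v).card : ℝ) ≤
        (Finset.univ.filter fun j => (i, j) ∈ Al Ω.G Ω.σ (Ω.Q ∪ Ω.W) π' v).card +
        (1 + κ) * Ω.exh v (rect (Al Ω.G Ω.σ Ω.Q Ω.π v) {i} Finset.univ) +
        ∑ j, M i j + t * K) ∧
      ∀ j, ((Finset.univ.filter fun i => (i, j) ∈ Al Ω.G Ω.σ Ω.Q Ω.π v).card : ℝ) ≤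
        (Finset.univ.filter fun i => (i, j) ∈ Al Ω.G Ω.σ (Ω.Q ∪ Ω.W) π' v).card +
        (1 + κ) * Ω.exh v (rect (Al Ω.G Ω.σ Ω.Q Ω.π v) Finset.univ {j}) +
        ∑ i, M i j + t * K := by
  classical
  obtain ⟨hG1, hG2, hG3⟩ := hx.1 v (Finset.mem_union_right _ hv)
  set B := Al Ω.G Ω.σ Ω.Q Ω.π v with hB
  set B' := Al Ω.G Ω.σ (Ω.Q ∪ Ω.W) π' v with hB'
  have hBv : Ω.Bv v = B := rfl
  -- the modified cells
  let P : Fin K → Fin K → Prop := fun i j =>
    (i, j) ∈ B ∧ ∃ w ∈ nb Ω.G Ω.W v, i ∈ Ω.Zx x w ∧ Ω.σ w v (π' w i) = j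
  let M : Fin K → Fin K → ℝ := fun i j => if P i j then 1 else 0
  have hM0 : ∀ i j, 0 ≤ M i j := by
    intro i j
    show 0 ≤ (if P i j then (1 : ℝ) else 0)
    split_ifs <;> norm_num
  have hbZ : ∀ w i, i ∈ Ω.bx x w → i ∈ Ω.Zx x w := by
    intro w i hi
    unfold Slt.Zx
    exact Finset.mem_union_left _ (Finset.mem_union_right _ hi)
  -- the general estimate
  have key : ∀ S T : Finset (Fin K), ((rect B S T).card : ℝ) ≤
      (rect B' S T).card + Ω.hit x v (rect B S T) + ∑ i ∈ S, ∑ j ∈ T, M i j := by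
    intro S T
    set A := rect B S T with hA
    have hsub : A ⊆ (rect B' S T) ∪
        (((nb Ω.G Ω.W v).biUnion fun w => (univ.filter fun i =>
          i ∉ Ω.bx x w ∧ (i, Ω.Fx x w i) ∈ Ω.AA v w A).image fun i =>
            (i, Ω.σ w v (Ω.Fx x w i))) ∪ ((S ×ˢ T).filter fun y => P y.1 y.2)) := by
      intro y hy
      have hy' := mem_rect.1 hy
      by_cases hyB : y ∈ B'
      · exact Finset.mem_union_left _ (mem_rect.2 ⟨hyB, hy'.2⟩)
      · apply Finset.mem_union_right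
        have hyn : ¬ ∀ w ∈ nb Ω.G (Ω.Q ∪ Ω.W) v, Ω.σ w v (π' w y.1) ≠ y.2 := fun h =>
          hyB ((mem_Al Ω.G Ω.σ).2 h)
        push Not at hyn
        obtain ⟨w, hw, hwy⟩ := hyn
        rw [mem_nb, Finset.mem_union] at hw
        have hyB0 := (mem_Al Ω.G Ω.σ).1 hy'.1
        have hwW : w ∈ Ω.W := by
          rcases hw.1 with h | h
          · exfalso
            apply hyB0 w (mem_nb.2 ⟨h, hw.2⟩)
            rw [← h1 w h]
            exact hwy
          · exact h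
        have hwn : w ∈ nb Ω.G Ω.W v := mem_nb.2 ⟨hwW, hw.2⟩
        by_cases hz : y.1 ∈ Ω.Zx x w
        · apply Finset.mem_union_right
          rw [Finset.mem_filter, Finset.mem_product]
          exact ⟨hy'.2, hy'.1, w, hwn, hz, hwy⟩
        · apply Finset.mem_union_left
          rw [Finset.mem_biUnion]
          refine ⟨w, hwn, ?_⟩
          rw [Finset.mem_image]
          have e1 : Ω.σ w v (Ω.Fx x w y.1) = y.2 := by
            rw [← h2 w hwW y.1 hz]
            exact hwy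
          refine ⟨y.1, ?_, ?_⟩
          · rw [Finset.mem_filter]
            refine ⟨Finset.mem_univ _, fun hb => hz (hbZ w _ hb), ?_⟩
            unfold Slt.AA
            rw [Finset.mem_filter]
            refine ⟨Finset.mem_univ _, ?_⟩
            show (y.1, Ω.σ w v (Ω.Fx x w y.1)) ∈ A
            rw [e1]
            exact hy
          · rw [e1]
    have hc1 := Finset.card_le_card hsub
    have hc2 : A.card ≤ (rect B' S T).card + ((∑ w ∈ nb Ω.G Ω.W v,
        ch (Ω.Fx x w) (Ω.bx x w) (Ω.AA v w A)) + ((S ×ˢ T).filter fun y => P y.1 y.2).card) := by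
      refine hc1.trans ((Finset.card_union_le _ _).trans ?_)
      refine Nat.add_le_add_left ((Finset.card_union_le _ _).trans ?_) _
      refine Nat.add_le_add_right (Finset.card_biUnion_le.trans ?_) _
      refine Finset.sum_le_sum fun w _ => ?_
      exact Finset.card_image_le
    have hc3 : (((S ×ˢ T).filter fun y => P y.1 y.2).card : ℝ) = ∑ i ∈ S, ∑ j ∈ T, M i j := by
      rw [← Finset.sum_product' S T fun i j => M i j]
      rw [← Finset.sum_boole]
    have hc4 : ((A.card : ℕ) : ℝ) ≤ (((rect B' S T).card + ((∑ w ∈ nb Ω.G Ω.W v,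
        ch (Ω.Fx x w) (Ω.bx x w) (Ω.AA v w A)) +
        ((S ×ˢ T).filter fun y => P y.1 y.2).card) : ℕ) : ℝ) := by exact_mod_cast hc2
    rw [Nat.cast_add, Nat.cast_add, Nat.cast_sum, hc3] at hc4
    unfold Slt.hit
    linarith
  refine ⟨M, hM0, ?_, ?_, ?_, ?_, ?_, ?_⟩
  · intro i j
    show (if P i j then (1 : ℝ) else 0) ≤ _
    by_cases hP : P i j
    · obtain ⟨hP1, w, hw, _, hwj⟩ := hP
      have hn : (i, j) ∉ B' := by
        intro h
        rw [mem_nb] at hw
        exact (mem_Al Ω.G Ω.σ).1 h w (mem_nb.2 ⟨Finset.mem_union_right _ hw.1, hw.2⟩) hwj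
      rw [if_pos (⟨hP1, hn⟩ : (i, j) ∈ B ∧ (i, j) ∉ B')]
      split_ifs <;> norm_num
    · rw [if_neg hP]
      split_ifs <;> norm_num
  · intro i
    refine le_trans ?_ (hG3.1 i)
    have e1 : ∑ j, M i j = ((univ.filter fun j => P i j).card : ℝ) := by
      rw [← Finset.sum_boole]
    rw [e1]
    norm_cast
    refine le_trans (Finset.card_le_card (t := ((nb Ω.G Ω.W v).filter fun w =>
      i ∈ Ω.Zx x w).image fun w => Ω.σ w v (π' w i)) ?_) Finset.card_image_le
    intro j hj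
    obtain ⟨_, w, hw, hz, hwj⟩ := (Finset.mem_filter.1 hj).2
    rw [Finset.mem_image]
    exact ⟨w, Finset.mem_filter.2 ⟨hw, hz⟩, hwj⟩
  · intro j
    refine le_trans ?_ (hG3.2 j)
    have e1 : ∑ i, M i j = ((univ.filter fun i => P i j).card : ℝ) := by
      rw [← Finset.sum_boole]
    rw [e1]
    norm_cast
    refine le_trans (Finset.card_le_card (t := ((nb Ω.G Ω.W v).filter fun w =>
      (Ω.Fx x w).symm ((Ω.σ w v).symm j) ∈ Ω.Zx x w).image fun w =>
        (π' w).symm ((Ω.σ w v).symm j)) ?_) Finset.card_image_le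
    intro i hi
    obtain ⟨_, w, hw, hz, hwj⟩ := (Finset.mem_filter.1 hi).2
    rw [Finset.mem_image]
    have e2 : (Ω.σ w v).symm j = π' w i := by
      rw [← hwj, Equiv.symm_apply_apply]
    refine ⟨w, Finset.mem_filter.2 ⟨hw, ?_⟩, ?_⟩
    · by_contra hn
      have e3 := h2 w (mem_nb.1 hw).1 _ hn
      rw [Equiv.apply_symm_apply, e2] at e3
      have e4 := (π' w).injective e3
      rw [e2, e4] at hn
      exact hn hz
    · rw [e2, Equiv.symm_apply_apply]
  · intro S T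
    have h3 := key S T
    have h4 := hG1 S T
    rw [hBv] at h4
    linarith
  · intro i
    have h3 := key {i} univ
    have h4 := hG2.1 i
    rw [hBv] at h4
    rw [Finset.sum_singleton] at h3
    rw [HitsX.card_row, HitsX.card_row]
    linarith
  · intro j
    have h3 := key univ {j}
    have h4 := hG2.2 j
    rw [hBv] at h4
    have h5 : ∑ i, ∑ j' ∈ ({j} : Finset (Fin K)), M i j' = ∑ i, M i j :=
      Finset.sum_congr rfl fun i _ => Finset.sum_singleton _ _
    rw [h5] at h3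
    rw [HitsX.card_col, HitsX.card_col]
    linarith

end Pool.Agent.PK
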