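import Pool.Agent.PK.SchedDefs
import Pool.Agent.H16.Cube.Lll

/-!
# Packing (PK): the local lemma for sums over neighbourhoods
-/

set_option autoImplicit false

open Finset

namespace Pool.Agent.PK

theorem loc_one {M : ℕ} (hM : 0 < M) {lam : ℝ} (h0 : 0 ≤ lam) (h1 : lam ≤ 1 / 2)
    (h : Fin M → ℝ) (hh : ∀ a, 0 ≤ h a ∧ h a ≤ 2) :
    ∑ a, Real.exp (lam * h a) ≤ M * Real.exp (lam * ((∑ a, h a) / M) + 4 * lam ^ 2) := by
  have hM' : (0 : ℝ) < M := by exact_mod_cast hM
  have hp : ∀ a ∈ (univ : Finset (Fin M)), Real.exp (lam * h a) ≤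
      1 + lam * h a + 4 * lam ^ 2 := by
    intro a _
    obtain ⟨ha0, ha2⟩ := hh a
    have hx0 : 0 ≤ lam * h a := mul_nonneg h0 ha0
    have hx1 : lam * h a ≤ 1 := by nlinarith
    have hb := Real.abs_exp_sub_one_sub_id_le (x := lam * h a)
      (by rw [abs_of_nonneg hx0]; exact hx1)
    have h3 := (abs_le.1 hb).2
    have h4 : (lam * h a) ^ 2 ≤ 4 * lam ^ 2 := by
      have : h a ^ 2 ≤ 4 := by nlinarith
      have h5 : 0 ≤ lam ^ 2 := sq_nonneg _
      rw [mul_pow]
      nlinarith
    linarith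
  calc ∑ a, Real.exp (lam * h a) ≤ ∑ a : Fin M, (1 + lam * h a + 4 * lam ^ 2) :=
        Finset.sum_le_sum hp
    _ = M * (lam * ((∑ a, h a) / M) + 4 * lam ^ 2 + 1) := by
        rw [Finset.sum_add_distrib, Finset.sum_add_distrib, ← Finset.mul_sum]
        simp only [Finset.sum_const, Finset.card_univ, Fintype.card_fin, nsmul_eq_mul]
        field_simp
        ring
    _ ≤ M * Real.exp (lam * ((∑ a, h a) / M) + 4 * lam ^ 2) :=
        mul_le_mul_of_nonneg_left (Real.add_one_le_exp _) hM'.le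

theorem loc_count {V : Type} [Fintype V] [DecidableEq V] {M : ℕ} (hM : 0 < M) (N : Finset V)
    (g : V → Fin M → ℝ) (hg : ∀ u a, 0 ≤ g u a ∧ g u a ≤ 2) {lam : ℝ} (h0 : 0 ≤ lam)
    (h1 : lam ≤ 1 / 2) (y : ℝ) :
    ((univ.filter fun ω : V → Fin M => ∑ u ∈ N, (∑ a, g u a) / M + y <
      ∑ u ∈ N, g u (ω u)).card : ℝ) ≤
      Real.exp (4 * lam ^ 2 * N.card - lam * y) * Fintype.card (V → Fin M) := by
  classical
  have hM' : (0 : ℝ) < M := by exact_mod_cast hM
  -- the exponential moment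
  have hmom : ∑ ω : V → Fin M, Real.exp (lam * ∑ u ∈ N, g u (ω u)) ≤
      Fintype.card (V → Fin M) *
        Real.exp (lam * ∑ u ∈ N, (∑ a, g u a) / M + 4 * lam ^ 2 * N.card) := by
    have e1 : ∀ ω : V → Fin M, Real.exp (lam * ∑ u ∈ N, g u (ω u)) =
        ∏ u, (if u ∈ N then Real.exp (lam * g u (ω u)) else 1) := by
      intro ω
      rw [Finset.prod_ite, Finset.prod_const_one, mul_one, Finset.mul_sum, Real.exp_sum]
      apply Finset.prod_congr _ fun _ _ => rfl
      ext u
      simp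
    have e2 : ∑ ω : V → Fin M, ∏ u, (if u ∈ N then Real.exp (lam * g u (ω u)) else 1) =
        ∏ u, ∑ a : Fin M, (if u ∈ N then Real.exp (lam * g u a) else 1) := by
      rw [Finset.prod_univ_sum (fun _ => (univ : Finset (Fin M)))
        (fun u a => if u ∈ N then Real.exp (lam * g u a) else 1), Fintype.piFinset_univ]
    have e3 : ∏ u, ∑ a : Fin M, (if u ∈ N then Real.exp (lam * g u a) else 1) ≤
        ∏ u : V, ((M : ℝ) * (if u ∈ N then
          Real.exp (lam * ((∑ a, g u a) / M) + 4 * lam ^ 2) else 1)) := by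
      apply Finset.prod_le_prod
      · intro u _
        exact Finset.sum_nonneg fun a _ => by split_ifs <;> positivity
      · intro u _
        by_cases hu : u ∈ N
        · simp only [hu, if_true]
          exact loc_one hM h0 h1 (g u) (hg u)
        · simp [hu]
    have e4 : ∏ u : V, ((M : ℝ) * (if u ∈ N then
          Real.exp (lam * ((∑ a, g u a) / M) + 4 * lam ^ 2) else 1)) =
        Fintype.card (V → Fin M) *
          Real.exp (lam * ∑ u ∈ N, (∑ a, g u a) / M + 4 * lam ^ 2 * N.card) := by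
      rw [Finset.prod_mul_distrib, Finset.prod_const, Finset.card_univ, Fintype.card_fun,
        Fintype.card_fin, Finset.prod_ite, Finset.prod_const_one, mul_one]
      push_cast
      congr 1
      have h5 : (univ.filter fun u => u ∈ N) = N := by
        ext u
        simp
      rw [h5, ← Real.exp_sum, Finset.sum_add_distrib, ← Finset.mul_sum, Finset.sum_const,
        nsmul_eq_mul]
      congr 1
      ring
    rw [Finset.sum_congr rfl fun ω _ => e1 ω, e2]
    exact e3.trans e4.le
  -- Markov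
  have hmk : ((univ.filter fun ω : V → Fin M => ∑ u ∈ N, (∑ a, g u a) / M + y <
      ∑ u ∈ N, g u (ω u)).card : ℝ) * Real.exp (lam * (∑ u ∈ N, (∑ a, g u a) / M + y)) ≤
      ∑ ω : V → Fin M, Real.exp (lam * ∑ u ∈ N, g u (ω u)) := by
    rw [← nsmul_eq_mul, ← Finset.sum_const]
    refine (Finset.sum_le_sum fun ω hω => ?_).trans
      (Finset.sum_le_sum_of_subset_of_nonneg (Finset.filter_subset _ _) fun ω _ _ =>
        (Real.exp_pos _).le)
    exact Real.exp_le_exp.2 (mul_le_mul_of_nonneg_left (Finset.mem_filter.1 hω).2.le h0)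
  have h6 := hmk.trans hmom
  rw [← le_div_iff₀ (Real.exp_pos _)] at h6
  refine h6.trans_eq ?_
  rw [mul_div_assoc, ← Real.exp_sub, mul_comm]
  congr 2
  ring

theorem loc_lim (m : ℕ) {c C0 : ℝ} (hc : 0 < c) : ∃ K0 : ℕ, ∀ K : ℕ, K0 ≤ K →
    4 * (m * Real.exp (-(c * K))) * (C0 * K) ^ 2 ≤ 1 ∧ 4 * (m * Real.exp (-(c * K))) ≤ 1 := by
  have h1 : Filter.Tendsto (fun K : ℕ => (c * (K : ℝ))) Filter.atTop Filter.atTop :=
    tendsto_natCast_atTop_atTop.const_mul_atTop hc
  have h2 := (Real.tendsto_pow_mul_exp_neg_atTop_nhds_zero 2).comp h1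
  have h3 := (Real.tendsto_pow_mul_exp_neg_atTop_nhds_zero 0).comp h1
  have h4 : Filter.Tendsto (fun K : ℕ => 4 * (m * Real.exp (-(c * K))) * (C0 * K) ^ 2)
      Filter.atTop (nhds 0) := by
    have h5 := h2.const_mul (4 * m * C0 ^ 2 / c ^ 2)
    rw [mul_zero] at h5
    refine h5.congr fun K => ?_
    simp only [Function.comp_apply]
    field_simp
  have h6 : Filter.Tendsto (fun K : ℕ => 4 * (m * Real.exp (-(c * K))))
      Filter.atTop (nhds 0) := by
    have h5 := h3.const_mul (4 * (m : ℝ))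
    rw [mul_zero] at h5
    refine h5.congr fun K => ?_
    simp only [Function.comp_apply, pow_zero, one_mul]
    ring
  have h7 := (h4.eventually (eventually_le_nhds (show (0 : ℝ) < 1 by norm_num))).and
    (h6.eventually (eventually_le_nhds (show (0 : ℝ) < 1 by norm_num)))
  exact Filter.eventually_atTop.1 h7

theorem loc : LocS := by
  classical
  intro C0 t m hC ht
  have hC0 : 0 < C0 := by linarith
  set t' := min t 1 with ht'
  have ht'0 : 0 < t' := lt_min ht one_pos
  have ht'1 : t' ≤ 1 := min_le_right _ _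
  have ht't : t' ≤ t := min_le_left _ _
  set lam := t' / (8 * C0) with hlam
  have hlam0 : 0 < lam := by positivity
  have hlam1 : lam ≤ 1 / 2 := by
    rw [hlam, div_le_iff₀ (by positivity)]
    linarith
  have hcpos : 0 < t' ^ 2 / (16 * C0) := by positivity
  obtain ⟨K0, hK0⟩ := loc_lim m (C0 := C0) hcpos
  refine ⟨K0, fun K hK V _ _ G _ hdeg M hM g hg => ?_⟩
  obtain ⟨hq1, hq2⟩ := hK0 K hK
  set q : ℝ := m * Real.exp (-(t' ^ 2 / (16 * C0) * K)) with hq
  have hq0 : 0 ≤ q := by positivity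
  have hKn : (0 : ℝ) ≤ K := Nat.cast_nonneg _
  have : NeZero M := ⟨hM.ne'⟩
  have : Nonempty (Fin M) := ⟨0⟩
  set D0 := ⌊C0 * K⌋₊ with hD0
  have hdeg' : ∀ v, (G.neighborFinset v).card ≤ D0 := fun v => Nat.le_floor (hdeg v)
  have hD0' : (D0 : ℝ) ≤ C0 * K := Nat.floor_le (by positivity)
  let E : V → Finset (V → Fin M) := fun v => univ.filter fun ω => ∃ i,
    ∑ u ∈ G.neighborFinset v, (∑ a, g v i u a) / M + t * K <
      ∑ u ∈ G.neighborFinset v, g v i u (ω u)
  have hdep : ∀ v, Pool.Agent.H16.Cube.DependsOn (E v) (G.neighborFinset v) := by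
    intro v ω ω' h hω
    simp only [E, Finset.mem_filter, Finset.mem_univ, true_and] at hω ⊢
    obtain ⟨i, hi⟩ := hω
    refine ⟨i, ?_⟩
    have h8 : ∑ u ∈ G.neighborFinset v, g v i u (ω' u) =
        ∑ u ∈ G.neighborFinset v, g v i u (ω u) :=
      Finset.sum_congr rfl fun u hu => by rw [h u hu]
    rw [h8]
    exact hi
  have hcard : ∀ v, ((E v).card : ℝ) ≤ q * Fintype.card (V → Fin M) := by
    intro v
    have hsub : E v ⊆ (univ : Finset (Fin m)).biUnion fun i => univ.filter fun ω : V → Fin M =>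
        ∑ u ∈ G.neighborFinset v, (∑ a, g v i u a) / M + t * K <
          ∑ u ∈ G.neighborFinset v, g v i u (ω u) := by
      intro ω hω
      simp only [E, Finset.mem_filter, Finset.mem_univ, true_and] at hω
      obtain ⟨i, hi⟩ := hω
      exact Finset.mem_biUnion.2 ⟨i, Finset.mem_univ _, Finset.mem_filter.2 ⟨Finset.mem_univ _, hi⟩⟩
    have h1 : ((E v).card : ℝ) ≤ ∑ i : Fin m, ((univ.filter fun ω : V → Fin M =>
        ∑ u ∈ G.neighborFinset v, (∑ a, g v i u a) / M + t * K <
          ∑ u ∈ G.neighborFinset v, g v i u (ω u)).card : ℝ) := by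
      exact_mod_cast (Finset.card_le_card hsub).trans Finset.card_biUnion_le
    refine h1.trans ?_
    have h2 : ∀ i ∈ (univ : Finset (Fin m)), ((univ.filter fun ω : V → Fin M =>
        ∑ u ∈ G.neighborFinset v, (∑ a, g v i u a) / M + t * K <
          ∑ u ∈ G.neighborFinset v, g v i u (ω u)).card : ℝ) ≤
        Real.exp (-(t' ^ 2 / (16 * C0) * K)) * Fintype.card (V → Fin M) := by
      intro i _
      refine (loc_count hM (G.neighborFinset v) (g v i) (hg v i) hlam0.le hlam1 (t * K)).trans ?_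
      refine mul_le_mul_of_nonneg_right (Real.exp_le_exp.2 ?_) (Nat.cast_nonneg _)
      have h3 : 4 * lam ^ 2 * ((G.neighborFinset v).card : ℝ) ≤ 4 * lam ^ 2 * (C0 * K) :=
        mul_le_mul_of_nonneg_left (hdeg v) (by positivity)
      have h4 : lam * (t' * K) ≤ lam * (t * K) :=
        mul_le_mul_of_nonneg_left (mul_le_mul_of_nonneg_right ht't hKn) hlam0.le
      have h5 : 4 * lam ^ 2 * (C0 * K) - lam * (t' * K) = -(t' ^ 2 / (16 * C0) * K) := by
        rw [hlam]
        field_simp
        ring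
      linarith
    refine (Finset.sum_le_sum h2).trans_eq ?_
    rw [Finset.sum_const, Finset.card_univ, Fintype.card_fin, nsmul_eq_mul, hq]
    ring
  have hD : ∀ y, (univ.filter fun z => z ≠ y ∧
      ¬ Disjoint (G.neighborFinset y) (G.neighborFinset z)).card ≤ D0 * D0 := by
    intro y
    have hsub : (univ.filter fun z => z ≠ y ∧
        ¬ Disjoint (G.neighborFinset y) (G.neighborFinset z)) ⊆
        (G.neighborFinset y).biUnion fun u => G.neighborFinset u := by
      intro z hz
      rw [Finset.mem_filter, Finset.not_disjoint_iff] at hz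
      obtain ⟨-, -, u, hu1, hu2⟩ := hz
      rw [Finset.mem_biUnion]
      refine ⟨u, hu1, ?_⟩
      rw [SimpleGraph.mem_neighborFinset] at hu2 ⊢
      exact hu2.symm
    refine (Finset.card_le_card hsub).trans ?_
    refine (Finset.card_biUnion_le_card_mul _ _ D0 fun u _ => hdeg' u).trans ?_
    exact Nat.mul_le_mul_right _ (hdeg' y)
  have h4 : 4 * q * ((D0 * D0 : ℕ) : ℝ) ≤ 1 := by
    refine le_trans ?_ hq1
    push_cast
    have h5 : (D0 : ℝ) * D0 ≤ (C0 * K) ^ 2 := by
      rw [sq]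
      exact mul_le_mul hD0' hD0' (Nat.cast_nonneg _) (by positivity)
    exact mul_le_mul_of_nonneg_left h5 (by positivity)
  have hlll := Pool.Agent.H16.Cube.lll (E := E) (S := fun v => G.neighborFinset v) hdep hq0
    hcard hD h4 (by linarith)
  have hpos : (0 : ℝ) < (1 - 2 * q) ^ Fintype.card V * Fintype.card (V → Fin M) := by
    have h1 : (0 : ℝ) < 1 - 2 * q := by linarith
    have h2 : (0 : ℝ) < Fintype.card (V → Fin M) := by exact_mod_cast Fintype.card_pos
    positivity
  have hne : (0 : ℝ) < ((Pool.Agent.H16.Cube.avoid E univ).card : ℝ) := lt_of_lt_of_le hpos hlll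
  have hne' : 0 < (Pool.Agent.H16.Cube.avoid E univ).card := by exact_mod_cast hne
  obtain ⟨ω, hω⟩ := Finset.card_pos.1 hne'
  unfold Pool.Agent.H16.Cube.avoid at hω
  rw [Finset.mem_filter] at hω
  refine ⟨ω, fun v i => ?_⟩
  have h5 := hω.2 v (Finset.mem_univ _)
  simp only [E, Finset.mem_filter, Finset.mem_univ, true_and, not_exists, not_lt] at h5
  exact h5 i

end Pool.Agent.PK
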