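import Pool.Agent.PK.Pre

/-!
# Packing (PK): the main loop over the slots
-/

set_option autoImplicit false

namespace Pool.Agent.PK

open Finset
open Pool.Agent.H24.LP Pool.Agent.H24.LP.Nib

/-- The output of one slot. -/
def Slt.Outcome {V : Type} [Fintype V] [DecidableEq V] {K n : ℕ} {ε δ D κ ν C : ℝ}
    (Ω : Slt V K n ε δ D κ ν C) (mm t : ℝ) : Prop :=
  ∃ π' : V → Equiv.Perm (Fin K), (∀ v ∈ Ω.Q, π' v = Ω.π v) ∧
    ValidK Ω.G Ω.σ (Ω.Q ∪ Ω.W) π' ∧
    ∀ v ∈ Ω.U, ∃ M : Fin K → Fin K → ℝ, (∀ i j, 0 ≤ M i j) ∧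
      (∀ i j, M i j ≤ if (i, j) ∈ Al Ω.G Ω.σ Ω.Q Ω.π v ∧
        (i, j) ∉ Al Ω.G Ω.σ (Ω.Q ∪ Ω.W) π' v then 1 else 0) ∧
      (∀ i, ∑ j, M i j ≤ mm * K) ∧ (∀ j, ∑ i, M i j ≤ mm * K) ∧
      (∀ S T : Finset (Fin K), ((rect (Al Ω.G Ω.σ Ω.Q Ω.π v) S T).card : ℝ) ≤
        (rect (Al Ω.G Ω.σ (Ω.Q ∪ Ω.W) π' v) S T).card +
        (1 + κ) * Ω.exh v (rect (Al Ω.G Ω.σ Ω.Q Ω.π v) S T) +
        ∑ i ∈ S, ∑ j ∈ T, M i j + t * K ^ 2) ∧
      (∀ i, ((Finset.univ.filter fun j => (i, j) ∈ Al Ω.G Ω.σ Ω.Q Ω.π v).card : ℝ) ≤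
        (Finset.univ.filter fun j => (i, j) ∈ Al Ω.G Ω.σ (Ω.Q ∪ Ω.W) π' v).card +
        (1 + κ) * Ω.exh v (rect (Al Ω.G Ω.σ Ω.Q Ω.π v) {i} Finset.univ) +
        ∑ j, M i j + t * K) ∧
      ∀ j, ((Finset.univ.filter fun i => (i, j) ∈ Al Ω.G Ω.σ Ω.Q Ω.π v).card : ℝ) ≤
        (Finset.univ.filter fun i => (i, j) ∈ Al Ω.G Ω.σ (Ω.Q ∪ Ω.W) π' v).card +
        (1 + κ) * Ω.exh v (rect (Al Ω.G Ω.σ Ω.Q Ω.π v) Finset.univ {j}) +
        ∑ i, M i j + t * K

section

variable {V : Type} [Fintype V] [DecidableEq V]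

set_option linter.unusedSectionVars false

theorem nb_filter (G : SimpleGraph V) (R : Finset V) (P : V → Prop) [DecidablePred P] (v : V) :
    nb G (R.filter P) v = (nb G R v).filter P := by
  ext x
  rw [mem_nb, Finset.mem_filter, Finset.mem_filter, mem_nb]
  tauto

theorem sum_row {K : ℕ} (B : Finset (Fin K × Fin K)) (f : Fin K → Fin K → ℝ) (i : Fin K) :
    ∑ x ∈ rect B {i} Finset.univ, f x.1 x.2 =
      ∑ j ∈ Finset.univ.filter (fun j => (i, j) ∈ B), f i j := by
  classical
  refine Finset.sum_nbij' (fun x => x.2) (fun j => (i, j)) ?_ ?_ ?_ ?_ ?_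
  · intro x hx
    rw [mem_rect, Finset.mem_singleton] at hx
    rw [Finset.mem_filter]
    refine ⟨Finset.mem_univ _, ?_⟩
    rw [← hx.2.1]
    exact hx.1
  · intro j hj
    rw [Finset.mem_filter] at hj
    rw [mem_rect, Finset.mem_singleton]
    exact ⟨hj.2, rfl, Finset.mem_univ _⟩
  · intro x hx
    rw [mem_rect, Finset.mem_singleton] at hx
    ext <;> simp [hx.2.1]
  · intro j _
    rfl
  · intro x hx
    rw [mem_rect, Finset.mem_singleton] at hx
    rw [hx.2.1]

theorem sum_col {K : ℕ} (B : Finset (Fin K × Fin K)) (f : Fin K → Fin K → ℝ) (j : Fin K) :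
    ∑ x ∈ rect B Finset.univ {j}, f x.1 x.2 =
      ∑ i ∈ Finset.univ.filter (fun i => (i, j) ∈ B), f i j := by
  classical
  refine Finset.sum_nbij' (fun x => x.1) (fun i => (i, j)) ?_ ?_ ?_ ?_ ?_
  · intro x hx
    rw [mem_rect, Finset.mem_singleton] at hx
    rw [Finset.mem_filter]
    refine ⟨Finset.mem_univ _, ?_⟩
    rw [← hx.2.2]
    exact hx.1
  · intro i hi
    rw [Finset.mem_filter] at hi
    rw [mem_rect, Finset.mem_singleton]
    exact ⟨hi.2, Finset.mem_univ _, rfl⟩
  · intro x hx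
    rw [mem_rect, Finset.mem_singleton] at hx
    ext <;> simp [hx.2.2]
  · intro i _
    rfl
  · intro x hx
    rw [mem_rect, Finset.mem_singleton] at hx
    rw [hx.2.2]

/-- The main loop. -/
theorem loop {K J : ℕ} (hK : 0 < K) (G : SimpleGraph V) (σ : V → V → Equiv.Perm (Fin K))
    (hσ : ∀ u v, G.Adj u v → σ v u = (σ u v)⁻¹) (W R : Finset V) (hWR : Disjoint W R)
    (π0 : V → Equiv.Perm (Fin K)) (hπ0 : ValidK G σ W π0) (τ : V → ℕ) (p : ℕ → V → ℝ)
    {ε δ D C θ mm κ' : ℝ} (hε : 0 < ε) (hδ0 : 0 ≤ δ) (hδ : 4 * δ ≤ ε) (ν κ : ℕ → ℝ)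
    (N : ℕ → ℕ) (hν : ∀ s, 0 ≤ ν s) (hκ : ∀ s, 0 ≤ κ s) (hκ1 : ∀ s, κ s ≤ 1)
    (hθ : ∀ s, 8 * κ s ≤ θ) (hνκ : ∀ s < J, ν s + 3 * κ s ≤ ν (s + 1))
    (hC : J * (4 * δ / ε) ≤ C) (hmm : 2 * mm ≤ κ')
    (hτ : ∀ v ∈ R, τ v < J) (hp0 : ∀ v ∈ R, 2 * ((nb G W v).card : ℝ) ≤ (1 - p 0 v) * K)
    (hp01 : ∀ v ∈ R, p 0 v ≤ 1)
    (hstep : ∀ v ∈ R, ∀ s < τ v, p (s + 1) v +
      1 / K * ∑ w ∈ (nb G R v).filter (fun w => τ w = s), (hh (p s v / p s w) + θ) + κ' ≤ p s v)
    (hge : ∀ v ∈ R, ∀ s ≤ τ v, ε ≤ p s v)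
    (hfew : ∀ v ∈ R, ∀ s, (((nb G R v).filter fun w => τ w = s).card : ℝ) ≤ δ * K)
    (hdeg : ∀ v ∈ R, ((nb G R v).card : ℝ) ≤ D * K)
    (hlaw : ∀ s < J, ∀ (B : Finset (Fin K × Fin K)) (a q c : ℝ) (X : Fin K → Fin K → ℝ),
      ε ≤ q → State B a q (ν s) c X → ∃ q1 q2 : Fin K → Fin K → ℝ, Law B a q (κ s) q1 q2)
    (hsamp : ∀ s < J, ∀ (B : Finset (Fin K × Fin K)) (q : Fin K → Fin K → ℝ),
      (∀ i j, 0 ≤ q i j) → (∀ i, ∑ j, q i j = 1) → (∀ j, ∑ i, q i j = 1) →
      (∀ i j, (i, j) ∉ B → q i j = 0) →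
      ∃ (F : Fin (N s) → Equiv.Perm (Fin K)) (bd : Fin (N s) → Finset (Fin K)),
        Samp B q (κ s) F bd)
    (hslot : ∀ s < J, ∀ Ω : Slt V K (N s) ε δ D (κ s) (ν s) C, Ω.Outcome mm (κ s)) :
    ∃ π : V → Equiv.Perm (Fin K), (∀ v ∈ W, π v = π0 v) ∧ ValidK G σ (W ∪ R) π := by
  classical
  have hinv : ∀ s ≤ J, ∃ π : V → Equiv.Perm (Fin K), (∀ v ∈ W, π v = π0 v) ∧
      ValidK G σ (W ∪ R.filter fun v => τ v < s) π ∧
      ∀ v ∈ R, s ≤ τ v → ∃ (a : ℝ) (X : Fin K → Fin K → ℝ),
        State (Al G σ (W ∪ R.filter fun v => τ v < s) π v) a (p s v) (ν s)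
          (s * (4 * δ / ε)) X := by
    intro s
    induction s with
    | zero =>
      intro _
      have h0 : (W ∪ R.filter fun v => τ v < 0) = W := by
        have : R.filter (fun v => τ v < 0) = ∅ := by
          rw [Finset.filter_eq_empty_iff]
          intro v _
          exact Nat.not_lt_zero _
        rw [this, Finset.union_empty]
      refine ⟨π0, fun v _ => rfl, ?_, ?_⟩
      · rw [h0]
        exact hπ0
      · intro v hv _
        rw [h0]
        refine ⟨1, _, birth G σ W π0 v (hν 0) ?_ (hp0 v hv) (hp01 v hv)⟩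
        simp
    | succ s ih =>
      intro hs
      have hsJ : s < J := by omega
      obtain ⟨π, hπ1, hπ2, hπ3⟩ := ih hsJ.le
      set Q : Finset V := W ∪ R.filter fun v => τ v < s with hQ
      set Ws : Finset V := R.filter fun v => τ v = s with hWs
      set Us : Finset V := R.filter fun v => s < τ v with hUs
      have hWsR : ∀ v ∈ Ws, v ∈ R ∧ τ v = s := fun v hv => Finset.mem_filter.1 hv
      have hUsR : ∀ v ∈ Us, v ∈ R ∧ s < τ v := fun v hv => Finset.mem_filter.1 hv
      have hQW' : Disjoint Q Ws := by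
        rw [Finset.disjoint_left]
        intro v hv hv'
        rw [hQ, Finset.mem_union, Finset.mem_filter] at hv
        have h1 := hWsR v hv'
        rcases hv with hv | hv
        · exact Finset.disjoint_left.1 hWR hv h1.1
        · omega
      have hQU' : Disjoint Q Us := by
        rw [Finset.disjoint_left]
        intro v hv hv'
        rw [hQ, Finset.mem_union, Finset.mem_filter] at hv
        have h1 := hUsR v hv'
        rcases hv with hv | hv
        · exact Finset.disjoint_left.1 hWR hv h1.1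
        · omega
      have hWU' : Disjoint Ws Us := by
        rw [Finset.disjoint_left]
        intro v hv hv'
        have h1 := hUsR v hv'
        have h2 := hWsR v hv
        omega
      have hnext : (W ∪ R.filter fun v => τ v < s + 1) = Q ∪ Ws := by
        rw [hQ, hWs]
        ext v
        simp only [Finset.mem_union, Finset.mem_filter]
        constructor
        · rintro (h | ⟨h1, h2⟩)
          · exact Or.inl (Or.inl h)
          · rcases Nat.lt_succ_iff_lt_or_eq.1 h2 with h3 | h3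
            · exact Or.inl (Or.inr ⟨h1, h3⟩)
            · exact Or.inr ⟨h1, h3⟩
        · rintro ((h | ⟨h1, h2⟩) | ⟨h1, h2⟩)
          · exact Or.inl h
          · exact Or.inr ⟨h1, by omega⟩
          · exact Or.inr ⟨h1, by omega⟩
      -- the states
      have hst : ∀ v : V, ∃ (a : ℝ) (X : Fin K → Fin K → ℝ), v ∈ R → s ≤ τ v →
          State (Al G σ Q π v) a (p s v) (ν s) (s * (4 * δ / ε)) X := by
        intro v
        by_cases h : v ∈ R ∧ s ≤ τ v
        · obtain ⟨a, X, hX⟩ := hπ3 v h.1 h.2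
          exact ⟨a, X, fun _ _ => hX⟩
        · exact ⟨0, fun _ _ => 0, fun h1 h2 => absurd ⟨h1, h2⟩ h⟩
      choose a X hX using hst
      -- the laws
      have hlw : ∀ v : V, ∃ q1 q2 : Fin K → Fin K → ℝ, v ∈ Ws →
          Law (Al G σ Q π v) (a v) (p s v) (κ s) q1 q2 := by
        intro v
        by_cases h : v ∈ Ws
        · obtain ⟨h1, h2⟩ := hWsR v h
          obtain ⟨q1, q2, hq⟩ := hlaw s hsJ _ _ _ _ _ (hge v h1 s h2.ge) (hX v h1 h2.ge)
          exact ⟨q1, q2, fun _ => hq⟩
        · exact ⟨fun _ _ => 0, fun _ _ => 0, fun h1 => absurd h1 h⟩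
      choose q1 q2 hq using hlw
      have hsm : ∀ v : V, ∃ (F : Fin (N s) → Equiv.Perm (Fin K)) (bd : Fin (N s) → Finset (Fin K)),
          v ∈ Ws → Samp (Al G σ Q π v) (fun i j => q1 v i j + q2 v i j) (κ s) F bd := by
        intro v
        by_cases h : v ∈ Ws
        · have hL := hq v h
          obtain ⟨F, bd, hF⟩ := hsamp s hsJ (Al G σ Q π v) (fun i j => q1 v i j + q2 v i j)
            (fun i j => add_nonneg (hL.n1 i j) (hL.n2 i j)) hL.row hL.col (by
              intro i j hij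
              obtain ⟨e1, e2⟩ := hL.supp i j hij
              rw [e1, e2, add_zero])
          exact ⟨F, bd, fun _ => hF⟩
        · exact ⟨fun _ => 1, fun _ => ∅, fun h1 => absurd h1 h⟩
      choose F bd hF using hsm
      have hsCle : (s : ℝ) * (4 * δ / ε) ≤ C := by
        refine le_trans ?_ hC
        apply mul_le_mul_of_nonneg_right _ (by positivity)
        exact_mod_cast hsJ.le
      have hsub : ∀ v, ((nb G (Ws ∪ Us) v).card : ℝ) ≤ (nb G R v).card := by
        intro v
        have h1 : nb G (Ws ∪ Us) v ⊆ nb G R v := by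
          intro x hx
          rw [mem_nb] at hx ⊢
          refine ⟨?_, hx.2⟩
          rcases Finset.mem_union.1 hx.1 with h | h
          · exact (hWsR x h).1
          · exact (hUsR x h).1
        exact_mod_cast Finset.card_le_card h1
      let Ω : Slt V K (N s) ε δ D (κ s) (ν s) C :=
        { G := G
          σ := σ
          hσ := hσ
          Q := Q
          π := π
          W := Ws
          U := Us
          idx := fun v => (Fintype.equivFin V v : ℕ)
          hidx := fun u v h => (Fintype.equivFin V).injective (Fin.ext h)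
          hQW := hQW'
          hQU := hQU'
          hWU := hWU'
          hval := hπ2
          a := a
          p := p s
          c := fun _ => s * (4 * δ / ε)
          R := X
          hst := fun w hw => hX w (hWsR w hw).1 (hWsR w hw).2.ge
          hp := fun w hw => hge w (hWsR w hw).1 s (hWsR w hw).2.ge
          hc := fun _ _ => hsCle
          hdeg := by
            intro v hv
            have hvR : v ∈ R := by
              rcases Finset.mem_union.1 hv with h | h
              · exact (hWsR v h).1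
              · exact (hUsR v h).1
            rw [hWs, nb_filter]
            exact hfew v hvR s
          hD := fun v hv => (hsub v).trans (hdeg v (hWsR v hv).1)
          q1 := q1
          q2 := q2
          hlaw := fun w hw =>
            have h := hq w hw
            ⟨h.n1, h.n2, h.row, h.col, h.supp, h.cap1, h.cap, h.row2, h.col2⟩
          F := F
          bd := bd
          hsamp := fun w hw => hF w hw }
      obtain ⟨π', hp1, hp2, hp3⟩ := hslot s hsJ Ω
      refine ⟨π', ?_, ?_, ?_⟩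
      · intro v hv
        rw [← hπ1 v hv]
        exact hp1 v (Finset.mem_union_left _ hv)
      · rw [hnext]
        exact hp2
      · intro v hv hvs
        rw [hnext]
        have hvU : v ∈ Us := Finset.mem_filter.2 ⟨hv, by omega⟩
        obtain ⟨M, hM0, hM1, hMr, hMc, hrct, hrow, hcol⟩ := hp3 v hvU
        have hsv : s ≤ τ v := by omega
        have hB : Al G σ (Q ∪ Ws) π' v ⊆ Al G σ Q π v := by
          intro x hx
          rw [mem_Al] at hx ⊢
          intro w hw
          rw [mem_nb] at hw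
          have h1 := hx w (by
            rw [mem_nb]
            exact ⟨Finset.mem_union_left _ hw.1, hw.2⟩)
          have h2 : π' w = π w := hp1 w hw.1
          rwa [h2] at h1
        have hnbW : nb G Ws v = (nb G R v).filter fun w => τ w = s := by
          rw [hWs, nb_filter]
        have hexh : ∀ A, Ω.exh v A = ∑ w ∈ nb G Ws v, ∑ x ∈ A,
            (q1 w x.1 ((σ w v)⁻¹ x.2) + q2 w x.1 ((σ w v)⁻¹ x.2)) := fun A => Ω.exh_eq v A
        have hsv' : ((nb G Ws v).card : ℝ) ≤ δ * K := by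
          rw [hnbW]
          exact hfew v hv s
        have hstep' : p (s + 1) v + 1 / K * ∑ w ∈ nb G Ws v, (hh (p s v / p s w) + θ) + κ' ≤
            p s v := by
          rw [hnbW]
          exact hstep v hv s (by omega)
        obtain ⟨a', X', -, hS'⟩ := upd hK hB (hX v hv hsv) (θ := θ) (mm := mm) (κ' := κ') hε
          (hκ s) (hκ1 s) (hθ s) hδ0 hδ (by positivity) (hν s) (hge v hv s hsv)
          (nb G Ws v) hsv' a (p s)
          (fun w i j => q1 w i ((σ w v)⁻¹ j)) (fun w i j => q2 w i ((σ w v)⁻¹ j))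
          (by
            intro w hw
            rw [mem_nb] at hw
            have h1 := hWsR w hw.1
            have h2 := hX w h1.1 h1.2.ge
            exact law_trans (hq w hw.1) h2.pa h2.a1 _)
          (by
            intro w hw
            rw [mem_nb] at hw
            have h1 := hWsR w hw.1
            exact hge w h1.1 s h1.2.ge)
          M hM0 hM1 hMr hMc hmm
          (by
            intro S T
            have h1 := hrct S T
            rw [hexh] at h1
            exact h1)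
          (by
            intro i
            have h1 := hrow i
            rw [hexh] at h1
            have h2 : ∀ w ∈ nb G Ws v, ∑ x ∈ rect (Al G σ Q π v) {i} Finset.univ,
                (q1 w x.1 ((σ w v)⁻¹ x.2) + q2 w x.1 ((σ w v)⁻¹ x.2)) =
                ∑ j ∈ Finset.univ.filter (fun j => (i, j) ∈ Al G σ Q π v),
                (q1 w i ((σ w v)⁻¹ j) + q2 w i ((σ w v)⁻¹ j)) := fun w _ =>
              sum_row _ (fun i j => q1 w i ((σ w v)⁻¹ j) + q2 w i ((σ w v)⁻¹ j)) i
            rw [Finset.sum_congr rfl h2] at h1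
            exact h1)
          (by
            intro j
            have h1 := hcol j
            rw [hexh] at h1
            have h2 : ∀ w ∈ nb G Ws v, ∑ x ∈ rect (Al G σ Q π v) Finset.univ {j},
                (q1 w x.1 ((σ w v)⁻¹ x.2) + q2 w x.1 ((σ w v)⁻¹ x.2)) =
                ∑ i ∈ Finset.univ.filter (fun i => (i, j) ∈ Al G σ Q π v),
                (q1 w i ((σ w v)⁻¹ j) + q2 w i ((σ w v)⁻¹ j)) := fun w _ =>
              sum_col _ (fun i j => q1 w i ((σ w v)⁻¹ j) + q2 w i ((σ w v)⁻¹ j)) j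
            rw [Finset.sum_congr rfl h2] at h1
            exact h1)
          hstep'
        refine ⟨a', X', ?_⟩
        have h5 : (s : ℝ) * (4 * δ / ε) + 4 * δ / ε = ((s + 1 : ℕ) : ℝ) * (4 * δ / ε) := by
          push_cast
          ring
        rw [h5] at hS'
        exact hS'.mono (hνκ s hsJ)
  obtain ⟨π, h1, h2, -⟩ := hinv J (le_refl _)
  refine ⟨π, h1, ?_⟩
  have h3 : (W ∪ R.filter fun v => τ v < J) = W ∪ R := by
    congr 1
    rw [Finset.filter_eq_self]
    exact hτ
  rwa [h3] at h2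

end

end Pool.Agent.PK
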