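import Pool.Agent.PK.Defs

/-!
# Packing (PK): the interface of the slot step and of the main loop
-/

set_option autoImplicit false

namespace Pool.Agent.PK

open Finset
open Pool.Agent.H24.LP Pool.Agent.H24.LP.Nib

/-- The result of one slot: a valid packing `π'` of `Q ∪ W` which extends `π`, and for every
vertex `v` of `U` bounds for the numbers of lost cells on rectangles and on lines; `M` is the
part of the lost cells which is not controlled by the laws. -/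
def SlotOut {V : Type} [Fintype V] [DecidableEq V] {K n : ℕ} {ε δ D κ ν C : ℝ}
    (Ω : Slot V K n ε δ D κ ν C) (mm : ℝ) : Prop :=
  ∃ π' : V → Equiv.Perm (Fin K), (∀ v ∈ Ω.Q, π' v = Ω.π v) ∧
    ValidK Ω.G Ω.σ (Ω.Q ∪ Ω.W) π' ∧ ∀ v ∈ Ω.U, ∃ M : Fin K → Fin K → ℝ,
      (∀ i j, 0 ≤ M i j) ∧
      (∀ i j, M i j ≤ if (i, j) ∈ Al Ω.G Ω.σ Ω.Q Ω.π v ∧
        (i, j) ∉ Al Ω.G Ω.σ (Ω.Q ∪ Ω.W) π' v then 1 else 0) ∧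
      (∀ i, ∑ j, M i j ≤ mm * K) ∧ (∀ j, ∑ i, M i j ≤ mm * K) ∧
      (∀ S T : Finset (Fin K), ((rect (Al Ω.G Ω.σ Ω.Q Ω.π v) S T).card : ℝ) ≤
        (rect (Al Ω.G Ω.σ (Ω.Q ∪ Ω.W) π' v) S T).card +
        (1 + κ) * ∑ w ∈ nb Ω.G Ω.W v, ∑ x ∈ rect (Al Ω.G Ω.σ Ω.Q Ω.π v) S T,
          (Ω.q1 w x.1 ((Ω.σ w v).symm x.2) + Ω.q2 w x.1 ((Ω.σ w v).symm x.2)) +
        ∑ i ∈ S, ∑ j ∈ T, M i j + κ * K ^ 2) ∧
      (∀ i, ((univ.filter fun j => (i, j) ∈ Al Ω.G Ω.σ Ω.Q Ω.π v).card : ℝ) ≤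
        (univ.filter fun j => (i, j) ∈ Al Ω.G Ω.σ (Ω.Q ∪ Ω.W) π' v).card +
        (1 + κ) * ∑ w ∈ nb Ω.G Ω.W v,
          ∑ j ∈ univ.filter (fun j => (i, j) ∈ Al Ω.G Ω.σ Ω.Q Ω.π v),
          (Ω.q1 w i ((Ω.σ w v).symm j) + Ω.q2 w i ((Ω.σ w v).symm j)) +
        ∑ j, M i j + κ * K) ∧
      (∀ j, ((univ.filter fun i => (i, j) ∈ Al Ω.G Ω.σ Ω.Q Ω.π v).card : ℝ) ≤
        (univ.filter fun i => (i, j) ∈ Al Ω.G Ω.σ (Ω.Q ∪ Ω.W) π' v).card +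
        (1 + κ) * ∑ w ∈ nb Ω.G Ω.W v,
          ∑ i ∈ univ.filter (fun i => (i, j) ∈ Al Ω.G Ω.σ Ω.Q Ω.π v),
          (Ω.q1 w i ((Ω.σ w v).symm j) + Ω.q2 w i ((Ω.σ w v).symm j)) +
        ∑ i, M i j + κ * K)

/-- The slot step with the parameters `ε` (least potential), `δ` (degrees inside a slot), `D`
(degrees), `C` (bound of the witness inside `B`) and `mm` (line sums of the uncontrolled part) for
all small `κ` and large `K`. -/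
def SlotStep (ε δ D C mm κ0 : ℝ) : Prop :=
  ∀ κ : ℝ, 0 < κ → κ ≤ κ0 → ∃ K0 : ℕ, ∀ K ≥ K0, ∀ n : ℕ, 0 < n →
    ∀ ν : ℝ, 0 ≤ ν → ν ≤ κ → ∀ (V : Type) [Fintype V] [DecidableEq V]
      (Ω : Slot V K n ε δ D κ ν C), SlotOut Ω mm

/-- What is needed from the slot step for the main theorem. -/
def SlotStepEx : Prop :=
  ∀ ε : ℝ, 0 < ε → ∀ D : ℝ, 0 < D → ∀ C : ℝ, 0 < C → ∀ ρ : ℝ, 0 < ρ → ∃ δ1 : ℝ, 0 < δ1 ∧
    ∀ δ : ℝ, 0 < δ → δ ≤ δ1 → ∃ κ0 : ℝ, 0 < κ0 ∧ SlotStep ε δ D C (ρ * δ) κ0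

end Pool.Agent.PK
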