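import Pool.Agent.PK.Defs

set_option autoImplicit false

namespace Pool.Agent.PK

open Finset
open Pool.Agent.H24.LP Pool.Agent.H24.LP.Nib

namespace MergeMomAux

/-- the clean hits, counted piece by piece -/
lemma ch_eq_sum {K : ℕ} (π : Equiv.Perm (Fin K)) (b : Finset (Fin K)) (A : Finset (Fin K × Fin K))
    (p : Fin K → Fin K) :
    ch π b A = ∑ j, (Finset.univ.filter fun a => p a = j ∧ a ∉ b ∧ (a, π a) ∈ A).card := by
  unfold ch
  rw [Finset.card_eq_sum_card_fiberwise (f := p) (t := Finset.univ) (fun _ _ => Finset.mem_univ _)]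
  apply Finset.sum_congr rfl
  intro j _
  congr 1
  ext a
  simp only [Finset.mem_filter, Finset.mem_univ, true_and]
  tauto

/-- the two values of one piece -/
lemma piece {s x y g : ℝ} (hx : 0 ≤ x) (hy : 0 ≤ y) (hxg : x ≤ g) (hyg : y ≤ g) :
    Real.exp (s * x) + Real.exp (s * y) ≤
      2 * Real.exp (s / 2 * (1 + s * g / 4) * (x + y)) := by
  refine two_point.trans ?_
  apply mul_le_mul_of_nonneg_left _ (by norm_num)
  rw [Real.exp_le_exp]
  have e1 : |x - y| ≤ g := by
    rw [abs_le]
    constructor <;> linarith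
  have e2 : |x - y| ≤ x + y := by
    rw [abs_le]
    constructor <;> linarith
  have e3 : (x - y) ^ 2 ≤ g * (x + y) := by
    rw [← sq_abs, sq]
    exact mul_le_mul e1 e2 (abs_nonneg _) (hx.trans hxg)
  have h2 : s ^ 2 * (x - y) ^ 2 ≤ s ^ 2 * (g * (x + y)) :=
    mul_le_mul_of_nonneg_left e3 (sq_nonneg s)
  nlinarith [h2]

end MergeMomAux

open MergeMomAux

/-- exponential moment of the clean hits after mixing -/
theorem merge_mom {K : ℕ} (g : ℕ) (τ τ' : Equiv.Perm (Fin K)) (b b' bd : Finset (Fin K))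
    (p : Fin K → Fin K) (mu : (Fin K → Bool) → Equiv.Perm (Fin K))
    (hp : ∀ j, (Finset.univ.filter fun a => p a = j).card ≤ g)
    (hmu : ∀ coin a, a ∉ bd → mu coin a = if coin (p a) then τ a else τ' a)
    (A : Finset (Fin K × Fin K)) (s : ℝ) (hs : 0 ≤ s) :
    ∑ coin : Fin K → Bool, Real.exp (s * ch (mu coin) (b ∪ b' ∪ bd) A) ≤
      2 ^ K * Real.exp (s / 2 * (1 + s * g / 4) * (ch τ b A + ch τ' b' A)) := by
  classical
  set X : Fin K → ℕ := fun j =>
    (Finset.univ.filter fun a => p a = j ∧ a ∉ b ∧ (a, τ a) ∈ A).card with hX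
  set Y : Fin K → ℕ := fun j =>
    (Finset.univ.filter fun a => p a = j ∧ a ∉ b' ∧ (a, τ' a) ∈ A).card with hY
  have hhit : ∀ coin : Fin K → Bool, ch (mu coin) (b ∪ b' ∪ bd) A ≤
      ∑ j, (if coin j then X j else Y j) := by
    intro coin
    rw [ch_eq_sum _ _ _ p]
    apply Finset.sum_le_sum
    intro j _
    by_cases hc : coin j = true
    · rw [if_pos hc, hX]
      apply Finset.card_le_card
      intro a ha
      rw [Finset.mem_filter] at ha ⊢
      obtain ⟨h1, h2, h3, h4⟩ := ha
      rw [Finset.mem_union, Finset.mem_union, not_or, not_or] at h3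
      refine ⟨h1, h2, h3.1.1, ?_⟩
      rw [hmu coin a h3.2, h2, if_pos hc] at h4
      exact h4
    · rw [if_neg hc, hY]
      apply Finset.card_le_card
      intro a ha
      rw [Finset.mem_filter] at ha ⊢
      obtain ⟨h1, h2, h3, h4⟩ := ha
      rw [Finset.mem_union, Finset.mem_union, not_or, not_or] at h3
      refine ⟨h1, h2, h3.1.2, ?_⟩
      rw [hmu coin a h3.2, h2, if_neg hc] at h4
      exact h4
  have hsum : ∑ coin : Fin K → Bool, Real.exp (s * ch (mu coin) (b ∪ b' ∪ bd) A) ≤
      ∑ coin : Fin K → Bool, ∏ j, Real.exp (s * (if coin j then X j else Y j : ℕ)) := by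
    apply Finset.sum_le_sum
    intro coin _
    rw [← Real.exp_sum, Real.exp_le_exp, ← Finset.mul_sum]
    apply mul_le_mul_of_nonneg_left _ hs
    exact_mod_cast hhit coin
  refine hsum.trans ?_
  have hprod : ∑ coin : Fin K → Bool, ∏ j, Real.exp (s * (if coin j then X j else Y j : ℕ)) =
      ∏ j, (Real.exp (s * X j) + Real.exp (s * Y j)) := by
    have h1 := Finset.prod_univ_sum (fun _ : Fin K => (Finset.univ : Finset Bool))
      (fun j b => Real.exp (s * (if b then X j else Y j : ℕ)))
    rw [Fintype.piFinset_univ] at h1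
    rw [← h1]
    apply Finset.prod_congr rfl
    intro j _
    rw [Fintype.sum_bool]
    simp
  rw [hprod]
  have hle : ∏ j, (Real.exp (s * X j) + Real.exp (s * Y j)) ≤
      ∏ j : Fin K, (2 * Real.exp (s / 2 * (1 + s * g / 4) * (X j + Y j))) := by
    apply Finset.prod_le_prod
    · intro j _
      positivity
    · intro j _
      have hXg : X j ≤ g := (Finset.card_le_card (fun a ha => by
        rw [Finset.mem_filter] at ha ⊢
        exact ⟨ha.1, ha.2.1⟩)).trans (hp j)
      have hYg : Y j ≤ g := (Finset.card_le_card (fun a ha => by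
        rw [Finset.mem_filter] at ha ⊢
        exact ⟨ha.1, ha.2.1⟩)).trans (hp j)
      exact piece (Nat.cast_nonneg _) (Nat.cast_nonneg _) (by exact_mod_cast hXg)
        (by exact_mod_cast hYg)
  refine hle.trans (le_of_eq ?_)
  rw [Finset.prod_mul_distrib, Finset.prod_const, Finset.card_univ, Fintype.card_fin,
    ← Real.exp_sum, ← Finset.mul_sum, Finset.sum_add_distrib]
  have e1 : ∑ j, (X j : ℝ) = (ch τ b A : ℝ) := by
    rw [ch_eq_sum τ b A p]
    push_cast
    rfl
  have e2 : ∑ j, (Y j : ℝ) = (ch τ' b' A : ℝ) := by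
    rw [ch_eq_sum τ' b' A p]
    push_cast
    rfl
  rw [e1, e2]

end Pool.Agent.PK
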