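import Pool.Agent.PK.Pieces

set_option autoImplicit false

namespace Pool.Agent.PK

open Finset
open Pool.Agent.H24.LP Pool.Agent.H24.LP.Nib

/-- mixing along arbitrary pieces -/
private lemma mix_ex {K : ℕ} (τ τ' : Equiv.Perm (Fin K)) (p : Fin K → Fin K) :
    ∃ mu : (Fin K → Bool) → Equiv.Perm (Fin K),
      ∀ coin a, p ((τ⁻¹ * τ') a) = p a → mu coin a = if coin (p a) then τ a else τ' a := by
  classical
  have hex : ∀ coin : Fin K → Bool, ∃ m : Equiv.Perm (Fin K), ∀ a b,
      ((coin (p a) = true ∧ τ a = b) ∨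
        (coin (p a) = false ∧ coin (p ((τ⁻¹ * τ') a)) = false ∧ τ' a = b)) → m a = b := by
    intro coin
    apply exists_perm_extending
    · rintro a b b' (⟨h1, h2⟩ | ⟨h1, h2, h3⟩) (⟨h1', h2'⟩ | ⟨h1', h2', h3'⟩)
      · exact h2.symm.trans h2'
      · rw [h1] at h1'
        cases h1'
      · rw [h1] at h1'
        cases h1'
      · exact h3.symm.trans h3'
    · rintro a a' b (⟨h1, h2⟩ | ⟨h1, h2, h3⟩) (⟨h1', h2'⟩ | ⟨h1', h2', h3'⟩)
      · exact τ.injective (h2.trans h2'.symm)
      · exfalso
        have h4 : (τ⁻¹ * τ') a' = a := by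
          rw [Equiv.Perm.mul_apply, h3', ← h2]
          simp
        rw [h4, h1] at h2'
        cases h2'
      · exfalso
        have h4 : (τ⁻¹ * τ') a = a' := by
          rw [Equiv.Perm.mul_apply, h3, ← h2']
          simp
        rw [h4, h1'] at h2
        cases h2
      · exact τ'.injective (h3.trans h3'.symm)
  choose mu hmu using hex
  refine ⟨mu, ?_⟩
  intro coin a hpa
  by_cases hc : coin (p a) = true
  · rw [if_pos hc]
    exact hmu coin a _ (Or.inl ⟨hc, rfl⟩)
  · rw [if_neg hc]
    rw [Bool.not_eq_true] at hc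
    exact hmu coin a _ (Or.inr ⟨hc, by rw [hpa]; exact hc, rfl⟩)

/-- the average over one period -/
private lemma orb_count {K : ℕ} (σ : Equiv.Perm (Fin K)) (N : ℕ) (hN : σ ^ N = 1)
    (g : ℕ) (B : Finset (Fin K))
    (hB : ∀ O : Finset (Fin K), (∀ a ∈ O, σ⁻¹ a ∈ O) → g * (O.filter fun a => a ∈ B).card ≤
      2 * O.card) (a : Fin K) :
    g * ((Finset.range N).filter fun j => (σ ^ j) a ∈ B).card ≤ 2 * N := by
  classical
  set f : ℕ → Fin K := fun j => (σ ^ j) a with hf
  have hf1 : ∀ j, f (j + 1) = σ (f j) := by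
    intro j
    rw [hf]
    simp only [pow_succ', Equiv.Perm.mul_apply]
  have hfN : f N = f 0 := by
    rw [hf]
    simp only [hN, pow_zero]
  set c : Fin K → ℕ := fun b => ((Finset.range N).filter fun j => f j = b).card with hc
  have hc1 : ∀ b, c (σ b) = c b := by
    intro b
    have e1 : c b = ∑ j ∈ Finset.range N, if f (j + 1) = σ b then 1 else 0 := by
      rw [hc]
      simp only
      rw [Finset.card_filter]
      apply Finset.sum_congr rfl
      intro j _
      rw [hf1]
      by_cases h : f j = b
      · rw [if_pos h, if_pos (by rw [h])]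
      · rw [if_neg h, if_neg (fun h2 => h (σ.injective h2))]
    have e2 : c (σ b) = ∑ j ∈ Finset.range N, if f j = σ b then 1 else 0 := by
      rw [hc]
      simp only
      rw [Finset.card_filter]
    have e3 := Finset.sum_range_succ (fun j => if f j = σ b then 1 else 0) N
    have e4 := Finset.sum_range_succ' (fun j => if f j = σ b then 1 else 0) N
    rw [hfN] at e3
    rw [e1, e2]
    omega
  have hc2 : ∀ j, c (f j) = c (f 0) := by
    intro j
    induction j with
    | zero => rfl
    | succ j ih => rw [hf1, hc1, ih]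
  set O := (Finset.range N).image f with hO
  have hOc : ∀ b ∈ O, c b = c (f 0) := by
    intro b hb
    rw [hO, Finset.mem_image] at hb
    obtain ⟨j, _, rfl⟩ := hb
    exact hc2 j
  have hN2 : N = O.card * c (f 0) := by
    have h1 := Finset.card_eq_sum_card_fiberwise (f := f) (s := Finset.range N) (t := O)
      (fun j hj => Finset.mem_image_of_mem f hj)
    rw [Finset.card_range] at h1
    rw [h1, Finset.sum_congr rfl (fun b hb => hOc b hb), Finset.sum_const, smul_eq_mul]
  have hcnt : ((Finset.range N).filter fun j => f j ∈ B).card =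
      (O.filter fun b => b ∈ B).card * c (f 0) := by
    have h1 := Finset.card_eq_sum_card_fiberwise (f := f)
      (s := (Finset.range N).filter fun j => f j ∈ B) (t := O.filter fun b => b ∈ B)
      (fun j hj => by
        rw [Finset.mem_coe, Finset.mem_filter] at hj ⊢
        exact ⟨Finset.mem_image_of_mem f hj.1, hj.2⟩)
    rw [h1, ← smul_eq_mul, ← Finset.sum_const]
    apply Finset.sum_congr rfl
    intro b hb
    rw [Finset.mem_filter] at hb
    rw [← hOc b hb.1, hc]
    simp only
    congr 1
    ext j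
    simp only [Finset.mem_filter]
    constructor
    · rintro ⟨⟨h2, _⟩, h3⟩
      exact ⟨h2, h3⟩
    · rintro ⟨h2, h3⟩
      exact ⟨⟨h2, h3 ▸ hb.2⟩, h3⟩
  have hcl : ∀ b ∈ O, σ⁻¹ b ∈ O := by
    intro b hb
    rw [hO, Finset.mem_image] at hb ⊢
    obtain ⟨j, hj, rfl⟩ := hb
    rw [Finset.mem_range] at hj
    rcases Nat.eq_zero_or_pos j with rfl | hpos
    · refine ⟨N - 1, Finset.mem_range.2 (by omega), ?_⟩
      apply σ.injective
      rw [← hf1, Nat.sub_add_cancel (by omega), hfN]
      simp
    · refine ⟨j - 1, Finset.mem_range.2 (by omega), ?_⟩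
      apply σ.injective
      rw [← hf1, Nat.sub_add_cancel hpos]
      simp
  have hfin := hB O hcl
  rw [hcnt]
  calc g * ((O.filter fun b => b ∈ B).card * c (f 0))
      = (g * (O.filter fun b => b ∈ B).card) * c (f 0) := by ring
    _ ≤ (2 * O.card) * c (f 0) := Nat.mul_le_mul_right _ hfin
    _ = 2 * (O.card * c (f 0)) := by ring
    _ = 2 * N := by rw [← hN2]

/-- mixing two permutations with one coin per piece, after a rotation of the cuts: every row and
every column is affected for few rotations only -/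
theorem merge_rot {K : ℕ} (g : ℕ) (hg : 1 ≤ g) (τ τ' : Equiv.Perm (Fin K)) :
    ∃ (p : Fin K.factorial → Fin K → Fin K) (bd : Fin K.factorial → Finset (Fin K))
      (mu : Fin K.factorial → (Fin K → Bool) → Equiv.Perm (Fin K)),
      (∀ j y, (Finset.univ.filter fun a => p j a = y).card ≤ g) ∧
      (∀ j, g * (bd j).card ≤ 2 * K) ∧
      (∀ j coin a, a ∉ bd j → mu j coin a = if coin (p j a) then τ a else τ' a) ∧
      (∀ a, g * (Finset.univ.filter fun j => a ∈ bd j).card ≤ 2 * K.factorial) ∧
      (∀ c coin, g * (Finset.univ.filter fun j => (mu j coin).symm c ∈ bd j).card ≤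
        4 * K.factorial) := by
  classical
  set ρ : Equiv.Perm (Fin K) := τ⁻¹ * τ' with hρ
  obtain ⟨p0, hp1, hp2⟩ := pieces_orb ρ g hg
  set B : Finset (Fin K) := Finset.univ.filter fun a => p0 (ρ a) ≠ p0 a with hB
  set p : Fin K.factorial → Fin K → Fin K := fun j a => p0 ((ρ⁻¹ ^ (j : ℕ)) a) with hp
  have hcomm : ∀ (j : ℕ) (a : Fin K), (ρ⁻¹ ^ j) (ρ a) = ρ ((ρ⁻¹ ^ j) a) := by
    intro j a
    rw [← Equiv.Perm.mul_apply, ← Equiv.Perm.mul_apply]
    congr 1
    exact ((Commute.refl ρ).inv_left.pow_left j).eq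
  set bd : Fin K.factorial → Finset (Fin K) :=
    fun j => Finset.univ.filter fun a => p j (ρ a) ≠ p j a with hbd
  have hbdB : ∀ j a, a ∈ bd j ↔ (ρ⁻¹ ^ (j : ℕ)) a ∈ B := by
    intro j a
    rw [hbd, hB]
    simp only [Finset.mem_filter, Finset.mem_univ, true_and, hp, hcomm]
  choose mu hmu using fun j => mix_ex τ τ' (p j)
  have hmu' : ∀ j coin a, a ∉ bd j → mu j coin a = if coin (p j a) then τ a else τ' a := by
    intro j coin a ha
    apply hmu
    rw [hbd] at ha
    simp only [Finset.mem_filter, Finset.mem_univ, true_and, not_not] at ha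
    exact ha
  have hfact : (ρ⁻¹) ^ K.factorial = 1 := by
    have h1 := pow_card_eq_one' (x := (ρ⁻¹ : Equiv.Perm (Fin K)))
    rw [Nat.card_eq_fintype_card, Fintype.card_perm, Fintype.card_fin] at h1
    exact h1
  have hrow : ∀ a, g * (Finset.univ.filter fun j => a ∈ bd j).card ≤ 2 * K.factorial := by
    intro a
    have h1 := orb_count ρ⁻¹ K.factorial hfact g B (by
      intro O hO
      rw [inv_inv] at hO
      have h2 := hp2 O hO
      refine le_trans (le_of_eq ?_) h2
      congr 2
      ext b
      simp only [hB, Finset.mem_filter, Finset.mem_univ, true_and]) a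
    refine le_trans (Nat.mul_le_mul_left g ?_) h1
    apply Finset.card_le_card_of_injOn (fun j : Fin K.factorial => (j : ℕ))
    · intro j hj
      rw [Finset.mem_coe, Finset.mem_filter] at hj ⊢
      exact ⟨Finset.mem_range.2 j.isLt, (hbdB j a).1 hj.2⟩
    · intro j _ j' _ h
      exact Fin.ext h
  refine ⟨p, bd, mu, ?_, ?_, hmu', hrow, ?_⟩
  · intro j y
    refine le_trans ?_ (hp1 y)
    apply Finset.card_le_card_of_injOn (fun a => (ρ⁻¹ ^ (j : ℕ)) a)
    · intro a ha
      rw [Finset.mem_coe, Finset.mem_filter] at ha ⊢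
      exact ⟨Finset.mem_univ _, ha.2⟩
    · intro a _ a' _ h
      exact (ρ⁻¹ ^ (j : ℕ)).injective h
  · intro j
    have h1 := hp2 Finset.univ (fun a _ => Finset.mem_univ _)
    rw [Finset.card_univ, Fintype.card_fin] at h1
    refine le_trans (Nat.mul_le_mul_left g ?_) h1
    apply Finset.card_le_card_of_injOn (fun a => (ρ⁻¹ ^ (j : ℕ)) a)
    · intro a ha
      rw [Finset.mem_coe] at ha ⊢
      exact (hbdB j a).1 ha
    · intro a _ a' _ h
      exact (ρ⁻¹ ^ (j : ℕ)).injective h
  · intro c coin
    have hsub : (Finset.univ.filter fun j => (mu j coin).symm c ∈ bd j) ⊆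
        (Finset.univ.filter fun j => τ.symm c ∈ bd j) ∪
          (Finset.univ.filter fun j => ρ.symm (τ.symm c) ∈ bd j) := by
      intro j hj
      rw [Finset.mem_filter] at hj
      rw [Finset.mem_union]
      by_contra hcon
      have h1 : τ.symm c ∉ bd j := fun h =>
        hcon (Or.inl (Finset.mem_filter.2 ⟨Finset.mem_univ _, h⟩))
      have h2 : ρ.symm (τ.symm c) ∉ bd j := fun h =>
        hcon (Or.inr (Finset.mem_filter.2 ⟨Finset.mem_univ _, h⟩))
      have h3 := hmu' j coin _ h1
      have h4 := hmu' j coin _ h2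
      have h5 : p j (ρ (ρ.symm (τ.symm c))) = p j (ρ.symm (τ.symm c)) := by
        rw [hbd] at h2
        simp only [Finset.mem_filter, Finset.mem_univ, true_and, not_not] at h2
        exact h2
      rw [Equiv.apply_symm_apply] at h5
      rw [← h5] at h4
      by_cases hc : coin (p j (τ.symm c)) = true
      · rw [if_pos hc, Equiv.apply_symm_apply] at h3
        apply h1
        have h8 : (mu j coin).symm c = τ.symm c := by
          rw [Equiv.symm_apply_eq, h3]
        rw [← h8]
        exact hj.2
      · rw [if_neg hc] at h4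
        have h6 : τ' (ρ.symm (τ.symm c)) = c := by
          have h7 : τ (ρ (ρ.symm (τ.symm c))) = c := by
            rw [Equiv.apply_symm_apply, Equiv.apply_symm_apply]
          rw [hρ, Equiv.Perm.mul_apply] at h7
          rw [← hρ] at h7
          simpa using h7
        rw [h6] at h4
        apply h2
        have h8 : (mu j coin).symm c = ρ.symm (τ.symm c) := by
          rw [Equiv.symm_apply_eq, h4]
        rw [← h8]
        exact hj.2
    have h1 := hrow (τ.symm c)
    have h2 := hrow (ρ.symm (τ.symm c))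
    have h3 := (Finset.card_le_card hsub).trans (Finset.card_union_le _ _)
    calc g * (Finset.univ.filter fun j => (mu j coin).symm c ∈ bd j).card
        ≤ g * ((Finset.univ.filter fun j => τ.symm c ∈ bd j).card +
          (Finset.univ.filter fun j => ρ.symm (τ.symm c) ∈ bd j).card) :=
          Nat.mul_le_mul_left _ h3
      _ = g * (Finset.univ.filter fun j => τ.symm c ∈ bd j).card +
          g * (Finset.univ.filter fun j => ρ.symm (τ.symm c) ∈ bd j).card := by ring
      _ ≤ 4 * K.factorial := by omega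

end Pool.Agent.PK
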