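import Pool.Agent.PK.HH

/-!
# Packing (PK): the arithmetic of the options and the contraction of the second account

`uT`, `uS`, `uZ` describe the option chosen for a pair: scale (`p ≤ pw`), mixed
(`(1 - η) p ≤ aw`) or subtract.
-/

set_option autoImplicit false

open Finset

namespace Pool.Agent.PK

/-- the scaling factor -/
noncomputable def uT (η p aw pw : ℝ) : ℝ :=
  if p ≤ pw then 1 / pw else if (1 - η) * p ≤ aw then 1 / aw else 0

/-- subtraction of the flat part -/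
noncomputable def uS (η p aw pw : ℝ) : ℝ := if p ≤ pw then 0 else if (1 - η) * p ≤ aw then 0 else 1

/-- subtraction of the second part -/
noncomputable def uZ (p pw : ℝ) : ℝ := if p ≤ pw then 0 else 1

theorem uT_nonneg {η p aw pw : ℝ} (h1 : 0 < pw) (h2 : 0 < aw) : 0 ≤ uT η p aw pw := by
  unfold uT
  split_ifs <;> positivity

theorem uT_le {η p aw pw ε : ℝ} (hε : 0 < ε) (h1 : ε ≤ pw) (h2 : ε ≤ aw) :
    uT η p aw pw ≤ 1 / ε := by
  unfold uT
  split_ifs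
  · exact one_div_le_one_div_of_le hε h1
  · exact one_div_le_one_div_of_le hε h2
  · positivity

theorem uS_nonneg (η p aw pw : ℝ) : 0 ≤ uS η p aw pw := by
  unfold uS
  split_ifs <;> norm_num

theorem uS_le (η p aw pw : ℝ) : uS η p aw pw ≤ 1 := by
  unfold uS
  split_ifs <;> norm_num

theorem uZ_nonneg (p pw : ℝ) : 0 ≤ uZ p pw := by
  unfold uZ
  split_ifs <;> norm_num

theorem uZ_le (p pw : ℝ) : uZ p pw ≤ 1 := by
  unfold uZ
  split_ifs <;> norm_num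

theorem uS_le_uZ (η p aw pw : ℝ) : uS η p aw pw ≤ uZ p pw := by
  unfold uS uZ
  split_ifs <;> norm_num

/-- in the mixed option `p / aw ≤ 1 + 2 η` -/
theorem mixed_ratio {η p aw : ℝ} (hp : 0 < p) (hη0 : 0 ≤ η) (hη : η ≤ 1 / 2)
    (h : (1 - η) * p ≤ aw) : p / aw ≤ 1 + 2 * η := by
  have haw : 0 < aw := lt_of_lt_of_le (by nlinarith) h
  rw [div_le_iff₀ haw]
  nlinarith [mul_nonneg hη0 hp.le, mul_nonneg (mul_nonneg hη0 hp.le)
    (show (0 : ℝ) ≤ 1 - 2 * η by linarith)]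

/-- the cost of one neighbour -/
theorem u_cost {η p aw pw κ θ : ℝ} (hp : 0 < p) (hpw : 0 < pw) (hpa : pw ≤ aw) (hκ0 : 0 ≤ κ)
    (hκ1 : κ ≤ 1) (hη0 : 0 ≤ η) (hη : η ≤ 1 / 2) (hθ : 12 * κ + 2 * η ≤ θ) :
    (1 + κ) ^ 2 * uT η p aw pw * p + (1 + κ) ^ 2 * uS η p aw pw +
      2 * (1 + κ) * uZ p pw * ((1 - pw / aw) / 2 + κ) ≤ hh (p / pw) + θ := by
  have haw : 0 < aw := by linarith
  have hk : (1 + κ) ^ 2 ≤ 1 + 3 * κ := by nlinarith
  unfold uT uS uZ
  by_cases h1 : p ≤ pw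
  · rw [if_pos h1, if_pos h1, if_pos h1, hh_le_one ((div_le_one hpw).2 h1)]
    have h2 : p / pw ≤ 1 := (div_le_one hpw).2 h1
    have h3 : 0 ≤ p / pw := by positivity
    have h4 : (1 + κ) ^ 2 * (1 / pw) * p = (1 + κ) ^ 2 * (p / pw) := by ring
    rw [h4]
    nlinarith
  · rw [if_neg h1, if_neg h1, if_neg h1]
    push Not at h1
    rw [hh_one_le ((one_le_div hpw).2 h1.le), one_div_div]
    have e0 : 0 ≤ 1 - pw / aw := by
      rw [sub_nonneg, div_le_one haw]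
      exact hpa
    have e1 : 1 - pw / aw ≤ 1 := by
      have : 0 ≤ pw / aw := by positivity
      linarith
    by_cases h2 : (1 - η) * p ≤ aw
    · rw [if_pos h2, if_pos h2]
      have h3 : p / aw ≤ 1 + 2 * η := mixed_ratio hp hη0 hη h2
      have h3' : 0 ≤ p / aw := by positivity
      have h4 : (1 + κ) ^ 2 * (1 / aw) * p = (1 + κ) ^ 2 * (p / aw) := by ring
      rw [h4]
      have h5 : p / aw - pw / aw ≤ (1 - pw / p) + 2 * η := by
        have e2 : p / aw - pw / aw = (p / aw) * (1 - pw / p) := by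
          field_simp
        have e3 : 0 ≤ 1 - pw / p := by
          rw [sub_nonneg, div_le_one hp]
          exact h1.le
        have e4 : 1 - pw / p ≤ 1 := by
          have : 0 ≤ pw / p := by positivity
          linarith
        rw [e2]
        nlinarith
      have h6 : (1 + κ) ^ 2 * (p / aw) ≤ p / aw + 6 * κ := by
        have e5 : (1 + κ) ^ 2 * (p / aw) ≤ (1 + 3 * κ) * (p / aw) :=
          mul_le_mul_of_nonneg_right hk h3'
        nlinarith
      have h7 : 2 * (1 + κ) * 1 * ((1 - pw / aw) / 2 + κ) ≤ 1 - pw / aw + 5 * κ := by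
        nlinarith
      nlinarith
    · rw [if_neg h2, if_neg h2]
      push Not at h2
      have h2' : aw ≤ p := by nlinarith
      have h5 : pw / p ≤ pw / aw := div_le_div_of_nonneg_left hpw.le haw h2'
      have h7 : 2 * (1 + κ) * 1 * ((1 - pw / aw) / 2 + κ) ≤ 1 - pw / aw + 5 * κ := by
        nlinarith
      nlinarith

/-- The gain of one neighbour for the weight `ω = (1 + γ / 3) a - p`. -/
theorem om_one {η γ p aw pw κ θ : ℝ} (hp : 0 < p) (hpw : 0 < pw) (hpa : pw ≤ aw) (haw1 : aw ≤ 1)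
    (hκ0 : 0 ≤ κ) (hη0 : 0 ≤ η) (hη : η ≤ 1 / 2) (hγ0 : 0 < γ) (hγ : γ ≤ 1 / 2)
    (hγη : γ ≤ η * pw) (hκ : κ ≤ γ / 200) (hθ : 12 * κ + 2 * η ≤ θ) :
    uS η p aw pw * ((1 + κ) * ((1 + γ / 4) * (1 + γ / 3 - pw / aw)) + γ / 30) ≤
      hh (p / pw) + θ - (1 + κ) ^ 2 * uT η p aw pw * p -
        (1 + γ / 3) * ((1 + κ) ^ 2 * uS η p aw pw) := by
  have haw : 0 < aw := by linarith
  have hκ1 : κ ≤ 1 / 400 := by linarith
  have hk : (1 + κ) ^ 2 ≤ 1 + 3 * κ := by nlinarith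
  have hk' : (1 + κ) ^ 2 ≤ 1 + (5 / 2) * κ := by nlinarith
  unfold uT uS
  by_cases h1 : p ≤ pw
  · rw [if_pos h1, if_pos h1, hh_le_one ((div_le_one hpw).2 h1)]
    have h2 : p / pw ≤ 1 := (div_le_one hpw).2 h1
    have h3 : 0 ≤ p / pw := by positivity
    have h4 : (1 + κ) ^ 2 * (1 / pw) * p = (1 + κ) ^ 2 * (p / pw) := by ring
    rw [h4]
    nlinarith
  · rw [if_neg h1, if_neg h1]
    push Not at h1
    rw [hh_one_le ((one_le_div hpw).2 h1.le), one_div_div]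
    have hz1 : pw / p ≤ 1 := (div_le_one hp).2 h1.le
    by_cases h2 : (1 - η) * p ≤ aw
    · rw [if_pos h2, if_pos h2]
      have h3 : p / aw ≤ 1 + 2 * η := mixed_ratio hp hη0 hη h2
      have h3' : 0 ≤ p / aw := by positivity
      have h4 : (1 + κ) ^ 2 * (1 / aw) * p = (1 + κ) ^ 2 * (p / aw) := by ring
      rw [h4]
      have h6 : (1 + κ) ^ 2 * (p / aw) ≤ p / aw + 6 * κ := by
        have e5 : (1 + κ) ^ 2 * (p / aw) ≤ (1 + 3 * κ) * (p / aw) :=
          mul_le_mul_of_nonneg_right hk h3'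
        nlinarith
      nlinarith
    · rw [if_neg h2, if_neg h2]
      push Not at h2
      have hz : pw / aw ≤ 1 := (div_le_one haw).2 hpa
      have hz0 : 0 ≤ pw / aw := by positivity
      -- `pw / aw - pw / p ≥ γ`
      have h5 : pw / p ≤ (1 - η) * (pw / aw) := by
        rw [div_le_iff₀ hp]
        have e1 : (1 - η) * (pw / aw) * p = pw / aw * ((1 - η) * p) := by ring
        rw [e1]
        have e2 : pw = pw / aw * aw := by field_simp
        calc pw = pw / aw * aw := e2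
          _ ≤ pw / aw * ((1 - η) * p) := mul_le_mul_of_nonneg_left h2.le hz0
      have h6 : γ ≤ η * (pw / aw) := by
        refine hγη.trans (mul_le_mul_of_nonneg_left ?_ hη0)
        rw [le_div_iff₀ haw]
        nlinarith
      have h7 : pw / p ≤ pw / aw - γ := by linarith
      set z : ℝ := pw / aw with hzdef
      have h8 : (1 + γ / 3) * ((1 + κ) ^ 2 * 1) ≤ 1 + γ / 3 + 3 * κ := by
        have e1 : (1 + γ / 3) * ((1 + κ) ^ 2 * 1) ≤ (1 + γ / 3) * (1 + (5 / 2) * κ) :=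
          mul_le_mul_of_nonneg_left (by linarith) (by linarith)
        nlinarith
      have h9 : (1 + κ) * ((1 + γ / 4) * (1 + γ / 3 - z)) ≤
          (1 + γ / 4) * (1 + γ / 3 - z) + 2 * κ := by
        have e1 : (1 + γ / 4) * (1 + γ / 3 - z) ≤ 2 := by
          have e2 : 1 + γ / 3 - z ≤ 7 / 6 := by linarith
          have e3 : 0 ≤ 1 + γ / 3 - z := by linarith
          nlinarith
        have e4 : 0 ≤ (1 + γ / 4) * (1 + γ / 3 - z) := mul_nonneg (by linarith) (by linarith)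
        nlinarith
      have h10 : (1 + γ / 4) * (1 + γ / 3 - z) ≤ 1 - z + γ / 4 + γ / 3 + γ ^ 2 / 12 := by
        nlinarith [mul_nonneg hγ0.le hz0]
      have h11 : γ ^ 2 / 12 ≤ γ / 24 := by nlinarith
      nlinarith

/-- The contraction: if the defect is `Λ ω` and the defects of the neighbours are at most
`(1 + γ / 4) Λ ω`, then this remains true. -/
theorem contr {η γ κ θ K : ℝ} (hK : 0 < K) (hκ0 : 0 ≤ κ) (hη0 : 0 ≤ η) (hη : η ≤ 1 / 2)
    (hγ0 : 0 < γ) (hγ : γ ≤ 1 / 2) (hκ : κ ≤ γ / 200) (hθ : 12 * κ + 2 * η ≤ θ)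
    {a p a' p' Λ : ℝ} (hp : 0 < p) (hΛ : 120 * κ ≤ Λ * γ) (hΛ0 : 0 ≤ Λ)
    {ι : Type*} (s : Finset ι) (aw pw Dw : ι → ℝ)
    (hpw : ∀ w ∈ s, 0 < pw w) (hpa : ∀ w ∈ s, pw w ≤ aw w) (haw1 : ∀ w ∈ s, aw w ≤ 1)
    (hγη : ∀ w ∈ s, γ ≤ η * pw w)
    (hD : ∀ w ∈ s, Dw w ≤ (1 + γ / 4) * Λ * ((1 + γ / 3) * aw w - pw w))
    (ha' : a' = (1 - (1 + κ) ^ 2 / K * ∑ w ∈ s, uT η p (aw w) (pw w)) * a -
      (1 + κ) ^ 2 / K * ∑ w ∈ s, uS η p (aw w) (pw w))
    (hp' : p' + 1 / K * ∑ w ∈ s, (hh (p / pw w) + θ) ≤ p) :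
    (1 - (1 + κ) ^ 2 / K * ∑ w ∈ s, uT η p (aw w) (pw w)) * (Λ * ((1 + γ / 3) * a - p)) +
      (1 + κ) / K * ∑ w ∈ s, uS η p (aw w) (pw w) * (Dw w / aw w + 2 * κ) ≤
      Λ * ((1 + γ / 3) * a' - p') := by
  have hκ1 : κ ≤ 1 / 400 := by linarith
  have haw0 : ∀ w ∈ s, 0 < aw w := fun w hw => lt_of_lt_of_le (hpw w hw) (hpa w hw)
  -- one neighbour
  have h1 : ∀ w ∈ s, (1 + κ) * (uS η p (aw w) (pw w) * (Dw w / aw w + 2 * κ)) ≤
      Λ * (hh (p / pw w) + θ - (1 + κ) ^ 2 * uT η p (aw w) (pw w) * p -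
        (1 + γ / 3) * ((1 + κ) ^ 2 * uS η p (aw w) (pw w))) := by
    intro w hw
    have h2 := om_one (η := η) (γ := γ) (p := p) (κ := κ) (θ := θ) hp (hpw w hw) (hpa w hw)
      (haw1 w hw) hκ0 hη0 hη hγ0 hγ (hγη w hw) hκ hθ
    have h3 := mul_le_mul_of_nonneg_left h2 hΛ0
    refine le_trans ?_ h3
    have h4 : Dw w / aw w ≤ (1 + γ / 4) * Λ * (1 + γ / 3 - pw w / aw w) := by
      rw [div_le_iff₀ (haw0 w hw)]
      have e1 : (1 + γ / 4) * Λ * (1 + γ / 3 - pw w / aw w) * aw w =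
          (1 + γ / 4) * Λ * ((1 + γ / 3) * aw w - pw w) := by
        have := (haw0 w hw).ne'
        field_simp
      rw [e1]
      exact hD w hw
    have h5 : (1 + κ) * (Dw w / aw w + 2 * κ) ≤
        Λ * ((1 + κ) * ((1 + γ / 4) * (1 + γ / 3 - pw w / aw w)) + γ / 30) := by
      have e1 : (1 + κ) * (Dw w / aw w) ≤
          (1 + κ) * ((1 + γ / 4) * Λ * (1 + γ / 3 - pw w / aw w)) :=
        mul_le_mul_of_nonneg_left h4 (by linarith)
      have e2 : (1 + κ) * (2 * κ) ≤ 4 * κ := by nlinarith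
      nlinarith
    have h6 := mul_le_mul_of_nonneg_left h5 (uS_nonneg η p (aw w) (pw w))
    calc (1 + κ) * (uS η p (aw w) (pw w) * (Dw w / aw w + 2 * κ))
        = uS η p (aw w) (pw w) * ((1 + κ) * (Dw w / aw w + 2 * κ)) := by ring
      _ ≤ uS η p (aw w) (pw w) *
          (Λ * ((1 + κ) * ((1 + γ / 4) * (1 + γ / 3 - pw w / aw w)) + γ / 30)) := h6
      _ = Λ * (uS η p (aw w) (pw w) *
          ((1 + κ) * ((1 + γ / 4) * (1 + γ / 3 - pw w / aw w)) + γ / 30)) := by ring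
  have h2 := Finset.sum_le_sum h1
  rw [← Finset.mul_sum, ← Finset.mul_sum, Finset.sum_sub_distrib, Finset.sum_sub_distrib,
    ← Finset.mul_sum, ← Finset.mul_sum] at h2
  have e1 : ∑ w ∈ s, (1 + κ) ^ 2 * uT η p (aw w) (pw w) * p =
      (1 + κ) ^ 2 * (∑ w ∈ s, uT η p (aw w) (pw w)) * p := by
    rw [← Finset.sum_mul, ← Finset.mul_sum]
  rw [e1] at h2
  set ST := ∑ w ∈ s, uT η p (aw w) (pw w) with hST
  set SS := ∑ w ∈ s, uS η p (aw w) (pw w) with hSS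
  set SD := ∑ w ∈ s, uS η p (aw w) (pw w) * (Dw w / aw w + 2 * κ) with hSD
  set SH := ∑ w ∈ s, (hh (p / pw w) + θ) with hSH
  have h3 := mul_le_mul_of_nonneg_left h2 (show (0 : ℝ) ≤ 1 / K by positivity)
  have h4 := mul_le_mul_of_nonneg_left hp' hΛ0
  have h5 : (1 + κ) / K * SD = 1 / K * ((1 + κ) * SD) := by ring
  rw [h5, ha']
  have h6 : 1 / K * (Λ * (SH - (1 + κ) ^ 2 * ST * p - (1 + γ / 3) * ((1 + κ) ^ 2 * SS))) =
      Λ * (1 / K * SH) - Λ * ((1 + κ) ^ 2 / K * ST * p) -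
        Λ * ((1 + γ / 3) * ((1 + κ) ^ 2 / K * SS)) := by ring
  rw [h6] at h3
  nlinarith

end Pool.Agent.PK
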