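import Pool.Agent.PK.Fr

/-!
# Packing (PK), row PK-H3: the costs of a pair
-/

set_option autoImplicit false

open Finset

namespace Pool.Agent.PK

theorem pc_nonneg (J : ℕ) {e th : ℝ} (he : 0 < e) (hth : 0 ≤ th) (l a l' a' : ℝ) (s : ℕ) :
    0 ≤ pc J e th l a l' a' s := by
  have h1 := fr_nonneg J l' s
  have h2 := bo_le_one l s
  have h3 := mul_nonneg (bo_nonneg l s) (en_nonneg J l s)
  have h4 : 0 ≤ max a e / max a' e :=
    div_nonneg (he.le.trans (le_max_right _ _)) (he.le.trans (le_max_right _ _))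
  have h5 := hh_nonneg h4
  unfold pc
  refine mul_nonneg h1 (add_nonneg (by linarith) (mul_nonneg h3 (by linarith)))

theorem pc_far {J : ℕ} (e th l a l' a' : ℝ) (s : ℕ) (h : l + J + 1 ≤ l') :
    pc J e th l a l' a' s = 0 := by
  by_cases hb : bo l' s = 0
  · unfold pc fr
    rw [hb]
    ring
  · have h1 : 0 < (s : ℝ) + 1 - l' := by
      by_contra hc
      exact hb (cl_zero (not_lt.mp hc))
    have hJ : (0 : ℝ) ≤ J := Nat.cast_nonneg J
    have h2 : bo l s = 1 := cl_one (by linarith)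
    have h3 : en J l s = 0 := by
      unfold en
      rw [cl_one (by linarith)]
      ring
    unfold pc
    rw [h2, h3]
    ring

/-- the probability that one of two vertices is open at the time `t` -/
noncomputable def pairG (l l' t : ℝ) : ℝ := cl (t - l) + cl (t - l') - cl (t - l) * cl (t - l')

theorem pairG_nonneg (l l' t : ℝ) : 0 ≤ pairG l l' t := by
  have h1 := cl_nonneg (t - l)
  have h2 := cl_nonneg (t - l')
  have h3 := cl_le_one (t - l)
  have h4 := mul_nonneg h2 (sub_nonneg.mpr h3)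
  unfold pairG
  nlinarith

theorem pairG_le (l l' t : ℝ) : pairG l l' t ≤ 1 := by
  have h1 := cl_le_one (t - l)
  have h2 := cl_le_one (t - l')
  have h3 := mul_nonneg (sub_nonneg.mpr h1) (sub_nonneg.mpr h2)
  unfold pairG
  nlinarith

theorem pair_point {J : ℕ} (hJ : 1 ≤ J) {e th : ℝ} (he : 0 < e) (l l' a a' : ℝ) (s : ℕ) :
    pc J e th l a l' a' s + pc J e th l' a' l a s =
      2 / J * (pairG l l' ((s : ℝ) + 1) - pairG l l' ((s : ℝ) + 1 - J)) +
      2 * th * ((bo l s - cl ((s : ℝ) + 1 - l - J)) * fr J l' s) := by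
  have hA : 0 < max a e := lt_of_lt_of_le he (le_max_right _ _)
  have hB : 0 < max a' e := lt_of_lt_of_le he (le_max_right _ _)
  have hh' := hh_div hA hB
  have hJ0 : (0 : ℝ) < J := by exact_mod_cast hJ
  have e1 := boen hJ l s
  have e2 := boen hJ l' s
  have g1 : pairG l l' ((s : ℝ) + 1) = bo l s + bo l' s - bo l s * bo l' s := rfl
  have g2 : pairG l l' ((s : ℝ) + 1 - J) = cl ((s : ℝ) + 1 - l - J) + cl ((s : ℝ) + 1 - l' - J) -
      cl ((s : ℝ) + 1 - l - J) * cl ((s : ℝ) + 1 - l' - J) := by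
    unfold pairG
    have a1 : (s : ℝ) + 1 - J - l = (s : ℝ) + 1 - l - J := by ring
    have a2 : (s : ℝ) + 1 - J - l' = (s : ℝ) + 1 - l' - J := by ring
    rw [a1, a2]
  rw [g1, g2]
  unfold pc fr
  rw [e1, e2]
  generalize hh (max a e / max a' e) = p at *
  generalize hh (max a' e / max a e) = q at *
  generalize bo l s = b at *
  generalize bo l' s = b' at *
  generalize cl ((s : ℝ) + 1 - l - J) = c at *
  generalize cl ((s : ℝ) + 1 - l' - J) = c' at *
  have hq : q = 2 - p := by linarith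
  rw [hq]
  field_simp
  ring

/-- Both ends of an edge pay at most `2 + 2 th`. -/
theorem pair {J : ℕ} (hJ : 1 ≤ J) {e th : ℝ} (he : 0 < e) (hth : 0 ≤ th) (l l' : ℝ)
    (a a' : ℕ → ℝ) (T : ℕ) : ∑ s ∈ range T, (pc J e th l (a s) l' (a' s) s +
      pc J e th l' (a' s) l (a s) s) ≤ 2 + 2 * th := by
  have hJ0 : (0 : ℝ) < J := by exact_mod_cast hJ
  rw [Finset.sum_congr rfl fun s _ => pair_point hJ he l l' (a s) (a' s) s,
    Finset.sum_add_distrib, ← Finset.mul_sum, ← Finset.mul_sum]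
  have h1 : ∑ s ∈ range T, (pairG l l' ((s : ℝ) + 1) - pairG l l' ((s : ℝ) + 1 - J)) ≤ J := by
    have h2 := tel (fun s => pairG l l' ((s : ℝ) + 1 - J)) J T
    have h3 : ∑ s ∈ range T, (pairG l l' ((s : ℝ) + 1) - pairG l l' ((s : ℝ) + 1 - J)) =
        ∑ s ∈ range T, ((fun s : ℕ => pairG l l' ((s : ℝ) + 1 - J)) (s + J) -
          (fun s : ℕ => pairG l l' ((s : ℝ) + 1 - J)) s) := by
      refine Finset.sum_congr rfl fun s _ => ?_
      have : (((s + J : ℕ) : ℝ) + 1 - J) = (s : ℝ) + 1 := by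
        push_cast
        ring
      simp only [this]
    rw [h3, h2]
    have h4 : ∑ s ∈ range J, pairG l l' (((T + s : ℕ) : ℝ) + 1 - J) ≤ ∑ _s ∈ range J, (1 : ℝ) :=
      Finset.sum_le_sum fun s _ => pairG_le _ _ _
    have h5 : 0 ≤ ∑ s ∈ range J, pairG l l' ((s : ℝ) + 1 - J) :=
      Finset.sum_nonneg fun s _ => pairG_nonneg _ _ _
    rw [Finset.sum_const, Finset.card_range, nsmul_eq_mul, mul_one] at h4
    linarith
  have h6 : ∑ s ∈ range T, (bo l s - cl ((s : ℝ) + 1 - l - J)) * fr J l' s ≤ 1 := by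
    refine le_trans (Finset.sum_le_sum fun s _ => ?_) (fr_sum_le hJ l' T)
    refine mul_le_of_le_one_left (fr_nonneg J l' s) ?_
    have := bo_le_one l s
    have := cl_nonneg ((s : ℝ) + 1 - l - J)
    linarith
  have h7 : 2 / (J : ℝ) * ∑ s ∈ range T, (pairG l l' ((s : ℝ) + 1) -
      pairG l l' ((s : ℝ) + 1 - J)) ≤ 2 := by
    calc _ ≤ 2 / (J : ℝ) * J := mul_le_mul_of_nonneg_left h1 (by positivity)
      _ = 2 := by field_simp
  have h8 : 2 * th * ∑ s ∈ range T, (bo l s - cl ((s : ℝ) + 1 - l - J)) * fr J l' s ≤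
      2 * th * 1 := mul_le_mul_of_nonneg_left h6 (by linarith)
  linarith

end Pool.Agent.PK
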