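import Pool.Agent.PK.Defs

/-!
# Packing (PK): cutting the orbits of a permutation
-/

set_option autoImplicit false

namespace Pool.Agent.PK

open Finset
open Pool.Agent.H24.LP Pool.Agent.H24.LP.Nib

theorem pieces_iff {K : ℕ} (ρ : Equiv.Perm (Fin K)) {O : Finset (Fin K)}
    (hO : ∀ a ∈ O, ρ a ∈ O) (a : Fin K) : ρ a ∈ O ↔ a ∈ O := by
  classical
  constructor
  · intro h
    have himg : O.image (fun a => ρ a) = O := by
      apply Finset.eq_of_subset_of_card_le
      · intro b hb
        rw [Finset.mem_image] at hb
        obtain ⟨c, hc, rfl⟩ := hb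
        exact hO c hc
      · rw [Finset.card_image_of_injective _ ρ.injective]
    rw [← himg, Finset.mem_image] at h
    obtain ⟨c, hc, he⟩ := h
    rw [← ρ.injective he]
    exact hc
  · exact hO a

theorem pieces_pow {K : ℕ} (ρ : Equiv.Perm (Fin K)) {O : Finset (Fin K)}
    (hO : ∀ a ∈ O, ρ a ∈ O) (a : Fin K) (i : ℕ) : (ρ ^ i) a ∈ O ↔ a ∈ O := by
  induction i with
  | zero => simp
  | succ i ih =>
    rw [pow_succ', Equiv.Perm.mul_apply, pieces_iff ρ hO, ih]

/-- cutting the orbits of a permutation into pieces; few cuts in every invariant set -/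
theorem pieces_orb {K : ℕ} (ρ : Equiv.Perm (Fin K)) (g : ℕ) (hg : 1 ≤ g) :
    ∃ p : Fin K → Fin K, (∀ j, (Finset.univ.filter fun a => p a = j).card ≤ g) ∧
      ∀ O : Finset (Fin K), (∀ a ∈ O, ρ a ∈ O) →
        g * (O.filter fun a => p (ρ a) ≠ p a).card ≤ 2 * O.card := by
  classical
  have key : ∀ n : ℕ, ∀ X : Finset (Fin K), X.card = n → ∃ p : Fin K → Fin K,
      (∀ j, (X.filter fun a => p a = j).card ≤ g) ∧ (∀ a ∈ X, p a ∈ X) ∧
      ∀ O : Finset (Fin K), (∀ a ∈ O, ρ a ∈ O) →
      g * ((X ∩ O).filter fun a => ρ a ∈ X ∧ p (ρ a) ≠ p a).card ≤ 2 * (X ∩ O).card := by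
    intro n
    induction n using Nat.strong_induction_on with
    | _ n ih =>
      intro X hXn
      rcases X.eq_empty_or_nonempty with rfl | hX
      · exact ⟨id, by simp, by simp, by simp⟩
      -- the first element
      obtain ⟨a0, ha0, hstart⟩ : ∃ a ∈ X, ρ⁻¹ a ∉ X ∨ ∀ a ∈ X, ρ a ∈ X := by
        by_cases hex : ∃ a ∈ X, ρ⁻¹ a ∉ X
        · obtain ⟨a, ha, h⟩ := hex
          exact ⟨a, ha, Or.inl h⟩
        · push Not at hex
          obtain ⟨a, ha⟩ := hX
          refine ⟨a, ha, Or.inr ?_⟩
          have himg : X.image (fun a => ρ⁻¹ a) = X := by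
            apply Finset.eq_of_subset_of_card_le
            · intro b hb
              rw [Finset.mem_image] at hb
              obtain ⟨c, hc, rfl⟩ := hb
              exact hex c hc
            · rw [Finset.card_image_of_injective _ (ρ⁻¹).injective]
          intro b hb
          rw [← himg, Finset.mem_image] at hb
          obtain ⟨c, hc, rfl⟩ := hb
          simpa using hc
      have hex : ∃ i : ℕ, 1 ≤ i ∧ ((ρ ^ i) a0 ∉ X ∨ (ρ ^ i) a0 = a0) := by
        refine ⟨orderOf ρ, orderOf_pos ρ, Or.inr ?_⟩
        rw [pow_orderOf_eq_one]
        rfl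
      set j0 := Nat.find hex with hj0
      have hj0spec := Nat.find_spec hex
      rw [← hj0] at hj0spec
      have hj0min : ∀ i, 1 ≤ i → i < j0 → (ρ ^ i) a0 ∈ X ∧ (ρ ^ i) a0 ≠ a0 := by
        intro i h1 h2
        have := Nat.find_min hex h2
        rw [not_and, not_or] at this
        have h3 := this h1
        exact ⟨not_not.1 h3.1, h3.2⟩
      set j := min g j0 with hj
      have hj1 : 1 ≤ j := le_min hg hj0spec.1
      set Y := (Finset.range j).image fun i => (ρ ^ i) a0 with hY
      have hYX : Y ⊆ X := by
        intro b hb
        rw [hY, Finset.mem_image] at hb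
        obtain ⟨i, hi, rfl⟩ := hb
        rw [Finset.mem_range] at hi
        rcases Nat.eq_zero_or_pos i with rfl | hpos
        · simpa using ha0
        · exact (hj0min i hpos (lt_of_lt_of_le hi (min_le_right _ _))).1
      have hYcard : Y.card = j := by
        rw [hY, Finset.card_image_of_injOn, Finset.card_range]
        have hlt : ∀ i i' : ℕ, i < i' → i' < j → (ρ ^ i) a0 ≠ (ρ ^ i') a0 := by
          intro i i' h1 h2 heq
          have h3 : (ρ ^ (i' - i)) a0 = a0 := by
            apply (ρ ^ i).injective
            rw [← Equiv.Perm.mul_apply, ← pow_add, heq]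
            congr 2
            omega
          exact (hj0min (i' - i) (by omega)
            (lt_of_lt_of_le (by omega) (min_le_right g j0))).2 h3
        intro i hi i' hi' heq
        rw [Finset.mem_coe, Finset.mem_range] at hi hi'
        rcases lt_trichotomy i i' with h | h | h
        · exact absurd heq (hlt i i' h hi')
        · exact h
        · exact absurd heq.symm (hlt i' i h hi)
      have hcard : (X \ Y).card = X.card - j := by
        rw [Finset.card_sdiff_of_subset hYX, hYcard]
      have hjX : j ≤ X.card := by
        rw [← hYcard]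
        exact Finset.card_le_card hYX
      obtain ⟨p', hp1, hp2, hp3⟩ := ih (X \ Y).card (by omega) (X \ Y) rfl
      have ha0Y : a0 ∈ Y := by
        rw [hY, Finset.mem_image]
        exact ⟨0, by rw [Finset.mem_range]; omega, by simp⟩
      refine ⟨fun a => if a ∈ Y then a0 else p' a, ?_, ?_, ?_⟩
      · intro l
        by_cases hl : l = a0
        · subst hl
          refine le_trans (Finset.card_le_card (t := Y) ?_) (by rw [hYcard]; exact min_le_left _ _)
          intro a ha
          rw [Finset.mem_filter] at ha
          beta_reduce at ha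
          by_contra haY
          rw [if_neg haY] at ha
          have := hp2 a (Finset.mem_sdiff.2 ⟨ha.1, haY⟩)
          rw [ha.2, Finset.mem_sdiff] at this
          exact this.2 ha0Y
        · refine le_trans (Finset.card_le_card ?_) (hp1 l)
          intro a ha
          rw [Finset.mem_filter] at ha ⊢
          beta_reduce at ha
          by_cases haY : a ∈ Y
          · rw [if_pos haY] at ha
            exact absurd ha.2.symm hl
          · rw [if_neg haY] at ha
            exact ⟨Finset.mem_sdiff.2 ⟨ha.1, haY⟩, ha.2⟩
      · intro a ha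
        simp only
        split_ifs with haY
        · exact ha0
        · exact (Finset.mem_sdiff.1 (hp2 a (Finset.mem_sdiff.2 ⟨ha, haY⟩))).1
      · -- crossing edges
        intro O hO
        have hp3 := hp3 O hO
        have hsd : (X \ Y) ∩ O ⊆ X ∩ O := by
          intro a ha
          rw [Finset.mem_inter, Finset.mem_sdiff] at ha
          exact Finset.mem_inter.2 ⟨ha.1.1, ha.2⟩
        by_cases haO : a0 ∉ O
        · have hYO : ∀ a ∈ Y, a ∉ O := by
            intro a ha
            rw [hY, Finset.mem_image] at ha
            obtain ⟨i, -, rfl⟩ := ha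
            rw [pieces_pow ρ hO]
            exact haO
          have hcr0 : ((X ∩ O).filter fun a => ρ a ∈ X ∧ (if ρ a ∈ Y then a0 else p' (ρ a)) ≠
              (if a ∈ Y then a0 else p' a)) ⊆
              (((X \ Y) ∩ O).filter fun a => ρ a ∈ X \ Y ∧ p' (ρ a) ≠ p' a) := by
            intro a ha
            rw [Finset.mem_filter, Finset.mem_inter] at ha
            obtain ⟨⟨haX, haO'⟩, hρX, hne⟩ := ha
            have h1 : a ∉ Y := fun h => hYO a h haO'
            have h2 : ρ a ∉ Y := fun h => hYO _ h (hO a haO')
            rw [if_neg h1, if_neg h2] at hne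
            rw [Finset.mem_filter, Finset.mem_inter, Finset.mem_sdiff, Finset.mem_sdiff]
            exact ⟨⟨⟨haX, h1⟩, haO'⟩, ⟨hρX, h2⟩, hne⟩
          exact (Nat.mul_le_mul_left _ (Finset.card_le_card hcr0)).trans
            (hp3.trans (Nat.mul_le_mul_left _ (Finset.card_le_card hsd)))
        rw [not_not] at haO
        have hYO : Y ⊆ X ∩ O := by
          intro a ha
          refine Finset.mem_inter.2 ⟨hYX ha, ?_⟩
          rw [hY, Finset.mem_image] at ha
          obtain ⟨i, -, rfl⟩ := ha
          rw [pieces_pow ρ hO]
          exact haO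
        have hcardO : ((X \ Y) ∩ O).card = (X ∩ O).card - j := by
          have e1 : (X \ Y) ∩ O = (X ∩ O) \ Y := by
            ext a
            simp only [Finset.mem_inter, Finset.mem_sdiff]
            tauto
          rw [e1, Finset.card_sdiff_of_subset hYO, hYcard]
        have hjO : j ≤ (X ∩ O).card := by
          rw [← hYcard]
          exact Finset.card_le_card hYO
        have hcr : ((X ∩ O).filter fun a => ρ a ∈ X ∧ (if ρ a ∈ Y then a0 else p' (ρ a)) ≠
            (if a ∈ Y then a0 else p' a)) ⊆
            (((X \ Y) ∩ O).filter fun a => ρ a ∈ X \ Y ∧ p' (ρ a) ≠ p' a) ∪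
            ((Y.filter fun a => ρ a ∈ X \ Y) ∪ ((X \ Y).filter fun a => ρ a ∈ Y)) := by
          intro a ha
          rw [Finset.mem_filter, Finset.mem_inter] at ha
          obtain ⟨⟨haX, haO'⟩, hρX, hne⟩ := ha
          rw [Finset.mem_union, Finset.mem_union, Finset.mem_filter, Finset.mem_filter,
            Finset.mem_filter, Finset.mem_inter, Finset.mem_sdiff, Finset.mem_sdiff]
          by_cases h1 : a ∈ Y
          · by_cases h2 : ρ a ∈ Y
            · rw [if_pos h1, if_pos h2] at hne
              exact absurd rfl hne
            · right; left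
              exact ⟨h1, hρX, h2⟩
          · by_cases h2 : ρ a ∈ Y
            · right; right
              exact ⟨⟨haX, h1⟩, h2⟩
            · left
              rw [if_neg h1, if_neg h2] at hne
              exact ⟨⟨⟨haX, h1⟩, haO'⟩, ⟨hρX, h2⟩, hne⟩
        have hout : (Y.filter fun a => ρ a ∈ X \ Y) ⊆ {(ρ ^ (j - 1)) a0} := by
          intro a ha
          rw [Finset.mem_filter, hY, Finset.mem_image] at ha
          obtain ⟨⟨i, hi, rfl⟩, h2⟩ := ha
          rw [Finset.mem_range] at hi
          rw [Finset.mem_singleton]
          by_contra hne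
          have hi2 : i + 1 < j := by
            by_contra hcon
            apply hne
            have : i = j - 1 := by omega
            rw [this]
          rw [Finset.mem_sdiff] at h2
          apply h2.2
          rw [Finset.mem_image]
          exact ⟨i + 1, Finset.mem_range.2 hi2, by rw [pow_succ']; rfl⟩
        have hin : ((X \ Y).filter fun a => ρ a ∈ Y) ⊆ {ρ⁻¹ a0} := by
          intro a ha
          rw [Finset.mem_filter, hY, Finset.mem_image] at ha
          obtain ⟨haX, i, hi, h2⟩ := ha
          rw [Finset.mem_singleton]
          rcases Nat.eq_zero_or_pos i with rfl | hpos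
          · rw [pow_zero] at h2
            have h3 : ρ a = a0 := h2.symm
            rw [← h3]
            simp
          · exfalso
            rw [Finset.mem_range] at hi
            obtain ⟨i', rfl⟩ : ∃ i', i = i' + 1 := ⟨i - 1, by omega⟩
            rw [pow_succ', Equiv.Perm.mul_apply] at h2
            have h3 := ρ.injective h2
            rw [Finset.mem_sdiff] at haX
            apply haX.2
            rw [Finset.mem_image]
            exact ⟨i', Finset.mem_range.2 (by omega), h3⟩
        have hle := (Finset.card_le_card hcr).trans ((Finset.card_union_le _ _).trans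
          (Nat.add_le_add_left (Finset.card_union_le _ _) _))
        rcases le_or_gt g j0 with hgj | hgj
        · -- a full piece
          have hjg : j = g := min_eq_left hgj
          have h1 := Finset.card_le_card hout
          have h2 := Finset.card_le_card hin
          rw [Finset.card_singleton] at h1 h2
          have h4 : ((X ∩ O).filter fun a => ρ a ∈ X ∧ (if ρ a ∈ Y then a0 else p' (ρ a)) ≠
            (if a ∈ Y then a0 else p' a)).card ≤
            (((X \ Y) ∩ O).filter fun a => ρ a ∈ X \ Y ∧ p' (ρ a) ≠ p' a).card + 2 := by omega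
          calc g * ((X ∩ O).filter fun a => ρ a ∈ X ∧ (if ρ a ∈ Y then a0 else p' (ρ a)) ≠
            (if a ∈ Y then a0 else p' a)).card
              ≤ g * ((((X \ Y) ∩ O).filter fun a => ρ a ∈ X \ Y ∧ p' (ρ a) ≠ p' a).card + 2) :=
                Nat.mul_le_mul_left _ h4
            _ = g * (((X \ Y) ∩ O).filter fun a => ρ a ∈ X \ Y ∧ p' (ρ a) ≠ p' a).card + 2 * g := by
                ring
            _ ≤ 2 * ((X \ Y) ∩ O).card + 2 * g := Nat.add_le_add_right hp3 _
            _ = 2 * (X ∩ O).card := by omega
        · -- a short piece
          have hjj : j = j0 := min_eq_right hgj.le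
          have h1 : (Y.filter fun a => ρ a ∈ X \ Y) = ∅ := by
            rw [Finset.eq_empty_iff_forall_notMem]
            intro a ha
            have h5 := Finset.mem_singleton.1 (hout ha)
            rw [Finset.mem_filter, Finset.mem_sdiff] at ha
            have h6 : ρ a = (ρ ^ j0) a0 := by
              rw [h5, ← Equiv.Perm.mul_apply, ← pow_succ', hjj]
              congr 2
              omega
            rcases hj0spec.2 with h7 | h7
            · exact h7 (h6 ▸ ha.2.1)
            · apply ha.2.2
              rw [h6, h7]
              exact ha0Y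
          have h2 : ((X \ Y).filter fun a => ρ a ∈ Y) = ∅ := by
            rw [Finset.eq_empty_iff_forall_notMem]
            intro a ha
            have h5 := Finset.mem_singleton.1 (hin ha)
            rw [Finset.mem_filter, Finset.mem_sdiff] at ha
            rcases hstart with h7 | h7
            · exact h7 (h5 ▸ ha.1.1)
            · have h8 : ∀ i : ℕ, (ρ ^ i) a0 ∈ X := by
                intro i
                induction i with
                | zero => simpa using ha0
                | succ i ihi =>
                  rw [pow_succ', Equiv.Perm.mul_apply]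
                  exact h7 _ ihi
              have h9 : (ρ ^ j0) a0 = a0 := by
                rcases hj0spec.2 with h | h
                · exact absurd (h8 j0) h
                · exact h
              apply ha.1.2
              rw [hY, Finset.mem_image]
              refine ⟨j0 - 1, by rw [Finset.mem_range]; omega, ?_⟩
              rw [h5]
              apply ρ.injective
              rw [← Equiv.Perm.mul_apply, ← pow_succ']
              have : j0 - 1 + 1 = j0 := by omega
              rw [this, h9]
              simp
          rw [h1, h2, Finset.card_empty] at hle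
          have h4 : ((X ∩ O).filter fun a => ρ a ∈ X ∧ (if ρ a ∈ Y then a0 else p' (ρ a)) ≠
            (if a ∈ Y then a0 else p' a)).card ≤
            (((X \ Y) ∩ O).filter fun a => ρ a ∈ X \ Y ∧ p' (ρ a) ≠ p' a).card := by omega
          calc g * ((X ∩ O).filter fun a => ρ a ∈ X ∧ (if ρ a ∈ Y then a0 else p' (ρ a)) ≠
            (if a ∈ Y then a0 else p' a)).card
              ≤ g * (((X \ Y) ∩ O).filter fun a => ρ a ∈ X \ Y ∧ p' (ρ a) ≠ p' a).card :=
                Nat.mul_le_mul_left _ h4
            _ ≤ 2 * ((X \ Y) ∩ O).card := hp3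
            _ ≤ 2 * (X ∩ O).card := by omega
  obtain ⟨p, h1, -, h3⟩ := key _ Finset.univ rfl
  refine ⟨p, h1, fun O hO => ?_⟩
  have h4 := h3 O hO
  rw [Finset.univ_inter] at h4
  simpa using h4

end Pool.Agent.PK

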