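import Pool.Agent.PK.Pair

set_option autoImplicit false

open Finset

namespace Pool.Agent.PK

variable {V : Type} [Fintype V] [DecidableEq V] (G : SimpleGraph V) [DecidableRel G.Adj]

omit [Fintype V] [DecidableEq V] in
theorem pot_bo_cont (s : ℕ) (v : V) : Continuous fun l : V → ℝ => bo (l v) s := by
  unfold bo
  exact cl_cont.comp (continuous_const.sub (continuous_apply v))

omit [Fintype V] [DecidableEq V] in
theorem pot_en_cont (J s : ℕ) (v : V) : Continuous fun l : V → ℝ => en J (l v) s := by
  unfold en
  exact continuous_const.sub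
    (cl_cont.comp ((continuous_const.sub (continuous_apply v)).sub continuous_const))

omit [Fintype V] [DecidableEq V] in
theorem pot_fr_cont (J s : ℕ) (v : V) : Continuous fun l : V → ℝ => fr J (l v) s := by
  unfold fr
  exact ((pot_bo_cont s v).mul (pot_en_cont J s v)).div_const _

omit [Fintype V] [DecidableEq V] in
theorem pot_ex_cont (J s : ℕ) (v : V) : Continuous fun l : V → ℝ => ex J (l v) s := by
  unfold ex
  exact (pot_bo_cont (s + 1) v).sub
    (cl_cont.comp ((continuous_const.sub (continuous_apply v)).sub continuous_const))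

theorem pot_cont (K J : ℕ) (x : V → ℝ) {e : ℝ} (he : 0 < e) (th kap : ℝ) (s : ℕ) (v : V) :
    Continuous fun l : V → ℝ => pot G K J x e th kap l s v := by
  induction s generalizing v with
  | zero =>
    change Continuous fun l : V → ℝ => 1 - 2 * x v - kap
    exact continuous_const
  | succ s ih =>
    change Continuous fun l : V → ℝ => pot G K J x e th kap l s v -
      1 / K * (∑ u ∈ G.neighborFinset v, pc J e th (l v) (pot G K J x e th kap l s v) (l u)
        (pot G K J x e th kap l s u) s) - kap / J * ex J (l v) s
    refine ((ih v).sub (continuous_const.mul (continuous_finsetSum _ fun u _ => ?_))).sub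
      (continuous_const.mul (pot_ex_cont J s v))
    unfold pc
    refine (pot_fr_cont J s u).mul ((continuous_const.mul
      (continuous_const.sub (pot_bo_cont s v))).add
      (((pot_bo_cont s v).mul (pot_en_cont J s v)).mul ((hh_cont.comp ?_).add continuous_const)))
    refine ((ih v).max continuous_const).div ((ih u).max continuous_const) fun l => ?_
    exact ne_of_gt (lt_of_lt_of_le he (le_max_right _ _))

theorem pot_anti (K J : ℕ) (x : V → ℝ) {e th kap : ℝ} (he : 0 < e) (hth : 0 ≤ th)
    (hk : 0 ≤ kap) (l : V → ℝ) (s : ℕ) (v : V) :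
    pot G K J x e th kap l (s + 1) v ≤ pot G K J x e th kap l s v := by
  change pot G K J x e th kap l s v -
      1 / K * (∑ u ∈ G.neighborFinset v, pc J e th (l v) (pot G K J x e th kap l s v) (l u)
        (pot G K J x e th kap l s u) s) - kap / J * ex J (l v) s ≤ _
  have h1 : 0 ≤ 1 / (K : ℝ) * (∑ u ∈ G.neighborFinset v, pc J e th (l v)
      (pot G K J x e th kap l s v) (l u) (pot G K J x e th kap l s u) s) :=
    mul_nonneg (div_nonneg zero_le_one (Nat.cast_nonneg K))
      (Finset.sum_nonneg fun u _ => pc_nonneg J he hth _ _ _ _ s)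
  have h2 : 0 ≤ kap / J * ex J (l v) s :=
    mul_nonneg (div_nonneg hk (Nat.cast_nonneg J)) (ex_nonneg J _ s)
  linarith

theorem pot_sum (K J : ℕ) (x : V → ℝ) (e th kap : ℝ) (l : V → ℝ) (T : ℕ) (v : V) :
    pot G K J x e th kap l T v = 1 - 2 * x v - kap -
      1 / K * (∑ s ∈ range T, ∑ u ∈ G.neighborFinset v,
        pc J e th (l v) (pot G K J x e th kap l s v) (l u) (pot G K J x e th kap l s u) s) -
      kap / J * ∑ s ∈ range T, ex J (l v) s := by
  induction T with
  | zero =>
    change 1 - 2 * x v - kap = _
    simp
  | succ T ih =>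
    change pot G K J x e th kap l T v -
      1 / K * (∑ u ∈ G.neighborFinset v, pc J e th (l v) (pot G K J x e th kap l T v) (l u)
        (pot G K J x e th kap l T u) T) - kap / J * ex J (l v) T = _
    rw [Finset.sum_range_succ, Finset.sum_range_succ]
    linear_combination ih

end Pool.Agent.PK
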