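import Pool.Agent.PK.Defs
import Pool.Agent.PK.Fr

/-!
# Packing (PK): the update of the state of a vertex in one slot
-/

set_option autoImplicit false

open Finset

namespace Pool.Agent.PK

open Pool.Agent.H24.LP Pool.Agent.H24.LP.Nib

/-- The law of a neighbour in the coordinates of the vertex. -/
structure NLaw {K : ℕ} (a p κ : ℝ) (q1 q2 : Fin K → Fin K → ℝ) : Prop where
  pa : p ≤ a
  a1 : a ≤ 1
  n1 : ∀ i j, 0 ≤ q1 i j
  n2 : ∀ i j, 0 ≤ q2 i j
  row1 : ∀ i, ∑ j, q1 i j ≤ 1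
  col1 : ∀ j, ∑ i, q1 i j ≤ 1
  cap1 : ∀ i j, q1 i j ≤ (1 + κ) / (a * K)
  cap : ∀ i j, q1 i j + q2 i j ≤ (1 + κ) / (p * K)
  row2 : ∀ i, ∑ j, q2 i j ≤ (1 - p / a) / 2 + κ
  col2 : ∀ j, ∑ i, q2 i j ≤ (1 - p / a) / 2 + κ
  flat : ∀ S T : Finset (Fin K),
    ∑ i ∈ S, ∑ j ∈ T, q1 i j ≤ (1 + κ) * (S.card * T.card) / K + κ * K

/-- the scaling factor -/
noncomputable def updT (p aw pw : ℝ) : ℝ := if p ≤ pw then 1 / pw else if p ≤ aw then 1 / aw else 0

/-- subtraction of the flat part -/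
noncomputable def updS (p aw pw : ℝ) : ℝ := if p ≤ pw then 0 else if p ≤ aw then 0 else 1

/-- subtraction of the second part -/
noncomputable def updZ (p pw : ℝ) : ℝ := if p ≤ pw then 0 else 1

theorem updT_nonneg {p aw pw : ℝ} (h1 : 0 < pw) (h2 : 0 < aw) : 0 ≤ updT p aw pw := by
  unfold updT
  split_ifs <;> positivity

theorem updT_le {p aw pw ε : ℝ} (hε : 0 < ε) (h1 : ε ≤ pw) (h2 : ε ≤ aw) :
    updT p aw pw ≤ 1 / ε := by
  unfold updT
  split_ifs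
  · exact one_div_le_one_div_of_le hε h1
  · exact one_div_le_one_div_of_le hε h2
  · positivity

theorem updS_nonneg (p aw pw : ℝ) : 0 ≤ updS p aw pw := by
  unfold updS
  split_ifs <;> norm_num

theorem updS_le (p aw pw : ℝ) : updS p aw pw ≤ 1 := by
  unfold updS
  split_ifs <;> norm_num

theorem updZ_nonneg (p pw : ℝ) : 0 ≤ updZ p pw := by
  unfold updZ
  split_ifs <;> norm_num

theorem updZ_le (p pw : ℝ) : updZ p pw ≤ 1 := by
  unfold updZ
  split_ifs <;> norm_num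

/-- the cost of one neighbour -/
theorem upd_cost {p aw pw κ θ : ℝ} (hp : 0 < p) (hpw : 0 < pw) (hpa : pw ≤ aw) (hκ0 : 0 ≤ κ)
    (hκ1 : κ ≤ 1) (hθ : 8 * κ ≤ θ) :
    (1 + κ) ^ 2 * updT p aw pw * p + (1 + κ) ^ 2 * updS p aw pw +
      2 * (1 + κ) * updZ p pw * ((1 - pw / aw) / 2 + κ) ≤ hh (p / pw) + θ := by
  have haw : 0 < aw := by linarith
  have hk : (1 + κ) ^ 2 ≤ 1 + 3 * κ := by nlinarith
  unfold updT updS updZ
  by_cases h1 : p ≤ pw
  · rw [if_pos h1, if_pos h1, if_pos h1, hh_le_one ((div_le_one hpw).2 h1)]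
    have h2 : p / pw ≤ 1 := (div_le_one hpw).2 h1
    have h3 : 0 ≤ p / pw := by positivity
    have h4 : (1 + κ) ^ 2 * (1 / pw) * p = (1 + κ) ^ 2 * (p / pw) := by ring
    rw [h4]
    nlinarith
  · rw [if_neg h1, if_neg h1, if_neg h1]
    push Not at h1
    rw [hh_one_le ((one_le_div hpw).2 h1.le), one_div_div]
    have e0 : 0 ≤ 1 - pw / aw := by
      rw [sub_nonneg, div_le_one haw]
      exact hpa
    have e1 : 1 - pw / aw ≤ 1 := by
      have : 0 ≤ pw / aw := by positivity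
      linarith
    by_cases h2 : p ≤ aw
    · rw [if_pos h2, if_pos h2]
      have h3 : p / aw ≤ 1 := (div_le_one haw).2 h2
      have h3' : 0 ≤ p / aw := by positivity
      have h4 : (1 + κ) ^ 2 * (1 / aw) * p = (1 + κ) ^ 2 * (p / aw) := by ring
      rw [h4]
      have h5 : p / aw - pw / aw ≤ 1 - pw / p := by
        rw [← sub_div, one_sub_div hp.ne']
        exact div_le_div_of_nonneg_left (by linarith) hp h2
      nlinarith
    · rw [if_neg h2, if_neg h2]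
      push Not at h2
      have h5 : pw / p ≤ pw / aw := div_le_div_of_nonneg_left hpw.le haw h2.le
      nlinarith

/-- the hits of one neighbour -/
theorem upd_one {K : ℕ} (hK : 0 < K) {p aw pw κ : ℝ} {q1 q2 : Fin K → Fin K → ℝ}
    (hL : NLaw aw pw κ q1 q2) (hpw : 0 < pw) {X Y : Finset (Fin K × Fin K)}
    (hXY : X ⊆ Y) {φ : ℝ} (hφ : ∑ x ∈ Y, q1 x.1 x.2 ≤ φ) :
    ∑ x ∈ X, (q1 x.1 x.2 + q2 x.1 x.2) ≤ (1 + κ) / K * updT p aw pw * X.card +
      updS p aw pw * φ + updZ p pw * ∑ x ∈ Y, q2 x.1 x.2 := by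
  have haw : 0 < aw := lt_of_lt_of_le hpw hL.pa
  have hKr : (0 : ℝ) < K := by exact_mod_cast hK
  have h1 : ∑ x ∈ X, q1 x.1 x.2 ≤ ∑ x ∈ Y, q1 x.1 x.2 :=
    Finset.sum_le_sum_of_subset_of_nonneg hXY fun x _ _ => hL.n1 _ _
  have h2 : ∑ x ∈ X, q2 x.1 x.2 ≤ ∑ x ∈ Y, q2 x.1 x.2 :=
    Finset.sum_le_sum_of_subset_of_nonneg hXY fun x _ _ => hL.n2 _ _
  unfold updT updS updZ
  by_cases h3 : p ≤ pw
  · rw [if_pos h3, if_pos h3, if_pos h3]
    have h4 : ∑ x ∈ X, (q1 x.1 x.2 + q2 x.1 x.2) ≤ ∑ _x ∈ X, (1 + κ) / (pw * K) :=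
      Finset.sum_le_sum fun x _ => hL.cap _ _
    rw [Finset.sum_const, nsmul_eq_mul] at h4
    have h5 : (1 + κ) / K * (1 / pw) * X.card = X.card * ((1 + κ) / (pw * K)) := by
      field_simp
    linarith
  · rw [if_neg h3, if_neg h3, if_neg h3, Finset.sum_add_distrib]
    by_cases h4 : p ≤ aw
    · rw [if_pos h4, if_pos h4]
      have h5 : ∑ x ∈ X, q1 x.1 x.2 ≤ ∑ _x ∈ X, (1 + κ) / (aw * K) :=
        Finset.sum_le_sum fun x _ => hL.cap1 _ _
      rw [Finset.sum_const, nsmul_eq_mul] at h5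
      have h6 : (1 + κ) / K * (1 / aw) * X.card = X.card * ((1 + κ) / (aw * K)) := by
        field_simp
      linarith
    · rw [if_neg h4, if_neg h4]
      linarith

/-- the combination of all neighbours -/
theorem upd_all {K : ℕ} (hK : 0 < K) {p κ : ℝ} (hκ0 : 0 ≤ κ) {ι : Type*} (s : Finset ι)
    (aw pw : ι → ℝ) (q1 q2 : ι → Fin K → Fin K → ℝ)
    (hL : ∀ w ∈ s, NLaw (aw w) (pw w) κ (q1 w) (q2 w)) (hpw : ∀ w ∈ s, 0 < pw w)
    {X Y : Finset (Fin K × Fin K)} (hXY : X ⊆ Y) {φ : ℝ}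
    (hφ : ∀ w ∈ s, ∑ x ∈ Y, q1 w x.1 x.2 ≤ φ) :
    (1 + κ) * ∑ w ∈ s, ∑ x ∈ X, (q1 w x.1 x.2 + q2 w x.1 x.2) ≤
      (1 + κ) ^ 2 / K * (∑ w ∈ s, updT p (aw w) (pw w)) * X.card +
      (1 + κ) * (∑ w ∈ s, updS p (aw w) (pw w)) * φ +
      ∑ x ∈ Y, (1 + κ) * ∑ w ∈ s, updZ p (pw w) * q2 w x.1 x.2 := by
  have h1 : ∑ w ∈ s, ∑ x ∈ X, (q1 w x.1 x.2 + q2 w x.1 x.2) ≤
      ∑ w ∈ s, ((1 + κ) / K * updT p (aw w) (pw w) * X.card +
      updS p (aw w) (pw w) * φ + updZ p (pw w) * ∑ x ∈ Y, q2 w x.1 x.2) :=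
    Finset.sum_le_sum fun w hw => upd_one hK (hL w hw) (hpw w hw) hXY (hφ w hw)
  have h2 := mul_le_mul_of_nonneg_left h1 (show (0 : ℝ) ≤ 1 + κ by linarith)
  refine h2.trans_eq ?_
  rw [Finset.sum_add_distrib, Finset.sum_add_distrib, ← Finset.sum_mul, ← Finset.sum_mul,
    ← Finset.mul_sum, ← Finset.mul_sum, Finset.sum_comm' (t' := s) (s' := fun _ => Y)
      (t := fun _ => s) (s := Y) (f := fun x w => updZ p (pw w) * q2 w x.1 x.2)
      (fun x w => by tauto)]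
  have h3 : ∀ w ∈ s, updZ p (pw w) * ∑ x ∈ Y, q2 w x.1 x.2 =
      ∑ x ∈ Y, updZ p (pw w) * q2 w x.1 x.2 := fun w _ => Finset.mul_sum _ _ _
  rw [Finset.sum_congr rfl h3]
  ring

/-- The update of the state of a vertex: `s` is the set of the neighbours that are processed in the
slot, `M` is the part of the removed cells which is not controlled by the laws. -/
theorem upd {K : ℕ} (hK : 0 < K) {B B' : Finset (Fin K × Fin K)} (hB : B' ⊆ B) {a p ν c : ℝ}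
    {R : Fin K → Fin K → ℝ} (hS : State B a p ν c R) {ε κ δ θ mm κ' : ℝ} (hε : 0 < ε)
    (hκ0 : 0 ≤ κ) (hκ1 : κ ≤ 1) (hθ : 8 * κ ≤ θ) (hδ0 : 0 ≤ δ) (hδ : 4 * δ ≤ ε) (hc : 0 ≤ c)
    (hν : 0 ≤ ν) (hp : ε ≤ p) {ι : Type*} (s : Finset ι) (hs : (s.card : ℝ) ≤ δ * K)
    (aw pw : ι → ℝ) (q1 q2 : ι → Fin K → Fin K → ℝ)
    (hL : ∀ w ∈ s, NLaw (aw w) (pw w) κ (q1 w) (q2 w)) (hpw : ∀ w ∈ s, ε ≤ pw w)
    (M : Fin K → Fin K → ℝ) (hM0 : ∀ i j, 0 ≤ M i j)
    (hM1 : ∀ i j, M i j ≤ if (i, j) ∈ B ∧ (i, j) ∉ B' then 1 else 0)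
    (hMr : ∀ i, ∑ j, M i j ≤ mm * K) (hMc : ∀ j, ∑ i, M i j ≤ mm * K) (hmm : 2 * mm ≤ κ')
    (hrct : ∀ S T : Finset (Fin K), ((rect B S T).card : ℝ) ≤ (rect B' S T).card +
      (1 + κ) * ∑ w ∈ s, ∑ x ∈ rect B S T, (q1 w x.1 x.2 + q2 w x.1 x.2) +
      ∑ i ∈ S, ∑ j ∈ T, M i j + κ * K ^ 2)
    (hrow : ∀ i, ((univ.filter fun j => (i, j) ∈ B).card : ℝ) ≤
      (univ.filter fun j => (i, j) ∈ B').card +
      (1 + κ) * ∑ w ∈ s, ∑ j ∈ univ.filter (fun j => (i, j) ∈ B), (q1 w i j + q2 w i j) +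
      ∑ j, M i j + κ * K)
    (hcol : ∀ j, ((univ.filter fun i => (i, j) ∈ B).card : ℝ) ≤
      (univ.filter fun i => (i, j) ∈ B').card +
      (1 + κ) * ∑ w ∈ s, ∑ i ∈ univ.filter (fun i => (i, j) ∈ B), (q1 w i j + q2 w i j) +
      ∑ i, M i j + κ * K)
    {p' : ℝ} (hp' : p' + 1 / K * ∑ w ∈ s, (hh (p / pw w) + θ) + κ' ≤ p) :
    ∃ (a' : ℝ) (R' : Fin K → Fin K → ℝ), a' ≤ a ∧
      State B' a' p' (ν + 3 * κ) (c + 4 * δ / ε) R' := by
  classical
  have hKr : (0 : ℝ) < K := by exact_mod_cast hK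
  have hp0 : 0 < p := by linarith
  have ha0 : 0 < a := lt_of_lt_of_le hp0 hS.pa
  have hpw0 : ∀ w ∈ s, 0 < pw w := fun w hw => lt_of_lt_of_le hε (hpw w hw)
  have haw0 : ∀ w ∈ s, 0 < aw w := fun w hw => lt_of_lt_of_le (hpw0 w hw) (hL w hw).pa
  have h1k : (0 : ℝ) ≤ 1 + κ := by linarith
  have hk2 : (1 + κ) ^ 2 ≤ 4 := by nlinarith
  set Θ : ℝ := (1 + κ) ^ 2 / K * ∑ w ∈ s, updT p (aw w) (pw w) with hΘ
  set Ψ : ℝ := (1 + κ) ^ 2 / K * ∑ w ∈ s, updS p (aw w) (pw w) with hΨ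
  set Q : Fin K → Fin K → ℝ := fun i j => (1 + κ) * ∑ w ∈ s, updZ p (pw w) * q2 w i j with hQ
  have hT0 : 0 ≤ ∑ w ∈ s, updT p (aw w) (pw w) :=
    Finset.sum_nonneg fun w hw => updT_nonneg (hpw0 w hw) (haw0 w hw)
  have hS0 : 0 ≤ ∑ w ∈ s, updS p (aw w) (pw w) := Finset.sum_nonneg fun w _ => updS_nonneg _ _ _
  have hSs : ∑ w ∈ s, updS p (aw w) (pw w) ≤ δ * K := by
    have h1 : ∑ w ∈ s, updS p (aw w) (pw w) ≤ ∑ _w ∈ s, (1 : ℝ) :=
      Finset.sum_le_sum fun w _ => updS_le _ _ _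
    rw [Finset.sum_const, nsmul_eq_mul, mul_one] at h1
    linarith
  have hΘ0 : 0 ≤ Θ := by positivity
  have hΨ0 : 0 ≤ Ψ := by positivity
  have hΘ1 : Θ ≤ 1 := by
    have h1 : ∑ w ∈ s, updT p (aw w) (pw w) ≤ ∑ _w ∈ s, 1 / ε :=
      Finset.sum_le_sum fun w hw =>
        updT_le hε (hpw w hw) ((hpw w hw).trans (hL w hw).pa)
    rw [Finset.sum_const, nsmul_eq_mul] at h1
    have h2 : (s.card : ℝ) * (1 / ε) ≤ δ * K * (1 / ε) :=
      mul_le_mul_of_nonneg_right hs (by positivity)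
    have h3 : Θ ≤ 4 / K * (δ * K * (1 / ε)) := by
      rw [hΘ]
      exact mul_le_mul (div_le_div_of_nonneg_right hk2 hKr.le) (h1.trans h2) hT0 (by positivity)
    have h4 : 4 / (K : ℝ) * (δ * K * (1 / ε)) = 4 * δ / ε := by
      field_simp
    rw [h4] at h3
    refine h3.trans ?_
    rw [div_le_one hε]
    exact hδ
  have hQ0 : ∀ i j, 0 ≤ Q i j := fun i j => mul_nonneg h1k
    (Finset.sum_nonneg fun w hw => mul_nonneg (updZ_nonneg _ _) ((hL w hw).n2 i j))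
  have hε1 : ε ≤ 1 := hp.trans (hS.pa.trans hS.a1)
  have hδ1 : δ ≤ 1 := by linarith
  -- line sums of `Q`
  have hQr : ∀ i, ∑ j, Q i j ≤ (1 + κ) * ∑ w ∈ s, updZ p (pw w) * ((1 - pw w / aw w) / 2 + κ) := by
    intro i
    simp only [hQ]
    rw [← Finset.mul_sum, Finset.sum_comm]
    refine mul_le_mul_of_nonneg_left (Finset.sum_le_sum fun w hw => ?_) h1k
    rw [← Finset.mul_sum]
    exact mul_le_mul_of_nonneg_left ((hL w hw).row2 i) (updZ_nonneg _ _)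
  have hQc : ∀ j, ∑ i, Q i j ≤ (1 + κ) * ∑ w ∈ s, updZ p (pw w) * ((1 - pw w / aw w) / 2 + κ) := by
    intro j
    simp only [hQ]
    rw [← Finset.mul_sum, Finset.sum_comm]
    refine mul_le_mul_of_nonneg_left (Finset.sum_le_sum fun w hw => ?_) h1k
    rw [← Finset.mul_sum]
    exact mul_le_mul_of_nonneg_left ((hL w hw).col2 j) (updZ_nonneg _ _)
  -- the costs
  have hcost : Θ * p + Ψ +
      2 / K * ((1 + κ) * ∑ w ∈ s, updZ p (pw w) * ((1 - pw w / aw w) / 2 + κ)) ≤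
      1 / K * ∑ w ∈ s, (hh (p / pw w) + θ) := by
    have h1 : ∑ w ∈ s, ((1 + κ) ^ 2 * updT p (aw w) (pw w) * p +
        (1 + κ) ^ 2 * updS p (aw w) (pw w) +
        2 * (1 + κ) * updZ p (pw w) * ((1 - pw w / aw w) / 2 + κ)) ≤
        ∑ w ∈ s, (hh (p / pw w) + θ) :=
      Finset.sum_le_sum fun w hw => upd_cost hp0 (hpw0 w hw) (hL w hw).pa hκ0 hκ1 hθ
    have h2 := mul_le_mul_of_nonneg_left h1 (show (0 : ℝ) ≤ 1 / K by positivity)
    refine le_trans (le_of_eq ?_) h2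
    rw [hΘ, hΨ, Finset.sum_add_distrib, Finset.sum_add_distrib]
    have e1 : ∑ w ∈ s, (1 + κ) ^ 2 * updT p (aw w) (pw w) * p =
        (1 + κ) ^ 2 * (∑ w ∈ s, updT p (aw w) (pw w)) * p := by
      rw [← Finset.sum_mul, ← Finset.mul_sum]
    have e2 : ∑ w ∈ s, (1 + κ) ^ 2 * updS p (aw w) (pw w) =
        (1 + κ) ^ 2 * ∑ w ∈ s, updS p (aw w) (pw w) := by
      rw [← Finset.mul_sum]
    have e3 : ∑ w ∈ s, 2 * (1 + κ) * updZ p (pw w) * ((1 - pw w / aw w) / 2 + κ) =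
        2 * ((1 + κ) * ∑ w ∈ s, updZ p (pw w) * ((1 - pw w / aw w) / 2 + κ)) := by
      rw [Finset.mul_sum, Finset.mul_sum]
      exact Finset.sum_congr rfl fun w _ => by ring
    rw [e1, e2, e3]
    ring
  set E : ℝ := (1 + κ) * ∑ w ∈ s, updZ p (pw w) * ((1 - pw w / aw w) / 2 + κ) with hE
  have h1Θ : 0 ≤ 1 - Θ := by linarith
  set a' : ℝ := (1 - Θ) * a - Ψ with ha'
  set R' : Fin K → Fin K → ℝ := fun i j => (1 - Θ) * R i j + Q i j + M i j with hR'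
  -- the line sums of `R'`
  have hline : ∀ x y z : ℝ, x ≤ (a - p) / 2 * K → y ≤ E → z ≤ mm * K →
      (1 - Θ) * x + y + z ≤ (a' - p') / 2 * K := by
    intro x y z hx hy hz
    have h1 : (1 - Θ) * x ≤ (1 - Θ) * ((a - p) / 2 * K) := mul_le_mul_of_nonneg_left hx h1Θ
    have h2 : p' ≤ p - (Θ * p + Ψ + 2 / K * E) - 2 * mm := by linarith
    have h3 : (p' : ℝ) * K ≤ (p - (Θ * p + Ψ + 2 / K * E) - 2 * mm) * K :=
      mul_le_mul_of_nonneg_right h2 hKr.le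
    have h4 : (p - (Θ * p + Ψ + 2 / K * E) - 2 * mm) * K =
        (1 - Θ) * p * K - Ψ * K - 2 * E - 2 * mm * K := by
      field_simp
      ring
    rw [h4] at h3
    have h5 : (a' - p') / 2 * K = ((1 - Θ) * a * K - Ψ * K - p' * K) / 2 := by
      rw [ha']
      ring
    rw [h5]
    nlinarith
  have hmm0 : 0 ≤ mm := by
    have h1 := hMr ⟨0, hK⟩
    have h2 : 0 ≤ ∑ j, M ⟨0, hK⟩ j := Finset.sum_nonneg fun j _ => hM0 _ _
    by_contra h3
    push Not at h3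
    nlinarith
  have hE0 : 0 ≤ E := (Finset.sum_nonneg fun j _ => hQ0 ⟨0, hK⟩ j).trans (hQr ⟨0, hK⟩)
  refine ⟨a', R', ?_, ?_⟩
  · rw [ha']
    nlinarith
  refine ⟨?_, ?_, ?_, ?_, ?_, ?_, ?_, ?_, ?_⟩
  · -- pa
    have h1 := hline 0 0 0 (by have := hS.pa; have h2 : 0 ≤ (a - p) / 2 := by linarith
                               positivity) hE0 (by positivity)
    rw [mul_zero, add_zero, add_zero] at h1
    by_contra h2
    push Not at h2
    nlinarith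
  · -- a1
    have := hS.a1
    rw [ha']
    nlinarith
  · intro i j
    exact add_nonneg (add_nonneg (mul_nonneg h1Θ (hS.R0 i j)) (hQ0 i j)) (hM0 i j)
  · -- Rc
    intro i j
    have h1 : (1 - Θ) * R i j ≤ R i j := by nlinarith [hS.R0 i j]
    have h2 := hS.Rc i j
    have h3 := hM1 i j
    have h4 : Q i j ≤ 4 * δ / ε := by
      have e1 : ∑ w ∈ s, updZ p (pw w) * q2 w i j ≤ ∑ _w ∈ s, 2 / (ε * K) := by
        refine Finset.sum_le_sum fun w hw => ?_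
        have e2 : q2 w i j ≤ (1 + κ) / (pw w * K) := by
          have := (hL w hw).cap i j
          have := (hL w hw).n1 i j
          linarith
        have e3 : (1 + κ) / (pw w * K) ≤ 2 / (ε * K) :=
          div_le_div₀ (by norm_num) (by linarith) (by positivity)
            (mul_le_mul_of_nonneg_right (hpw w hw) hKr.le)
        have e4 := updZ_nonneg p (pw w)
        have e5 := updZ_le p (pw w)
        have e6 := (hL w hw).n2 i j
        nlinarith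
      rw [Finset.sum_const, nsmul_eq_mul] at e1
      have e2 : (s.card : ℝ) * (2 / (ε * K)) ≤ δ * K * (2 / (ε * K)) :=
        mul_le_mul_of_nonneg_right hs (by positivity)
      have e3 : δ * K * (2 / (ε * K)) = 2 * δ / ε := by
        field_simp
      have e4 : Q i j ≤ 2 * (2 * δ / ε) :=
        mul_le_mul (by linarith) (by linarith) (Finset.sum_nonneg fun w hw =>
          mul_nonneg (updZ_nonneg _ _) ((hL w hw).n2 i j)) (by norm_num)
      refine e4.trans_eq ?_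
      ring
    have h5 : (if (i, j) ∈ B then (0 : ℝ) else 1) + (if (i, j) ∈ B ∧ (i, j) ∉ B' then 1 else 0) ≤
        if (i, j) ∈ B' then 0 else 1 := by
      by_cases hb : (i, j) ∈ B
      · by_cases hb' : (i, j) ∈ B'
        · simp [hb, hb']
        · simp [hb, hb']
      · have hb' : (i, j) ∉ B' := fun h => hb (hB h)
        simp [hb, hb']
    show (1 - Θ) * R i j + Q i j + M i j ≤ _
    linarith
  · intro i
    show ∑ j, ((1 - Θ) * R i j + Q i j + M i j) ≤ _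
    rw [Finset.sum_add_distrib, Finset.sum_add_distrib, ← Finset.mul_sum]
    exact hline _ _ _ (hS.row i) (hQr i) (hMr i)
  · intro j
    show ∑ i, ((1 - Θ) * R i j + Q i j + M i j) ≤ _
    rw [Finset.sum_add_distrib, Finset.sum_add_distrib, ← Finset.mul_sum]
    exact hline _ _ _ (hS.col j) (hQc j) (hMc j)
  · -- rectangles
    intro S T
    have h1 := hrct S T
    have hφ : ∀ w ∈ s, ∑ x ∈ S ×ˢ T, q1 w x.1 x.2 ≤
        (1 + κ) * (S.card * T.card) / K + κ * K := by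
      intro w hw
      rw [Finset.sum_product]
      exact (hL w hw).flat S T
    have hsub : rect B S T ⊆ S ×ˢ T := by
      intro x hx
      rw [mem_rect] at hx
      exact Finset.mem_product.2 hx.2
    have h2 := upd_all hK (p := p) hκ0 s aw pw q1 q2 hL hpw0 hsub hφ
    have h3 : ∑ x ∈ S ×ˢ T, (1 + κ) * ∑ w ∈ s, updZ p (pw w) * q2 w x.1 x.2 =
        ∑ i ∈ S, ∑ j ∈ T, Q i j := by
      rw [Finset.sum_product]
    rw [h3, ← hΘ] at h2
    have h4 := hS.rct S T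
    have h5 : ∑ i ∈ S, ∑ j ∈ T, R' i j = (1 - Θ) * ∑ i ∈ S, ∑ j ∈ T, R i j +
        ∑ i ∈ S, ∑ j ∈ T, Q i j + ∑ i ∈ S, ∑ j ∈ T, M i j := by
      simp only [hR', Finset.sum_add_distrib, ← Finset.mul_sum]
    have h6 : (1 + κ) * (∑ w ∈ s, updS p (aw w) (pw w)) *
        ((1 + κ) * (S.card * T.card) / K + κ * K) ≤
        Ψ * (S.card * T.card) + 2 * κ * K ^ 2 := by
      have e1 : (1 + κ) * (∑ w ∈ s, updS p (aw w) (pw w)) *
        ((1 + κ) * (S.card * T.card) / K + κ * K) = Ψ * (S.card * T.card) +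
          (1 + κ) * κ * K * ∑ w ∈ s, updS p (aw w) (pw w) := by
        rw [hΨ]
        field_simp
      rw [e1]
      have e2 : (1 + κ) * κ * K * ∑ w ∈ s, updS p (aw w) (pw w) ≤ (1 + κ) * κ * K * (δ * K) :=
        mul_le_mul_of_nonneg_left hSs (by positivity)
      have e3 : (1 + κ) * κ * K * (δ * K) ≤ 2 * κ * K ^ 2 := by
        have e4 : (1 + κ) * δ ≤ 2 * 1 := mul_le_mul (by linarith) hδ1 hδ0 (by norm_num)
        have e5 : (0 : ℝ) ≤ κ * K ^ 2 := by positivity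
        calc (1 + κ) * κ * K * (δ * K) = (κ * K ^ 2) * ((1 + κ) * δ) := by ring
          _ ≤ (κ * K ^ 2) * (2 * 1) := mul_le_mul_of_nonneg_left e4 e5
          _ = 2 * κ * K ^ 2 := by ring
      linarith
    have h7 := mul_le_mul_of_nonneg_left h4 h1Θ
    rw [h5, ha']
    have h8 : (0 : ℝ) ≤ Θ * (ν * K ^ 2) := by positivity
    linarith
  · -- rows
    intro i
    have h1 := hrow i
    set X : Finset (Fin K × Fin K) := (univ.filter fun j => (i, j) ∈ B).map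
      ⟨fun j => (i, j), fun _ _ h => (Prod.ext_iff.1 h).2⟩ with hX
    set Y : Finset (Fin K × Fin K) := (univ : Finset (Fin K)).map
      ⟨fun j => (i, j), fun _ _ h => (Prod.ext_iff.1 h).2⟩ with hY
    have hφ : ∀ w ∈ s, ∑ x ∈ Y, q1 w x.1 x.2 ≤ 1 := by
      intro w hw
      rw [hY, Finset.sum_map]
      exact (hL w hw).row1 i
    have hsub : X ⊆ Y := Finset.map_subset_map.2 (Finset.subset_univ _)
    have h2 := upd_all hK (p := p) hκ0 s aw pw q1 q2 hL hpw0 hsub hφ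
    simp only [hX, hY, Finset.sum_map, Finset.card_map, Function.Embedding.coeFn_mk] at h2
    rw [← hΘ] at h2
    have h4 := hS.rowB i
    have h5 : ∑ j, R' i j = (1 - Θ) * ∑ j, R i j + ∑ j, Q i j + ∑ j, M i j := by
      simp only [hR', Finset.sum_add_distrib, ← Finset.mul_sum]
    have h6 : (1 + κ) * (∑ w ∈ s, updS p (aw w) (pw w)) * 1 ≤ Ψ * K := by
      have e1 : Ψ * K = (1 + κ) ^ 2 * ∑ w ∈ s, updS p (aw w) (pw w) := by
        rw [hΨ]
        field_simp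
      rw [e1, mul_one]
      exact mul_le_mul_of_nonneg_right (by nlinarith) hS0
    have h7 := mul_le_mul_of_nonneg_left h4 h1Θ
    rw [h5, ha']
    have h8 : (0 : ℝ) ≤ Θ * (ν * K) := by positivity
    have h9 : (0 : ℝ) ≤ κ * K := by positivity
    linarith
  · -- columns
    intro j
    have h1 := hcol j
    set X : Finset (Fin K × Fin K) := (univ.filter fun i => (i, j) ∈ B).map
      ⟨fun i => (i, j), fun _ _ h => (Prod.ext_iff.1 h).1⟩ with hX
    set Y : Finset (Fin K × Fin K) := (univ : Finset (Fin K)).map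
      ⟨fun i => (i, j), fun _ _ h => (Prod.ext_iff.1 h).1⟩ with hY
    have hφ : ∀ w ∈ s, ∑ x ∈ Y, q1 w x.1 x.2 ≤ 1 := by
      intro w hw
      rw [hY, Finset.sum_map]
      exact (hL w hw).col1 j
    have hsub : X ⊆ Y := Finset.map_subset_map.2 (Finset.subset_univ _)
    have h2 := upd_all hK (p := p) hκ0 s aw pw q1 q2 hL hpw0 hsub hφ
    simp only [hX, hY, Finset.sum_map, Finset.card_map, Function.Embedding.coeFn_mk] at h2
    rw [← hΘ] at h2
    have h4 := hS.colB j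
    have h5 : ∑ i, R' i j = (1 - Θ) * ∑ i, R i j + ∑ i, Q i j + ∑ i, M i j := by
      simp only [hR', Finset.sum_add_distrib, ← Finset.mul_sum]
    have h6 : (1 + κ) * (∑ w ∈ s, updS p (aw w) (pw w)) * 1 ≤ Ψ * K := by
      have e1 : Ψ * K = (1 + κ) ^ 2 * ∑ w ∈ s, updS p (aw w) (pw w) := by
        rw [hΨ]
        field_simp
      rw [e1, mul_one]
      exact mul_le_mul_of_nonneg_right (by nlinarith) hS0
    have h7 := mul_le_mul_of_nonneg_left h4 h1Θ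
    rw [h5, ha']
    have h8 : (0 : ℝ) ≤ Θ * (ν * K) := by positivity
    have h9 : (0 : ℝ) ≤ κ * K := by positivity
    linarith

end Pool.Agent.PK
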