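import Pool.Agent.PK.Def2
import Pool.Agent.PK.Upd

/-!
# Packing (PK): preparations for the main loop
-/

set_option autoImplicit false

namespace Pool.Agent.PK

open Finset
open Pool.Agent.H24.LP Pool.Agent.H24.LP.Nib

/-- the state is monotone in the error -/
theorem State.mono {K : ℕ} {B : Finset (Fin K × Fin K)} {a p ν ν' c : ℝ}
    {R : Fin K → Fin K → ℝ} (h : State B a p ν c R) (hν : ν ≤ ν') : State B a p ν' c R := by
  refine ⟨h.pa, h.a1, h.R0, h.Rc, h.row, h.col, ?_, ?_, ?_⟩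
  · intro S T
    have h1 := h.rct S T
    have h2 : ν * (K : ℝ) ^ 2 ≤ ν' * K ^ 2 := mul_le_mul_of_nonneg_right hν (by positivity)
    linarith
  · intro i
    have h1 := h.rowB i
    have h2 : ν * (K : ℝ) ≤ ν' * K := mul_le_mul_of_nonneg_right hν (by positivity)
    linarith
  · intro j
    have h1 := h.colB j
    have h2 : ν * (K : ℝ) ≤ ν' * K := mul_le_mul_of_nonneg_right hν (by positivity)
    linarith

/-- the number of cells of a rectangle -/
theorem card_rect_add {K : ℕ} (B : Finset (Fin K × Fin K)) (S T : Finset (Fin K)) :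
    ((S.card : ℝ) * T.card) = (rect B S T).card +
      ∑ i ∈ S, ∑ j ∈ T, (if (i, j) ∈ B then (0 : ℝ) else 1) := by
  classical
  have h1 : ((rect B S T).card : ℝ) = ∑ i ∈ S, ∑ j ∈ T, (if (i, j) ∈ B then (1 : ℝ) else 0) := by
    rw [← Finset.sum_product' S T fun i j => (if (i, j) ∈ B then (1 : ℝ) else 0), Finset.sum_boole]
    congr 2
    ext x
    rw [mem_rect, Finset.mem_filter, Finset.mem_product]
    tauto
  have h2 : ((S.card : ℝ) * T.card) = ∑ i ∈ S, ∑ _j ∈ T, (1 : ℝ) := by
    simp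
  rw [h1, h2, ← Finset.sum_add_distrib]
  refine Finset.sum_congr rfl fun i _ => ?_
  rw [← Finset.sum_add_distrib]
  refine Finset.sum_congr rfl fun j _ => ?_
  split_ifs <;> norm_num

section Birth

variable {V : Type} [Fintype V] [DecidableEq V] {K : ℕ} (G : SimpleGraph V)
  (σ : V → V → Equiv.Perm (Fin K))

/-- the state of a vertex before the first slot -/
theorem birth (Q : Finset V) (π : V → Equiv.Perm (Fin K)) (v : V) {p ν c : ℝ} (hν : 0 ≤ ν)
    (hc : 0 ≤ c) (hp : 2 * ((nb G Q v).card : ℝ) ≤ (1 - p) * K) (hp1 : p ≤ 1) :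
    State (Al G σ Q π v) 1 p ν c (fun i j => if (i, j) ∈ Al G σ Q π v then 0 else 1) := by
  classical
  have hKr : (0 : ℝ) ≤ K := Nat.cast_nonneg _
  set B := Al G σ Q π v with hB
  have hrow : ∀ i, ∑ j, (if (i, j) ∈ B then (0 : ℝ) else 1) ≤ (1 - p) / 2 * K := by
    intro i
    have h1 := Al_rows G σ Q π v i
    rw [← hB] at h1
    have h2 : (Finset.univ.filter fun c => (i, c) ∈ B).card +
        (Finset.univ.filter fun c => ¬ (i, c) ∈ B).card = K := by
      rw [Finset.card_filter_add_card_filter_not, Finset.card_univ, Fintype.card_fin]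
    have h3 : ∑ j, (if (i, j) ∈ B then (0 : ℝ) else 1) =
        ((Finset.univ.filter fun c => ¬ (i, c) ∈ B).card : ℝ) := by
      rw [← Finset.sum_boole]
      refine Finset.sum_congr rfl fun j _ => ?_
      split_ifs <;> simp_all
    have h4 : (Finset.univ.filter fun c => ¬ (i, c) ∈ B).card ≤ (nb G Q v).card := by omega
    have h5 : ((Finset.univ.filter fun c => ¬ (i, c) ∈ B).card : ℝ) ≤ (nb G Q v).card := by
      exact_mod_cast h4
    rw [h3]
    linarith
  have hcol : ∀ j, ∑ i, (if (i, j) ∈ B then (0 : ℝ) else 1) ≤ (1 - p) / 2 * K := by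
    intro j
    have h1 := Al_cols G σ Q π v j
    rw [← hB] at h1
    have h2 : (Finset.univ.filter fun c => (c, j) ∈ B).card +
        (Finset.univ.filter fun c => ¬ (c, j) ∈ B).card = K := by
      rw [Finset.card_filter_add_card_filter_not, Finset.card_univ, Fintype.card_fin]
    have h3 : ∑ i, (if (i, j) ∈ B then (0 : ℝ) else 1) =
        ((Finset.univ.filter fun c => ¬ (c, j) ∈ B).card : ℝ) := by
      rw [← Finset.sum_boole]
      refine Finset.sum_congr rfl fun i _ => ?_
      split_ifs <;> simp_all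
    have h4 : (Finset.univ.filter fun c => ¬ (c, j) ∈ B).card ≤ (nb G Q v).card := by omega
    have h5 : ((Finset.univ.filter fun c => ¬ (c, j) ∈ B).card : ℝ) ≤ (nb G Q v).card := by
      exact_mod_cast h4
    rw [h3]
    linarith
  refine ⟨hp1, le_refl _, ?_, ?_, hrow, hcol, ?_, ?_, ?_⟩
  · intro i j
    split_ifs <;> norm_num
  · intro i j
    linarith
  · intro S T
    have h1 := card_rect_add B S T
    have h2 : 0 ≤ ν * (K : ℝ) ^ 2 := by positivity
    linarith
  · intro i
    have h1 : ((Finset.univ.filter fun j => (i, j) ∈ B).card : ℝ) =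
        ∑ j, (if (i, j) ∈ B then (1 : ℝ) else 0) := by rw [Finset.sum_boole]
    have h2 : (K : ℝ) = ∑ _j : Fin K, (1 : ℝ) := by simp
    have h3 : 0 ≤ ν * (K : ℝ) := by positivity
    have h4 : ∑ j, (if (i, j) ∈ B then (1 : ℝ) else 0) +
        ∑ j, (if (i, j) ∈ B then (0 : ℝ) else 1) = K := by
      rw [← Finset.sum_add_distrib, h2]
      refine Finset.sum_congr rfl fun j _ => ?_
      split_ifs <;> norm_num
    rw [h1]
    linarith
  · intro j
    have h1 : ((Finset.univ.filter fun i => (i, j) ∈ B).card : ℝ) =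
        ∑ i, (if (i, j) ∈ B then (1 : ℝ) else 0) := by rw [Finset.sum_boole]
    have h2 : (K : ℝ) = ∑ _j : Fin K, (1 : ℝ) := by simp
    have h3 : 0 ≤ ν * (K : ℝ) := by positivity
    have h4 : ∑ i, (if (i, j) ∈ B then (1 : ℝ) else 0) +
        ∑ i, (if (i, j) ∈ B then (0 : ℝ) else 1) = K := by
      rw [← Finset.sum_add_distrib, h2]
      refine Finset.sum_congr rfl fun i _ => ?_
      split_ifs <;> norm_num
    rw [h1]
    linarith

end Birth

/-- the law of a neighbour in the coordinates of the vertex -/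
theorem law_trans {K : ℕ} {B : Finset (Fin K × Fin K)} {a p κ : ℝ} {q1 q2 : Fin K → Fin K → ℝ}
    (h : Law B a p κ q1 q2) (hpa : p ≤ a) (ha : a ≤ 1) (τ : Equiv.Perm (Fin K)) :
    NLaw a p κ (fun i j => q1 i (τ j)) (fun i j => q2 i (τ j)) := by
  classical
  refine ⟨hpa, ha, fun i j => h.n1 _ _, fun i j => h.n2 _ _, ?_, ?_, fun i j => h.cap1 _ _,
    fun i j => h.cap _ _, ?_, ?_, ?_⟩
  · intro i
    rw [Equiv.sum_comp τ (fun j => q1 i j), ← h.row i, Finset.sum_add_distrib]
    have := Finset.sum_nonneg fun j (_ : j ∈ (Finset.univ : Finset (Fin K))) => h.n2 i j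
    linarith
  · intro j
    rw [← h.col (τ j), Finset.sum_add_distrib]
    have := Finset.sum_nonneg fun i (_ : i ∈ (Finset.univ : Finset (Fin K))) => h.n2 i (τ j)
    linarith
  · intro i
    rw [Equiv.sum_comp τ (fun j => q2 i j)]
    exact h.row2 i
  · intro j
    exact h.col2 (τ j)
  · intro S T
    have h1 := h.flat S (T.map τ.toEmbedding)
    rw [Finset.card_map] at h1
    simpa [Finset.sum_map] using h1

/-- The expected hits in the coordinates of `v`. -/
theorem Slt.exh_eq {V : Type} [Fintype V] [DecidableEq V] {K n : ℕ} {ε δ D κ ν C : ℝ}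
    (Ω : Slt V K n ε δ D κ ν C) (v : V) (A : Finset (Fin K × Fin K)) :
    Ω.exh v A = ∑ w ∈ nb Ω.G Ω.W v, ∑ x ∈ A,
      (Ω.q1 w x.1 ((Ω.σ w v)⁻¹ x.2) + Ω.q2 w x.1 ((Ω.σ w v)⁻¹ x.2)) := by
  classical
  unfold Slt.exh
  refine Finset.sum_congr rfl fun w _ => ?_
  unfold mass Slt.qq
  refine Finset.sum_nbij' (fun y => (y.1, Ω.σ w v y.2)) (fun x => (x.1, (Ω.σ w v)⁻¹ x.2))
    ?_ ?_ ?_ ?_ ?_
  · intro y hy
    unfold Slt.AA at hy
    rw [Finset.mem_filter] at hy
    exact hy.2
  · intro x hx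
    unfold Slt.AA
    rw [Finset.mem_filter]
    refine ⟨Finset.mem_univ _, ?_⟩
    simpa using hx
  · intro y _
    simp
  · intro x _
    simp
  · intro y _
    simp

/-- The errors of the slots, chosen backwards. -/
theorem bwd (f : ℝ → ℝ) (hf : ∀ x, 0 < x → 0 < f x) {κm : ℝ} (hκm : 0 < κm) (J : ℕ) :
    ∀ β : ℝ, 0 < β → ∃ ν κ : ℕ → ℝ, (∀ s, 0 < ν s) ∧ (∀ s, 0 < κ s ∧ κ s ≤ κm) ∧ ν J ≤ β ∧
      ∀ s < J, ν s ≤ f (κ s) ∧ ν s + 3 * κ s ≤ ν (s + 1) := by
  induction J with
  | zero =>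
    intro β hβ
    exact ⟨fun _ => β, fun _ => κm, fun _ => hβ, fun _ => ⟨hκm, le_refl _⟩, le_refl _,
      fun s hs => absurd hs (Nat.not_lt_zero _)⟩
  | succ J ih =>
    intro β hβ
    set κ0 : ℝ := min κm (β / 6) with hκ0
    have hκ0p : 0 < κ0 := lt_min hκm (by positivity)
    have hβ' : 0 < min (f κ0) (β / 2) := lt_min (hf _ hκ0p) (by positivity)
    obtain ⟨ν, κ, h1, h2, h3, h4⟩ := ih _ hβ'
    refine ⟨fun s => if s ≤ J then ν s else β, fun s => if s < J then κ s else κ0, ?_, ?_, ?_, ?_⟩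
    · intro s
      dsimp only
      split_ifs
      · exact h1 s
      · exact hβ
    · intro s
      dsimp only
      split_ifs
      · exact h2 s
      · exact ⟨hκ0p, min_le_left _ _⟩
    · dsimp only
      rw [if_neg (by omega)]
    · intro s hs
      dsimp only
      rcases Nat.lt_succ_iff_lt_or_eq.1 hs with h | h
      · rw [if_pos h.le, if_pos h, if_pos (by omega : s + 1 ≤ J)]
        exact h4 s h
      · subst h
        rw [if_pos (le_refl _), if_neg (lt_irrefl _), if_neg (by omega : ¬ s + 1 ≤ s)]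
        have e1 : ν s ≤ f κ0 := h3.trans (min_le_left _ _)
        have e2 : ν s ≤ β / 2 := h3.trans (min_le_right _ _)
        have e3 : κ0 ≤ β / 6 := min_le_right _ _
        exact ⟨e1, by linarith⟩

end Pool.Agent.PK
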