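import Pool.Agent.PK.Ext
import Pool.Agent.H10.PK.OrdDefs
import Pool.Agent.H24.LP.Mad

/-!
# Packing (PK): reduction to the slot step and to the order
-/

set_option autoImplicit false

namespace Pool.Agent.PK

open Finset
open Pool.Agent.H24.LP Pool.Agent.H24.LP.Nib

/-- Packing of the graphs of maximum average degree less than `(1 - ε) K`. -/
theorem packable_of (hslot : SlotStepEx) (hord : OrdS) {ε : ℝ} (hε : 0 < ε) :
    ∃ K0 : ℕ, ∀ K ≥ K0, ∀ (V : Type) (_ : Finite V) (G : SimpleGraph V),
      MadLT G ((1 - ε) * K) → PermPackable G K := by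
  classical
  obtain ⟨e, he0, he1, he2⟩ : ∃ e : ℝ, 0 < e ∧ e < 1 ∧ e ≤ ε :=
    ⟨min ε (1 / 2), by positivity, lt_of_le_of_lt (min_le_right _ _) (by norm_num),
      min_le_left _ _⟩
  obtain ⟨C0, hC0, h1⟩ := hord e he0 he1
  have hC0p : 0 < C0 := by linarith
  obtain ⟨c, B, hc, hB, h2⟩ := h1 (e / (32 * C0)) (by positivity) (le_refl _)
  obtain ⟨δ1, hδ1, h3⟩ := hslot (e / 4) C0 (16 * B / e) (c / 2) (by positivity) (by linarith)
    hC0p (by positivity) (by positivity)
  set δ : ℝ := min δ1 (min 1 (e / 16)) with hδ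
  have hδ0 : 0 < δ := lt_min hδ1 (lt_min one_pos (by positivity))
  have hδa : δ ≤ δ1 := min_le_left _ _
  have hδb : δ ≤ 1 := (min_le_right _ _).trans (min_le_left _ _)
  have hδc : δ ≤ e / 16 := (min_le_right _ _).trans (min_le_right _ _)
  obtain ⟨J, Ka, hJ, h4⟩ := h2 δ hδ0 hδb
  obtain ⟨κ0, hκ0, h5⟩ := h3 δ hδ0 hδa
  obtain ⟨Kb, h6⟩ := ext (ε := e / 4) (D := C0) (C := 16 * B / e) (ρ := c / 2) (δ := δ)
    (θ := e / (32 * C0)) (κ' := c * δ) (κ0 := κ0) (J := J) (by positivity) hδ0 (by linarith)
    (by positivity) hκ0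
    (by
      have e1 : (J : ℝ) * (4 * δ / (e / 4)) = 16 / e * (J * δ) := by
        field_simp
        ring
      rw [e1]
      have e2 : 16 * B / e = 16 / e * B := by ring
      rw [e2]
      exact mul_le_mul_of_nonneg_left hJ (by positivity))
    (by linarith) h5
  refine ⟨max 1 (max Ka Kb), ?_⟩
  intro K hK V _ G h
  have hK1 : 1 ≤ K := (le_max_left _ _).trans hK
  have hKa : Ka ≤ K := ((le_max_left _ _).trans (le_max_right _ _)).trans hK
  have hKb : Kb ≤ K := ((le_max_right _ _).trans (le_max_right _ _)).trans hK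
  have hKr : (0 : ℝ) < K := by exact_mod_cast hK1
  cases nonempty_fintype V
  intro σ hσ
  have key : ∀ n : ℕ, ∀ S : Finset V, S.card = n → ∃ π, ValidK G σ S π := by
    intro n
    induction n using Nat.strong_induction_on with
    | _ n ih =>
      intro S hSn
      rcases S.eq_empty_or_nonempty with rfl | hS
      · exact ⟨fun _ => 1, fun u hu => absurd hu (Finset.notMem_empty u)⟩
      have h7 := sum_nb_lt h S hS
      have h8 : ∑ v ∈ S, ((nb G S v).card : ℝ) ≤ (1 - e) * K * S.card := by
        have e1 : (1 - ε) * K * S.card ≤ (1 - e) * K * S.card := by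
          apply mul_le_mul_of_nonneg_right _ (Nat.cast_nonneg _)
          apply mul_le_mul_of_nonneg_right _ hKr.le
          linarith
        push_cast at h7
        linarith
      obtain ⟨W, R, t, p, hWR, hdis, hR, hdeg, hO⟩ := h4 K hKa V G S hS h8
      have hlt : W.card < n := by
        rw [← hSn, ← hWR, Finset.card_union_of_disjoint hdis]
        have := hR.card_pos
        omega
      obtain ⟨π, hπ⟩ := ih W.card hlt W rfl
      obtain ⟨π', -, hπ'⟩ := h6 K hKb V G σ hσ W R hdis π hπ t (fun s v => p v s) hO.lt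
        (by
          intro v hv
          rw [hO.ini v hv]
          have e1 : (1 - (1 - 2 * ((nb G W v).card : ℝ) / K)) * K = 2 * (nb G W v).card := by
            field_simp
            ring
          rw [e1])
        (fun v hv => hO.le v hv 0 (Nat.zero_le _))
        (fun v hv s hs => hO.step v hv s hs)
        (fun v hv s hs => hO.ge v hv s hs)
        (fun v hv s => hO.few v hv s)
        (by
          intro v hv
          refine le_trans ?_ (hdeg v hv)
          have e1 : nb G R v ⊆ nb G S v := by
            intro x hx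
            rw [mem_nb] at hx ⊢
            exact ⟨hWR ▸ Finset.mem_union_right _ hx.1, hx.2⟩
          exact_mod_cast Finset.card_le_card e1)
      rw [hWR] at hπ'
      exact ⟨π', hπ'⟩
  obtain ⟨π, hπ⟩ := key _ Finset.univ rfl
  exact ⟨π, fun u v huv => hπ u (Finset.mem_univ _) v (Finset.mem_univ _) huv⟩

end Pool.Agent.PK
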