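import Pool.Agent.PK.Defs

/-!
# Packing (PK): the repair of one vertex (Hall's theorem in the random grid)
-/

set_option autoImplicit false

namespace Pool.Agent.PK

open Finset
open Pool.Agent.H24.LP Pool.Agent.H24.LP.Nib

/-- the smaller side of a hole is small -/
lemma rep_numA {K a p ν ε ζ δ t C e s b r x : ℝ} (hK : 0 < K) (hε : 0 < ε) (hp : ε ≤ p)
    (hpa : p ≤ a) (ha1 : a ≤ 1) (hζ : 0 < ζ) (ht : 0 ≤ t)
    (n1 : 2 * t + (C + 1) * e + δ ≤ ζ * ε / 4)
    (hs : 0 ≤ s) (hsb : s ≤ b) (hb : ζ * K - t * K ≤ s + b)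
    (h1 : a * (s * b) - r - ν * K ^ 2 ≤ x) (hx : x ≤ s * (δ * K))
    (hr : r ≤ s * (ζ * ((a - p) / 2 * K) + t * K + (C + 1) * (e * K))) :
    s ≤ 4 * ν / (ζ * ε) * K := by
  have ha : 0 ≤ a := by linarith
  have hb2 : (ζ * K - t * K) / 2 ≤ b := by linarith
  have h2 : a * s * ((ζ * K - t * K) / 2) ≤ a * s * b :=
    mul_le_mul_of_nonneg_left hb2 (mul_nonneg ha hs)
  have h3 : s * K * (ζ * ε / 4) ≤ ν * K ^ 2 := by
    have h4 : s * K * (ζ * ε / 4) ≤
        s * K * (ζ * p / 2 - a * t / 2 - t - (C + 1) * e - δ) := by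
      apply mul_le_mul_of_nonneg_left _ (mul_nonneg hs hK.le)
      have h5 : ζ * ε ≤ ζ * p := mul_le_mul_of_nonneg_left hp hζ.le
      have h6 : a * t ≤ 1 * t := mul_le_mul_of_nonneg_right ha1 ht
      linarith
    have h7 : s * K * (ζ * p / 2 - a * t / 2 - t - (C + 1) * e - δ) =
        a * s * ((ζ * K - t * K) / 2) -
          s * (ζ * ((a - p) / 2 * K) + t * K + (C + 1) * (e * K)) - s * (δ * K) := by ring
    nlinarith
  have hζε : 0 < ζ * ε := mul_pos hζ hε
  rw [div_mul_eq_mul_div, le_div_iff₀ hζε]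
  have h8 : (s * (ζ * ε)) * K ≤ (4 * ν * K) * K := by nlinarith
  exact le_of_mul_le_mul_right h8 hK

/-- every line has many allowed cells in the grid -/
lemma rep_numB {K a p ν ε ζ δ t rb rs x : ℝ} (hK : 0 < K) (hp : ε ≤ p)
    (hpa : p ≤ a) (hζ : 0 < ζ)
    (n2 : δ + 4 * ν / (ζ * ε) < ζ * ε / 2) (n3 : t + ζ * ν ≤ ζ * ε / 2)
    (hrs : rs ≤ (a - p) / 2 * K) (hrb : a * K - rs - ν * K ≤ rb)
    (hx : ζ * rb - t * K ≤ x + δ * K) : 4 * ν / (ζ * ε) * K < x := by
  have h1 : (ε - ν) * K ≤ rb := by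
    have : ε * K ≤ (a + p) / 2 * K := mul_le_mul_of_nonneg_right (by linarith) hK.le
    nlinarith
  have h2 : ζ * ((ε - ν) * K) ≤ ζ * rb := mul_le_mul_of_nonneg_left h1 hζ.le
  have h3 : (δ + 4 * ν / (ζ * ε) + (t + ζ * ν)) * K < (ζ * ε / 2 + ζ * ε / 2) * K :=
    mul_lt_mul_of_pos_right (by linarith) hK
  nlinarith

/-- the sum of `R` over a part of a line -/
lemma rep_sum {K : ℕ} {g : Fin K → ℝ} (h0 : ∀ k, 0 ≤ g k) {C e : ℝ} (hg : ∀ k, g k ≤ C + 1)
    (hC : 0 ≤ C) {Z Z0 S : Finset (Fin K)} (hZ : Z0 ⊆ Z) (hS : S ⊆ Z)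
    (hZc : ((Z \ Z0).card : ℝ) ≤ e * K) : ∑ k ∈ S, g k ≤ ∑ k ∈ Z0, g k + (C + 1) * (e * K) := by
  classical
  have h1 : ∑ k ∈ S, g k ≤ ∑ k ∈ Z, g k :=
    Finset.sum_le_sum_of_subset_of_nonneg hS fun k _ _ => h0 k
  have h2 : ∑ k ∈ Z \ Z0, g k + ∑ k ∈ Z0, g k = ∑ k ∈ Z, g k := Finset.sum_sdiff hZ
  have h3 : ∑ k ∈ Z \ Z0, g k ≤ ((Z \ Z0).card : ℝ) * (C + 1) := by
    have := Finset.sum_le_card_nsmul (Z \ Z0) g (C + 1) fun k _ => hg k
    rwa [nsmul_eq_mul] at this
  have h4 : ((Z \ Z0).card : ℝ) * (C + 1) ≤ e * K * (C + 1) :=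
    mul_le_mul_of_nonneg_right hZc (by linarith)
  nlinarith

/-- Hall's theorem for a permutation, with prescribed values outside `Z` -/
lemma rep_hall {K : ℕ} (F : Equiv.Perm (Fin K)) (Z : Finset (Fin K))
    (N : Fin K → Finset (Fin K)) (hN : ∀ i, N i ⊆ Z.image F)
    (h : ∀ S ⊆ Z, S.card ≤ (S.biUnion N).card) :
    ∃ τ : Equiv.Perm (Fin K), (∀ i, i ∉ Z → τ i = F i) ∧ ∀ i ∈ Z, τ i ∈ N i := by
  classical
  have hall : ∀ S : Finset (Fin K),
      S.card ≤ (S.biUnion fun i => if i ∈ Z then N i else {F i}).card := by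
    intro S
    have h1 : (S.filter fun i => i ∈ Z).card + (S.filter fun i => ¬ i ∈ Z).card = S.card :=
      Finset.card_filter_add_card_filter_not _
    have h2 : (((S.filter fun i => i ∈ Z).biUnion N) ∪
        ((S.filter fun i => ¬ i ∈ Z).image F)) ⊆
        (S.biUnion fun i => if i ∈ Z then N i else {F i}) := by
      intro j hj
      rcases Finset.mem_union.1 hj with hj | hj
      · obtain ⟨i, hi, hij⟩ := Finset.mem_biUnion.1 hj
        obtain ⟨hi1, hi2⟩ := Finset.mem_filter.1 hi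
        exact Finset.mem_biUnion.2 ⟨i, hi1, by rw [if_pos hi2]; exact hij⟩
      · obtain ⟨i, hi, rfl⟩ := Finset.mem_image.1 hj
        obtain ⟨hi1, hi2⟩ := Finset.mem_filter.1 hi
        exact Finset.mem_biUnion.2 ⟨i, hi1, by rw [if_neg hi2]; exact Finset.mem_singleton_self _⟩
    have h3 : Disjoint ((S.filter fun i => i ∈ Z).biUnion N)
        ((S.filter fun i => ¬ i ∈ Z).image F) := by
      rw [Finset.disjoint_left]
      intro j hj1 hj2
      obtain ⟨i, _, hij⟩ := Finset.mem_biUnion.1 hj1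
      obtain ⟨k, hk, hkj⟩ := Finset.mem_image.1 (hN i hij)
      obtain ⟨l, hl, hlj⟩ := Finset.mem_image.1 hj2
      have : k = l := F.injective (hkj.trans hlj.symm)
      subst this
      exact (Finset.mem_filter.1 hl).2 hk
    have h4 := Finset.card_le_card h2
    rw [Finset.card_union_of_disjoint h3, Finset.card_image_of_injective _ F.injective] at h4
    have h5 := h (S.filter fun i => i ∈ Z) fun i hi => (Finset.mem_filter.1 hi).2
    omega
  obtain ⟨f, hf, hfN⟩ := (Finset.all_card_le_biUnion_card_iff_exists_injective _).1 hall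
  refine ⟨Equiv.ofBijective f (Finite.injective_iff_bijective.mp hf), ?_, ?_⟩
  · intro i hi
    have h1 := hfN i
    rw [if_neg hi] at h1
    exact Finset.mem_singleton.1 h1
  · intro i hi
    have h1 := hfN i
    rw [if_pos hi] at h1
    exact h1

theorem rep_one {K : ℕ} (hK : 0 < K) {B : Finset (Fin K × Fin K)} {a p ν c : ℝ}
    {R : Fin K → Fin K → ℝ} (hS : State B a p ν c R) {ε ζ δ t C e : ℝ} (hε : 0 < ε) (hp : ε ≤ p)
    (hc : c ≤ C) (hζ : 0 < ζ) (hζ1 : ζ ≤ 1) (hδ : 0 ≤ δ) (ht : 0 ≤ t) (hC : 0 ≤ C) (he : 0 ≤ e)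
    (hν : 0 < ν)
    (n1 : 2 * t + (C + 1) * e + δ ≤ ζ * ε / 4) (n2 : δ + 4 * ν / (ζ * ε) < ζ * ε / 2)
    (n3 : t + ζ * ν ≤ ζ * ε / 2)
    (F : Equiv.Perm (Fin K)) (Z Z0 : Finset (Fin K)) (hZ : Z0 ⊆ Z)
    (hZc : ((Z \ Z0).card : ℝ) ≤ e * K)
    (h5r : ∀ i, ζ * ((Finset.univ.filter fun j => (i, j) ∈ B).card : ℝ) - t * K ≤
      (Z0.filter fun k => (i, F k) ∈ B).card)
    (h5c : ∀ j, ζ * ((Finset.univ.filter fun i => (i, j) ∈ B).card : ℝ) - t * K ≤
      (Z0.filter fun k => (k, j) ∈ B).card)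
    (h6r : ∀ i, ∑ k ∈ Z0, R i (F k) ≤ ζ * ∑ j, R i j + t * K)
    (h6c : ∀ j, ∑ k ∈ Z0, R k j ≤ ζ * ∑ i, R i j + t * K)
    (h7 : ζ * K - t * K ≤ (Z0.card : ℝ))
    (Fb : Finset (Fin K × Fin K))
    (hFr : ∀ i, ((Finset.univ.filter fun j => (i, j) ∈ Fb).card : ℝ) ≤ δ * K)
    (hFc : ∀ j, ((Finset.univ.filter fun i => (i, j) ∈ Fb).card : ℝ) ≤ δ * K) :
    ∃ τ : Equiv.Perm (Fin K), (∀ i, i ∉ Z → τ i = F i) ∧ ∀ i ∈ Z, (i, τ i) ∈ B ∧ (i, τ i) ∉ Fb := by
  classical
  have hK' : (0 : ℝ) < K := by exact_mod_cast hK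
  obtain ⟨hpa, ha1, R0, Rc, hrow, hcol, hrct, hrowB, hcolB⟩ := hS
  have hRC : ∀ i j, R i j ≤ C + 1 := by
    intro i j
    refine (Rc i j).trans ?_
    split_ifs <;> linarith
  set N : Fin K → Finset (Fin K) :=
    fun i => (Z.image F).filter fun j => (i, j) ∈ B ∧ (i, j) ∉ Fb with hN
  have hmN : ∀ i j, j ∈ N i ↔ j ∈ Z.image F ∧ (i, j) ∈ B ∧ (i, j) ∉ Fb := by
    intro i j; rw [hN, Finset.mem_filter]
  have hall : ∀ S ⊆ Z, S.card ≤ (S.biUnion N).card := by
    intro S hSZ
    by_contra hlt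
    push Not at hlt
    set NS := S.biUnion N with hNS
    have hNSsub : NS ⊆ Z.image F := by
      intro j hj
      obtain ⟨i, _, hij⟩ := Finset.mem_biUnion.1 hj
      exact ((hmN i j).1 hij).1
    set T := Z.image F \ NS with hT
    have hTc : T.card + NS.card = Z.card := by
      have h1 := Finset.card_sdiff_add_card_eq_card hNSsub
      rwa [Finset.card_image_of_injective _ F.injective] at h1
    have hTsub : T ⊆ Z.image F := Finset.sdiff_subset
    have hno : ∀ i ∈ S, ∀ j ∈ T, (i, j) ∈ B → (i, j) ∈ Fb := by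
      intro i hi j hj hB
      by_contra hFb
      obtain ⟨h1, h2⟩ := Finset.mem_sdiff.1 hj
      exact h2 (Finset.mem_biUnion.2 ⟨i, hi, (hmN i j).2 ⟨h1, hB, hFb⟩⟩)
    have hZ0c : (Z0.card : ℝ) ≤ Z.card := by exact_mod_cast Finset.card_le_card hZ
    have hST : ζ * K - t * K ≤ (S.card : ℝ) + T.card := by
      have h1 : (Z.card : ℝ) = T.card + NS.card := by exact_mod_cast hTc.symm
      have h2 : (NS.card : ℝ) ≤ S.card := by exact_mod_cast hlt.le
      linarith
    have hrct' := hrct S T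
    rcases le_or_gt S.card T.card with hle | hgt
    · -- rows
      have hx : ((rect B S T).card : ℝ) ≤ (S.card : ℝ) * (δ * K) := by
        have h1 : (rect B S T).card ≤
            ∑ i ∈ S, (Finset.univ.filter fun j => (i, j) ∈ Fb).card := by
          rw [← Finset.card_sigma]
          apply Finset.card_le_card_of_injOn (fun x => (⟨x.1, x.2⟩ : Σ _ : Fin K, Fin K))
          · intro x hx
            obtain ⟨h1, h2, h3⟩ := mem_rect.1 hx
            exact Finset.mem_sigma.2 ⟨h2, Finset.mem_filter.2 ⟨Finset.mem_univ _,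
              hno _ h2 _ h3 h1⟩⟩
          · rintro ⟨x1, x2⟩ _ ⟨y1, y2⟩ _ hxy
            simp only [Sigma.mk.injEq] at hxy
            exact Prod.ext hxy.1 (eq_of_heq hxy.2)
        have h2 : ((∑ i ∈ S, (Finset.univ.filter fun j => (i, j) ∈ Fb).card : ℕ) : ℝ) ≤
            ∑ i ∈ S, (δ * K) := by
          push_cast
          exact Finset.sum_le_sum fun i _ => hFr i
        rw [Finset.sum_const, nsmul_eq_mul] at h2
        exact le_trans (by exact_mod_cast h1) h2
      have hr : ∑ i ∈ S, ∑ j ∈ T, R i j ≤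
          (S.card : ℝ) * (ζ * ((a - p) / 2 * K) + t * K + (C + 1) * (e * K)) := by
        rw [← nsmul_eq_mul]
        apply Finset.sum_le_card_nsmul
        intro i _
        have h1 : ∑ j ∈ T, R i j = ∑ k ∈ T.image F.symm, R i (F k) := by
          rw [Finset.sum_image fun x _ y _ h => F.symm.injective h]
          exact Finset.sum_congr rfl fun j _ => by rw [Equiv.apply_symm_apply]
        have h2 : T.image F.symm ⊆ Z := by
          intro k hk
          obtain ⟨j, hj, rfl⟩ := Finset.mem_image.1 hk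
          obtain ⟨l, hl, hlj⟩ := Finset.mem_image.1 (hTsub hj)
          rw [← hlj, Equiv.symm_apply_apply]
          exact hl
        have h3 := rep_sum (g := fun k => R i (F k)) (fun k => R0 _ _) (fun k => hRC _ _) hC hZ h2
          hZc
        have h4 := h6r i
        have h5 : ζ * ∑ j, R i j ≤ ζ * ((a - p) / 2 * K) :=
          mul_le_mul_of_nonneg_left (hrow i) hζ.le
        rw [h1]
        linarith
      have hsmall : (S.card : ℝ) ≤ 4 * ν / (ζ * ε) * K :=
        rep_numA hK' hε hp hpa ha1 hζ ht n1 (Nat.cast_nonneg _) (by exact_mod_cast hle) hST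
          hrct' hx hr
      obtain ⟨i, hi⟩ : S.Nonempty := by
        rw [← Finset.card_pos]
        omega
      -- allowed partners of `i` are in `NS`
      have hcount : ζ * ((Finset.univ.filter fun j => (i, j) ∈ B).card : ℝ) - t * K ≤
          (NS.card : ℝ) + δ * K := by
        have h1 : (Z0.filter fun k => (i, F k) ∈ B).image F ⊆
            NS ∪ Finset.univ.filter fun j => (i, j) ∈ Fb := by
          intro j hj
          obtain ⟨k, hk, rfl⟩ := Finset.mem_image.1 hj
          obtain ⟨hk1, hk2⟩ := Finset.mem_filter.1 hk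
          by_cases hF : (i, F k) ∈ Fb
          · exact Finset.mem_union_right _ (Finset.mem_filter.2 ⟨Finset.mem_univ _, hF⟩)
          · exact Finset.mem_union_left _ (Finset.mem_biUnion.2 ⟨i, hi,
              (hmN _ _).2 ⟨Finset.mem_image_of_mem _ (hZ hk1), hk2, hF⟩⟩)
        have h2 := (Finset.card_le_card h1).trans (Finset.card_union_le _ _)
        rw [Finset.card_image_of_injective _ F.injective] at h2
        have h3 : ((Z0.filter fun k => (i, F k) ∈ B).card : ℝ) ≤
            (NS.card : ℝ) + ((Finset.univ.filter fun j => (i, j) ∈ Fb).card : ℝ) := by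
          exact_mod_cast h2
        have h4 := h5r i
        have h5 := hFr i
        linarith
      have h6 := rep_numB hK' hp hpa hζ n2 n3 (hrow i) (hrowB i) hcount
      have h7 : (NS.card : ℝ) ≤ S.card := by exact_mod_cast hlt.le
      linarith
    · -- columns
      have hx : ((rect B S T).card : ℝ) ≤ (T.card : ℝ) * (δ * K) := by
        have h1 : (rect B S T).card ≤
            ∑ j ∈ T, (Finset.univ.filter fun i => (i, j) ∈ Fb).card := by
          rw [← Finset.card_sigma]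
          apply Finset.card_le_card_of_injOn (fun x => (⟨x.2, x.1⟩ : Σ _ : Fin K, Fin K))
          · intro x hx
            obtain ⟨h1, h2, h3⟩ := mem_rect.1 hx
            exact Finset.mem_sigma.2 ⟨h3, Finset.mem_filter.2 ⟨Finset.mem_univ _,
              hno _ h2 _ h3 h1⟩⟩
          · rintro ⟨x1, x2⟩ _ ⟨y1, y2⟩ _ hxy
            simp only [Sigma.mk.injEq] at hxy
            exact Prod.ext (eq_of_heq hxy.2) hxy.1
        have h2 : ((∑ j ∈ T, (Finset.univ.filter fun i => (i, j) ∈ Fb).card : ℕ) : ℝ) ≤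
            ∑ j ∈ T, (δ * K) := by
          push_cast
          exact Finset.sum_le_sum fun j _ => hFc j
        rw [Finset.sum_const, nsmul_eq_mul] at h2
        exact le_trans (by exact_mod_cast h1) h2
      have hr : ∑ i ∈ S, ∑ j ∈ T, R i j ≤
          (T.card : ℝ) * (ζ * ((a - p) / 2 * K) + t * K + (C + 1) * (e * K)) := by
        rw [Finset.sum_comm, ← nsmul_eq_mul]
        apply Finset.sum_le_card_nsmul
        intro j _
        have h3 := rep_sum (g := fun k => R k j) (fun k => R0 _ _) (fun k => hRC _ _) hC hZ hSZ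
          hZc
        have h4 := h6c j
        have h5 : ζ * ∑ i, R i j ≤ ζ * ((a - p) / 2 * K) :=
          mul_le_mul_of_nonneg_left (hcol j) hζ.le
        linarith
      have hrct2 : a * ((T.card : ℝ) * S.card) - ∑ i ∈ S, ∑ j ∈ T, R i j - ν * K ^ 2 ≤
          (rect B S T).card := by
        rw [mul_comm (T.card : ℝ)]; exact hrct'
      have hsmall : (T.card : ℝ) ≤ 4 * ν / (ζ * ε) * K :=
        rep_numA hK' hε hp hpa ha1 hζ ht n1 (Nat.cast_nonneg _) (by exact_mod_cast hgt.le)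
          (by linarith) hrct2 hx hr
      obtain ⟨j, hj⟩ : T.Nonempty := by
        rw [← Finset.card_pos]
        have := Finset.card_le_card hSZ
        omega
      have hZS : (Z \ S).card + S.card = Z.card := Finset.card_sdiff_add_card_eq_card hSZ
      have hcount : ζ * ((Finset.univ.filter fun i => (i, j) ∈ B).card : ℝ) - t * K ≤
          ((Z \ S).card : ℝ) + δ * K := by
        have h1 : (Z0.filter fun k => (k, j) ∈ B) ⊆
            (Z \ S) ∪ Finset.univ.filter fun i => (i, j) ∈ Fb := by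
          intro k hk
          obtain ⟨hk1, hk2⟩ := Finset.mem_filter.1 hk
          by_cases hkS : k ∈ S
          · exact Finset.mem_union_right _ (Finset.mem_filter.2 ⟨Finset.mem_univ _,
              hno k hkS j hj hk2⟩)
          · exact Finset.mem_union_left _ (Finset.mem_sdiff.2 ⟨hZ hk1, hkS⟩)
        have h2 := (Finset.card_le_card h1).trans (Finset.card_union_le _ _)
        have h3 : ((Z0.filter fun k => (k, j) ∈ B).card : ℝ) ≤
            ((Z \ S).card : ℝ) + ((Finset.univ.filter fun i => (i, j) ∈ Fb).card : ℝ) := by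
          exact_mod_cast h2
        have h4 := h5c j
        have h5 := hFc j
        linarith
      have h6 := rep_numB hK' hp hpa hζ n2 n3 (hcol j) (hcolB j) hcount
      have h7 : ((Z \ S).card : ℝ) ≤ T.card := by
        have : (Z \ S).card ≤ T.card := by omega
        exact_mod_cast this
      linarith
  obtain ⟨τ, h1, h2⟩ := rep_hall F Z N (fun i j hj => ((hmN i j).1 hj).1) hall
  exact ⟨τ, h1, fun i hi => ((hmN _ _).1 (h2 i hi)).2⟩

end Pool.Agent.PK
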