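import Pool.Agent.PK.Def2
import Pool.Agent.PK.RepOne

/-!
# Packing (PK): the repair of a slot
-/

set_option autoImplicit false

namespace Pool.Agent.PK

open Finset
open Pool.Agent.H24.LP Pool.Agent.H24.LP.Nib

/-- one vertex of the slot -/
private theorem rep_step {V : Type} [Fintype V] [DecidableEq V] {K n m : ℕ}
    {ε δ D κ ν C t : ℝ}
    (hK : 0 < K) (hm : 0 < m) (hε : 0 < ε) (hδ : 0 ≤ δ) (hκ : 0 ≤ κ) (hν : 0 < ν) (hC : 0 ≤ C)
    (ht : 0 ≤ t) (n1 : 2 * t + (C + 1) * (κ + 8 * δ / ε) + δ ≤ ε / (4 * m))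
    (n2 : δ + 4 * ν * m / ε < ε / (2 * m)) (n3 : t + ν / m ≤ ε / (2 * m))
    (Ω : Slt V K n ε δ D κ ν C) (x : V → Out K n m) (hx : Ω.Gd t x) (w : V) (hw : w ∈ Ω.W)
    (τ : V → Equiv.Perm (Fin K)) :
    ∃ p : Equiv.Perm (Fin K), (∀ i, i ∉ Ω.Zx x w → p i = Ω.Fx x w i) ∧
      ∀ i ∈ Ω.Zx x w, (i, p i) ∈ Ω.Bv w ∧ ∀ u ∈ nb Ω.G Ω.W w, Ω.σ u w (τ u i) ≠ p i := by
  classical
  obtain ⟨g4, g5, g6, g7⟩ := hx.2 w hw
  have hmr : (0 : ℝ) < m := by exact_mod_cast hm
  have hnb : ((nb Ω.G Ω.W w).card : ℝ) ≤ δ * K := Ω.hdeg w (Finset.mem_union_left _ hw)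
  set Fb : Finset (Fin K × Fin K) :=
    Finset.univ.filter fun y => ∃ u ∈ nb Ω.G Ω.W w, Ω.σ u w (τ u y.1) = y.2 with hFb
  have hm1 : (1 : ℝ) / m ≤ 1 := by
    rw [div_le_one hmr]
    exact_mod_cast hm
  obtain ⟨p, hp1, hp2⟩ := rep_one hK (Ω.hst w hw) hε (Ω.hp w hw) (Ω.hc w hw)
    (ζ := 1 / m) (by positivity) hm1 hδ ht hC (e := κ + 8 * δ / ε) (by positivity) hν
    (by
      have : 1 / (m : ℝ) * ε / 4 = ε / (4 * m) := by field_simp
      rw [this]
      exact n1)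
    (by
      have h1 : 4 * ν / (1 / (m : ℝ) * ε) = 4 * ν * m / ε := by field_simp
      have h2 : 1 / (m : ℝ) * ε / 2 = ε / (2 * m) := by field_simp
      rw [h1, h2]
      exact n2)
    (by
      have h1 : 1 / (m : ℝ) * ν = ν / m := by field_simp
      have h2 : 1 / (m : ℝ) * ε / 2 = ε / (2 * m) := by field_simp
      rw [h1, h2]
      exact n3)
    (Ω.Fx x w) (Ω.Zx x w) (Slt.Z0 x w)
    (by
      unfold Slt.Zx
      rw [Finset.union_assoc]
      exact Finset.subset_union_left)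
    (by
      have h1 : Ω.Zx x w \ Slt.Z0 x w ⊆ Ω.bx x w ∪ Ω.Cf x w := by
        intro i hi
        rw [Finset.mem_sdiff] at hi
        unfold Slt.Zx at hi
        rw [Finset.union_assoc, Finset.mem_union] at hi
        exact hi.1.resolve_left hi.2
      have h2 : ((Ω.bx x w).card : ℝ) ≤ κ * K := (Ω.hsamp w hw).small _
      have h3 : ((Ω.Cf x w).card : ℝ) ≤ 8 * δ / ε * K := g4
      have h4 : ((Ω.Zx x w \ Slt.Z0 x w).card : ℝ) ≤ (Ω.bx x w).card + (Ω.Cf x w).card := by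
        exact_mod_cast (Finset.card_le_card h1).trans (Finset.card_union_le _ _)
      rw [add_mul]
      linarith)
    g5.1 g5.2 g6.1 g6.2 g7 Fb
    (by
      intro i
      refine le_trans ?_ hnb
      have h1 := card_forb (nb Ω.G Ω.W w) (fun u c => Ω.σ u w (τ u i) = c)
        (fun u c c' h h' => h.symm.trans h')
      have h2 : (Finset.univ.filter fun j => (i, j) ∈ Fb).card ≤
          (Finset.univ.filter fun c => ∃ u ∈ nb Ω.G Ω.W w, Ω.σ u w (τ u i) = c).card := by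
        apply Finset.card_le_card
        intro c hc
        rw [Finset.mem_filter, hFb, Finset.mem_filter] at hc
        rw [Finset.mem_filter]
        exact ⟨Finset.mem_univ _, hc.2.2⟩
      exact_mod_cast h2.trans h1)
    (by
      intro j
      refine le_trans ?_ hnb
      have h1 := card_forb (nb Ω.G Ω.W w) (fun u i => Ω.σ u w (τ u i) = j)
        (fun u i i' h h' => (τ u).injective ((Ω.σ u w).injective (h.trans h'.symm)))
      have h2 : (Finset.univ.filter fun i => (i, j) ∈ Fb).card ≤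
          (Finset.univ.filter fun i => ∃ u ∈ nb Ω.G Ω.W w, Ω.σ u w (τ u i) = j).card := by
        apply Finset.card_le_card
        intro c hc
        rw [Finset.mem_filter, hFb, Finset.mem_filter] at hc
        rw [Finset.mem_filter]
        exact ⟨Finset.mem_univ _, hc.2.2⟩
      exact_mod_cast h2.trans h1)
  refine ⟨p, hp1, fun i hi => ⟨(hp2 i hi).1, fun u hu h => (hp2 i hi).2 ?_⟩⟩
  rw [hFb, Finset.mem_filter]
  exact ⟨Finset.mem_univ _, u, hu, h⟩

theorem repair {V : Type} [Fintype V] [DecidableEq V] {K n m : ℕ} {ε δ D κ ν C t : ℝ}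
    (hK : 0 < K) (hm : 0 < m) (hε : 0 < ε) (hδ : 0 ≤ δ) (hκ : 0 ≤ κ) (hν : 0 < ν) (hC : 0 ≤ C)
    (ht : 0 ≤ t) (n1 : 2 * t + (C + 1) * (κ + 8 * δ / ε) + δ ≤ ε / (4 * m))
    (n2 : δ + 4 * ν * m / ε < ε / (2 * m)) (n3 : t + ν / m ≤ ε / (2 * m))
    (Ω : Slt V K n ε δ D κ ν C) (x : V → Out K n m) (hx : Ω.Gd t x) :
    ∃ π' : V → Equiv.Perm (Fin K), (∀ u ∈ Ω.Q, π' u = Ω.π u) ∧
      ValidK Ω.G Ω.σ (Ω.Q ∪ Ω.W) π' ∧ ∀ w ∈ Ω.W, ∀ i, i ∉ Ω.Zx x w → π' w i = Ω.Fx x w i := by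
  classical
  have hQW : ∀ u ∈ Ω.Q, u ∉ Ω.W := fun u hu h => Finset.disjoint_left.1 Ω.hQW hu h
  -- the induction
  have main : ∀ j : ℕ, ∃ ρ : V → Equiv.Perm (Fin K), (∀ u ∈ Ω.Q, ρ u = Ω.π u) ∧
      ∀ w ∈ Ω.W, Ω.idx w < j → (∀ i, i ∉ Ω.Zx x w → ρ w i = Ω.Fx x w i) ∧
        ∀ i ∈ Ω.Zx x w, (i, ρ w i) ∈ Ω.Bv w ∧ ∀ u ∈ nb Ω.G Ω.W w,
          Ω.σ u w ((if Ω.idx u < Ω.idx w then ρ u else Ω.Fx x u) i) ≠ ρ w i := by
    intro j
    induction j with
    | zero => exact ⟨Ω.π, fun _ _ => rfl, fun w _ h => absurd h (Nat.not_lt_zero _)⟩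
    | succ j ih =>
      obtain ⟨ρ, hρ1, hρ2⟩ := ih
      by_cases hex : ∃ w ∈ Ω.W, Ω.idx w = j
      · obtain ⟨w, hw, hwj⟩ := hex
        obtain ⟨p, hp1, hp2⟩ := rep_step hK hm hε hδ hκ hν hC ht n1 n2 n3 Ω x hx w hw
          (fun u => if Ω.idx u < Ω.idx w then ρ u else Ω.Fx x u)
        refine ⟨Function.update ρ w p, ?_, ?_⟩
        · intro u hu
          have hne : u ≠ w := by
            rintro rfl
            exact hQW u hu hw
          rw [Function.update_of_ne hne, hρ1 u hu]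
        · intro w' hw' hlt
          by_cases hww : w' = w
          · subst hww
            rw [Function.update_self]
            refine ⟨hp1, fun i hi => ⟨(hp2 i hi).1, fun u hu => ?_⟩⟩
            have h1 := (hp2 i hi).2 u hu
            have hne : u ≠ w' := by
              rintro rfl
              exact Ω.G.loopless.irrefl _ (mem_nb.1 hu).2
            rw [Function.update_of_ne hne]
            exact h1
          · have hlt' : Ω.idx w' < j := by
              have h1 : Ω.idx w' ≠ j := fun h => hww (Ω.hidx (h.trans hwj.symm))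
              omega
            rw [Function.update_of_ne hww]
            obtain ⟨h1, h2⟩ := hρ2 w' hw' hlt'
            refine ⟨h1, fun i hi => ⟨(h2 i hi).1, fun u hu => ?_⟩⟩
            have h3 := (h2 i hi).2 u hu
            by_cases hlt2 : Ω.idx u < Ω.idx w'
            · have hne : u ≠ w := by
                rintro rfl
                omega
              rw [Function.update_of_ne hne]
              exact h3
            · rw [if_neg hlt2] at h3 ⊢
              exact h3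
      · refine ⟨ρ, hρ1, fun w hw hlt => hρ2 w hw ?_⟩
        have h1 : Ω.idx w ≠ j := fun h => hex ⟨w, hw, h⟩
        omega
  obtain ⟨ρ, hρ1, hρ2⟩ := main ((Finset.univ.sup Ω.idx) + 1)
  have hidx : ∀ w, Ω.idx w < (Finset.univ.sup Ω.idx) + 1 := fun w =>
    Nat.lt_succ_of_le (Finset.le_sup (f := Ω.idx) (Finset.mem_univ w))
  -- all cells are allowed
  have hBv : ∀ w ∈ Ω.W, ∀ i, (i, ρ w i) ∈ Ω.Bv w := by
    intro w hw i
    obtain ⟨h1, h2⟩ := hρ2 w hw (hidx w)
    by_cases hi : i ∈ Ω.Zx x w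
    · exact (h2 i hi).1
    · rw [h1 i hi]
      refine (Ω.hsamp w hw).mem _ i ?_
      intro hb
      apply hi
      unfold Slt.Zx
      exact Finset.mem_union_left _ (Finset.mem_union_right _ hb)
  have hmixed : ∀ u ∈ Ω.Q, ∀ w ∈ Ω.W, Ω.G.Adj u w → Disc (Ω.σ u w * ρ u) (ρ w) := by
    intro u hu w hw hadj i
    have h1 := hBv w hw i
    unfold Slt.Bv at h1
    rw [mem_Al] at h1
    have h2 := h1 u (mem_nb.2 ⟨hu, hadj.symm⟩)
    rw [hρ1 u hu]
    exact h2
  have hWW : ∀ u ∈ Ω.W, ∀ w ∈ Ω.W, Ω.idx u < Ω.idx w → Ω.G.Adj u w →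
      Disc (Ω.σ u w * ρ u) (ρ w) := by
    intro u hu w hw hlt hadj i
    change Ω.σ u w (ρ u i) ≠ ρ w i
    obtain ⟨h1, h2⟩ := hρ2 w hw (hidx w)
    obtain ⟨h3, h4⟩ := hρ2 u hu (hidx u)
    by_cases hi : i ∈ Ω.Zx x w
    · have h5 := (h2 i hi).2 u (mem_nb.2 ⟨hu, hadj.symm⟩)
      rw [if_pos hlt] at h5
      exact h5
    · rw [h1 i hi]
      by_cases hiu : i ∈ Ω.Zx x u
      · have h5 := (h4 i hiu).2 w (mem_nb.2 ⟨hw, hadj⟩)
        rw [if_neg (by omega), Ω.hσ u w hadj] at h5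
        intro h6
        apply h5
        rw [← h6]
        simp
      · rw [h3 i hiu]
        intro h6
        apply hi
        unfold Slt.Zx at hi hiu ⊢
        rw [Finset.mem_union, Finset.mem_union, not_or, not_or] at hi hiu
        refine Finset.mem_union_right _ ?_
        unfold Slt.Cf
        rw [Finset.mem_filter]
        exact ⟨Finset.mem_univ _, hi.1.2, u, mem_nb.2 ⟨hu, hadj.symm⟩, hlt, hiu.1.2, h6⟩
  have hflip : ∀ u w, Ω.G.Adj u w → Disc (Ω.σ w u * ρ w) (ρ u) → Disc (Ω.σ u w * ρ u) (ρ w) := by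
    intro u w hadj h
    rw [Ω.hσ u w hadj] at h
    have h5 := (disc_mul_left (Ω.σ u w)).2 h
    simpa using h5.symm
  refine ⟨ρ, hρ1, ?_, fun w hw => (hρ2 w hw (hidx w)).1⟩
  intro u hu w hw hadj
  rw [Finset.mem_union] at hu hw
  rcases hu with hu | hu
  · rcases hw with hw | hw
    · rw [hρ1 u hu, hρ1 w hw]
      exact Ω.hval u hu w hw hadj
    · exact hmixed u hu w hw hadj
  · rcases hw with hw | hw
    · exact hflip u w hadj (hmixed w hw u hu hadj.symm)
    · rcases lt_trichotomy (Ω.idx u) (Ω.idx w) with hlt | heq | hlt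
      · exact hWW u hu w hw hlt hadj
      · have := Ω.hidx heq
        subst this
        exact absurd hadj (Ω.G.loopless.irrefl _)
      · exact hflip u w hadj (hWW w hw u hu hlt hadj.symm)

end Pool.Agent.PK
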