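import Pool.Agent.PK.Fr

/-!
# Packing (PK): the number of samples in a slot
-/

set_option autoImplicit false

open Finset

namespace Pool.Agent.PK

theorem tt_lo {J M : ℕ} {l : ℝ} (hl : 0 ≤ l) (a : Fin M) : ⌊l⌋₊ ≤ tt J M l a := by
  unfold tt
  refine Nat.floor_mono ?_
  have h1 : (0 : ℝ) ≤ J * (a : ℝ) / M := by positivity
  linarith

theorem tt_hi {J M : ℕ} (hJ : 1 ≤ J) {l : ℝ} (hl : 0 ≤ l) (a : Fin M) :
    tt J M l a ≤ ⌊l⌋₊ + J := by
  unfold tt
  rw [← Nat.floor_add_natCast hl]
  refine Nat.floor_mono ?_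
  have hM : (0 : ℝ) < M := by
    have : 0 < M := lt_of_le_of_lt (Nat.zero_le _) a.2
    exact_mod_cast this
  have h1 : J * (a : ℝ) / M ≤ J := by
    rw [div_le_iff₀ hM]
    have h2 : (a : ℝ) ≤ M := by exact_mod_cast a.2.le
    exact mul_le_mul_of_nonneg_left h2 (Nat.cast_nonneg _)
  linarith

theorem rnd_len {J : ℕ} (hJ : 1 ≤ J) (t : ℝ) :
    min (J : ℝ) t - max 0 (t - 1) ≤ cl t - cl (t - J) := by
  have hJ' : (1 : ℝ) ≤ J := by exact_mod_cast hJ
  rcases le_or_gt t 0 with h0 | h0
  · rw [cl_zero h0, cl_zero (by linarith), min_eq_right (by linarith), max_eq_left (by linarith)]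
    linarith
  rcases le_or_gt t 1 with h1 | h1
  · have h2 : cl t = t := by
      unfold cl
      rw [min_eq_left h1, max_eq_right h0.le]
    rw [h2, cl_zero (by linarith), min_eq_right (by linarith), max_eq_left (by linarith)]
  rcases le_or_gt t J with h3 | h3
  · rw [cl_one h1.le, cl_zero (by linarith), min_eq_right h3, max_eq_right (by linarith)]
    linarith
  rcases le_or_gt t (J + 1) with h4 | h4
  · have h5 : cl (t - J) = t - J := by
      unfold cl
      rw [min_eq_left (by linarith), max_eq_right (by linarith)]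
    rw [cl_one h1.le, h5, min_eq_left h3.le, max_eq_right (by linarith)]
    linarith
  · rw [cl_one h1.le, cl_one (by linarith), min_eq_left h3.le, max_eq_right (by linarith)]
    linarith

theorem tt_card {J M : ℕ} (hJ : 1 ≤ J) (hM : 0 < M) {l : ℝ} (hl : 0 ≤ l) (s : ℕ) :
    ((univ.filter fun a : Fin M => tt J M l a = s).card : ℝ) ≤ M * fr J l s + 1 := by
  have hM' : (0 : ℝ) < M := by exact_mod_cast hM
  have hJ' : (0 : ℝ) < J := by exact_mod_cast hJ
  set lo : ℝ := M / J * max 0 ((s : ℝ) - l) with hlo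
  set hi : ℝ := M / J * min (J : ℝ) ((s : ℝ) + 1 - l) with hhi
  have hlen : hi - lo ≤ M * fr J l s := by
    have h1 := rnd_len hJ ((s : ℝ) + 1 - l)
    have e1 : (s : ℝ) + 1 - l - 1 = s - l := by ring
    rw [e1] at h1
    have h2 : M * fr J l s = M / J * (cl ((s : ℝ) + 1 - l) - cl ((s : ℝ) + 1 - l - J)) := by
      unfold fr
      rw [boen hJ]
      unfold bo
      ring
    rw [h2, hhi, hlo, ← mul_sub]
    exact mul_le_mul_of_nonneg_left h1 (by positivity)
  have hmem : ∀ a : Fin M, tt J M l a = s → lo ≤ (a : ℝ) ∧ (a : ℝ) < hi := by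
    intro a ha
    unfold tt at ha
    have hy : (0 : ℝ) ≤ l + J * (a : ℝ) / M := by positivity
    rw [Nat.floor_eq_iff hy] at ha
    have ha0 : (0 : ℝ) ≤ a := Nat.cast_nonneg _
    have ha1 : (a : ℝ) < M := by exact_mod_cast a.2
    have e1 : (a : ℝ) = M / J * (J * (a : ℝ) / M) := by
      field_simp
    constructor
    · rw [hlo, e1]
      refine mul_le_mul_of_nonneg_left (max_le (by positivity) (by linarith [ha.1])) (by positivity)
    · rw [hhi]
      rw [e1]
      refine mul_lt_mul_of_pos_left (lt_min ?_ (by linarith [ha.2])) (by positivity)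
      rw [div_lt_iff₀ hM']
      exact mul_lt_mul_of_pos_left ha1 hJ'
  rcases (univ.filter fun a : Fin M => tt J M l a = s).eq_empty_or_nonempty with he | hne
  · rw [he, card_empty, Nat.cast_zero]
    have := fr_nonneg J l s
    positivity
  · obtain ⟨a₀, ha₀⟩ := hne
    rw [mem_filter] at ha₀
    have h0 := hmem a₀ ha₀.2
    have ha0 : (0 : ℝ) ≤ a₀ := Nat.cast_nonneg _
    have hhi0 : 0 ≤ hi := by linarith [h0.2]
    have h1 : (univ.filter fun a : Fin M => tt J M l a = s).card ≤ (Ico ⌈lo⌉₊ ⌈hi⌉₊).card := by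
      refine card_le_card_of_injOn (fun a => (a : ℕ)) ?_ ?_
      · intro a ha
        rw [mem_coe, mem_filter] at ha
        have h2 := hmem a ha.2
        rw [mem_coe, mem_Ico]
        exact ⟨Nat.ceil_le.2 h2.1, Nat.lt_ceil.2 h2.2⟩
      · intro a _ b _ hab
        exact Fin.ext hab
    rw [Nat.card_Ico] at h1
    have h2 : ⌈lo⌉₊ ≤ ⌈hi⌉₊ := Nat.ceil_mono (by linarith [h0.1, h0.2])
    have h3 : ((univ.filter fun a : Fin M => tt J M l a = s).card : ℝ) ≤
        (⌈hi⌉₊ : ℝ) - ⌈lo⌉₊ := by
      rw [← Nat.cast_sub h2]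
      exact_mod_cast h1
    have h4 := Nat.ceil_lt_add_one hhi0
    have h5 := Nat.le_ceil lo
    linarith

theorem tt_lt {J M : ℕ} (hJ : 1 ≤ J) (hM : 0 < M) {l : ℝ} (hl : 0 ≤ l) (b : ℕ) :
    ((univ.filter fun a : Fin M => tt J M l a < b).card : ℝ) ≤
      M * ∑ s ∈ range b, fr J l s + b := by
  have h1 : (univ.filter fun a : Fin M => tt J M l a < b).card =
      ∑ s ∈ range b, (univ.filter fun a : Fin M => tt J M l a = s).card := by
    rw [card_eq_sum_card_fiberwise (f := fun a => tt J M l a) (t := range b)]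
    · refine sum_congr rfl fun s hs => ?_
      congr 1
      ext a
      simp only [mem_filter, mem_univ, true_and]
      constructor
      · exact fun h => h.2
      · intro h
        exact ⟨by rw [h]; exact mem_range.1 hs, h⟩
    · intro a ha
      rw [mem_coe, mem_filter] at ha
      rw [mem_coe, mem_range]
      exact ha.2
  rw [h1]
  push_cast
  calc ∑ s ∈ range b, ((univ.filter fun a : Fin M => tt J M l a = s).card : ℝ)
      ≤ ∑ s ∈ range b, (M * fr J l s + 1) := sum_le_sum fun s _ => tt_card hJ hM hl s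
    _ = M * ∑ s ∈ range b, fr J l s + b := by
        rw [sum_add_distrib, mul_sum, sum_const, card_range, nsmul_eq_mul, mul_one]

end Pool.Agent.PK
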