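import Pool.Agent.PK.MergeRot
import Pool.Agent.PK.MergeMom

set_option autoImplicit false

namespace Pool.Agent.PK

open Finset
open Pool.Agent.H24.LP Pool.Agent.H24.LP.Nib

/-- the number of outcomes of the sampler -/
def num2 (N K : ℕ) : ℕ → ℕ
  | 0 => N
  | k + 1 => num2 N K k * num2 N K k * (K.factorial * 2 ^ K)

namespace Sampler2A

/-- The outcomes of one step. -/
abbrev Om (n L K : ℕ) := Fin n × Fin n × Fin L × (Fin K → Bool)

variable {n L K : ℕ}

theorem cntE {α : Type} [Fintype α] {m : ℕ} (e : α ≃ Fin m) (P : α → Prop) [DecidablePred P] :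
    (Finset.univ.filter fun x : Fin m => P (e.symm x)).card =
      (Finset.univ.filter fun y : α => P y).card := by
  rw [Finset.card_filter, Finset.card_filter]
  exact Equiv.sum_comp e.symm (fun y => if P y then 1 else 0)

theorem cnt4 (P : Om n L K → Prop) [DecidablePred P] :
    (Finset.univ.filter fun y : Om n L K => P y).card =
      ∑ w, ∑ w', ∑ j, ∑ coin, if P (w, w', j, coin) then 1 else 0 := by
  rw [Finset.card_filter, Fintype.sum_prod_type]
  simp only [Fintype.sum_prod_type]

theorem s1 (P : Fin n → Prop) [DecidablePred P] :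
    (∑ w : Fin n, ∑ _w' : Fin n, ∑ _j : Fin L, ∑ _coin : Fin K → Bool, if P w then 1 else 0) =
      (Finset.univ.filter P).card * n * (L * 2 ^ K) := by
  simp only [Finset.sum_const, Finset.card_univ, Fintype.card_fin, Fintype.card_fun,
    Fintype.card_bool, smul_eq_mul]
  rw [Finset.card_filter]
  simp only [← Finset.mul_sum]
  ring

theorem s2 (P : Fin n → Prop) [DecidablePred P] :
    (∑ _w : Fin n, ∑ w' : Fin n, ∑ _j : Fin L, ∑ _coin : Fin K → Bool, if P w' then 1 else 0) =
      (Finset.univ.filter P).card * n * (L * 2 ^ K) := by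
  rw [Finset.sum_comm]
  exact s1 P

/-- Half of the coins are heads. -/
theorem half (y : Fin K) (b : Bool) :
    2 * (∑ coin : Fin K → Bool, if coin y = b then 1 else 0) = 2 ^ K := by
  have hinv : Function.Involutive (fun (f : Fin K → Bool) (z : Fin K) => !f z) := by
    intro f
    funext z
    simp
  have h1 : (∑ coin : Fin K → Bool, if coin y = b then 1 else 0) =
      ∑ coin : Fin K → Bool, if coin y = !b then 1 else 0 := by
    have h2 := Equiv.sum_comp (hinv.toPerm _) (fun f : Fin K → Bool => if f y = !b then 1 else 0)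
    rw [← h2]
    refine Finset.sum_congr rfl fun f _ => ?_
    have h3 : ((hinv.toPerm _) f) y = !f y := rfl
    rw [h3]
    have h4 : ((!f y) = !b) = (f y = b) := by
      cases f y <;> cases b <;> simp
    simp only [h4]
  have h2 : (∑ coin : Fin K → Bool, if coin y = b then 1 else 0) +
      (∑ coin : Fin K → Bool, if coin y = !b then 1 else 0) = 2 ^ K := by
    rw [← Finset.sum_add_distrib]
    have h3 : ∀ coin : Fin K → Bool,
        (if coin y = b then 1 else 0) + (if coin y = !b then 1 else 0) = 1 := by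
      intro coin
      cases coin y <;> cases b <;> simp
    simp only [h3]
    simp
  omega

theorem half_le (y : Fin K) (b : Bool) (P : Prop) [Decidable P] :
    2 * (∑ coin : Fin K → Bool, if coin y = b ∧ P then 1 else 0) =
      2 ^ K * (if P then 1 else 0) := by
  by_cases h : P
  · simp only [h, and_true, if_true, mul_one]
    exact half y b
  · simp [h]

theorem ite_or_le (P Q R : Prop) [Decidable P] [Decidable Q] [Decidable R] (h : P → Q ∨ R) :
    (if P then 1 else 0) ≤ (if Q then 1 else 0) + (if R then 1 else 0) := by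
  by_cases hP : P
  · rcases h hP with h1 | h1 <;> simp [hP, h1]
  · simp [hP]

/-- The elementary inequality behind the choice of the exponents. -/
theorem quad {x : ℝ} (h0 : 0 ≤ x) (h1 : 2 * x ≤ 1) :
    (1 + x / 4) * (1 + x / 2 * (1 + x / 4)) ≤ 1 + x := by
  nlinarith [mul_nonneg h0 h0, mul_nonneg h0 (sub_nonneg.2 h1),
    mul_nonneg (mul_nonneg h0 h0) (sub_nonneg.2 h1)]

/-- The exponential moment at the start. -/
theorem base {K N : ℕ} (τ : Fin N → Equiv.Perm (Fin K)) (A : Finset (Fin K × Fin K))
    (s m : ℝ) (hs : 0 ≤ s) (hsK : s * K ≤ 1) (hm : (∑ i, (hits (τ i) A : ℝ)) ≤ N * m)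
    (hm0 : 0 ≤ m) :
    ∑ i, Real.exp (s * hits (τ i) A) ≤ N * Real.exp (s * m * (1 + s * K)) := by
  rcases Nat.eq_zero_or_pos K with rfl | hK
  · have h0 : ∀ i, hits (τ i) A = 0 := fun i => Nat.le_zero.1 (hits_le _ _)
    simp only [h0, Nat.cast_zero, mul_zero, Real.exp_zero, Finset.sum_const, Finset.card_univ,
      Fintype.card_fin, nsmul_eq_mul, mul_one, add_zero]
    have h3 : 1 ≤ Real.exp (s * m) := Real.one_le_exp (by positivity)
    calc (N : ℝ) = N * 1 := (mul_one _).symm
      _ ≤ _ := mul_le_mul_of_nonneg_left h3 (Nat.cast_nonneg N)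
  have hKr : (0 : ℝ) < K := by exact_mod_cast hK
  set y := s * (K : ℝ) with hy
  have hy0 : 0 ≤ y := by positivity
  have hone : ∀ i, Real.exp (s * hits (τ i) A) ≤
      1 + (hits (τ i) A : ℝ) / K * (Real.exp y - 1) := by
    intro i
    have h1 : (hits (τ i) A : ℝ) ≤ K := by exact_mod_cast hits_le _ _
    set t : ℝ := (hits (τ i) A : ℝ) / K with ht
    have ht0 : 0 ≤ t := by positivity
    have ht1 : t ≤ 1 := by
      rw [ht, div_le_one hKr]
      exact h1
    have hconv := convexOn_exp.2 (Set.mem_univ 0) (Set.mem_univ y) (by linarith : 0 ≤ 1 - t) ht0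
      (by ring : 1 - t + t = 1)
    simp only [smul_eq_mul, mul_zero, zero_add, Real.exp_zero, mul_one] at hconv
    have h2 : s * (hits (τ i) A : ℝ) = t * y := by
      rw [ht, hy]
      field_simp
    rw [h2]
    linarith
  have hexp : Real.exp y - 1 ≤ y * (1 + y) := by
    have h1 := Real.abs_exp_sub_one_sub_id_le (x := y) (by rw [abs_of_nonneg hy0]; exact hsK)
    have h2 := (abs_le.1 h1).2
    linarith [sq y]
  have hexp0 : 0 ≤ Real.exp y - 1 := by
    have := Real.one_le_exp hy0
    linarith
  calc ∑ i, Real.exp (s * hits (τ i) A)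
      ≤ ∑ i : Fin N, (1 + (hits (τ i) A : ℝ) / K * (Real.exp y - 1)) :=
        Finset.sum_le_sum fun i _ => hone i
    _ = N + (∑ i, (hits (τ i) A : ℝ)) / K * (Real.exp y - 1) := by
        rw [Finset.sum_add_distrib, ← Finset.sum_mul, ← Finset.sum_div]
        simp
    _ ≤ N + (N * m) / K * (Real.exp y - 1) := by
        have : (∑ i, (hits (τ i) A : ℝ)) / K ≤ (N * m) / K := by gcongr
        have := mul_le_mul_of_nonneg_right this hexp0
        linarith
    _ = N * (1 + m / K * (Real.exp y - 1)) := by ring
    _ ≤ N * Real.exp (m / K * (Real.exp y - 1)) := by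
        apply mul_le_mul_of_nonneg_left _ (Nat.cast_nonneg N)
        have := Real.add_one_le_exp (m / K * (Real.exp y - 1))
        linarith
    _ ≤ N * Real.exp (s * m * (1 + y)) := by
        apply mul_le_mul_of_nonneg_left _ (Nat.cast_nonneg N)
        rw [Real.exp_le_exp]
        have h1 : m / K * (Real.exp y - 1) ≤ m / K * (y * (1 + y)) :=
          mul_le_mul_of_nonneg_left hexp (by positivity)
        have h2 : m / K * (y * (1 + y)) = s * m * (1 + y) := by
          rw [hy]
          field_simp
        linarith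

end Sampler2A

open Sampler2A

/-- The properties of the sampler with `n` outcomes after `k` steps. -/
def Sm {K N : ℕ} (g : ℕ) (τ : Fin N → Equiv.Perm (Fin K)) (k n : ℕ) : Prop :=
    ∃ (F : Fin n → Equiv.Perm (Fin K)) (bd : Fin n → Finset (Fin K)),
      (∀ ω i, i ∉ bd ω → ∃ j, F ω i = τ j i) ∧
      (∀ ω, g * (bd ω).card + 2 * K ≤ 2 ^ k * (2 * K)) ∧
      (∀ i, g * (Finset.univ.filter fun ω => i ∈ bd ω).card + 2 * n ≤
        2 ^ (k + 1) * n) ∧
      (∀ c, g * (Finset.univ.filter fun ω => (F ω).symm c ∈ bd ω).card ≤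
        (k + 1) * 2 ^ (k + 2) * n) ∧
      (∀ i c, N * (Finset.univ.filter fun ω => i ∉ bd ω ∧ F ω i = c).card ≤
        (Finset.univ.filter fun j => τ j i = c).card * n) ∧
      ∀ (A : Finset (Fin K × Fin K)) (s m : ℝ), 0 ≤ s → 2 * (s * g) ≤ 1 →
        2 * ((1 + s * g) * (s * K)) ≤ 2 ^ k → (∑ j, (hits (τ j) A : ℝ)) ≤ N * m →
        ∑ ω, Real.exp (s * ch (F ω) (bd ω) A) ≤ n *
          Real.exp (s * m * ((1 + s * g) * (1 + 2 * ((1 + s * g) * (s * K)) / 2 ^ k)))

theorem mNonneg {K N : ℕ} (hN : 0 < N) (τ : Fin N → Equiv.Perm (Fin K))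
    (A : Finset (Fin K × Fin K)) (m : ℝ) (h : (∑ j, (hits (τ j) A : ℝ)) ≤ N * m) : 0 ≤ m := by
  have hNr : (0 : ℝ) < N := by exact_mod_cast hN
  have h1 : (0 : ℝ) ≤ ∑ j, (hits (τ j) A : ℝ) := Finset.sum_nonneg fun _ _ => Nat.cast_nonneg _
  by_contra h2
  have := mul_neg_of_pos_of_neg hNr (not_le.1 h2)
  linarith

theorem stepZ {K N : ℕ} (hN : 0 < N) (g : ℕ) (τ : Fin N → Equiv.Perm (Fin K)) : Sm g τ 0 N := by
  have hm0 := mNonneg hN τ
  refine ⟨τ, fun _ => ∅, ?_, ?_, ?_, ?_, ?_, ?_⟩
  · intro ω i _
    exact ⟨ω, rfl⟩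
  · intro ω
    simp
  · intro i
    simp
  · intro c
    simp
  · intro i c
    simp only [Finset.notMem_empty, not_false_eq_true, true_and]
    exact le_of_eq (mul_comm _ _)
  · intro A s m hs hsg hsK hm
    have hch : ∀ ω, ch (τ ω) ∅ A = hits (τ ω) A := by
      intro ω
      unfold ch hits
      simp
    simp only [hch]
    have hx0 : 0 ≤ s * g := by positivity
    have hy0 : 0 ≤ s * K := by positivity
    have h1 : s * (K : ℝ) ≤ 1 := by
      have h2 : (2 : ℝ) ^ 0 = 1 := pow_zero _
      rw [h2] at hsK
      nlinarith [mul_nonneg hx0 hy0]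
    have hmm := hm0 A m hm
    refine (base τ A s m hs h1 hm hmm).trans ?_
    apply mul_le_mul_of_nonneg_left _ (Nat.cast_nonneg N)
    rw [Real.exp_le_exp]
    apply mul_le_mul_of_nonneg_left _ (by positivity)
    rw [pow_zero, div_one]
    nlinarith [mul_nonneg hx0 hy0, mul_nonneg hx0 (mul_nonneg hx0 hy0)]

theorem stepS {K N n : ℕ} (hN : 0 < N) (g : ℕ) (hg : 1 ≤ g) (τ : Fin N → Equiv.Perm (Fin K))
    (k : ℕ) (ih : Sm g τ k n) : Sm g τ (k + 1) (n * n * (K.factorial * 2 ^ K)) := by
  classical
  have hgr : (0 : ℝ) < g := by exact_mod_cast hg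
  have hm0 := mNonneg hN τ
  obtain ⟨F, bd, h1, h2, h3, h4, h5, h6⟩ := ih
  have hmer := fun w w' : Fin n => merge_rot g hg (F w) (F w')
  choose p bd0 mu hp hbd hmu hrow hcol using hmer
  have hcard : Fintype.card (Om n K.factorial K) = n * n * (K.factorial * 2 ^ K) := by
    simp only [Fintype.card_prod, Fintype.card_fin, Fintype.card_fun, Fintype.card_bool]
    ring
  let e := Fintype.equivFinOfCardEq hcard
  let F' : Om n K.factorial K → Equiv.Perm (Fin K) := fun y => mu y.1 y.2.1 y.2.2.1 y.2.2.2
  let bd' : Om n K.factorial K → Finset (Fin K) := fun y =>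
    bd y.1 ∪ bd y.2.1 ∪ bd0 y.1 y.2.1 y.2.2.1
  have hF' : ∀ (y : Om n K.factorial K) (i : Fin K), i ∉ bd' y → i ∉ bd y.1 ∧ i ∉ bd y.2.1 ∧
      i ∉ bd0 y.1 y.2.1 y.2.2.1 := by
    intro y i hi
    simp only [bd', Finset.mem_union, not_or] at hi
    exact ⟨hi.1.1, hi.1.2, hi.2⟩
  refine ⟨fun x => F' (e.symm x), fun x => bd' (e.symm x), ?_, ?_, ?_, ?_, ?_, ?_⟩
  · intro x i hi
    obtain ⟨ha, hb, hc⟩ := hF' _ i hi
    simp only [F']
    rw [hmu _ _ _ _ _ hc]
    by_cases hh : (e.symm x).2.2.2 (p (e.symm x).1 (e.symm x).2.1 (e.symm x).2.2.1 i) = true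
    · rw [if_pos hh]
      exact h1 _ _ ha
    · rw [if_neg hh]
      exact h1 _ _ hb
  · intro x
    set y := e.symm x
    have hc1 : (bd' y).card ≤ (bd y.1).card + (bd y.2.1).card + (bd0 y.1 y.2.1 y.2.2.1).card :=
      (Finset.card_union_le _ _).trans (Nat.add_le_add_right (Finset.card_union_le _ _) _)
    have hc2 : g * (bd' y).card ≤ g * (bd y.1).card + g * (bd y.2.1).card +
        g * (bd0 y.1 y.2.1 y.2.2.1).card := by
      rw [← mul_add, ← mul_add]
      exact Nat.mul_le_mul_left _ hc1
    have hc3 := h2 y.1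
    have hc4 := h2 y.2.1
    have hc5 := hbd y.1 y.2.1 y.2.2.1
    rw [pow_succ]
    change g * (bd' y).card + 2 * K ≤ 2 ^ k * 2 * (2 * K)
    generalize 2 ^ k = q at *
    have hc6 : q * 2 * (2 * K) = q * (2 * K) + q * (2 * K) := by ring
    omega
  · intro i
    rw [cntE e (fun y => i ∈ bd' y), cnt4]
    have hle : (∑ w, ∑ w', ∑ j, ∑ coin : Fin K → Bool,
        if i ∈ bd' ((w, w', j, coin) : Om n K.factorial K) then 1 else 0) ≤
        (∑ w : Fin n, ∑ _w' : Fin n, ∑ _j : Fin K.factorial, ∑ _coin : Fin K → Bool,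
          if i ∈ bd w then 1 else 0) +
        (∑ _w : Fin n, ∑ w' : Fin n, ∑ _j : Fin K.factorial, ∑ _coin : Fin K → Bool,
          if i ∈ bd w' then 1 else 0) +
        (∑ w : Fin n, ∑ w' : Fin n, ∑ j : Fin K.factorial, ∑ _coin : Fin K → Bool,
          if i ∈ bd0 w w' j then 1 else 0) := by
      simp only [← Finset.sum_add_distrib]
      refine Finset.sum_le_sum fun w _ => Finset.sum_le_sum fun w' _ =>
        Finset.sum_le_sum fun j _ => Finset.sum_le_sum fun coin _ => ?_
      by_cases hh : i ∈ bd' ((w, w', j, coin) : Om n K.factorial K)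
      · rw [if_pos hh]
        simp only [bd', Finset.mem_union] at hh
        rcases hh with (hh | hh) | hh
        · rw [if_pos hh]
          omega
        · rw [if_pos hh]
          omega
        · rw [if_pos hh]
          omega
      · rw [if_neg hh]
        exact Nat.zero_le _
    rw [s1, s2] at hle
    have hthird : g * (∑ w : Fin n, ∑ w' : Fin n, ∑ j : Fin K.factorial,
        ∑ _coin : Fin K → Bool, if i ∈ bd0 w w' j then 1 else 0) ≤
        n * n * (2 * K.factorial * 2 ^ K) := by
      rw [Finset.mul_sum]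
      have hb : ∀ w w' : Fin n, g * (∑ j : Fin K.factorial,
          ∑ _coin : Fin K → Bool, if i ∈ bd0 w w' j then 1 else 0) ≤
          2 * K.factorial * 2 ^ K := by
        intro w w'
        have hr := hrow w w' i
        rw [Finset.card_filter] at hr
        simp only [Finset.sum_const, Finset.card_univ, Fintype.card_fun, Fintype.card_fin,
          Fintype.card_bool, smul_eq_mul]
        rw [← Finset.mul_sum]
        calc g * (2 ^ K * ∑ j, if i ∈ bd0 w w' j then 1 else 0)
            = (g * ∑ j, if i ∈ bd0 w w' j then 1 else 0) * 2 ^ K := by ring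
          _ ≤ _ := Nat.mul_le_mul_right _ hr
      calc ∑ w, g * (∑ w' : Fin n, ∑ j : Fin K.factorial,
          ∑ _coin : Fin K → Bool, if i ∈ bd0 w w' j then 1 else 0)
          ≤ ∑ _w : Fin n, n * (2 * K.factorial * 2 ^ K) := by
            refine Finset.sum_le_sum fun w _ => ?_
            rw [Finset.mul_sum]
            refine (Finset.sum_le_sum fun w' _ => hb w w').trans ?_
            simp
        _ = _ := by
            simp
            ring
    have hP := h3 i
    set P := (Finset.univ.filter fun ω => i ∈ bd ω).card with hPdef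
    have hgo : g * (∑ w, ∑ w', ∑ j, ∑ coin : Fin K → Bool,
        if i ∈ bd' ((w, w', j, coin) : Om n K.factorial K) then 1 else 0) ≤
        2 * (g * P) * n * (K.factorial * 2 ^ K) + n * n * (2 * K.factorial * 2 ^ K) := by
      calc _ ≤ g * _ := Nat.mul_le_mul_left g hle
        _ = 2 * (g * P) * n * (K.factorial * 2 ^ K) + g * (∑ w : Fin n, ∑ w' : Fin n,
          ∑ j : Fin K.factorial, ∑ _coin : Fin K → Bool, if i ∈ bd0 w w' j then 1 else 0) := by
            ring
        _ ≤ _ := Nat.add_le_add_left hthird _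
    have hfin : 2 * (g * P) * n * (K.factorial * 2 ^ K) + n * n * (2 * K.factorial * 2 ^ K) +
        2 * (n * n * (K.factorial * 2 ^ K)) =
        2 * (g * P + 2 * n) * (n * (K.factorial * 2 ^ K)) := by ring
    calc _ ≤ 2 * (g * P) * n * (K.factorial * 2 ^ K) + n * n * (2 * K.factorial * 2 ^ K) +
        2 * (n * n * (K.factorial * 2 ^ K)) := Nat.add_le_add_right hgo _
      _ = 2 * (g * P + 2 * n) * (n * (K.factorial * 2 ^ K)) := hfin
      _ ≤ 2 * (2 ^ (k + 1) * n) * (n * (K.factorial * 2 ^ K)) :=
          Nat.mul_le_mul_right _ (Nat.mul_le_mul_left _ hP)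
      _ = _ := by ring
  · intro c
    rw [cntE e (fun y => (F' y).symm c ∈ bd' y), cnt4]
    have hle : (∑ w, ∑ w', ∑ j, ∑ coin : Fin K → Bool,
        if (F' ((w, w', j, coin) : Om n K.factorial K)).symm c ∈
          bd' ((w, w', j, coin) : Om n K.factorial K) then 1 else 0) ≤
        (∑ w : Fin n, ∑ w' : Fin n, ∑ j : Fin K.factorial, ∑ coin : Fin K → Bool,
          if (mu w w' j coin).symm c ∈ bd0 w w' j then 1 else 0) +
        (∑ w : Fin n, ∑ _w' : Fin n, ∑ _j : Fin K.factorial, ∑ _coin : Fin K → Bool,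
          if (F w).symm c ∈ bd w then 1 else 0) +
        (∑ _w : Fin n, ∑ w' : Fin n, ∑ _j : Fin K.factorial, ∑ _coin : Fin K → Bool,
          if (F w').symm c ∈ bd w' then 1 else 0) +
        (∑ w : Fin n, ∑ w' : Fin n, ∑ _j : Fin K.factorial, ∑ _coin : Fin K → Bool,
          if (F w').symm c ∈ bd w then 1 else 0) +
        (∑ w : Fin n, ∑ w' : Fin n, ∑ _j : Fin K.factorial, ∑ _coin : Fin K → Bool,
          if (F w).symm c ∈ bd w' then 1 else 0) := by
      simp only [← Finset.sum_add_distrib]
      refine Finset.sum_le_sum fun w _ => Finset.sum_le_sum fun w' _ =>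
        Finset.sum_le_sum fun j _ => Finset.sum_le_sum fun coin _ => ?_
      by_cases hh : (F' ((w, w', j, coin) : Om n K.factorial K)).symm c ∈
          bd' ((w, w', j, coin) : Om n K.factorial K)
      · rw [if_pos hh]
        by_cases h0 : (mu w w' j coin).symm c ∈ bd0 w w' j
        · rw [if_pos h0]
          omega
        · set a := (mu w w' j coin).symm c with ha
          have hac : mu w w' j coin a = c := by
            rw [ha, Equiv.apply_symm_apply]
          rw [hmu w w' j coin a h0] at hac
          have hh' : a ∈ bd w ∨ a ∈ bd w' := by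
            simp only [bd', Finset.mem_union] at hh
            rcases hh with (hh | hh) | hh
            · exact Or.inl hh
            · exact Or.inr hh
            · exact absurd hh h0
          by_cases hc : coin (p w w' j a) = true
          · rw [if_pos hc] at hac
            have haw : (F w).symm c = a := by
              rw [← hac, Equiv.symm_apply_apply]
            rcases hh' with hh' | hh'
            · have : (F w).symm c ∈ bd w := by rw [haw]; exact hh'
              rw [if_pos this]
              omega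
            · have : (F w).symm c ∈ bd w' := by rw [haw]; exact hh'
              rw [if_pos this]
              omega
          · rw [if_neg hc] at hac
            have haw : (F w').symm c = a := by
              rw [← hac, Equiv.symm_apply_apply]
            rcases hh' with hh' | hh'
            · have : (F w').symm c ∈ bd w := by rw [haw]; exact hh'
              rw [if_pos this]
              omega
            · have : (F w').symm c ∈ bd w' := by rw [haw]; exact hh'
              rw [if_pos this]
              omega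
      · rw [if_neg hh]
        exact Nat.zero_le _
    rw [s1 (fun w => (F w).symm c ∈ bd w), s2 (fun w => (F w).symm c ∈ bd w)] at hle
    have hA : g * (∑ w : Fin n, ∑ w' : Fin n, ∑ j : Fin K.factorial, ∑ coin : Fin K → Bool,
          if (mu w w' j coin).symm c ∈ bd0 w w' j then 1 else 0) ≤
        n * n * (4 * K.factorial * 2 ^ K) := by
      have hb : ∀ w w' : Fin n, g * (∑ j : Fin K.factorial, ∑ coin : Fin K → Bool,
          if (mu w w' j coin).symm c ∈ bd0 w w' j then 1 else 0) ≤
          4 * K.factorial * 2 ^ K := by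
        intro w w'
        rw [Finset.sum_comm, Finset.mul_sum]
        calc ∑ coin : Fin K → Bool, g * (∑ j : Fin K.factorial,
            if (mu w w' j coin).symm c ∈ bd0 w w' j then 1 else 0)
            ≤ ∑ _coin : Fin K → Bool, 4 * K.factorial := by
              refine Finset.sum_le_sum fun coin _ => ?_
              have hr := hcol w w' c coin
              rw [Finset.card_filter] at hr
              exact hr
          _ = _ := by
              simp only [Finset.sum_const, Finset.card_univ, Fintype.card_fun,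
                Fintype.card_fin, Fintype.card_bool, smul_eq_mul]
              ring
      rw [Finset.mul_sum]
      calc ∑ w, g * (∑ w' : Fin n, ∑ j : Fin K.factorial, ∑ coin : Fin K → Bool,
          if (mu w w' j coin).symm c ∈ bd0 w w' j then 1 else 0)
          ≤ ∑ _w : Fin n, n * (4 * K.factorial * 2 ^ K) := by
            refine Finset.sum_le_sum fun w _ => ?_
            rw [Finset.mul_sum]
            refine (Finset.sum_le_sum fun w' _ => hb w w').trans ?_
            simp
        _ = _ := by
            simp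
            ring
    have hB : g * (∑ w : Fin n, ∑ w' : Fin n, ∑ _j : Fin K.factorial, ∑ _coin : Fin K → Bool,
          if (F w).symm c ∈ bd w' then 1 else 0) ≤
        n * (2 ^ (k + 1) * n) * (K.factorial * 2 ^ K) := by
      rw [Finset.mul_sum]
      calc ∑ w, g * (∑ w' : Fin n, ∑ _j : Fin K.factorial, ∑ _coin : Fin K → Bool,
          if (F w).symm c ∈ bd w' then 1 else 0)
          ≤ ∑ _w : Fin n, (2 ^ (k + 1) * n) * (K.factorial * 2 ^ K) := by
            refine Finset.sum_le_sum fun w _ => ?_
            have hr := h3 ((F w).symm c)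
            rw [Finset.card_filter] at hr
            have hr' : g * (∑ w' : Fin n, if (F w).symm c ∈ bd w' then 1 else 0) ≤
                2 ^ (k + 1) * n := by omega
            simp only [Finset.sum_const, Finset.card_univ, Fintype.card_fun,
              Fintype.card_fin, Fintype.card_bool, smul_eq_mul]
            rw [← Finset.mul_sum, ← Finset.mul_sum]
            calc g * (K.factorial * (2 ^ K * ∑ w' : Fin n,
                if (F w).symm c ∈ bd w' then 1 else 0))
                = (g * ∑ w' : Fin n, if (F w).symm c ∈ bd w' then 1 else 0) *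
                  (K.factorial * 2 ^ K) := by ring
              _ ≤ _ := Nat.mul_le_mul_right _ hr'
        _ = _ := by
            simp
            ring
    have hC : g * (∑ w : Fin n, ∑ w' : Fin n, ∑ _j : Fin K.factorial, ∑ _coin : Fin K → Bool,
          if (F w').symm c ∈ bd w then 1 else 0) ≤
        n * (2 ^ (k + 1) * n) * (K.factorial * 2 ^ K) := by
      rw [Finset.sum_comm]
      exact hB
    have hQ := h4 c
    set Q := (Finset.univ.filter fun ω => (F ω).symm c ∈ bd ω).card with hQdef
    set S1 := (∑ w : Fin n, ∑ w' : Fin n, ∑ j : Fin K.factorial, ∑ coin : Fin K → Bool,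
          if (mu w w' j coin).symm c ∈ bd0 w w' j then 1 else 0) with hS1
    set S2 := (∑ w : Fin n, ∑ w' : Fin n, ∑ _j : Fin K.factorial, ∑ _coin : Fin K → Bool,
          if (F w').symm c ∈ bd w then 1 else 0) with hS2
    set S3 := (∑ w : Fin n, ∑ w' : Fin n, ∑ _j : Fin K.factorial, ∑ _coin : Fin K → Bool,
          if (F w).symm c ∈ bd w' then 1 else 0) with hS3
    set R := K.factorial * 2 ^ K with hR
    calc _ ≤ g * (S1 + Q * n * R + Q * n * R + S2 + S3) := Nat.mul_le_mul_left g hle
      _ = g * S1 + 2 * ((g * Q) * (n * R)) + g * S2 + g * S3 := by ring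
      _ ≤ n * n * (4 * K.factorial * 2 ^ K) +
          2 * (((k + 1) * 2 ^ (k + 2) * n) * (n * R)) + n * (2 ^ (k + 1) * n) * R +
          n * (2 ^ (k + 1) * n) * R :=
          Nat.add_le_add (Nat.add_le_add (Nat.add_le_add hA
            (Nat.mul_le_mul_left _ (Nat.mul_le_mul_right _ hQ))) hC) hB
      _ = (4 + 2 * ((k + 1) * 2 ^ (k + 2)) + 2 * 2 ^ (k + 1)) * (n * n * R) := by
          rw [hR]
          ring
      _ ≤ ((k + 1 + 1) * 2 ^ (k + 1 + 2)) * (n * n * R) := by
          apply Nat.mul_le_mul_right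
          have h2k : 1 ≤ 2 ^ k := Nat.one_le_two_pow
          have e1 : 2 ^ (k + 2) = 4 * 2 ^ k := by ring
          have e2 : 2 ^ (k + 1) = 2 * 2 ^ k := by ring
          have e3 : 2 ^ (k + 1 + 2) = 8 * 2 ^ k := by ring
          rw [e1, e2, e3]
          nlinarith
      _ = _ := by ring
  · intro i c
    rw [cntE e (fun y => i ∉ bd' y ∧ F' y i = c), cnt4]
    have hstep : ∀ (w w' : Fin n) (j : Fin K.factorial),
        2 * (∑ coin : Fin K → Bool,
          if i ∉ bd' ((w, w', j, coin) : Om n K.factorial K) ∧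
            F' ((w, w', j, coin) : Om n K.factorial K) i = c then 1 else 0) ≤
        2 ^ K * ((if i ∉ bd w ∧ F w i = c then 1 else 0) +
          (if i ∉ bd w' ∧ F w' i = c then 1 else 0)) := by
      intro w w' j
      have hb : (∑ coin : Fin K → Bool,
          if i ∉ bd' ((w, w', j, coin) : Om n K.factorial K) ∧
            F' ((w, w', j, coin) : Om n K.factorial K) i = c then 1 else 0) ≤
          (∑ coin : Fin K → Bool,
            if coin (p w w' j i) = true ∧ (i ∉ bd w ∧ F w i = c) then 1 else 0) +
          (∑ coin : Fin K → Bool,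
            if coin (p w w' j i) = false ∧ (i ∉ bd w' ∧ F w' i = c) then 1 else 0) := by
        rw [← Finset.sum_add_distrib]
        refine Finset.sum_le_sum fun coin _ => ?_
        apply ite_or_le
        rintro ⟨hi, hF⟩
        obtain ⟨ha, hb, hc⟩ := hF' _ i hi
        simp only [F'] at hF
        rw [hmu _ _ _ _ _ hc] at hF
        by_cases hh : coin (p w w' j i) = true
        · rw [if_pos hh] at hF
          exact Or.inl ⟨hh, ha, hF⟩
        · rw [if_neg hh] at hF
          exact Or.inr ⟨by simpa using hh, hb, hF⟩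
      calc _ ≤ 2 * _ := Nat.mul_le_mul_left 2 hb
        _ = _ := by
          rw [mul_add, half_le, half_le, mul_add]
    have hC := h5 i c
    set C := (Finset.univ.filter fun ω => i ∉ bd ω ∧ F ω i = c).card with hCdef
    set S := (∑ w, ∑ w', ∑ j, ∑ coin : Fin K → Bool,
          if i ∉ bd' ((w, w', j, coin) : Om n K.factorial K) ∧
            F' ((w, w', j, coin) : Om n K.factorial K) i = c then 1 else 0) with hS
    have hsum : 2 * S ≤ 2 * (C * n * (K.factorial * 2 ^ K)) := by
      have e1 := s1 (n := n) (L := K.factorial) (K := K) (fun w => i ∉ bd w ∧ F w i = c)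
      have e2 := s2 (n := n) (L := K.factorial) (K := K) (fun w => i ∉ bd w ∧ F w i = c)
      rw [← hCdef] at e1 e2
      calc 2 * S ≤ ∑ w : Fin n, ∑ w' : Fin n, ∑ _j : Fin K.factorial,
            2 ^ K * ((if i ∉ bd w ∧ F w i = c then 1 else 0) +
            (if i ∉ bd w' ∧ F w' i = c then 1 else 0)) := by
            rw [hS]
            simp only [Finset.mul_sum]
            refine Finset.sum_le_sum fun w _ => Finset.sum_le_sum fun w' _ =>
              Finset.sum_le_sum fun j _ => ?_
            have := hstep w w' j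
            rw [Finset.mul_sum] at this
            exact this
        _ = (∑ w : Fin n, ∑ _w' : Fin n, ∑ _j : Fin K.factorial, ∑ _coin : Fin K → Bool,
              if i ∉ bd w ∧ F w i = c then 1 else 0) +
            (∑ _w : Fin n, ∑ w' : Fin n, ∑ _j : Fin K.factorial, ∑ _coin : Fin K → Bool,
              if i ∉ bd w' ∧ F w' i = c then 1 else 0) := by
            simp only [← Finset.sum_add_distrib]
            refine Finset.sum_congr rfl fun w _ => Finset.sum_congr rfl fun w' _ =>
              Finset.sum_congr rfl fun j _ => ?_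
            simp only [Finset.sum_const, Finset.card_univ, Fintype.card_fun,
              Fintype.card_fin, Fintype.card_bool, smul_eq_mul]
        _ = _ := by
            rw [e1, e2]
            ring
    have hS2 : S ≤ C * n * (K.factorial * 2 ^ K) := by omega
    calc N * S ≤ N * (C * n * (K.factorial * 2 ^ K)) := Nat.mul_le_mul_left _ hS2
      _ = (N * C) * (n * (K.factorial * 2 ^ K)) := by ring
      _ ≤ ((Finset.univ.filter fun j => τ j i = c).card * n) *
          (n * (K.factorial * 2 ^ K)) := Nat.mul_le_mul_right _ hC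
      _ = _ := by ring
  · intro A s m hs hsg hsK hm
    have hmm := hm0 A m hm
    set x := s * (g : ℝ) with hx
    have hx0 : 0 ≤ x := by positivity
    set s' := s / 2 * (1 + x / 4) with hs'
    have hs'0 : 0 ≤ s' := by positivity
    have hs'g : s' * g = x / 2 * (1 + x / 4) := by
      rw [hs', hx]
      ring
    have hq := quad hx0 hsg
    have hy0 : 0 ≤ s * (K : ℝ) := by positivity
    have hkey : 2 * ((1 + s' * g) * (s' * K)) ≤ (1 + x) * (s * K) := by
      rw [hs'g]
      calc 2 * ((1 + x / 2 * (1 + x / 4)) * (s' * K))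
          = ((1 + x / 4) * (1 + x / 2 * (1 + x / 4))) * (s * K) := by
            rw [hs']
            ring
        _ ≤ _ := mul_le_mul_of_nonneg_right hq hy0
    have hih := h6 A s' m hs'0 (by
        rw [hs'g]
        nlinarith) (by
        rw [pow_succ] at hsK
        linarith) hm
    have hre : ∑ x, Real.exp (s * ch (F' (e.symm x)) (bd' (e.symm x)) A) =
        ∑ y : Om n K.factorial K, Real.exp (s * ch (F' y) (bd' y) A) :=
      Equiv.sum_comp e.symm (fun y => Real.exp (s * ch (F' y) (bd' y) A))
    rw [hre, Fintype.sum_prod_type]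
    simp only [Fintype.sum_prod_type]
    have hone : ∀ w w' j, ∑ coin : Fin K → Bool,
        Real.exp (s * ch (F' ((w, w', j, coin) : Om n K.factorial K))
          (bd' ((w, w', j, coin) : Om n K.factorial K)) A) ≤
        2 ^ K * (Real.exp (s' * ch (F w) (bd w) A) * Real.exp (s' * ch (F w') (bd w') A)) := by
      intro w w' j
      refine (merge_mom g (F w) (F w') (bd w) (bd w') (bd0 w w' j) (p w w' j)
        (mu w w' j) (hp w w' j) (hmu w w' j) A s hs).trans ?_
      rw [← Real.exp_add, ← mul_add]
    have hsum : ∑ w, ∑ w', ∑ j, ∑ coin : Fin K → Bool,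
        Real.exp (s * ch (F' ((w, w', j, coin) : Om n K.factorial K))
          (bd' ((w, w', j, coin) : Om n K.factorial K)) A) ≤
        K.factorial * 2 ^ K * ((∑ w, Real.exp (s' * ch (F w) (bd w) A)) *
          (∑ w', Real.exp (s' * ch (F w') (bd w') A))) := by
      rw [Finset.sum_mul_sum, Finset.mul_sum]
      apply Finset.sum_le_sum
      intro w _
      rw [Finset.mul_sum]
      apply Finset.sum_le_sum
      intro w' _
      calc ∑ j, ∑ coin : Fin K → Bool,
        Real.exp (s * ch (F' ((w, w', j, coin) : Om n K.factorial K))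
          (bd' ((w, w', j, coin) : Om n K.factorial K)) A)
          ≤ ∑ _j : Fin K.factorial, 2 ^ K * (Real.exp (s' * ch (F w) (bd w) A) *
            Real.exp (s' * ch (F w') (bd w') A)) := Finset.sum_le_sum fun j _ => hone w w' j
        _ = _ := by
          rw [Finset.sum_const, Finset.card_univ, Fintype.card_fin, nsmul_eq_mul]
          ring
    refine hsum.trans ?_
    have hnn : 0 ≤ ∑ w, Real.exp (s' * ch (F w) (bd w) A) :=
      Finset.sum_nonneg fun _ _ => (Real.exp_pos _).le
    set Z := Real.exp (s' * m * ((1 + s' * g) * (1 + 2 * ((1 + s' * g) * (s' * K)) / 2 ^ k)))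
      with hZ
    have hprod : (∑ w, Real.exp (s' * ch (F w) (bd w) A)) *
        (∑ w', Real.exp (s' * ch (F w') (bd w') A)) ≤ (n * Z) * (n * Z) :=
      mul_le_mul hih hih hnn (by positivity)
    calc (K.factorial : ℝ) * 2 ^ K * ((∑ w, Real.exp (s' * ch (F w) (bd w) A)) *
          (∑ w', Real.exp (s' * ch (F w') (bd w') A)))
        ≤ K.factorial * 2 ^ K * ((n * Z) * (n * Z)) := by gcongr
      _ = ((n * n * (K.factorial * 2 ^ K) : ℕ) : ℝ) * (Z * Z) := by
          push_cast
          ring
      _ ≤ _ := by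
          apply mul_le_mul_of_nonneg_left _ (Nat.cast_nonneg _)
          rw [hZ, ← Real.exp_add, Real.exp_le_exp]
          have h2k : (0 : ℝ) < 2 ^ k := by positivity
          have e1 : s' * m * ((1 + s' * g) * (1 + 2 * ((1 + s' * g) * (s' * K)) / 2 ^ k)) +
              s' * m * ((1 + s' * g) * (1 + 2 * ((1 + s' * g) * (s' * K)) / 2 ^ k)) =
              (s * m) * (((1 + x / 4) * (1 + x / 2 * (1 + x / 4))) *
                (1 + 2 * ((1 + s' * g) * (s' * K)) / 2 ^ k)) := by
            rw [hs'g, hs']
            ring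
          rw [e1]
          apply mul_le_mul_of_nonneg_left _ (by positivity)
          have e2 : 2 * ((1 + x) * (s * K)) / 2 ^ (k + 1) = (1 + x) * (s * K) / 2 ^ k := by
            rw [pow_succ]
            field_simp
          rw [e2]
          have e3 : 2 * ((1 + s' * g) * (s' * K)) / 2 ^ k ≤ (1 + x) * (s * K) / 2 ^ k := by
            gcongr
          have e4 : 0 ≤ 2 * ((1 + s' * g) * (s' * K)) / 2 ^ k := by positivity
          exact mul_le_mul hq (by linarith) (by linarith) (by linarith)


theorem sampler2_aux {K N : ℕ} (hN : 0 < N) (g : ℕ) (hg : 1 ≤ g) (τ : Fin N → Equiv.Perm (Fin K))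
    (k : ℕ) : Sm g τ k (num2 N K k) := by
  induction k with
  | zero => exact stepZ hN g τ
  | succ k ih => exact stepS hN g hg τ k ih

/-- The sampler with uniform dirty rows. -/
theorem sampler2 {K N : ℕ} (hN : 0 < N) (g : ℕ) (hg : 1 ≤ g) (τ : Fin N → Equiv.Perm (Fin K))
    (k : ℕ) :
    ∃ (F : Fin (num2 N K k) → Equiv.Perm (Fin K)) (bd : Fin (num2 N K k) → Finset (Fin K)),
      (∀ ω i, i ∉ bd ω → ∃ j, F ω i = τ j i) ∧
      (∀ ω, g * (bd ω).card + 2 * K ≤ 2 ^ k * (2 * K)) ∧
      (∀ i, g * (Finset.univ.filter fun ω => i ∈ bd ω).card ≤ 2 ^ (k + 1) * num2 N K k) ∧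
      (∀ c, g * (Finset.univ.filter fun ω => (F ω).symm c ∈ bd ω).card ≤
        (k + 1) * 2 ^ (k + 2) * num2 N K k) ∧
      (∀ i c, N * (Finset.univ.filter fun ω => i ∉ bd ω ∧ F ω i = c).card ≤
        (Finset.univ.filter fun j => τ j i = c).card * num2 N K k) ∧
      ∀ (A : Finset (Fin K × Fin K)) (s m : ℝ), 0 ≤ s → 2 * (s * g) ≤ 1 →
        2 * ((1 + s * g) * (s * K)) ≤ 2 ^ k → (∑ j, (hits (τ j) A : ℝ)) ≤ N * m →
        ∑ ω, Real.exp (s * ch (F ω) (bd ω) A) ≤ num2 N K k *
          Real.exp (s * m * ((1 + s * g) * (1 + 2 * ((1 + s * g) * (s * K)) / 2 ^ k))) := by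
  obtain ⟨F, bd, h1, h2, h3, h4, h5, h6⟩ := sampler2_aux hN g hg τ k
  exact ⟨F, bd, h1, h2, fun i => by have := h3 i; omega, h4, h5, h6⟩

end Pool.Agent.PK
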