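import Pool.Agent.PK.HH

/-!
# Packing (PK): the schedule, definitions

Every vertex `v` opens at the real time `l v` and is processed at a uniformly random time of the window
`[l v, l v + J]`; the time is divided into slots `[s, s + 1]`.
-/

set_option autoImplicit false

open Finset

namespace Pool.Agent.PK

noncomputable section

/-- Clip to the unit interval. -/
def cl (t : ℝ) : ℝ := max 0 (min t 1)

/-- The part of the slot `s` after the opening time `l`. -/
def bo (l : ℝ) (s : ℕ) : ℝ := cl ((s : ℝ) + 1 - l)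

/-- The part of the slot `s` before the closing time `l + J`. -/
def en (J : ℕ) (l : ℝ) (s : ℕ) : ℝ := 1 - cl ((s : ℝ) + 1 - l - J)

/-- The probability of the slot `s`. -/
def fr (J : ℕ) (l : ℝ) (s : ℕ) : ℝ := bo l s * en J l s / J

/-- The cost of the slot `s` for a vertex with the opening time `l` and the potential `a`, caused by a
neighbour with the opening time `l'` and the potential `a'`. -/
def pc (J : ℕ) (e th : ℝ) (l a l' a' : ℝ) (s : ℕ) : ℝ :=
  fr J l' s * (2 * (1 - bo l s) + bo l s * en J l s * (hh (max a e / max a' e) + th))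

/-- The slot of the sample `a`. -/
def tt (J M : ℕ) (l : ℝ) (a : Fin M) : ℕ := ⌊l + J * (a : ℝ) / M⌋₊

/-- The additional decrease of the potential in the slot `s`. -/
def ex (J : ℕ) (l : ℝ) (s : ℕ) : ℝ := bo l (s + 1) - cl ((s : ℝ) - l - J)

variable {V : Type} [Fintype V] [DecidableEq V] (G : SimpleGraph V) [DecidableRel G.Adj]

/-- The potentials. -/
def pot (K J : ℕ) (x : V → ℝ) (e th kap : ℝ) (l : V → ℝ) : ℕ → V → ℝ
  | 0 => fun v => 1 - 2 * x v - kap
  | s + 1 => fun v => pot K J x e th kap l s v -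
      1 / K * (∑ u ∈ G.neighborFinset v, pc J e th (l v) (pot K J x e th kap l s v) (l u)
        (pot K J x e th kap l s u) s) - kap / J * ex J (l v) s

/-- The output of the schedule: the vertex `v` opens at the slot `b v` and is processed in the slot
`t v`; `p v s` is its potential at the beginning of the slot `s`. -/
structure Sched (K : ℕ) (x : V → ℝ) (eps th kap del : ℝ) (J : ℕ) (b t : V → ℕ) (p : V → ℕ → ℝ) :
    Prop where
  ge : ∀ v s, eps ≤ p v s
  le : ∀ v s, p v s ≤ 1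
  anti : ∀ v s, p v (s + 1) ≤ p v s
  lo : ∀ v, b v ≤ t v
  hi : ∀ v, t v ≤ b v + J
  base : ∀ v, 2 * (((G.neighborFinset v).filter fun u => t u < b v).card : ℝ) ≤
    (1 - 2 * x v - p v (b v)) * K
  step : ∀ v s, b v ≤ s → s < b v + J → p v (s + 1) +
    1 / K * (∑ u ∈ (G.neighborFinset v).filter (fun u => t u = s), (hh (p v s / p u s) + th)) +
    kap ≤ p v s
  few : ∀ v s, b v ≤ s → s ≤ b v + J →
    (((G.neighborFinset v).filter fun u => t u = s).card : ℝ) ≤ del * K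

/-- The sparsity condition of the residual graph. -/
def Spa (K : ℕ) (x : V → ℝ) (e : ℝ) : Prop := ∀ A : Finset V,
  2 * K * (∑ v ∈ A, x v) + ∑ v ∈ A, ((G.neighborFinset v ∩ A).card : ℝ) ≤ (1 - e) * K * A.card

/-- The statement about the fluid system. -/
def FluidS : Prop := ∀ (e : ℝ) (K J : ℕ), 0 < e → e < 1 → 1 ≤ K → 1 ≤ J →
  ∀ (V : Type) [Fintype V] [DecidableEq V] (G : SimpleGraph V) [DecidableRel G.Adj] (x : V → ℝ),
  (∀ v, 0 ≤ x v) → Spa G K x e → ∃ (l : V → ℝ) (T : ℕ), (∀ v, 0 ≤ l v ∧ l v + J + 1 ≤ T) ∧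
    ∀ v, ∀ s ≤ T, e / 4 ≤ pot G K J x (e / 4) (e / 4) (e / 16) l s v

/-- The local lemma for sums over neighbourhoods. -/
def LocS : Prop := ∀ (C0 t : ℝ) (m : ℕ), 1 ≤ C0 → 0 < t → ∃ K0 : ℕ, ∀ K : ℕ, K0 ≤ K →
  ∀ (V : Type) [Fintype V] [DecidableEq V] (G : SimpleGraph V) [DecidableRel G.Adj],
  (∀ v, ((G.neighborFinset v).card : ℝ) ≤ C0 * K) → ∀ (M : ℕ), 0 < M →
  ∀ (g : V → Fin m → V → Fin M → ℝ), (∀ v i u a, 0 ≤ g v i u a ∧ g v i u a ≤ 2) →
  ∃ ω : V → Fin M, ∀ v i, ∑ u ∈ G.neighborFinset v, g v i u (ω u) ≤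
    ∑ u ∈ G.neighborFinset v, (∑ a, g v i u a) / M + t * K

/-- The statement about the schedule. -/
def SchedS : Prop := ∀ (e C0 : ℝ) (J : ℕ), 0 < e → e < 1 → 1 ≤ C0 → 1 ≤ J → ∃ K0 : ℕ,
  ∀ K : ℕ, K0 ≤ K → ∀ (V : Type) [Fintype V] [DecidableEq V] (G : SimpleGraph V)
  [DecidableRel G.Adj] (x : V → ℝ), (∀ v, 0 ≤ x v) →
  (∀ v, ((G.neighborFinset v).card : ℝ) ≤ C0 * K) → Spa G K x e →
  ∃ (b t : V → ℕ) (p : V → ℕ → ℝ),
    Sched G K x (e / 4) (e / 4) (e / (32 * J)) (2 * C0 / J) J b t p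

end

end Pool.Agent.PK
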