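import Pool.Agent.PK.Choice
import Pool.Agent.PK.Rep
import Pool.Agent.PK.Hits
import Pool.Agent.PK.Loop

/-!
# Packing (PK): one slot
-/

set_option autoImplicit false

namespace Pool.Agent.PK

open Finset
open Pool.Agent.H24.LP Pool.Agent.H24.LP.Nib

/-- One slot: the outcome of `Ω` with the line sums `ρ δ K` and the error `κ`. -/
theorem slot_step (ε : ℝ) (hε : 0 < ε) (hε1 : ε ≤ 1) (D : ℝ) (hD : 0 < D) (C : ℝ) (hC : 0 < C)
    (ρ : ℝ) (hρ : 0 < ρ) : ∃ δ1 : ℝ, 0 < δ1 ∧ ∀ δ : ℝ, 0 < δ → δ ≤ δ1 →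
    ∃ κ0 : ℝ, 0 < κ0 ∧ ∀ κ : ℝ, 0 < κ → κ ≤ κ0 → ∃ K0 : ℕ, ∀ K : ℕ, K0 ≤ K → ∀ n : ℕ, 0 < n →
    ∀ ν : ℝ, 0 ≤ ν → ν ≤ κ → ∀ (V : Type) [Fintype V] [DecidableEq V]
      (Ω : Slt V K n ε δ D κ ν C), Ω.Outcome (ρ * δ) κ := by
  obtain ⟨m, hm⟩ := exists_nat_gt (4 / ρ)
  have hm0 : (0 : ℝ) < m := lt_trans (by positivity) hm
  have hm1 : 0 < m := by exact_mod_cast hm0
  have hmρ : 1 / (m : ℝ) ≤ ρ / 4 := by
    rw [div_le_iff₀ hm0]
    rw [div_lt_iff₀ hρ] at hm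
    linarith
  set A : ℝ := ε / (8 * m) with hA
  have hA0 : 0 < A := by positivity
  refine ⟨min (min 1 (ρ * ε / 16)) (A / (1 + (C + 1) * (8 / ε))), by positivity, ?_⟩
  intro δ hδ hδ1
  have hd1 : δ ≤ 1 := hδ1.trans ((min_le_left _ _).trans (min_le_left _ _))
  have hd2 : δ ≤ ρ * ε / 16 := hδ1.trans ((min_le_left _ _).trans (min_le_right _ _))
  have hd3 : δ ≤ A / (1 + (C + 1) * (8 / ε)) := hδ1.trans (min_le_right _ _)
  have hd3' : δ + (C + 1) * (8 * δ / ε) ≤ A := by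
    rw [le_div_iff₀ (by positivity)] at hd3
    refine le_trans (le_of_eq ?_) hd3
    ring
  have hd2' : 4 * δ / ε ≤ ρ / 4 := by
    rw [div_le_iff₀ hε]
    linarith
  refine ⟨min (min (1 / 4) (ρ / 4 * min 1 δ)) (min (A / (C + 3)) (ε * A / (8 * m))),
    by positivity, ?_⟩
  intro κ hκ hκ0
  have hk1 : κ ≤ 1 / 4 := hκ0.trans ((min_le_left _ _).trans (min_le_left _ _))
  have hk2 : κ ≤ ρ / 4 * min 1 δ := hκ0.trans ((min_le_left _ _).trans (min_le_right _ _))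
  have hk3 : κ ≤ A / (C + 3) := hκ0.trans ((min_le_right _ _).trans (min_le_left _ _))
  have hk4 : κ ≤ ε * A / (8 * m) := hκ0.trans ((min_le_right _ _).trans (min_le_right _ _))
  have hk2a : κ ≤ ρ / 4 := hk2.trans (by
    have : min 1 δ ≤ 1 := min_le_left _ _
    nlinarith)
  have hk2b : κ ≤ ρ / 4 * δ := hk2.trans (by
    have : min 1 δ ≤ δ := min_le_right _ _
    nlinarith)
  have hk3' : κ * (C + 3) ≤ A := by rwa [le_div_iff₀ (by linarith)] at hk3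
  have hk4' : 4 * κ * m / ε ≤ A := by
    rw [div_le_iff₀ hε]
    rw [le_div_iff₀ (by positivity)] at hk4
    nlinarith
  obtain ⟨K0, hK0⟩ := choice (ε := ε) (δ := δ) (D := D) (κ := κ) (C := C) (t := κ) hε hε1 hδ hd1 hD
    hκ hk1 hC hκ
  refine ⟨max K0 1, ?_⟩
  intro K hK n hn ν hν0 hνκ V _ _ Ω
  have hKK0 : K0 ≤ K := (le_max_left _ _).trans hK
  have hK1 : 0 < K := (le_max_right _ _).trans hK
  obtain ⟨x, hx⟩ := hK0 K hKK0 V n m ν Ω hn hm1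
  -- the numerical conditions of the repair
  have hA8 : ε / (4 * m) = 2 * A := by rw [hA]; field_simp; norm_num
  have hA4 : ε / (2 * m) = 4 * A := by rw [hA]; field_simp; norm_num
  have n1 : 2 * κ + (C + 1) * (κ + 8 * δ / ε) + δ ≤ ε / (4 * m) := by
    rw [hA8]; nlinarith
  have n2 : δ + 4 * κ * m / ε < ε / (2 * m) := by
    rw [hA4]
    have : δ ≤ A := by
      have : 0 ≤ (C + 1) * (8 * δ / ε) := by positivity
      linarith
    linarith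
  have n3 : κ + κ / m ≤ ε / (2 * m) := by
    rw [hA4]
    have h1 : κ / m ≤ κ := by
      rw [div_le_iff₀ hm0]
      have : (1 : ℝ) ≤ m := by exact_mod_cast hm1
      nlinarith
    nlinarith
  -- the same slot with the error `κ`
  let Ω' : Slt V K n ε δ D κ κ C :=
    { G := Ω.G, σ := Ω.σ, hσ := Ω.hσ, Q := Ω.Q, π := Ω.π, W := Ω.W, U := Ω.U, idx := Ω.idx,
      hidx := Ω.hidx, hQW := Ω.hQW, hQU := Ω.hQU, hWU := Ω.hWU, hval := Ω.hval, a := Ω.a,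
      p := Ω.p, c := Ω.c, R := Ω.R, hst := fun w hw => (Ω.hst w hw).mono hνκ, hp := Ω.hp,
      hc := Ω.hc, hdeg := Ω.hdeg, hD := Ω.hD, q1 := Ω.q1, q2 := Ω.q2, hlaw := Ω.hlaw, F := Ω.F,
      bd := Ω.bd, hsamp := Ω.hsamp }
  have hx' : Ω'.Gd κ x := hx
  obtain ⟨π', hπ1, hπ2, hπ3⟩ := repair (ε := ε) (δ := δ) (D := D) (κ := κ) (ν := κ) (C := C)
    (t := κ) hK1 hm1 hε hδ.le hκ.le hκ hC.le hκ.le n1 n2 n3 Ω' x hx'
  refine ⟨π', hπ1, hπ2, ?_⟩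
  intro v hv
  obtain ⟨M, hM0, hM1, hM2, hM3, hM4, hM5, hM6⟩ := after Ω x hx π' hπ1 hπ3 v hv
  have hmm : (1 / (m : ℝ) + κ + 4 * δ / ε) * δ + κ ≤ ρ * δ := by
    have h1 : 1 / (m : ℝ) + κ + 4 * δ / ε ≤ ρ / 4 + ρ / 4 + ρ / 4 := by linarith
    have h2 := mul_le_mul_of_nonneg_right h1 hδ.le
    nlinarith
  have hKr : (0 : ℝ) ≤ K := Nat.cast_nonneg _
  exact ⟨M, hM0, hM1, fun i => (hM2 i).trans (mul_le_mul_of_nonneg_right hmm hKr),
    fun j => (hM3 j).trans (mul_le_mul_of_nonneg_right hmm hKr), hM4, hM5, hM6⟩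

end Pool.Agent.PK
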